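import Mathlib

/-!
Bar `k`-visibility graphs and the genus of a graph (via rotation systems).
-/

namespace Pool.Agent.H20.BK

/-! ### Bars -/

/-- `n` pairwise disjoint horizontal closed segments (bars) in the plane; bar `i` is
`[l i, r i] × {y i}`. -/
structure Bars (n : ℕ) where
  /-- left endpoint -/
  l : Fin n → ℝ
  /-- right endpoint -/
  r : Fin n → ℝ
  /-- height -/
  y : Fin n → ℝ
  lt : ∀ i, l i < r i
  disj : ∀ i j, i ≠ j → y i = y j → r i < l j ∨ r j < l i

/-- The vertical line at abscissa `x` meets bar `i`. -/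
def Bars.meets {n : ℕ} (B : Bars n) (x : ℝ) (i : Fin n) : Prop := B.l i ≤ x ∧ x ≤ B.r i

/-- Some vertical segment with one endpoint on bar `i` and the other on bar `j` meets at most `k`
bars other than `i` and `j`. -/
def Bars.sees {n : ℕ} (B : Bars n) (k : ℕ) (i j : Fin n) : Prop :=
  ∃ x : ℝ, B.meets x i ∧ B.meets x j ∧
    Nat.card {m : Fin n // m ≠ i ∧ m ≠ j ∧ B.meets x m ∧
      min (B.y i) (B.y j) ≤ B.y m ∧ B.y m ≤ max (B.y i) (B.y j)} ≤ k

/-- The bar `k`-visibility graph of an arrangement of bars. -/
def Bars.graph {n : ℕ} (B : Bars n) (k : ℕ) : SimpleGraph (Fin n) where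
  Adj i j := i ≠ j ∧ (B.sees k i j ∨ B.sees k j i)
  symm := ⟨fun _ _ h => ⟨h.1.symm, h.2.symm⟩⟩
  loopless := ⟨fun _ h => h.1 rfl⟩

/-! ### Genus -/

/-- `σ` is a rotation system of the graph `H`: at every vertex `v` it permutes cyclically the darts
(directed edges) leaving `v`. -/
structure IsRotation {V : Type*} (H : SimpleGraph V) (σ : Equiv.Perm H.Dart) : Prop where
  fst_eq : ∀ d, (σ d).fst = d.fst
  sameCycle : ∀ d e : H.Dart, d.fst = e.fst → σ.SameCycle d e

/-- Reversal of darts. -/
def symmPerm {V : Type*} (H : SimpleGraph V) : Equiv.Perm H.Dart where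
  toFun := SimpleGraph.Dart.symm
  invFun := SimpleGraph.Dart.symm
  left_inv := fun d => d.symm_symm
  right_inv := fun d => d.symm_symm

/-- Number of orbits of a permutation. -/
noncomputable def numOrbits {D : Type*} (π : Equiv.Perm D) : ℕ :=
  Nat.card (Quotient (Equiv.Perm.SameCycle.setoid π))

/-- Number of faces of a rotation system: a face is an orbit of `d ↦ σ (reverse of d)`. -/
noncomputable def numFaces {V : Type*} {H : SimpleGraph V} (σ : Equiv.Perm H.Dart) : ℕ :=
  numOrbits (σ * symmPerm H)

/-- The finite graph `G` embeds in the closed orientable surface of genus `g`: some connected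
graph `H ⊇ G` on the same vertices has a rotation system whose surface has genus at most `g`, i.e.
`V - E + F ≥ 2 - 2 g` (if `H` has no edge it is a single vertex, and there is one face). -/
def GenusLE {V : Type*} (G : SimpleGraph V) (g : ℕ) : Prop :=
  ∃ H : SimpleGraph V, G ≤ H ∧ H.Connected ∧ ∃ σ : Equiv.Perm H.Dart, IsRotation H σ ∧
    (2 : ℤ) - 2 * (g : ℤ) ≤
      (Nat.card V : ℤ) - (Nat.card H.edgeSet : ℤ) + max 1 (numFaces σ : ℤ)

/-- The genus of a graph. -/
noncomputable def genus {V : Type*} (G : SimpleGraph V) : ℕ := sInf {g | GenusLE G g}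

/-- The possible genera of bar `k`-visibility graphs with `n` vertices. -/
def genera (k n : ℕ) : Set ℕ := {g | ∃ B : Bars n, g = genus (B.graph k)}

end Pool.Agent.H20.BK
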