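import Mathlib
import Pool.Agent.H20.BK.Defs

/-!
Cycle number of a set of arcs that is a partial injection.
-/

namespace Pool.Agent.H20.BK

variable {D : Type*}

/-- Number of classes of the equivalence relation generated by a finite set of arcs. -/
noncomputable def ncls (Y : Finset (D × D)) : ℕ := Nat.card (Quot fun a b : D => (a, b) ∈ Y)

/-- Number of cycles of a partial injection given by its set of arcs
(`classes + arcs - points`). -/
noncomputable def cyc (Y : Finset (D × D)) : ℤ := (ncls Y : ℤ) + Y.card - Nat.card D

/-- A set of arcs is a partial injection. -/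
def PInj (Y : Finset (D × D)) : Prop := ∀ p ∈ Y, ∀ q ∈ Y, (p.1 = q.1 ↔ p.2 = q.2)

end Pool.Agent.H20.BK
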