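import Mathlib
import Pool.Agent.H20.BK.CycDefs

/-!
Combinatorial model: a sequence of finite subsets (lists) of a linearly ordered set of bars.
`a < b` means that bar `a` is above bar `b`.
-/

namespace Pool.Agent.H20.BK

open Finset

section Basic

variable {V : Type*} [LinearOrder V]

/-- Number of elements of `S` strictly between `a` and `b`. -/
def btw (S : Finset V) (a b : V) : ℕ := (S.filter fun c => a < c ∧ c < b).card

/-- `a` is above `b`, both are in `S`, and fewer than `K` elements of `S` lie in between. -/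
def Near (K : ℕ) (S : Finset V) (a b : V) : Prop := a ∈ S ∧ b ∈ S ∧ a < b ∧ btw S a b < K

instance (K : ℕ) (S : Finset V) (a b : V) : Decidable (Near K S a b) := by
  unfold Near; infer_instance

/-- A sequence of states `S 0 = ∅, S 1, …, S T = ∅` in which every element is present during one
interval of times and every step only inserts or only deletes elements. -/
structure IsSeq (S : ℕ → Finset V) (T : ℕ) : Prop where
  zero : S 0 = ∅
  last : S T = ∅
  conv : ∀ v i j k, i ≤ j → j ≤ k → k ≤ T → v ∈ S i → v ∈ S k → v ∈ S j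
  mono : ∀ τ, τ < T → S τ ⊆ S (τ + 1) ∨ S (τ + 1) ⊆ S τ
  all : ∀ v, ∃ τ, τ ≤ T ∧ v ∈ S τ

/-- The graph of all pairs that are near at some time. -/
def seqGraph (K : ℕ) (S : ℕ → Finset V) (T : ℕ) : SimpleGraph V where
  Adj a b := (∃ τ, τ ≤ T ∧ Near K (S τ) a b) ∨ (∃ τ, τ ≤ T ∧ Near K (S τ) b a)
  symm := ⟨fun _ _ h => h.symm⟩
  loopless := ⟨fun a h => by
    rcases h with ⟨_, _, h⟩ | ⟨_, _, h⟩ <;> exact lt_irrefl a h.2.2.1⟩

/-- The larger of the two states of step `τ`. -/
def big (S : ℕ → Finset V) (τ : ℕ) : Finset V := S τ ∪ S (τ + 1)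

/-- The smaller of the two states of step `τ`. -/
def small (S : ℕ → Finset V) (τ : ℕ) : Finset V := S τ ∩ S (τ + 1)

/-- The elements inserted or deleted in step `τ`. -/
def chg (S : ℕ → Finset V) (τ : ℕ) : Finset V := big S τ \ small S τ

/-- The number of elements of `S` in the interval spanned by `W` is at most `R`. -/
def HullLE (S W : Finset V) (R : ℕ) : Prop :=
  ∀ a ∈ W, ∀ b ∈ W, (S.filter fun c => a ≤ c ∧ c ≤ b).card ≤ R

/-- Pairs `(a, b)` used for the faces of step `τ`: both stay, `a` is above and `b` below all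
changing elements, everything changing is near to `a` and to `b`, and the pair is near in the
small state but not in the big one. -/
def inst [Fintype V] (K : ℕ) (S : ℕ → Finset V) (τ : ℕ) : Finset (V × V) :=
  univ.filter fun p => p.1 ∈ small S τ ∧ p.2 ∈ small S τ ∧
    (∀ u ∈ chg S τ, p.1 < u ∧ u < p.2) ∧
    (∀ u ∈ chg S τ, btw (big S τ) p.1 u < K ∧ btw (big S τ) u p.2 < K) ∧
    K ≤ btw (big S τ) p.1 p.2 ∧ btw (big S τ) p.1 p.2 < K + (chg S τ).card

/-- Pairs near in the big state and not near in the small one. -/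
def e1 [Fintype V] (K : ℕ) (S : ℕ → Finset V) (τ : ℕ) : Finset (V × V) :=
  univ.filter fun p => Near K (big S τ) p.1 p.2 ∧ ¬ Near K (small S τ) p.1 p.2

/-- Pairs near in the small state and not near in the big one. -/
def e2 [Fintype V] (K : ℕ) (S : ℕ → Finset V) (τ : ℕ) : Finset (V × V) :=
  univ.filter fun p => Near K (small S τ) p.1 p.2 ∧ ¬ Near K (big S τ) p.1 p.2

/-- `x` takes part in the faces of step `τ` without changing. -/
def Part [Fintype V] (K : ℕ) (S : ℕ → Finset V) (τ : ℕ) (x : V) : Prop :=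
  ∃ p ∈ inst K S τ, p.1 = x ∨ p.2 = x

instance [Fintype V] (K : ℕ) (S : ℕ → Finset V) (τ : ℕ) (x : V) : Decidable (Part K S τ x) := by
  unfold Part; infer_instance

end Basic

section Darts

variable {V : Type*} [LinearOrder V]

/-- The pair `(a, b)` changes its status (near / not near) in step `τ`. -/
def Ch (K : ℕ) (S : ℕ → Finset V) (τ : ℕ) (a b : V) : Prop :=
  ¬ (Near K (S τ) a b ↔ Near K (S (τ + 1)) a b)

instance (K : ℕ) (S : ℕ → Finset V) (τ : ℕ) (a b : V) : Decidable (Ch K S τ a b) := by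
  unfold Ch; infer_instance

/-- Darts: status changes. -/
@[ext]
structure Dt (K T : ℕ) (S : ℕ → Finset V) where
  /-- the step -/
  τ : Fin T
  /-- the upper element -/
  a : V
  /-- the lower element -/
  b : V
  ch : Ch K S τ a b

instance {K T : ℕ} {S : ℕ → Finset V} : DecidableEq (Dt K T S) := fun d e =>
  decidable_of_iff (d.τ = e.τ ∧ d.a = e.a ∧ d.b = e.b) (by rw [Dt.ext_iff])

/-- Darts as a subtype. -/
def Dt.equiv (K T : ℕ) (S : ℕ → Finset V) :
    {p : Fin T × V × V // Ch K S p.1 p.2.1 p.2.2} ≃ Dt K T S where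
  toFun p := ⟨p.1.1, p.1.2.1, p.1.2.2, p.2⟩
  invFun d := ⟨(d.τ, d.a, d.b), d.ch⟩
  left_inv _ := rfl
  right_inv _ := rfl

instance [Fintype V] {K T : ℕ} {S : ℕ → Finset V} : Fintype (Dt K T S) :=
  Fintype.ofEquiv _ (Dt.equiv K T S)

/-- The pair becomes near in this step. -/
def IsStart {K T : ℕ} {S : ℕ → Finset V} (d : Dt K T S) : Prop :=
  Near K (S (d.τ + 1)) d.a d.b

instance {K T : ℕ} {S : ℕ → Finset V} (d : Dt K T S) : Decidable (IsStart d) := by
  unfold IsStart; infer_instance

/-- Source of a dart: the lower endpoint of a start, the upper endpoint of an end. -/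
def src {K T : ℕ} {S : ℕ → Finset V} (d : Dt K T S) : V :=
  if IsStart d then d.b else d.a

/-- `α` pairs every start with an end of the same pair. -/
structure IsAlpha {K T : ℕ} {S : ℕ → Finset V} (α : Equiv.Perm (Dt K T S)) : Prop where
  invol : ∀ d, α (α d) = d
  pair_a : ∀ d, (α d).a = d.a
  pair_b : ∀ d, (α d).b = d.b
  start : ∀ d, IsStart (α d) ↔ ¬ IsStart d

theorem near_small_of_inst [Fintype V] {K : ℕ} {S : ℕ → Finset V} {τ : ℕ} {p : V × V}
    (hp : p ∈ inst K S τ) : Near K (small S τ) p.1 p.2 := by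
  simp only [inst, mem_filter, mem_univ, true_and] at hp
  obtain ⟨h1, h2, h3, h4, h5, h6⟩ := hp
  have hne : (chg S τ).Nonempty := by
    rw [← card_pos]; omega
  obtain ⟨u, hu⟩ := hne
  refine ⟨h1, h2, (h3 u hu).1.trans (h3 u hu).2, ?_⟩
  have hsub : small S τ ⊆ big S τ := inter_subset_left.trans subset_union_left
  have : btw (small S τ) p.1 p.2 + (chg S τ).card = btw (big S τ) p.1 p.2 := by
    unfold btw
    have e : (big S τ).filter (fun c => p.1 < c ∧ c < p.2) =
        (small S τ).filter (fun c => p.1 < c ∧ c < p.2) ∪ chg S τ := by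
      ext c
      simp only [mem_filter, mem_union, chg, mem_sdiff]
      constructor
      · rintro ⟨ha, hb⟩
        by_cases hc : c ∈ small S τ
        · exact Or.inl ⟨hc, hb⟩
        · exact Or.inr ⟨ha, hc⟩
      · rintro (⟨ha, hb⟩ | ⟨ha, hb⟩)
        · exact ⟨hsub ha, hb⟩
        · exact ⟨ha, h3 c (by simp only [chg, mem_sdiff]; exact ⟨ha, hb⟩)⟩
    rw [e, card_union_of_disjoint]
    rw [disjoint_left]
    intro c hc hc'
    simp only [chg, mem_sdiff] at hc'
    exact hc'.2 (mem_filter.1 hc).1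
  omega

theorem not_near_big_of_inst [Fintype V] {K : ℕ} {S : ℕ → Finset V} {τ : ℕ} {p : V × V}
    (hp : p ∈ inst K S τ) : ¬ Near K (big S τ) p.1 p.2 := by
  simp only [inst, mem_filter, mem_univ, true_and] at hp
  intro h
  exact absurd h.2.2.2 (not_lt.2 hp.2.2.2.2.1)

theorem near_big_left [Fintype V] {K : ℕ} {S : ℕ → Finset V} {τ : ℕ} {p : V × V}
    (hp : p ∈ inst K S τ) {u : V} (hu : u ∈ chg S τ) : Near K (big S τ) p.1 u := by
  have hsub : small S τ ⊆ big S τ := inter_subset_left.trans subset_union_left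
  simp only [inst, mem_filter, mem_univ, true_and] at hp
  exact ⟨hsub hp.1, (mem_sdiff.1 hu).1, (hp.2.2.1 u hu).1, (hp.2.2.2.1 u hu).1⟩

theorem near_big_right [Fintype V] {K : ℕ} {S : ℕ → Finset V} {τ : ℕ} {p : V × V}
    (hp : p ∈ inst K S τ) {u : V} (hu : u ∈ chg S τ) : Near K (big S τ) u p.2 := by
  have hsub : small S τ ⊆ big S τ := inter_subset_left.trans subset_union_left
  simp only [inst, mem_filter, mem_univ, true_and] at hp
  exact ⟨(mem_sdiff.1 hu).1, hsub hp.2.1, (hp.2.2.1 u hu).2, (hp.2.2.2.1 u hu).2⟩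

theorem big_small_of_subset {S : ℕ → Finset V} {τ : ℕ} (h : S τ ⊆ S (τ + 1)) :
    big S τ = S (τ + 1) ∧ small S τ = S τ :=
  ⟨union_eq_right.2 h, inter_eq_left.2 h⟩

theorem big_small_of_superset {S : ℕ → Finset V} {τ : ℕ} (h : S (τ + 1) ⊆ S τ) :
    big S τ = S τ ∧ small S τ = S (τ + 1) :=
  ⟨union_eq_left.2 h, inter_eq_right.2 h⟩

theorem ch_iff {K : ℕ} {S : ℕ → Finset V} {τ : ℕ} (h : S τ ⊆ S (τ + 1) ∨ S (τ + 1) ⊆ S τ)
    (a b : V) : Ch K S τ a b ↔ ¬ (Near K (big S τ) a b ↔ Near K (small S τ) a b) := by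
  rcases h with h | h
  · rw [(big_small_of_subset h).1, (big_small_of_subset h).2, Ch, not_iff_not]
    exact iff_comm
  · rw [(big_small_of_superset h).1, (big_small_of_superset h).2, Ch]

end Darts

section Tri

variable {V : Type*} [LinearOrder V] [Fintype V]

/-- Enumeration of the changing elements. -/
noncomputable def uu (S : ℕ → Finset V) (τ : ℕ) (l : Fin (chg S τ).card) : V :=
  (chg S τ).orderEmbOfFin rfl l

omit [Fintype V] in
theorem uu_mem (S : ℕ → Finset V) (τ : ℕ) (l : Fin (chg S τ).card) : uu S τ l ∈ chg S τ :=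
  orderEmbOfFin_mem _ _ _

/-- The index of an instance. -/
def lam (K : ℕ) (S : ℕ → Finset V) (τ : ℕ) (p : V × V) (hp : p ∈ inst K S τ) :
    Fin (chg S τ).card :=
  ⟨btw (big S τ) p.1 p.2 - K, by
    simp only [inst, mem_filter, mem_univ, true_and] at hp
    omega⟩

/-- The three pairs of the triangle of `(a, b)` with third vertex `u`, in cyclic order. -/
def triPair (S : ℕ → Finset V) (τ : ℕ) (a b u : V) : Fin 3 → V × V :=
  if S τ ⊆ S (τ + 1) then ![(u, b), (a, u), (a, b)] else ![(a, u), (u, b), (a, b)]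

theorem ch_triPair {K : ℕ} {S : ℕ → Finset V} {τ : ℕ}
    (h : S τ ⊆ S (τ + 1) ∨ S (τ + 1) ⊆ S τ) {p : V × V} (hp : p ∈ inst K S τ) {u : V}
    (hu : u ∈ chg S τ) (j : Fin 3) :
    Ch K S τ (triPair S τ p.1 p.2 u j).1 (triPair S τ p.1 p.2 u j).2 := by
  have hus : u ∉ small S τ := (mem_sdiff.1 hu).2
  have h1 : Ch K S τ p.1 u := by
    rw [ch_iff h]
    intro e
    exact hus (e.1 (near_big_left hp hu)).2.1
  have h2 : Ch K S τ u p.2 := by
    rw [ch_iff h]
    intro e
    exact hus (e.1 (near_big_right hp hu)).1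
  have h3 : Ch K S τ p.1 p.2 := by
    rw [ch_iff h]
    intro e
    exact not_near_big_of_inst hp (e.2 (near_small_of_inst hp))
  unfold triPair
  split_ifs
  · fin_cases j
    · exact h2
    · exact h1
    · exact h3
  · fin_cases j
    · exact h1
    · exact h2
    · exact h3

/-- The choices of permutations of the batches. -/
abbrev Perms (T : ℕ) (S : ℕ → Finset V) : Type :=
  ∀ τ : Fin T, Equiv.Perm (Fin (chg S τ).card)

/-- Indices of triangles: a step of `good` and a pair of `inst`. -/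
abbrev Idx (K T : ℕ) (S : ℕ → Finset V) (good : Finset (Fin T)) : Type _ :=
  Σ τ : {τ : Fin T // τ ∈ good}, {p : V × V // p ∈ inst K S τ.1}

/-- The third vertex of a triangle. -/
noncomputable def third {K T : ℕ} {S : ℕ → Finset V} {good : Finset (Fin T)} (π : Perms T S)
    (x : Idx K T S good) : V :=
  uu S x.1.1 (π x.1.1 (lam K S x.1.1 x.2.1 x.2.2))

/-- The darts of the triangles. -/
noncomputable def tri {K T : ℕ} {S : ℕ → Finset V} (hS : IsSeq S T) {good : Finset (Fin T)}
    (π : Perms T S) (x : Idx K T S good × Fin 3) : Dt K T S :=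
  ⟨x.1.1.1, (triPair S x.1.1.1 x.1.2.1.1 x.1.2.1.2 (third π x.1) x.2).1,
    (triPair S x.1.1.1 x.1.2.1.1 x.1.2.1.2 (third π x.1) x.2).2,
    ch_triPair (hS.mono _ x.1.1.1.2) x.1.2.2 (uu_mem S _ _) x.2⟩

end Tri

section Arcs

variable {V : Type*} [LinearOrder V] [Fintype V]

/-- The arcs of the triangles of the steps in `good`. -/
noncomputable def arcs {K T : ℕ} {S : ℕ → Finset V} (hS : IsSeq S T)
    (α : Equiv.Perm (Dt K T S)) (good : Finset (Fin T)) (π : Perms T S) :
    Finset (Dt K T S × Dt K T S) :=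
  (univ : Finset (Idx K T S good × Fin 3)).image
    fun x => (α (tri hS π x), tri hS π (x.1, x.2 + 1))

/-- The arcs at the vertex `x`. -/
noncomputable def arcsAt {K T : ℕ} {S : ℕ → Finset V} (hS : IsSeq S T)
    (α : Equiv.Perm (Dt K T S)) (good : Finset (Fin T)) (π : Perms T S) (x : V) :
    Finset (Dt K T S × Dt K T S) :=
  (arcs hS α good π).filter fun p => src p.1 = x

end Arcs

end Pool.Agent.H20.BK
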