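import Mathlib
import Pool.Agent.H20.BK.Model

/-!
Project BK, module Alpha. Starts and ends of the same pair are equinumerous.

Proof sketch. For a pair `(a, b)` let `x_τ = 1` if `Near K (S τ) a b` and `0` otherwise;
`x_0 = x_T = 0` because `S 0 = S T = ∅`, so `∑_τ (x_{τ+1} - x_τ) = 0`, i.e. the number of starts of
the pair (changes with `x_{τ+1} = 1`) equals the number of ends (changes with `x_{τ+1} = 0`).
Choose for every pair a bijection between starts and ends and let `α` be this bijection together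
with its inverse.
-/

namespace Pool.Agent.H20.BK

private theorem Alpha_tele {T : ℕ} (x : ℕ → Prop) [DecidablePred x] (h0 : ¬ x 0) (hT : ¬ x T) :
    ∑ τ ∈ Finset.range T, (if ¬ x τ ∧ x (τ + 1) then 1 else 0 : ℤ) =
      ∑ τ ∈ Finset.range T, (if x τ ∧ ¬ x (τ + 1) then 1 else 0 : ℤ) := by
  have h := Finset.sum_range_sub (fun τ => (if x τ then 1 else 0 : ℤ)) T
  simp only [h0, hT, if_false, sub_self] at h
  rw [← sub_eq_zero, ← Finset.sum_sub_distrib]
  refine Eq.trans (Finset.sum_congr rfl fun τ _ => ?_) h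
  by_cases h1 : x τ <;> by_cases h2 : x (τ + 1) <;> simp [h1, h2]

private theorem Alpha_card {V : Type*} [LinearOrder V] [Fintype V] (K T : ℕ) (S : ℕ → Finset V)
    (hS : IsSeq S T) (c : V × V) :
    Fintype.card {d : {d : Dt K T S // IsStart d} // (d.1.a, d.1.b) = c} =
      Fintype.card {d : {d : Dt K T S // ¬ IsStart d} // (d.1.a, d.1.b) = c} := by
  classical
  obtain ⟨a, b⟩ := c
  have h0 : ¬ Near K (S 0) a b := by
    rw [hS.zero]; intro h; exact absurd h.1 (Finset.notMem_empty _)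
  have hT : ¬ Near K (S T) a b := by
    rw [hS.last]; intro h; exact absurd h.1 (Finset.notMem_empty _)
  have h := Alpha_tele (T := T) (fun τ => Near K (S τ) a b) h0 hT
  rw [← Fin.sum_univ_eq_sum_range
    (fun τ => (if ¬ Near K (S τ) a b ∧ Near K (S (τ + 1)) a b then 1 else 0 : ℤ)) T,
    ← Fin.sum_univ_eq_sum_range
    (fun τ => (if Near K (S τ) a b ∧ ¬ Near K (S (τ + 1)) a b then 1 else 0 : ℤ)) T] at h
  rw [Finset.sum_boole, Finset.sum_boole] at h
  have e1 : {d : {d : Dt K T S // IsStart d} // (d.1.a, d.1.b) = (a, b)} ≃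
      {τ : Fin T // ¬ Near K (S τ) a b ∧ Near K (S (τ + 1)) a b} :=
    { toFun := fun d => ⟨d.1.1.τ, by
        obtain ⟨⟨d, hd⟩, hd'⟩ := d
        obtain ⟨rfl, rfl⟩ := Prod.mk.inj hd'
        have hch := d.ch
        unfold Ch at hch
        unfold IsStart at hd
        exact ⟨fun h => hch (iff_of_true h hd), hd⟩⟩
      invFun := fun τ => ⟨⟨⟨τ.1, a, b, fun h => τ.2.1 (h.2 τ.2.2)⟩, τ.2.2⟩, rfl⟩
      left_inv := by
        rintro ⟨⟨⟨τ, a', b', hch⟩, hd⟩, hd'⟩
        obtain ⟨h1, h2⟩ := Prod.mk.inj hd'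
        simp only at h1 h2
        subst h1 h2
        rfl
      right_inv := fun τ => rfl }
  have e2 : {d : {d : Dt K T S // ¬ IsStart d} // (d.1.a, d.1.b) = (a, b)} ≃
      {τ : Fin T // Near K (S τ) a b ∧ ¬ Near K (S (τ + 1)) a b} :=
    { toFun := fun d => ⟨d.1.1.τ, by
        obtain ⟨⟨d, hd⟩, hd'⟩ := d
        obtain ⟨rfl, rfl⟩ := Prod.mk.inj hd'
        have hch := d.ch
        unfold Ch at hch
        unfold IsStart at hd
        refine ⟨?_, hd⟩
        by_contra h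
        exact hch (iff_of_false h hd)⟩
      invFun := fun τ => ⟨⟨⟨τ.1, a, b, fun h => τ.2.2 (h.1 τ.2.1)⟩, τ.2.2⟩, rfl⟩
      left_inv := by
        rintro ⟨⟨⟨τ, a', b', hch⟩, hd⟩, hd'⟩
        obtain ⟨h1, h2⟩ := Prod.mk.inj hd'
        simp only at h1 h2
        subst h1 h2
        rfl
      right_inv := fun τ => rfl }
  rw [Fintype.card_congr e1, Fintype.card_congr e2, Fintype.card_subtype, Fintype.card_subtype]
  exact_mod_cast h

theorem exists_alpha {V : Type*} [LinearOrder V] [Fintype V] (K T : ℕ) (S : ℕ → Finset V)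
    (hS : IsSeq S T) : ∃ α : Equiv.Perm (Dt K T S), IsAlpha α := by
  classical
  let e : {d : Dt K T S // IsStart d} ≃ {d : Dt K T S // ¬ IsStart d} :=
    Equiv.ofFiberEquiv (f := fun d : {d : Dt K T S // IsStart d} => (d.1.a, d.1.b))
      (g := fun d : {d : Dt K T S // ¬ IsStart d} => (d.1.a, d.1.b))
      (fun c => Fintype.equivOfCardEq (Alpha_card K T S hS c))
  have he : ∀ d : {d : Dt K T S // IsStart d}, ((e d).1.a, (e d).1.b) = (d.1.a, d.1.b) :=
    fun d => Equiv.ofFiberEquiv_map (f := fun d : {d : Dt K T S // IsStart d} => (d.1.a, d.1.b))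
      (g := fun d : {d : Dt K T S // ¬ IsStart d} => (d.1.a, d.1.b))
      (fun c => Fintype.equivOfCardEq (Alpha_card K T S hS c)) d
  have he' : ∀ d : {d : Dt K T S // ¬ IsStart d},
      ((e.symm d).1.a, (e.symm d).1.b) = (d.1.a, d.1.b) := by
    intro d
    have := he (e.symm d)
    rw [Equiv.apply_symm_apply] at this
    exact this.symm
  let α0 : Dt K T S → Dt K T S := fun d =>
    if h : IsStart d then (e ⟨d, h⟩).1 else (e.symm ⟨d, h⟩).1
  have hpos : ∀ d (h : IsStart d), α0 d = (e ⟨d, h⟩).1 := fun d h => dif_pos h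
  have hneg : ∀ d (h : ¬ IsStart d), α0 d = (e.symm ⟨d, h⟩).1 := fun d h => dif_neg h
  have hinv : Function.Involutive α0 := by
    intro d
    by_cases h : IsStart d
    · rw [hpos d h, hneg _ (e ⟨d, h⟩).2]
      have : e.symm ⟨(e ⟨d, h⟩).1, (e ⟨d, h⟩).2⟩ = ⟨d, h⟩ := e.symm_apply_apply _
      rw [this]
    · rw [hneg d h, hpos _ (e.symm ⟨d, h⟩).2]
      have : e ⟨(e.symm ⟨d, h⟩).1, (e.symm ⟨d, h⟩).2⟩ = ⟨d, h⟩ := e.apply_symm_apply _
      rw [this]
  refine ⟨hinv.toPerm, ⟨fun d => hinv d, fun d => ?_, fun d => ?_, fun d => ?_⟩⟩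
  · change (α0 d).a = d.a
    by_cases h : IsStart d
    · rw [hpos d h]; exact (Prod.mk.inj (he ⟨d, h⟩)).1
    · rw [hneg d h]; exact (Prod.mk.inj (he' ⟨d, h⟩)).1
  · change (α0 d).b = d.b
    by_cases h : IsStart d
    · rw [hpos d h]; exact (Prod.mk.inj (he ⟨d, h⟩)).2
    · rw [hneg d h]; exact (Prod.mk.inj (he' ⟨d, h⟩)).2
  · change IsStart (α0 d) ↔ ¬ IsStart d
    by_cases h : IsStart d
    · rw [hpos d h]; exact iff_of_false (e ⟨d, h⟩).2 (not_not.2 h)
    · rw [hneg d h]; exact iff_of_true (e.symm ⟨d, h⟩).2 h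

end Pool.Agent.H20.BK
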