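import Mathlib
import Pool.Agent.H20.BK.CycDefs

/-!
Project BK, module Harm. Random arcs close few cycles (Feller coupling).

Proof sketch of `sum_cyc_le`. `cyc` increases by 0 or 1 when one arc `(b, w)` is added to a
partial injection `Z` (with `b` not a source and `w` not a target of `Z`): `Z.card` increases by 1
and the number of classes decreases by 1 or 0; it increases by 1 exactly if `b` and `w` already are
in the same class of `Z`. Every class of a finite partial injection contains at most one element
that is not a target (follow the arcs backwards/forwards: if `w` is not a target then every element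
of its class is reached from `w` by following arcs forwards). Hence for given `b` at most one
non-target `w` closes a cycle. Add the arcs `(p l, r (π l))`, `l ∈ L`, in increasing order of `l`;
when the arc of `l` is added, the values `π l'`, `l' < l`, are used; averaging over the
permutations `π * swap l l'`, `l' ≥ l` (which agree with `π` below `l` and have distinct values at
`l`) shows that at most `s! / (s - l)` permutations close a cycle at `l : Fin s`. Sum over `l`.
`sum_cyc_le'` is the mirror image (reverse all arcs, `cyc` does not change).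
-/

namespace Pool.Agent.H20.BK

open Finset

/-- The relation given by a set of arcs. -/
private def HarmRel {D : Type*} (Z : Finset (D × D)) : D → D → Prop := fun a b => (a, b) ∈ Z

/-- Adding an arc. -/
private theorem Harm_cyc_insert {D : Type*} [Fintype D] [DecidableEq D] (Z : Finset (D × D))
    (b w : D) [Decidable (Relation.EqvGen (HarmRel Z) b w)] : cyc (insert (b, w) Z) ≤
      cyc Z + (if Relation.EqvGen (HarmRel Z) b w then 1 else 0) := by
  by_cases hm : (b, w) ∈ Z
  · rw [insert_eq_of_mem hm]
    split_ifs <;> omega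
  · have hcard : (insert (b, w) Z).card = Z.card + 1 := card_insert_of_notMem hm
    let F : Quot (fun a b : D => (a, b) ∈ Z) → Quot (fun a c : D => (a, c) ∈ insert (b, w) Z) :=
      Quot.lift (fun a => Quot.mk _ a) (fun a c h => Quot.sound (mem_insert_of_mem h))
    have hF : Function.Surjective F := by
      intro x
      obtain ⟨a, rfl⟩ := Quot.exists_rep x
      exact ⟨Quot.mk _ a, rfl⟩
    have h1 : ncls (insert (b, w) Z) ≤ ncls Z := Nat.card_le_card_of_surjective F hF
    unfold cyc
    rw [hcard]
    split_ifs with h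
    · push_cast; omega
    · have h2 : ncls (insert (b, w) Z) < ncls Z := by
        refine lt_of_le_of_ne h1 fun heq => h ?_
        have hinj : Function.Injective F :=
          (Function.Surjective.bijective_of_nat_card_le hF heq.ge).1
        have h3 : F (Quot.mk (fun a b : D => (a, b) ∈ Z) b) =
            F (Quot.mk (fun a b : D => (a, b) ∈ Z) w) := Quot.sound (mem_insert_self _ _)
        have h4 : Quot.mk (fun a b : D => (a, b) ∈ Z) b = Quot.mk (fun a b : D => (a, b) ∈ Z) w :=
          @hinj _ _ h3
        exact Quot.eqvGen_exact h4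
      push_cast; omega

/-- A class contains at most one element that is not a target. -/
private theorem Harm_unique {D : Type*} (Z : Finset (D × D))
    (hZ : ∀ a a' x, (a, x) ∈ Z → (a', x) ∈ Z → a = a') (w w' : D)
    (hw : ∀ y ∈ Z, y.2 ≠ w) (hw' : ∀ y ∈ Z, y.2 ≠ w')
    (h : Relation.EqvGen (HarmRel Z) w w') : w = w' := by
  have key : ∀ x y, Relation.EqvGen (HarmRel Z) x y →
      (Relation.ReflTransGen (HarmRel Z) w x ↔ Relation.ReflTransGen (HarmRel Z) w y) := by
    intro x y hxy
    induction hxy with
    | rel x y hxy =>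
      constructor
      · intro h
        exact h.tail hxy
      · intro h
        rcases Relation.ReflTransGen.cases_tail h with h1 | ⟨c, h1, h2⟩
        · exact absurd h1 (hw _ hxy)
        · have : c = x := hZ c x y h2 hxy
          rw [← this]; exact h1
    | refl x => exact Iff.rfl
    | symm x y _ ih => exact ih.symm
    | trans x y z _ _ ih1 ih2 => exact ih1.trans ih2
  have h1 := (key w w' h).1 Relation.ReflTransGen.refl
  rcases Relation.ReflTransGen.cases_tail h1 with h2 | ⟨c, _, h2⟩
  · exact h2.symm
  · exact absurd rfl (hw' _ h2)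

/-- The arcs with index below `j`. -/
private def HarmZ {D : Type*} [DecidableEq D] {s : ℕ} (Y : Finset (D × D)) (p r : Fin s → D)
    (L : Finset (Fin s)) (π : Equiv.Perm (Fin s)) (j : ℕ) : Finset (D × D) :=
  Y ∪ (L.filter fun l => l.val < j).image fun l => (p l, r (π l))

private theorem HarmZ_succ {D : Type*} [DecidableEq D] {s : ℕ} (Y : Finset (D × D))
    (p r : Fin s → D) (L : Finset (Fin s)) (π : Equiv.Perm (Fin s)) (j : Fin s) :
    HarmZ Y p r L π (j + 1) = if j ∈ L then insert (p j, r (π j)) (HarmZ Y p r L π j)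
      else HarmZ Y p r L π j := by
  unfold HarmZ
  split_ifs with h
  · have : (L.filter fun l => l.val < (j : ℕ) + 1) =
        insert j (L.filter fun l => l.val < (j : ℕ)) := by
      ext l
      simp only [mem_filter, mem_insert]
      constructor
      · rintro ⟨h1, h2⟩
        by_cases h3 : l = j
        · exact Or.inl h3
        · refine Or.inr ⟨h1, ?_⟩
          have : l.val ≠ j.val := fun h => h3 (Fin.ext h)
          omega
      · rintro (h1 | ⟨h1, h2⟩)
        · rw [h1]; exact ⟨h, by omega⟩
        · exact ⟨h1, by omega⟩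
    rw [this, image_insert, union_insert]
  · have : (L.filter fun l => l.val < (j : ℕ) + 1) = (L.filter fun l => l.val < (j : ℕ)) := by
      ext l
      simp only [mem_filter]
      constructor
      · rintro ⟨h1, h2⟩
        refine ⟨h1, ?_⟩
        have : l.val ≠ j.val := fun h' => h (by rw [← Fin.ext h']; exact h1)
        omega
      · rintro ⟨h1, h2⟩
        exact ⟨h1, by omega⟩
    rw [this]

/-- Indicator that a cycle is closed at index `j`. -/
private noncomputable def HarmC {D : Type*} [DecidableEq D] {s : ℕ} (Y : Finset (D × D))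
    (p r : Fin s → D) (L : Finset (Fin s)) (π : Equiv.Perm (Fin s)) (j : Fin s) : ℕ :=
  open Classical in
  if Relation.EqvGen (HarmRel (HarmZ Y p r L π j)) (p j) (r (π j)) then 1 else 0

private theorem Harm_step {D : Type*} [Fintype D] [DecidableEq D] {s : ℕ} (Y : Finset (D × D))
    (p r : Fin s → D) (L : Finset (Fin s)) (π : Equiv.Perm (Fin s)) (j : Fin s) :
    cyc (HarmZ Y p r L π (j + 1)) ≤ cyc (HarmZ Y p r L π j) + HarmC Y p r L π j := by
  classical
  rw [HarmZ_succ]
  split_ifs with h
  · refine (Harm_cyc_insert _ _ _).trans ?_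
    unfold HarmC
    split_ifs <;> simp
  · have : (0 : ℤ) ≤ HarmC Y p r L π j := Int.natCast_nonneg _
    linarith

private theorem Harm_total {D : Type*} [Fintype D] [DecidableEq D] {s : ℕ} (Y : Finset (D × D))
    (p r : Fin s → D) (L : Finset (Fin s)) (π : Equiv.Perm (Fin s)) :
    cyc (Y ∪ L.image fun l => (p l, r (π l))) ≤ cyc Y + ∑ j : Fin s, (HarmC Y p r L π j : ℤ) := by
  classical
  have key : ∀ k : ℕ, k ≤ s → cyc (HarmZ Y p r L π k) ≤
      cyc Y + ∑ j ∈ (univ : Finset (Fin s)).filter (fun j => j.val < k), (HarmC Y p r L π j : ℤ) := by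
    intro k
    induction k with
    | zero =>
      intro _
      have : HarmZ Y p r L π 0 = Y := by
        unfold HarmZ; simp
      rw [this]
      simp
    | succ k ih =>
      intro hk
      have h1 := ih (by omega)
      have h2 := Harm_step Y p r L π ⟨k, by omega⟩
      have h3 : (univ : Finset (Fin s)).filter (fun j => j.val < k + 1) =
          insert (⟨k, by omega⟩ : Fin s) ((univ : Finset (Fin s)).filter (fun j => j.val < k)) := by
        ext j
        simp only [mem_filter, mem_univ, true_and, mem_insert, Fin.ext_iff]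
        omega
      rw [h3, sum_insert (by simp)]
      have h4 : cyc (HarmZ Y p r L π (k + 1)) ≤
        cyc (HarmZ Y p r L π k) + HarmC Y p r L π ⟨k, by omega⟩ := h2
      linarith
  have h := key s le_rfl
  have e1 : HarmZ Y p r L π s = Y ∪ L.image fun l => (p l, r (π l)) := by
    unfold HarmZ
    congr 2
    apply filter_true_of_mem
    intro l _
    exact l.2
  have e2 : (univ : Finset (Fin s)).filter (fun j => j.val < s) = univ :=
    filter_true_of_mem fun l _ => l.2
  rw [e1, e2] at h
  exact h

private theorem HarmZ_swap {D : Type*} [DecidableEq D] {s : ℕ} (Y : Finset (D × D))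
    (p r : Fin s → D) (L : Finset (Fin s)) (π : Equiv.Perm (Fin s)) (j l' : Fin s)
    (hl : j ≤ l') : HarmZ Y p r L (π * Equiv.swap j l') j = HarmZ Y p r L π j := by
  unfold HarmZ
  congr 1
  apply image_congr
  intro l hlm
  have h1 : l.val < j.val := by
    have := mem_coe.1 hlm
    exact (mem_filter.1 this).2
  have h2 : l ≠ j := fun h => by rw [h] at h1; exact lt_irrefl _ h1
  have h3 : l ≠ l' := fun h => by
    rw [h] at h1
    exact absurd hl (not_le.2 h1)
  simp only [Equiv.Perm.coe_mul, Function.comp_apply, Equiv.swap_apply_of_ne_of_ne h2 h3]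

private theorem Harm_count {D : Type*} [Fintype D] [DecidableEq D] {s : ℕ} (Y : Finset (D × D))
    (p r : Fin s → D) (L : Finset (Fin s)) (hr : Function.Injective r)
    (hY : PInj Y) (h2 : ∀ l, ∀ y ∈ Y, y.2 ≠ r l) (j : Fin s) :
    (s - j.val) * ∑ π : Equiv.Perm (Fin s), HarmC Y p r L π j ≤ s.factorial := by
  classical
  -- for every `π` at most one `l' ≥ j` closes a cycle
  have key : ∀ π : Equiv.Perm (Fin s),
      ∑ l' ∈ (univ : Finset (Fin s)).filter (fun l' => j ≤ l'),
        HarmC Y p r L (π * Equiv.swap j l') j ≤ 1 := by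
    intro π
    set Z := HarmZ Y p r L π j with hZ
    have hval : ∀ l', j ≤ l' → HarmC Y p r L (π * Equiv.swap j l') j =
        if Relation.EqvGen (HarmRel Z) (p j) (r (π l')) then 1 else 0 := by
      intro l' hl'
      unfold HarmC
      rw [HarmZ_swap Y p r L π j l' hl']
      simp only [Equiv.Perm.coe_mul, Function.comp_apply, Equiv.swap_apply_left, ← hZ]
    rw [sum_congr rfl (fun l' hl' => hval l' (mem_filter.1 hl').2), sum_boole, Nat.cast_id,
      card_le_one]
    intro a ha b hb
    simp only [mem_filter, mem_univ, true_and] at ha hb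
    have hZinj : ∀ a a' x, (a, x) ∈ Z → (a', x) ∈ Z → a = a' := by
      intro a a' x h1 h2'
      rw [hZ] at h1 h2'
      unfold HarmZ at h1 h2'
      rw [mem_union, mem_image] at h1 h2'
      rcases h1 with h1 | ⟨l, _, h1⟩ <;> rcases h2' with h3 | ⟨l₂, _, h3⟩
      · exact (hY _ h1 _ h3).2 rfl
      · exfalso
        rw [Prod.mk.injEq] at h3
        exact h2 (π l₂) _ h1 h3.2.symm
      · exfalso
        rw [Prod.mk.injEq] at h1
        exact h2 (π l) _ h3 h1.2.symm
      · rw [Prod.mk.injEq] at h1 h3
        have h4 : l = l₂ := π.injective (hr (h1.2.trans h3.2.symm))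
        rw [← h1.1, ← h3.1, h4]
    have hnt : ∀ l', j ≤ l' → ∀ y ∈ Z, y.2 ≠ r (π l') := by
      intro l' hl' y hy
      rw [hZ] at hy
      unfold HarmZ at hy
      rw [mem_union, mem_image] at hy
      rcases hy with hy | ⟨l, hl, hy⟩
      · exact h2 (π l') y hy
      · intro h
        rw [← hy] at h
        have h4 : l = l' := π.injective (hr h)
        have h5 := (mem_filter.1 hl).2
        rw [h4] at h5
        exact absurd hl' (not_le.2 h5)
    have h3 : r (π a) = r (π b) :=
      Harm_unique Z hZinj _ _ (hnt a ha.1) (hnt b hb.1)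
        (Relation.EqvGen.trans _ _ _ (Relation.EqvGen.symm _ _ ha.2) hb.2)
    exact π.injective (hr h3)
  have hsum : ∑ π : Equiv.Perm (Fin s), ∑ l' ∈ (univ : Finset (Fin s)).filter (fun l' => j ≤ l'),
        HarmC Y p r L (π * Equiv.swap j l') j ≤ s.factorial := by
    calc _ ≤ ∑ π : Equiv.Perm (Fin s), 1 := sum_le_sum fun π _ => key π
      _ = s.factorial := by
        rw [sum_const, smul_eq_mul, mul_one, card_univ, Fintype.card_perm, Fintype.card_fin]
  rw [sum_comm] at hsum
  have h3 : ∀ l' : Fin s, ∑ π : Equiv.Perm (Fin s), HarmC Y p r L (π * Equiv.swap j l') j =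
      ∑ π : Equiv.Perm (Fin s), HarmC Y p r L π j := by
    intro l'
    exact Equiv.sum_comp (Equiv.mulRight (Equiv.swap j l')) (fun π => HarmC Y p r L π j)
  rw [sum_congr rfl (fun l' _ => h3 l'), sum_const, smul_eq_mul] at hsum
  have h4 : ((univ : Finset (Fin s)).filter (fun l' => j ≤ l')).card = s - j.val := by
    have : (univ : Finset (Fin s)).filter (fun l' => j ≤ l') = Finset.Ici j := by
      ext l; simp
    rw [this, Fin.card_Ici]
  rw [h4] at hsum
  exact hsum

theorem sum_cyc_le {D : Type*} [Fintype D] [DecidableEq D] {s : ℕ} (Y : Finset (D × D))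
    (p r : Fin s → D) (L : Finset (Fin s)) (hp : Set.InjOn p L) (hr : Function.Injective r)
    (hY : PInj Y) (h1 : ∀ l ∈ L, ∀ y ∈ Y, y.1 ≠ p l) (h2 : ∀ l, ∀ y ∈ Y, y.2 ≠ r l) :
    ∑ π : Equiv.Perm (Fin s),
      ((cyc (Y ∪ L.image fun l => (p l, r (π l))) : ℝ) - (cyc Y : ℝ)) ≤
      (s.factorial : ℝ) * ((harmonic s : ℚ) : ℝ) := by
  calc ∑ π : Equiv.Perm (Fin s),
      ((cyc (Y ∪ L.image fun l => (p l, r (π l))) : ℝ) - (cyc Y : ℝ))
      ≤ ∑ π : Equiv.Perm (Fin s), ∑ j : Fin s, (HarmC Y p r L π j : ℝ) := by
        refine sum_le_sum fun π _ => ?_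
        have h := Harm_total Y p r L π
        have h' : (cyc (Y ∪ L.image fun l => (p l, r (π l))) : ℝ) ≤
            ((cyc Y + ∑ j : Fin s, (HarmC Y p r L π j : ℤ) : ℤ) : ℝ) := by exact_mod_cast h
        push_cast at h'
        linarith
    _ = ∑ j : Fin s, ∑ π : Equiv.Perm (Fin s), (HarmC Y p r L π j : ℝ) := sum_comm
    _ ≤ ∑ j : Fin s, (s.factorial : ℝ) * (((s - j.val : ℕ) : ℝ)⁻¹) := by
        refine sum_le_sum fun j _ => ?_
        have h := Harm_count Y p r L hr hY h2 j
        have hpos : (0 : ℝ) < ((s - j.val : ℕ) : ℝ) := by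
          have := j.2
          exact_mod_cast (by omega : 0 < s - j.val)
        rw [← div_eq_mul_inv, le_div_iff₀ hpos]
        have h' : (((s - j.val) * ∑ π : Equiv.Perm (Fin s), HarmC Y p r L π j : ℕ) : ℝ) ≤
          (s.factorial : ℝ) := by exact_mod_cast h
        push_cast at h'
        rw [mul_comm]
        exact_mod_cast h'
    _ = (s.factorial : ℝ) * ((harmonic s : ℚ) : ℝ) := by
        rw [← mul_sum]
        congr 1
        rw [Fin.sum_univ_eq_sum_range (fun j => (((s - j : ℕ) : ℝ)⁻¹)) s]
        rw [harmonic]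
        push_cast
        rw [← sum_range_reflect]
        refine sum_congr rfl fun j hj => ?_
        have hj' := mem_range.1 hj
        have : s - (s - 1 - j) = j + 1 := by omega
        rw [this]
        push_cast
        rfl

/-- Reversing all arcs. -/
private theorem Harm_cyc_swap {D : Type*} [Fintype D] [DecidableEq D] (Z : Finset (D × D)) :
    cyc (Z.image Prod.swap) = cyc Z := by
  classical
  have hm : ∀ a b : D, (a, b) ∈ Z.image Prod.swap ↔ (b, a) ∈ Z := by
    intro a b
    rw [mem_image]
    constructor
    · rintro ⟨⟨x, y⟩, h, h'⟩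
      rw [Prod.swap_prod_mk, Prod.mk.injEq] at h'
      rw [← h'.1, ← h'.2]; exact h
    · intro h
      exact ⟨(b, a), h, rfl⟩
  have h1 : ncls (Z.image Prod.swap) = ncls Z := by
    refine Nat.card_congr
      { toFun := Quot.lift (fun a => Quot.mk _ a) (fun a b h => (Quot.sound ((hm a b).1 h)).symm)
        invFun := Quot.lift (fun a => Quot.mk _ a) (fun a b h => (Quot.sound ((hm b a).2 h)).symm)
        left_inv := ?_
        right_inv := ?_ }
    · intro x
      obtain ⟨a, rfl⟩ := Quot.exists_rep x
      rfl
    · intro x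
      obtain ⟨a, rfl⟩ := Quot.exists_rep x
      rfl
  have h2 : (Z.image Prod.swap).card = Z.card := card_image_of_injective _ Prod.swap_injective
  unfold cyc
  rw [h1, h2]

theorem sum_cyc_le' {D : Type*} [Fintype D] [DecidableEq D] {s : ℕ} (Y : Finset (D × D))
    (p r : Fin s → D) (L : Finset (Fin s)) (hp : Set.InjOn p L) (hr : Function.Injective r)
    (hY : PInj Y) (h1 : ∀ l ∈ L, ∀ y ∈ Y, y.2 ≠ p l) (h2 : ∀ l, ∀ y ∈ Y, y.1 ≠ r l) :
    ∑ π : Equiv.Perm (Fin s),
      ((cyc (Y ∪ L.image fun l => (r (π l), p l)) : ℝ) - (cyc Y : ℝ)) ≤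
      (s.factorial : ℝ) * ((harmonic s : ℚ) : ℝ) := by
  have hY' : PInj (Y.image Prod.swap) := by
    intro a ha b hb
    rw [mem_image] at ha hb
    obtain ⟨a', ha', rfl⟩ := ha
    obtain ⟨b', hb', rfl⟩ := hb
    exact (hY a' ha' b' hb').symm
  have h := sum_cyc_le (Y.image Prod.swap) p r L hp hr hY'
    (by
      intro l hl y hy
      obtain ⟨y', hy', rfl⟩ := mem_image.1 hy
      exact h1 l hl y' hy')
    (by
      intro l y hy
      obtain ⟨y', hy', rfl⟩ := mem_image.1 hy
      exact h2 l y' hy')
  refine le_trans (le_of_eq ?_) h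
  refine sum_congr rfl fun π _ => ?_
  have e1 : (Y.image Prod.swap) ∪ (L.image fun l => (p l, r (π l))) =
      (Y ∪ L.image fun l => (r (π l), p l)).image Prod.swap := by
    rw [image_union, image_image]
    rfl
  rw [e1, Harm_cyc_swap, Harm_cyc_swap]

end Pool.Agent.H20.BK
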