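import Mathlib
import Pool.Agent.H20.BK.Model

/-!
Project BK, module TriProps. The triangles use every dart at most once and fit together.

Facts. In an insertion step (`S τ ⊆ S (τ+1)`) the darts of the pairs `(a,u)`, `(u,b)` are starts
(source = lower endpoint) and the dart of `(a,b)` is an end (source = upper endpoint); in a deletion
step it is the other way round (if `S τ = S (τ+1)` then `inst` is empty). The index
`btw (big S τ) a b - K` determines `b` from `a` and `a` from `b` (`btw` is strictly monotone), and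
`uu`, `π` are injective.
-/

namespace Pool.Agent.H20.BK

open Finset

variable {V : Type*} [LinearOrder V] [Fintype V] {K T : ℕ} {S : ℕ → Finset V}

omit [Fintype V] in
theorem TriProps_btw_right {A : Finset V} {a b b' : V} (hb : b ∈ A) (hab : a < b) (h : b < b') :
    btw A a b < btw A a b' := by
  unfold btw
  refine card_lt_card ((ssubset_iff_of_subset ?_).2 ⟨b, ?_, ?_⟩)
  · intro c hc
    rw [mem_filter] at hc ⊢
    exact ⟨hc.1, hc.2.1, hc.2.2.trans h⟩
  · exact mem_filter.2 ⟨hb, hab, h⟩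
  · intro hc
    exact lt_irrefl b (mem_filter.1 hc).2.2

omit [Fintype V] in
theorem TriProps_btw_left {A : Finset V} {a a' b : V} (ha : a' ∈ A) (hab : a' < b) (h : a < a') :
    btw A a' b < btw A a b := by
  unfold btw
  refine card_lt_card ((ssubset_iff_of_subset ?_).2 ⟨a', ?_, ?_⟩)
  · intro c hc
    rw [mem_filter] at hc ⊢
    exact ⟨hc.1, h.trans hc.2.1, hc.2.2⟩
  · exact mem_filter.2 ⟨ha, h, hab⟩
  · intro hc
    exact lt_irrefl a' (mem_filter.1 hc).2.1

omit [Fintype V] in
theorem TriProps_btw_mono {A : Finset V} {a a' b b' : V} (ha : a' ≤ a) (hb : b ≤ b') :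
    btw A a b ≤ btw A a' b' := by
  unfold btw
  refine card_le_card fun c hc => ?_
  rw [mem_filter] at hc ⊢
  exact ⟨hc.1, ha.trans_lt hc.2.1, hc.2.2.trans_le hb⟩

theorem TriProps_inst {τ : ℕ} {a b : V} (h : (a, b) ∈ inst K S τ) :
    a ∈ small S τ ∧ b ∈ small S τ ∧ a ∈ big S τ ∧ b ∈ big S τ ∧ a < b := by
  have hn := near_small_of_inst h
  have hsub : small S τ ⊆ big S τ := inter_subset_left.trans subset_union_left
  exact ⟨hn.1, hn.2.1, hsub hn.1, hsub hn.2.1, hn.2.2.1⟩

theorem third_mem {good : Finset (Fin T)} (π : Perms T S) (x : Idx K T S good) :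
    third π x ∈ chg S x.1.1 := uu_mem S _ _

/-- For given `a`, `btw big a b` determines `b` (for pairs of `inst`). -/
theorem inst_inj_left {τ : ℕ} {a b b' : V} (h : (a, b) ∈ inst K S τ) (h' : (a, b') ∈ inst K S τ)
    (he : btw (big S τ) a b = btw (big S τ) a b') : b = b' := by
  obtain ⟨-, -, -, h4, h5⟩ := TriProps_inst h
  obtain ⟨-, -, -, h4', h5'⟩ := TriProps_inst h'
  rcases lt_trichotomy b b' with hlt | heq | hlt
  · exact absurd he (TriProps_btw_right h4 h5 hlt).ne
  · exact heq
  · exact absurd he.symm (TriProps_btw_right h4' h5' hlt).ne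

/-- For given `b`, `btw big a b` determines `a` (for pairs of `inst`). -/
theorem inst_inj_right {τ : ℕ} {a a' b : V} (h : (a, b) ∈ inst K S τ) (h' : (a', b) ∈ inst K S τ)
    (he : btw (big S τ) a b = btw (big S τ) a' b) : a = a' := by
  obtain ⟨-, -, h3, -, h5⟩ := TriProps_inst h
  obtain ⟨-, -, h3', -, h5'⟩ := TriProps_inst h'
  rcases lt_trichotomy a a' with hlt | heq | hlt
  · exact absurd he.symm (TriProps_btw_left h3' h5' hlt).ne
  · exact heq
  · exact absurd he (TriProps_btw_left h3 h5 hlt).ne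

/-- For two pairs of `inst` with the same index, `b < b'` iff `a < a'`. -/
theorem inst_mono {τ : ℕ} {a b a' b' : V} (h : (a, b) ∈ inst K S τ) (h' : (a', b') ∈ inst K S τ)
    (he : btw (big S τ) a b = btw (big S τ) a' b') : b < b' ↔ a < a' := by
  obtain ⟨-, -, h3, h4, h5⟩ := TriProps_inst h
  obtain ⟨-, -, h3', h4', h5'⟩ := TriProps_inst h'
  constructor
  · intro hlt
    by_contra hc
    rw [not_lt] at hc
    have e1 := TriProps_btw_right h4 h5 hlt
    have e2 := TriProps_btw_mono (A := big S τ) hc (le_refl b')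
    omega
  · intro hlt
    by_contra hc
    rw [not_lt] at hc
    have e1 := TriProps_btw_left h3' h5' hlt
    have e2 := TriProps_btw_mono (A := big S τ) (le_refl a) hc
    omega

/-- Types of the darts of a triangle. -/
theorem isStart_tri (hS : IsSeq S T) {good : Finset (Fin T)} (π : Perms T S)
    (x : Idx K T S good) (j : Fin 3) :
    IsStart (tri hS π (x, j)) ↔ ((j = 2) ↔ ¬ S x.1.1 ⊆ S (x.1.1 + 1)) := by
  have hu := third_mem π x
  have hus : third π x ∉ small S x.1.1 := (mem_sdiff.1 hu).2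
  have key : IsStart (tri hS π (x, j)) ↔ Near K (S (x.1.1 + 1))
      (triPair S x.1.1.1 x.2.1.1 x.2.1.2 (third π x) j).1
      (triPair S x.1.1.1 x.2.1.1 x.2.1.2 (third π x) j).2 := Iff.rfl
  rw [key]
  have n1 := near_big_left x.2.2 hu
  have n2 := near_big_right x.2.2 hu
  have n3 := not_near_big_of_inst x.2.2
  have n4 := near_small_of_inst x.2.2
  have n5 : ¬ Near K (small S x.1.1) x.2.1.1 (third π x) := fun h => hus h.2.1
  have n6 : ¬ Near K (small S x.1.1) (third π x) x.2.1.2 := fun h => hus h.1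
  by_cases hI : S x.1.1 ⊆ S (x.1.1 + 1)
  · rw [(big_small_of_subset hI).1] at n1 n2 n3
    match j with
    | 0 => simpa [triPair, hI] using n2
    | 1 => simpa [triPair, hI] using n1
    | 2 => simpa [triPair, hI] using n3
  · have hD : S (x.1.1 + 1) ⊆ S x.1.1 := (hS.mono _ x.1.1.2).resolve_left hI
    rw [(big_small_of_superset hD).2] at n4 n5 n6
    match j with
    | 0 => simpa [triPair, hI] using n5
    | 1 => simpa [triPair, hI] using n6
    | 2 => simpa [triPair, hI] using n4

theorem tri_injective (hS : IsSeq S T) {good : Finset (Fin T)} (π : Perms T S) :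
    Function.Injective (tri (K := K) hS (good := good) π) := by
  rintro ⟨⟨⟨τ, hτ⟩, ⟨⟨a, b⟩, hp⟩⟩, j⟩ ⟨⟨⟨τ', hτ'⟩, ⟨⟨a', b'⟩, hp'⟩⟩, j'⟩ h
  have e1 : τ = τ' := congrArg Dt.τ h
  subst e1
  have s1 := isStart_tri hS π (⟨⟨τ, hτ⟩, ⟨(a, b), hp⟩⟩ : Idx K T S good) j
  have s2 := isStart_tri hS π (⟨⟨τ, hτ⟩, ⟨(a', b'), hp'⟩⟩ : Idx K T S good) j'
  rw [h, s2] at s1
  have ea : (triPair S τ a b (uu S τ (π τ (lam K S τ (a, b) hp))) j).1 =
      (triPair S τ a' b' (uu S τ (π τ (lam K S τ (a', b') hp'))) j').1 := congrArg Dt.a h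
  have eb : (triPair S τ a b (uu S τ (π τ (lam K S τ (a, b) hp))) j).2 =
      (triPair S τ a' b' (uu S τ (π τ (lam K S τ (a', b') hp'))) j').2 := congrArg Dt.b h
  have hu := uu_mem S τ (π τ (lam K S τ (a, b) hp))
  have hu' := uu_mem S τ (π τ (lam K S τ (a', b') hp'))
  have hinj : uu S τ (π τ (lam K S τ (a, b) hp)) = uu S τ (π τ (lam K S τ (a', b') hp')) →
      btw (big S τ) a b = btw (big S τ) a' b' := by
    intro e
    have e' := (π τ).injective ((orderEmbOfFin (chg S τ) rfl).injective e)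
    have e'' := congrArg Fin.val e'
    simp only [lam] at e''
    simp only [inst, mem_filter, mem_univ, true_and] at hp hp'
    omega
  generalize hug : uu S τ (π τ (lam K S τ (a, b) hp)) = u at *
  generalize hug' : uu S τ (π τ (lam K S τ (a', b') hp')) = u' at *
  have hus : u ∉ small S τ := (mem_sdiff.1 hu).2
  have hus' : u' ∉ small S τ := (mem_sdiff.1 hu').2
  obtain ⟨ha, hb, -, -, -⟩ := TriProps_inst hp
  obtain ⟨ha', hb', -, -, -⟩ := TriProps_inst hp'
  -- reduce to equality of the pairs and of the indices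
  have fin : (a, b) = (a', b') → j = j' →
      ((⟨⟨⟨τ, hτ⟩, ⟨(a, b), hp⟩⟩, j⟩ : Idx K T S good × Fin 3)) =
        ⟨⟨⟨τ, hτ'⟩, ⟨(a', b'), hp'⟩⟩, j'⟩ := by
    intro e e'
    subst e'
    obtain ⟨rfl, rfl⟩ := Prod.mk.inj e
    rfl
  by_cases hI : S τ ⊆ S (τ + 1)
  · match j, j' with
    | 0, 0 =>
      simp only [triPair, hI, if_true, Matrix.cons_val_zero] at ea eb
      subst ea eb
      exact fin (by rw [inst_inj_right hp hp' (hinj rfl)]) rfl
    | 1, 1 =>
      simp [triPair, hI] at ea eb
      subst ea eb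
      exact fin (by rw [inst_inj_left hp hp' (hinj rfl)]) rfl
    | 2, 2 =>
      simp [triPair, hI] at ea eb
      subst ea eb
      exact fin rfl rfl
    | 0, 1 =>
      simp [triPair, hI] at ea eb
      exact absurd (ea ▸ ha') hus
    | 1, 0 =>
      simp [triPair, hI] at ea eb
      exact absurd (ea ▸ ha) hus'
    | 0, 2 => simp [hI] at s1
    | 1, 2 => simp [hI] at s1
    | 2, 0 => simp [hI] at s1
    | 2, 1 => simp [hI] at s1
  · match j, j' with
    | 0, 0 =>
      simp [triPair, hI] at ea eb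
      subst ea eb
      exact fin (by rw [inst_inj_left hp hp' (hinj rfl)]) rfl
    | 1, 1 =>
      simp [triPair, hI] at ea eb
      subst ea eb
      exact fin (by rw [inst_inj_right hp hp' (hinj rfl)]) rfl
    | 2, 2 =>
      simp [triPair, hI] at ea eb
      subst ea eb
      exact fin rfl rfl
    | 0, 1 =>
      simp [triPair, hI] at ea eb
      exact absurd (ea ▸ ha) hus'
    | 1, 0 =>
      simp [triPair, hI] at ea eb
      exact absurd (ea ▸ ha') hus
    | 0, 2 => simp [hI] at s1
    | 1, 2 => simp [hI] at s1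
    | 2, 0 => simp [hI] at s1
    | 2, 1 => simp [hI] at s1

theorem TriProps_srcAlpha {α : Equiv.Perm (Dt K T S)} (hα : IsAlpha α) (d : Dt K T S) :
    src (α d) = if IsStart d then d.a else d.b := by
  unfold src
  rw [hα.pair_a, hα.pair_b]
  by_cases h : IsStart d
  · rw [if_neg (by rw [hα.start]; exact not_not.2 h), if_pos h]
  · rw [if_pos (by rw [hα.start]; exact h), if_neg h]

theorem src_tri (hS : IsSeq S T) {α : Equiv.Perm (Dt K T S)} (hα : IsAlpha α)
    {good : Finset (Fin T)} (π : Perms T S) (x : Idx K T S good) (j : Fin 3) :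
    src (tri hS π (x, j + 1)) = src (α (tri hS π (x, j))) := by
  rw [TriProps_srcAlpha hα]
  unfold src
  have s0 := isStart_tri hS π x j
  have s1 := isStart_tri hS π x (j + 1)
  by_cases hI : S x.1.1 ⊆ S (x.1.1 + 1)
  · match j with
    | 0 =>
      rw [if_pos (s0.2 (by simp [hI])), if_pos (s1.2 (by simp [hI]))]
      simp [tri, triPair, hI]
    | 1 =>
      rw [if_pos (s0.2 (by simp [hI])), if_neg (fun h => absurd (s1.1 h) (by simp [hI]))]
      simp [tri, triPair, hI]
    | 2 =>
      rw [if_neg (fun h => absurd (s0.1 h) (by simp [hI])), if_pos (s1.2 (by simp [hI]))]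
      simp [tri, triPair, hI]
  · match j with
    | 0 =>
      rw [if_neg (fun h => absurd (s0.1 h) (by simp [hI])),
        if_neg (fun h => absurd (s1.1 h) (by simp [hI]))]
      simp [tri, triPair, hI]
    | 1 =>
      rw [if_neg (fun h => absurd (s0.1 h) (by simp [hI])), if_pos (s1.2 (by simp [hI]))]
      simp [tri, triPair, hI]
    | 2 =>
      rw [if_pos (s0.2 (by simp [hI])), if_neg (fun h => absurd (s1.1 h) (by simp [hI]))]
      simp [tri, triPair, hI]

omit [Fintype V] in
theorem TriProps_lt (d : Dt K T S) : d.a < d.b := by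
  have h := d.ch
  unfold Ch at h
  by_contra hc
  apply h
  constructor
  · intro h'
    exact absurd h'.2.2.1 hc
  · intro h'
    exact absurd h'.2.2.1 hc

theorem src_alpha_ne (hS : IsSeq S T) {α : Equiv.Perm (Dt K T S)} (hα : IsAlpha α)
    (d : Dt K T S) : src (α d) ≠ src d := by
  rw [TriProps_srcAlpha hα, src]
  have h := TriProps_lt d
  split_ifs
  · exact h.ne
  · exact h.ne'

theorem pinj_arcs (hS : IsSeq S T) {α : Equiv.Perm (Dt K T S)} (hα : IsAlpha α)
    (good : Finset (Fin T)) (π : Perms T S) : PInj (arcs hS α good π) := by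
  intro p hp q hq
  simp only [arcs, mem_image, mem_univ, true_and] at hp hq
  obtain ⟨x, rfl⟩ := hp
  obtain ⟨y, rfl⟩ := hq
  simp only
  constructor
  · intro h
    rw [tri_injective hS π (α.injective h)]
  · intro h
    have e := tri_injective hS π h
    have e1 : x.1 = y.1 := (Prod.mk.inj e).1
    have e2 : x.2 + 1 = y.2 + 1 := (Prod.mk.inj e).2
    rw [show x = y from Prod.ext e1 (add_right_cancel e2)]

theorem src_arcs (hS : IsSeq S T) {α : Equiv.Perm (Dt K T S)} (hα : IsAlpha α)
    (good : Finset (Fin T)) (π : Perms T S) : ∀ p ∈ arcs hS α good π, src p.1 = src p.2 := by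
  intro p hp
  simp only [arcs, mem_image, mem_univ, true_and] at hp
  obtain ⟨x, rfl⟩ := hp
  exact (src_tri hS hα π x.1 x.2).symm

/-- A pair that is near at some time has a start. -/
theorem TriProps_start (hS : IsSeq S T) {x y : V} (h : ∃ τ, τ ≤ T ∧ Near K (S τ) x y) :
    ∃ d : Dt K T S, IsStart d ∧ d.a = x ∧ d.b = y := by
  classical
  have hfind := Nat.find_spec h
  have hmin := fun m hm => Nat.find_min (m := m) h hm
  set τ := Nat.find h with hτ
  obtain ⟨h1, h2⟩ := hfind
  have h0 : τ ≠ 0 := by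
    intro e
    rw [e, hS.zero] at h2
    exact absurd h2.1 (notMem_empty _)
  obtain ⟨t, ht⟩ := Nat.exists_eq_succ_of_ne_zero h0
  have h3 : ¬ Near K (S t) x y := by
    intro hc
    exact hmin t (by omega) ⟨by omega, hc⟩
  rw [ht] at h1 h2
  exact ⟨⟨⟨t, h1⟩, x, y, fun e => h3 (e.2 h2)⟩, h2, rfl, rfl⟩

/-- The adjacency of `seqGraph` in terms of darts. -/
theorem adj_iff_dart (hS : IsSeq S T) {α : Equiv.Perm (Dt K T S)} (hα : IsAlpha α) (x y : V) :
    (seqGraph K S T).Adj x y ↔ ∃ d, src d = x ∧ src (α d) = y := by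
  constructor
  · rintro (h | h)
    · obtain ⟨d, hd, ha, hb⟩ := TriProps_start hS h
      refine ⟨α d, ?_, ?_⟩
      · rw [TriProps_srcAlpha hα, if_pos hd, ha]
      · rw [hα.invol, src, if_pos hd, hb]
    · obtain ⟨d, hd, ha, hb⟩ := TriProps_start hS h
      refine ⟨d, ?_, ?_⟩
      · rw [src, if_pos hd, hb]
      · rw [TriProps_srcAlpha hα, if_pos hd, ha]
  · rintro ⟨d, rfl, rfl⟩
    rw [TriProps_srcAlpha hα, src]
    have hnear : ∃ τ, τ ≤ T ∧ Near K (S τ) d.a d.b := by
      by_cases h : Near K (S d.τ) d.a d.b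
      · exact ⟨d.τ, d.τ.2.le, h⟩
      · refine ⟨d.τ + 1, d.τ.2, ?_⟩
        by_contra hc
        exact d.ch ⟨fun e => absurd e h, fun e => absurd e hc⟩
    split_ifs
    · exact Or.inr hnear
    · exact Or.inl hnear

end Pool.Agent.H20.BK
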