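import Mathlib
import Pool.Agent.H20.BK.TriProps
import Pool.Agent.H20.BK.Harm

/-!
Project BK, module AvgStep. The arcs of one step at a vertex that does not change in this step.

Proof sketch of `avg_step`. The arcs at `x` (those with `src p.1 = x`) coming from step `τ` with
permutation `ρ`: the arc with index `((τ, (a, b)), j)` has source vertex
`src (tri (.., j+1))`; with `u = third`, deletion step: `j = 0 ↦ u`, `j = 1 ↦ b`, `j = 2 ↦ a`;
insertion step: `j = 0 ↦ u`, `j = 1 ↦ a`, `j = 2 ↦ b`. As `x ∉ chg S τ`, `x ≠ u`. Not both `x = a`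
for some instance and `x = b` for another one (`a` is above, `b` below all changing elements).
If `Part K S τ x` fails there are no arcs, and the sum is `0`.
Case `x = a` (some instance `(x, b₀)`): then all pairs `(x, u)`, `u ∈ chg S τ`, are near in the big
state, so the darts `r l := dart of (x, uu S τ l)` in step `τ` exist. The arcs are, in a deletion
step, `(α (dart of (x, b)), dart of (x, u))` (`j = 2`), i.e. `(p l, r (ρ l))` with
`l = lam (x, b)`, `L` = set of the indices of the instances `(x, b)`; `p` injective on `L`; use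
`sum_cyc_le`. In an insertion step they are `(α (dart of (x, u)), dart of (x, b))` (`j = 1`), i.e.
`(r' (ρ l), p' l)` with `r' l = α (dart of (x, uu l))`; use `sum_cyc_le'`.
Case `x = b`: deletion step: `(α (dart (u, x)), dart (a, x))`, insertion step:
`(α (dart (a, x)), dart (u, x))`; symmetric.
The set `Y = arcsAt hS α Θ π x` is a partial injection (`pinj_arcs`), it does not depend on the
value of `π` at `τ ∉ Θ`, its targets are darts of steps of `Θ` and its sources are images under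
`α` of darts of steps of `Θ`, so the disjointness hypotheses of `sum_cyc_le(')` hold.
-/

namespace Pool.Agent.H20.BK

open Finset

variable {V : Type*} [LinearOrder V] [Fintype V] {K T : ℕ} {S : ℕ → Finset V}

/-- The darts of a triangle, without reference to the set of good steps. -/
noncomputable def AvgStep_raw (hS : IsSeq S T) (τ : Fin T) (p : V × V) (hp : p ∈ inst K S τ)
    (σ : Equiv.Perm (Fin (chg S τ).card)) (j : Fin 3) : Dt K T S :=
  ⟨τ, (triPair S τ p.1 p.2 (uu S τ (σ (lam K S τ p hp))) j).1,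
    (triPair S τ p.1 p.2 (uu S τ (σ (lam K S τ p hp))) j).2,
    ch_triPair (hS.mono _ τ.2) hp (uu_mem S _ _) j⟩

theorem AvgStep_tri (hS : IsSeq S T) {good : Finset (Fin T)} (π : Perms T S) (τ : Fin T)
    (hτ : τ ∈ good) (p : V × V) (hp : p ∈ inst K S τ) (j : Fin 3) :
    tri hS (good := good) π (⟨⟨τ, hτ⟩, ⟨p, hp⟩⟩, j) = AvgStep_raw hS τ p hp (π τ) j := rfl

theorem AvgStep_mem (hS : IsSeq S T) (α : Equiv.Perm (Dt K T S)) (good : Finset (Fin T))
    (π : Perms T S) (x : V) (q : Dt K T S × Dt K T S) :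
    q ∈ arcsAt hS α good π x ↔ ∃ τ ∈ good, ∃ p, ∃ hp : p ∈ inst K S τ, ∃ j : Fin 3,
      (α (AvgStep_raw hS τ p hp (π τ) j), AvgStep_raw hS τ p hp (π τ) (j + 1)) = q ∧
        src q.1 = x := by
  simp only [arcsAt, arcs, mem_filter, mem_image, mem_univ, true_and]
  constructor
  · rintro ⟨⟨⟨⟨⟨τ, hτ⟩, ⟨p, hp⟩⟩, j⟩, h⟩, hx⟩
    exact ⟨τ, hτ, p, hp, j, h, hx⟩
  · rintro ⟨τ, hτ, p, hp, j, h, hx⟩
    exact ⟨⟨⟨⟨⟨τ, hτ⟩, ⟨p, hp⟩⟩, j⟩, h⟩, hx⟩

theorem arcsAt_update (hS : IsSeq S T) (α : Equiv.Perm (Dt K T S)) (Θ : Finset (Fin T))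
    (τ : Fin T) (hτ : τ ∉ Θ) (x : V) (π : Perms T S) (ρ : Equiv.Perm (Fin (chg S τ).card)) :
    arcsAt hS α Θ (Function.update π τ ρ) x = arcsAt hS α Θ π x := by
  ext q
  rw [AvgStep_mem, AvgStep_mem]
  constructor
  · rintro ⟨τ', hτ', p, hp, j, h⟩
    have hne : τ' ≠ τ := fun e => hτ (e ▸ hτ')
    rw [Function.update_of_ne hne] at h
    exact ⟨τ', hτ', p, hp, j, h⟩
  · rintro ⟨τ', hτ', p, hp, j, h⟩
    have hne : τ' ≠ τ := fun e => hτ (e ▸ hτ')
    refine ⟨τ', hτ', p, hp, j, ?_⟩
    rw [Function.update_of_ne hne]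
    exact h

/-- The arcs at `x` coming from one step. -/
def AvgStep_New (hS : IsSeq S T) (α : Equiv.Perm (Dt K T S)) (τ : Fin T) (x : V)
    (σ : Equiv.Perm (Fin (chg S τ).card)) (q : Dt K T S × Dt K T S) : Prop :=
  ∃ p, ∃ hp : p ∈ inst K S τ, ∃ j : Fin 3,
    (α (AvgStep_raw hS τ p hp σ j), AvgStep_raw hS τ p hp σ (j + 1)) = q ∧ src q.1 = x

theorem AvgStep_insert (hS : IsSeq S T) (α : Equiv.Perm (Dt K T S)) (Θ : Finset (Fin T))
    (τ : Fin T) (hτ : τ ∉ Θ) (x : V) (π : Perms T S) (ρ : Equiv.Perm (Fin (chg S τ).card))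
    (q : Dt K T S × Dt K T S) :
    q ∈ arcsAt hS α (insert τ Θ) (Function.update π τ ρ) x ↔
      q ∈ arcsAt hS α Θ π x ∨ AvgStep_New hS α τ x ρ q := by
  rw [AvgStep_mem, AvgStep_mem]
  constructor
  · rintro ⟨τ', hτ', p, hp, j, h⟩
    rcases mem_insert.1 hτ' with rfl | h'
    · right
      rw [Function.update_self] at h
      exact ⟨p, hp, j, h⟩
    · left
      have hne : τ' ≠ τ := fun e => hτ (e ▸ h')
      rw [Function.update_of_ne hne] at h
      exact ⟨τ', h', p, hp, j, h⟩
  · rintro (⟨τ', hτ', p, hp, j, h⟩ | ⟨p, hp, j, h⟩)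
    · have hne : τ' ≠ τ := fun e => hτ (e ▸ hτ')
      refine ⟨τ', mem_insert_of_mem hτ', p, hp, j, ?_⟩
      rw [Function.update_of_ne hne]
      exact h
    · refine ⟨τ, mem_insert_self _ _, p, hp, j, ?_⟩
      rw [Function.update_self]
      exact h

theorem AvgStep_isStart (hS : IsSeq S T) (τ : Fin T) (p : V × V) (hp : p ∈ inst K S τ)
    (σ : Equiv.Perm (Fin (chg S τ).card)) (j : Fin 3) :
    IsStart (AvgStep_raw hS τ p hp σ j) ↔ ((j = 2) ↔ ¬ S τ ⊆ S (τ + 1)) := by
  have h := isStart_tri (K := K) hS (good := {τ})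
    (Function.update (fun _ => 1) τ σ) ⟨⟨τ, mem_singleton_self _⟩, ⟨p, hp⟩⟩ j
  rw [AvgStep_tri, Function.update_self] at h
  exact h

theorem AvgStep_srcAlpha (hS : IsSeq S T) {α : Equiv.Perm (Dt K T S)} (hα : IsAlpha α)
    (τ : Fin T) (p : V × V) (hp : p ∈ inst K S τ) (σ : Equiv.Perm (Fin (chg S τ).card))
    (j : Fin 3) : src (α (AvgStep_raw hS τ p hp σ j)) = src (AvgStep_raw hS τ p hp σ (j + 1)) := by
  have h := src_tri (K := K) hS hα (good := {τ})
    (Function.update (fun _ => 1) τ σ) ⟨⟨τ, mem_singleton_self _⟩, ⟨p, hp⟩⟩ j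
  rw [AvgStep_tri, AvgStep_tri, Function.update_self] at h
  exact h.symm

theorem AvgStep_srcI (hS : IsSeq S T) (τ : Fin T) (p : V × V) (hp : p ∈ inst K S τ)
    (σ : Equiv.Perm (Fin (chg S τ).card)) (hI : S τ ⊆ S (τ + 1)) :
    src (AvgStep_raw hS τ p hp σ 0) = p.2 ∧
      src (AvgStep_raw hS τ p hp σ 1) = uu S τ (σ (lam K S τ p hp)) ∧
      src (AvgStep_raw hS τ p hp σ 2) = p.1 := by
  have h0 : IsStart (AvgStep_raw hS τ p hp σ 0) := by
    rw [AvgStep_isStart]; simp [hI]
  have h1 : IsStart (AvgStep_raw hS τ p hp σ 1) := by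
    rw [AvgStep_isStart]; simp [hI]
  have h2 : ¬ IsStart (AvgStep_raw hS τ p hp σ 2) := by
    rw [AvgStep_isStart]; simp [hI]
  refine ⟨?_, ?_, ?_⟩
  · rw [src, if_pos h0]; simp [AvgStep_raw, triPair, hI]
  · rw [src, if_pos h1]; simp [AvgStep_raw, triPair, hI]
  · rw [src, if_neg h2]; simp [AvgStep_raw, triPair, hI]

theorem AvgStep_srcD (hS : IsSeq S T) (τ : Fin T) (p : V × V) (hp : p ∈ inst K S τ)
    (σ : Equiv.Perm (Fin (chg S τ).card)) (hI : ¬ S τ ⊆ S (τ + 1)) :
    src (AvgStep_raw hS τ p hp σ 0) = p.1 ∧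
      src (AvgStep_raw hS τ p hp σ 1) = uu S τ (σ (lam K S τ p hp)) ∧
      src (AvgStep_raw hS τ p hp σ 2) = p.2 := by
  have h0 : ¬ IsStart (AvgStep_raw hS τ p hp σ 0) := by
    rw [AvgStep_isStart]; simp [hI]
  have h1 : ¬ IsStart (AvgStep_raw hS τ p hp σ 1) := by
    rw [AvgStep_isStart]; simp [hI]
  have h2 : IsStart (AvgStep_raw hS τ p hp σ 2) := by
    rw [AvgStep_isStart]; simp [hI]
  refine ⟨?_, ?_, ?_⟩
  · rw [src, if_neg h0]; simp [AvgStep_raw, triPair, hI]
  · rw [src, if_neg h1]; simp [AvgStep_raw, triPair, hI]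
  · rw [src, if_pos h2]; simp [AvgStep_raw, triPair, hI]

theorem AvgStep_close {D : Type*} [Fintype D] [DecidableEq D] {s : ℕ} (Y : Finset (D × D))
    {ι : Type*} [Fintype ι] [Nonempty ι] (g : ι → Fin s) (hg : Function.Injective g)
    (f : ι → D) (hf : Function.Injective f) (r : Fin s → D) (hr : Function.Injective r)
    (hY : PInj Y) (h1 : ∀ i, ∀ y ∈ Y, y.1 ≠ f i) (h2 : ∀ l, ∀ y ∈ Y, y.2 ≠ r l)
    (Z : Equiv.Perm (Fin s) → Finset (D × D))
    (hZ : ∀ π q, q ∈ Z π ↔ q ∈ Y ∨ ∃ i, (f i, r (π (g i))) = q) :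
    ∑ π : Equiv.Perm (Fin s), ((cyc (Z π) : ℝ) - (cyc Y : ℝ)) ≤
      (s.factorial : ℝ) * ((harmonic s : ℚ) : ℝ) := by
  have hP : ∀ i, f (Function.invFun g (g i)) = f i := fun i => by
    rw [Function.leftInverse_invFun hg i]
  have e : ∀ π, Z π = Y ∪ (univ.image g).image fun l => (f (Function.invFun g l), r (π l)) := by
    intro π
    ext q
    rw [hZ, mem_union]
    refine or_congr_right ?_
    simp only [mem_image, mem_univ, true_and, exists_exists_eq_and]
    constructor
    · rintro ⟨i, h⟩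
      exact ⟨i, by rw [hP]; exact h⟩
    · rintro ⟨i, h⟩
      exact ⟨i, by rw [hP] at h; exact h⟩
  simp_rw [e]
  refine sum_cyc_le Y (fun l => f (Function.invFun g l)) r (univ.image g) ?_ hr hY ?_ h2
  · intro l hl l' hl' h
    rw [mem_coe, mem_image] at hl hl'
    obtain ⟨i, -, rfl⟩ := hl
    obtain ⟨i', -, rfl⟩ := hl'
    simp only [hP] at h
    rw [hf h]
  · intro l hl y hy
    rw [mem_image] at hl
    obtain ⟨i, -, rfl⟩ := hl
    rw [hP]
    exact h1 i y hy

theorem AvgStep_close' {D : Type*} [Fintype D] [DecidableEq D] {s : ℕ} (Y : Finset (D × D))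
    {ι : Type*} [Fintype ι] [Nonempty ι] (g : ι → Fin s) (hg : Function.Injective g)
    (f : ι → D) (hf : Function.Injective f) (r : Fin s → D) (hr : Function.Injective r)
    (hY : PInj Y) (h1 : ∀ i, ∀ y ∈ Y, y.2 ≠ f i) (h2 : ∀ l, ∀ y ∈ Y, y.1 ≠ r l)
    (Z : Equiv.Perm (Fin s) → Finset (D × D))
    (hZ : ∀ π q, q ∈ Z π ↔ q ∈ Y ∨ ∃ i, (r (π (g i)), f i) = q) :
    ∑ π : Equiv.Perm (Fin s), ((cyc (Z π) : ℝ) - (cyc Y : ℝ)) ≤
      (s.factorial : ℝ) * ((harmonic s : ℚ) : ℝ) := by
  have hP : ∀ i, f (Function.invFun g (g i)) = f i := fun i => by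
    rw [Function.leftInverse_invFun hg i]
  have e : ∀ π, Z π = Y ∪ (univ.image g).image fun l => (r (π l), f (Function.invFun g l)) := by
    intro π
    ext q
    rw [hZ, mem_union]
    refine or_congr_right ?_
    simp only [mem_image, mem_univ, true_and, exists_exists_eq_and]
    constructor
    · rintro ⟨i, h⟩
      exact ⟨i, by rw [hP]; exact h⟩
    · rintro ⟨i, h⟩
      exact ⟨i, by rw [hP] at h; exact h⟩
  simp_rw [e]
  refine sum_cyc_le' Y (fun l => f (Function.invFun g l)) r (univ.image g) ?_ hr hY ?_ h2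
  · intro l hl l' hl' h
    rw [mem_coe, mem_image] at hl hl'
    obtain ⟨i, -, rfl⟩ := hl
    obtain ⟨i', -, rfl⟩ := hl'
    simp only [hP] at h
    rw [hf h]
  · intro l hl y hy
    rw [mem_image] at hl
    obtain ⟨i, -, rfl⟩ := hl
    rw [hP]
    exact h1 i y hy

theorem AvgStep_nonempty {τ : ℕ} {p : V × V} (hp : p ∈ inst K S τ) : (chg S τ).Nonempty := by
  simp only [inst, mem_filter, mem_univ, true_and] at hp
  rw [← card_pos]
  omega

theorem AvgStep_lt {τ : ℕ} {p : V × V} (hp : p ∈ inst K S τ) {u : V} (hu : u ∈ chg S τ) :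
    p.1 < u ∧ u < p.2 := by
  simp only [inst, mem_filter, mem_univ, true_and] at hp
  exact hp.2.2.1 u hu

theorem AvgStep_lam {τ : ℕ} {p p' : V × V} (hp : p ∈ inst K S τ) (hp' : p' ∈ inst K S τ)
    (h : lam K S τ p hp = lam K S τ p' hp') : btw (big S τ) p.1 p.2 = btw (big S τ) p'.1 p'.2 := by
  have e := congrArg Fin.val h
  simp only [lam] at e
  simp only [inst, mem_filter, mem_univ, true_and] at hp hp'
  omega

theorem AvgStep_uu_inj (S : ℕ → Finset V) (τ : ℕ) : Function.Injective (uu S τ) := fun _ _ h =>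
  (orderEmbOfFin (chg S τ) rfl).injective h

theorem AvgStep_ch_left (hS : IsSeq S T) (τ : Fin T) {p : V × V} (hp : p ∈ inst K S τ) {u : V}
    (hu : u ∈ chg S τ) : Ch K S τ p.1 u := by
  rw [ch_iff (hS.mono _ τ.2)]
  intro e
  exact (mem_sdiff.1 hu).2 (e.1 (near_big_left hp hu)).2.1

theorem AvgStep_ch_right (hS : IsSeq S T) (τ : Fin T) {p : V × V} (hp : p ∈ inst K S τ) {u : V}
    (hu : u ∈ chg S τ) : Ch K S τ u p.2 := by
  rw [ch_iff (hS.mono _ τ.2)]
  intro e
  exact (mem_sdiff.1 hu).2 (e.1 (near_big_right hp hu)).1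

theorem AvgStep_ch_ab (hS : IsSeq S T) (τ : Fin T) {p : V × V} (hp : p ∈ inst K S τ) :
    Ch K S τ p.1 p.2 := by
  rw [ch_iff (hS.mono _ τ.2)]
  intro e
  exact not_near_big_of_inst hp (e.2 (near_small_of_inst hp))

theorem avg_step (hS : IsSeq S T) {α : Equiv.Perm (Dt K T S)} (hα : IsAlpha α)
    (Θ : Finset (Fin T)) (τ : Fin T) (hτ : τ ∉ Θ) (x : V) (hx : x ∉ chg S τ) (π : Perms T S) :
    ∑ ρ : Equiv.Perm (Fin (chg S τ).card),
      ((cyc (arcsAt hS α (insert τ Θ) (Function.update π τ ρ) x) : ℝ) -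
        (cyc (arcsAt hS α Θ π x) : ℝ)) ≤
      if Part K S τ x then
        ((chg S τ).card.factorial : ℝ) * ((harmonic (chg S τ).card : ℚ) : ℝ) else 0 := by
  -- properties of `Y`
  have hY : PInj (arcsAt hS α Θ π x) := by
    intro p hp q hq
    exact pinj_arcs hS hα Θ π p (mem_filter.1 hp).1 q (mem_filter.1 hq).1
  have hY1 : ∀ y ∈ arcsAt hS α Θ π x, ∀ d : Dt K T S, d.τ = τ → y.1 ≠ α d := by
    intro y hy d hd h
    rw [AvgStep_mem] at hy
    obtain ⟨τ', hτ', p, hp, j, e, -⟩ := hy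
    rw [← e] at h
    have := α.injective h
    apply hτ
    rw [← hd, ← this]
    exact hτ'
  have hY2 : ∀ y ∈ arcsAt hS α Θ π x, ∀ d : Dt K T S, d.τ = τ → y.2 ≠ d := by
    intro y hy d hd h
    rw [AvgStep_mem] at hy
    obtain ⟨τ', hτ', p, hp, j, e, -⟩ := hy
    rw [← e] at h
    apply hτ
    rw [← hd, ← h]
    exact hτ'
  -- the three source vertices
  have key : ∀ ρ q, AvgStep_New hS α τ x ρ q ↔ ∃ p, ∃ hp : p ∈ inst K S τ,
      (S τ ⊆ S (τ + 1) ∧ p.1 = x ∧
        (α (AvgStep_raw hS τ p hp ρ 1), AvgStep_raw hS τ p hp ρ 2) = q) ∨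
      (S τ ⊆ S (τ + 1) ∧ p.2 = x ∧
        (α (AvgStep_raw hS τ p hp ρ 2), AvgStep_raw hS τ p hp ρ 0) = q) ∨
      (¬ S τ ⊆ S (τ + 1) ∧ p.1 = x ∧
        (α (AvgStep_raw hS τ p hp ρ 2), AvgStep_raw hS τ p hp ρ 0) = q) ∨
      (¬ S τ ⊆ S (τ + 1) ∧ p.2 = x ∧
        (α (AvgStep_raw hS τ p hp ρ 1), AvgStep_raw hS τ p hp ρ 2) = q) := by
    intro ρ q
    have a0 := fun p hp => AvgStep_srcAlpha hS hα τ p hp ρ 0
    have a1 := fun p hp => AvgStep_srcAlpha hS hα τ p hp ρ 1
    have a2 := fun p hp => AvgStep_srcAlpha hS hα τ p hp ρ 2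
    change ∀ p hp, _ = src (AvgStep_raw hS τ p hp ρ 1) at a0
    change ∀ p hp, _ = src (AvgStep_raw hS τ p hp ρ 2) at a1
    change ∀ p hp, _ = src (AvgStep_raw hS τ p hp ρ 0) at a2
    have hu : ∀ p hp, uu S τ (ρ (lam K S τ p hp)) ≠ x := fun p hp h =>
      hx (h ▸ uu_mem S _ _)
    constructor
    · rintro ⟨p, hp, j, e, hs⟩
      refine ⟨p, hp, ?_⟩
      rw [← e] at hs
      by_cases hI : S τ ⊆ S (τ + 1)
      · obtain ⟨s0, s1, s2⟩ := AvgStep_srcI hS τ p hp ρ hI
        match j with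
        | 0 => exact absurd (s1.symm.trans ((a0 p hp).symm.trans hs)) (hu p hp)
        | 1 => exact Or.inl ⟨hI, s2.symm.trans ((a1 p hp).symm.trans hs), e⟩
        | 2 => exact Or.inr (Or.inl ⟨hI, s0.symm.trans ((a2 p hp).symm.trans hs), e⟩)
      · obtain ⟨s0, s1, s2⟩ := AvgStep_srcD hS τ p hp ρ hI
        match j with
        | 0 => exact absurd (s1.symm.trans ((a0 p hp).symm.trans hs)) (hu p hp)
        | 1 =>
          exact Or.inr (Or.inr (Or.inr ⟨hI, s2.symm.trans ((a1 p hp).symm.trans hs), e⟩))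
        | 2 =>
          exact Or.inr (Or.inr (Or.inl ⟨hI, s0.symm.trans ((a2 p hp).symm.trans hs), e⟩))
    · rintro ⟨p, hp, h | h | h | h⟩
      · obtain ⟨hI, hpx, e⟩ := h
        obtain ⟨s0, s1, s2⟩ := AvgStep_srcI hS τ p hp ρ hI
        refine ⟨p, hp, 1, e, ?_⟩
        rw [← e]
        exact (a1 p hp).trans (s2.trans hpx)
      · obtain ⟨hI, hpx, e⟩ := h
        obtain ⟨s0, s1, s2⟩ := AvgStep_srcI hS τ p hp ρ hI
        refine ⟨p, hp, 2, e, ?_⟩
        rw [← e]
        exact (a2 p hp).trans (s0.trans hpx)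
      · obtain ⟨hI, hpx, e⟩ := h
        obtain ⟨s0, s1, s2⟩ := AvgStep_srcD hS τ p hp ρ hI
        refine ⟨p, hp, 2, e, ?_⟩
        rw [← e]
        exact (a2 p hp).trans (s0.trans hpx)
      · obtain ⟨hI, hpx, e⟩ := h
        obtain ⟨s0, s1, s2⟩ := AvgStep_srcD hS τ p hp ρ hI
        refine ⟨p, hp, 1, e, ?_⟩
        rw [← e]
        exact (a1 p hp).trans (s2.trans hpx)
  have hins := AvgStep_insert hS α Θ τ hτ x π
  split_ifs with hPart
  · obtain ⟨p0, hp0, h0 | h0⟩ := hPart
    · -- `x` is the upper vertex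
      have hno : ∀ p ∈ inst K S τ, p.2 ≠ x := by
        intro p hp h
        obtain ⟨u, hu⟩ := AvgStep_nonempty hp0
        have l1 := (AvgStep_lt hp0 hu).1
        have l2 := (AvgStep_lt hp hu).2
        rw [h0] at l1
        rw [h] at l2
        exact lt_asymm l1 l2
      have hchu : ∀ l, Ch K S τ x (uu S τ l) := fun l => by
        have := AvgStep_ch_left hS τ hp0 (uu_mem S τ l)
        rwa [h0] at this
      have : Nonempty {b : V // (x, b) ∈ inst K S τ} := ⟨⟨p0.2, by rw [← h0]; exact hp0⟩⟩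
      have hgi : Function.Injective
          (fun i : {b : V // (x, b) ∈ inst K S τ} => lam K S τ (x, i.1) i.2) := by
        intro i i' h
        exact Subtype.ext (inst_inj_left i.2 i'.2 (AvgStep_lam i.2 i'.2 h))
      by_cases hI : S τ ⊆ S (τ + 1)
      · refine AvgStep_close' (arcsAt hS α Θ π x) _ hgi
          (fun i => (⟨τ, x, i.1, AvgStep_ch_ab hS τ i.2⟩ : Dt K T S)) ?_
          (fun l => α ⟨τ, x, uu S τ l, hchu l⟩) ?_ hY ?_ ?_ _ ?_
        · intro i i' h
          exact Subtype.ext (congrArg Dt.b h)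
        · intro l l' h
          exact AvgStep_uu_inj S τ (congrArg Dt.b (α.injective h))
        · intro i y hy
          exact hY2 y hy _ rfl
        · intro l y hy
          exact hY1 y hy _ rfl
        · intro ρ q
          rw [hins ρ q, key ρ q]
          refine or_congr_right ?_
          constructor
          · rintro ⟨p, hp, h | h | h | h⟩
            · obtain ⟨-, hpx, e⟩ := h
              subst hpx
              refine ⟨⟨p.2, hp⟩, ?_⟩
              rw [← e]
              refine Prod.ext (congrArg α (Dt.ext rfl ?_ ?_)) (Dt.ext rfl ?_ ?_) <;>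
                simp [AvgStep_raw, triPair, hI]
            · exact absurd h.2.1 (hno p hp)
            · exact absurd hI h.1
            · exact absurd hI h.1
          · rintro ⟨i, e⟩
            refine ⟨(x, i.1), i.2, Or.inl ⟨hI, rfl, ?_⟩⟩
            rw [← e]
            refine Prod.ext (congrArg α (Dt.ext rfl ?_ ?_)) (Dt.ext rfl ?_ ?_) <;>
              simp [AvgStep_raw, triPair, hI]
      · refine AvgStep_close (arcsAt hS α Θ π x) _ hgi
          (fun i => α (⟨τ, x, i.1, AvgStep_ch_ab hS τ i.2⟩ : Dt K T S)) ?_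
          (fun l => ⟨τ, x, uu S τ l, hchu l⟩) ?_ hY ?_ ?_ _ ?_
        · intro i i' h
          exact Subtype.ext (congrArg Dt.b (α.injective h))
        · intro l l' h
          exact AvgStep_uu_inj S τ (congrArg Dt.b h)
        · intro i y hy
          exact hY1 y hy _ rfl
        · intro l y hy
          exact hY2 y hy _ rfl
        · intro ρ q
          rw [hins ρ q, key ρ q]
          refine or_congr_right ?_
          constructor
          · rintro ⟨p, hp, h | h | h | h⟩
            · exact absurd h.1 hI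
            · exact absurd h.1 hI
            · obtain ⟨-, hpx, e⟩ := h
              subst hpx
              refine ⟨⟨p.2, hp⟩, ?_⟩
              rw [← e]
              refine Prod.ext (congrArg α (Dt.ext rfl ?_ ?_)) (Dt.ext rfl ?_ ?_) <;>
                simp [AvgStep_raw, triPair, hI]
            · exact absurd h.2.1 (hno p hp)
          · rintro ⟨i, e⟩
            refine ⟨(x, i.1), i.2, Or.inr (Or.inr (Or.inl ⟨hI, rfl, ?_⟩))⟩
            rw [← e]
            refine Prod.ext (congrArg α (Dt.ext rfl ?_ ?_)) (Dt.ext rfl ?_ ?_) <;>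
              simp [AvgStep_raw, triPair, hI]
    · -- `x` is the lower vertex
      have hno : ∀ p ∈ inst K S τ, p.1 ≠ x := by
        intro p hp h
        obtain ⟨u, hu⟩ := AvgStep_nonempty hp0
        have l1 := (AvgStep_lt hp0 hu).2
        have l2 := (AvgStep_lt hp hu).1
        rw [h0] at l1
        rw [h] at l2
        exact lt_asymm l1 l2
      have hchu : ∀ l, Ch K S τ (uu S τ l) x := fun l => by
        have := AvgStep_ch_right hS τ hp0 (uu_mem S τ l)
        rwa [h0] at this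
      have : Nonempty {a : V // (a, x) ∈ inst K S τ} := ⟨⟨p0.1, by rw [← h0]; exact hp0⟩⟩
      have hgi : Function.Injective
          (fun i : {a : V // (a, x) ∈ inst K S τ} => lam K S τ (i.1, x) i.2) := by
        intro i i' h
        exact Subtype.ext (inst_inj_right i.2 i'.2 (AvgStep_lam i.2 i'.2 h))
      by_cases hI : S τ ⊆ S (τ + 1)
      · refine AvgStep_close (arcsAt hS α Θ π x) _ hgi
          (fun i => α (⟨τ, i.1, x, AvgStep_ch_ab hS τ i.2⟩ : Dt K T S)) ?_
          (fun l => ⟨τ, uu S τ l, x, hchu l⟩) ?_ hY ?_ ?_ _ ?_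
        · intro i i' h
          exact Subtype.ext (congrArg Dt.a (α.injective h))
        · intro l l' h
          exact AvgStep_uu_inj S τ (congrArg Dt.a h)
        · intro i y hy
          exact hY1 y hy _ rfl
        · intro l y hy
          exact hY2 y hy _ rfl
        · intro ρ q
          rw [hins ρ q, key ρ q]
          refine or_congr_right ?_
          constructor
          · rintro ⟨p, hp, h | h | h | h⟩
            · exact absurd h.2.1 (hno p hp)
            · obtain ⟨-, hpx, e⟩ := h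
              subst hpx
              refine ⟨⟨p.1, hp⟩, ?_⟩
              rw [← e]
              refine Prod.ext (congrArg α (Dt.ext rfl ?_ ?_)) (Dt.ext rfl ?_ ?_) <;>
                simp [AvgStep_raw, triPair, hI]
            · exact absurd hI h.1
            · exact absurd hI h.1
          · rintro ⟨i, e⟩
            refine ⟨(i.1, x), i.2, Or.inr (Or.inl ⟨hI, rfl, ?_⟩)⟩
            rw [← e]
            refine Prod.ext (congrArg α (Dt.ext rfl ?_ ?_)) (Dt.ext rfl ?_ ?_) <;>
              simp [AvgStep_raw, triPair, hI]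
      · refine AvgStep_close' (arcsAt hS α Θ π x) _ hgi
          (fun i => (⟨τ, i.1, x, AvgStep_ch_ab hS τ i.2⟩ : Dt K T S)) ?_
          (fun l => α ⟨τ, uu S τ l, x, hchu l⟩) ?_ hY ?_ ?_ _ ?_
        · intro i i' h
          exact Subtype.ext (congrArg Dt.a h)
        · intro l l' h
          exact AvgStep_uu_inj S τ (congrArg Dt.a (α.injective h))
        · intro i y hy
          exact hY2 y hy _ rfl
        · intro l y hy
          exact hY1 y hy _ rfl
        · intro ρ q
          rw [hins ρ q, key ρ q]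
          refine or_congr_right ?_
          constructor
          · rintro ⟨p, hp, h | h | h | h⟩
            · exact absurd h.1 hI
            · exact absurd h.1 hI
            · exact absurd h.2.1 (hno p hp)
            · obtain ⟨-, hpx, e⟩ := h
              subst hpx
              refine ⟨⟨p.1, hp⟩, ?_⟩
              rw [← e]
              refine Prod.ext (congrArg α (Dt.ext rfl ?_ ?_)) (Dt.ext rfl ?_ ?_) <;>
                simp [AvgStep_raw, triPair, hI]
          · rintro ⟨i, e⟩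
            refine ⟨(i.1, x), i.2, Or.inr (Or.inr (Or.inr ⟨hI, rfl, ?_⟩))⟩
            rw [← e]
            refine Prod.ext (congrArg α (Dt.ext rfl ?_ ?_)) (Dt.ext rfl ?_ ?_) <;>
              simp [AvgStep_raw, triPair, hI]
  · have e : ∀ ρ, arcsAt hS α (insert τ Θ) (Function.update π τ ρ) x = arcsAt hS α Θ π x := by
      intro ρ
      ext q
      rw [hins ρ q, key ρ q]
      constructor
      · rintro (h | ⟨p, hp, h⟩)
        · exact h
        · exfalso
          apply hPart
          refine ⟨p, hp, ?_⟩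
          rcases h with h | h | h | h
          · exact Or.inl h.2.1
          · exact Or.inr h.2.1
          · exact Or.inl h.2.1
          · exact Or.inr h.2.1
      · exact Or.inl
    simp [e]

end Pool.Agent.H20.BK
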