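import Mathlib
import Pool.Agent.H20.BK.Model

/-!
Project BK, module Count. Counting near pairs.
-/

namespace Pool.Agent.H20.BK

open Finset

variable {V : Type*} [LinearOrder V] [Fintype V]

omit [Fintype V] in
private theorem Count_btw_lt {S : Finset V} {a a' w : V} (h : a < a') (ha' : a' ∈ S) (hw : a' < w) :
    btw S a' w < btw S a w := by
  unfold btw
  apply card_lt_card
  rw [ssubset_iff_of_subset]
  · exact ⟨a', by simp [ha', h, hw], by simp⟩
  · intro c hc
    simp only [mem_filter] at hc ⊢
    exact ⟨hc.1, h.trans hc.2.1, hc.2.2⟩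

omit [Fintype V] in
private theorem Count_btw_lt' {S : Finset V} {b b' w : V} (h : b < b') (hb : b ∈ S) (hw : w < b) :
    btw S w b < btw S w b' := by
  unfold btw
  apply card_lt_card
  rw [ssubset_iff_of_subset]
  · exact ⟨b, by simp [hb, h, hw], by simp⟩
  · intro c hc
    simp only [mem_filter] at hc ⊢
    exact ⟨hc.1, hc.2.1, hc.2.2.trans h⟩

omit [Fintype V] in
private theorem Count_btw_inj {S : Finset V} {a a' w : V} (ha : a ∈ S) (ha' : a' ∈ S)
    (hw : a < w) (hw' : a' < w) (he : btw S a w = btw S a' w) : a = a' := by
  rcases lt_trichotomy a a' with h | h | h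
  · have := Count_btw_lt h ha' hw'
    omega
  · exact h
  · have := Count_btw_lt h ha hw
    omega

omit [Fintype V] in
private theorem Count_btw_inj' {S : Finset V} {b b' w : V} (hb : b ∈ S) (hb' : b' ∈ S)
    (hw : w < b) (hw' : w < b') (he : btw S w b = btw S w b') : b = b' := by
  rcases lt_trichotomy b b' with h | h | h
  · have := Count_btw_lt' h hb hw
    omega
  · exact h
  · have := Count_btw_lt' h hb' hw'
    omega

omit [Fintype V] in
private theorem Count_top (K : ℕ) (S : Finset V) :
    (S.filter fun x => (S.filter fun c => x < c).card < K).card = min S.card K := by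
  induction S using Finset.induction_on_min with
  | empty => simp
  | insert a S ha ih =>
    have haS : a ∉ S := fun h => lt_irrefl a (ha a h)
    rw [card_insert_of_notMem haS, filter_insert]
    have h1 : ((insert a S).filter fun c => a < c) = S := by
      rw [filter_insert, if_neg (lt_irrefl a)]
      exact filter_true_of_mem ha
    have h2 : (S.filter fun x => ((insert a S).filter fun c => x < c).card < K) =
        S.filter fun x => (S.filter fun c => x < c).card < K := by
      apply filter_congr
      intro x hx
      have : ((insert a S).filter fun c => x < c) = S.filter fun c => x < c := by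
        rw [filter_insert, if_neg (not_lt.2 (ha x hx).le)]
      rw [this]
    rw [h1, h2]
    split_ifs with h
    · rw [card_insert_of_notMem (fun h' => haS (mem_filter.1 h').1), ih]
      omega
    · rw [ih]
      omega

/-- Number of near pairs of a state: adding the last element of the order adds `min |S| K` pairs. -/
theorem near_card (K : ℕ) (S : Finset V) :
    (univ.filter fun p : V × V => Near K S p.1 p.2).card = ∑ j ∈ range S.card, min j K := by
  induction S using Finset.induction_on_max with
  | empty =>
    simp [Near]
  | insert a S ha ih =>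
    have haS : a ∉ S := fun h => lt_irrefl a (ha a h)
    rw [card_insert_of_notMem haS, sum_range_succ, ← ih, ← Count_top K S]
    have key : (univ.filter fun p : V × V => Near K (insert a S) p.1 p.2) =
        (univ.filter fun p : V × V => Near K S p.1 p.2) ∪
          ((S.filter fun x => (S.filter fun c => x < c).card < K).image fun x => (x, a)) := by
      ext ⟨x, y⟩
      simp only [mem_filter, mem_univ, true_and, mem_union, mem_image, Prod.mk.injEq]
      unfold Near
      simp only [mem_insert]
      constructor
      · rintro ⟨h1, h2, h3, h4⟩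
        rcases h2 with rfl | h2
        · right
          have hx : x ∈ S := by
            rcases h1 with rfl | h1
            · exact absurd h3 (lt_irrefl _)
            · exact h1
          refine ⟨x, ⟨hx, ?_⟩, rfl, rfl⟩
          have : (S.filter fun c => x < c) ⊆ ((insert y S).filter fun c => x < c ∧ c < y) := by
            intro c hc
            simp only [mem_filter, mem_insert] at hc ⊢
            exact ⟨Or.inr hc.1, hc.2, ha c hc.1⟩
          exact lt_of_le_of_lt (card_le_card this) h4
        · left
          have hx : x ∈ S := by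
            rcases h1 with rfl | h1
            · exact absurd (h3.trans (ha y h2)) (lt_irrefl _)
            · exact h1
          refine ⟨hx, h2, h3, ?_⟩
          have : (S.filter fun c => x < c ∧ c < y) ⊆
              ((insert a S).filter fun c => x < c ∧ c < y) :=
            filter_subset_filter _ (subset_insert _ _)
          exact lt_of_le_of_lt (card_le_card this) h4
      · rintro (⟨h1, h2, h3, h4⟩ | ⟨x', ⟨h1, h2⟩, rfl, rfl⟩)
        · refine ⟨Or.inr h1, Or.inr h2, h3, ?_⟩
          have : ((insert a S).filter fun c => x < c ∧ c < y) ⊆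
              (S.filter fun c => x < c ∧ c < y) := by
            intro c hc
            simp only [mem_filter, mem_insert] at hc ⊢
            rcases hc with ⟨rfl | hc, h5, h6⟩
            · exact absurd (h6.trans (ha y h2)) (lt_irrefl _)
            · exact ⟨hc, h5, h6⟩
          exact lt_of_le_of_lt (card_le_card this) h4
        · refine ⟨Or.inr h1, Or.inl rfl, ha x' h1, ?_⟩
          have : ((insert a S).filter fun c => x' < c ∧ c < a) ⊆
              (S.filter fun c => x' < c) := by
            intro c hc
            simp only [mem_filter, mem_insert] at hc ⊢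
            rcases hc with ⟨rfl | hc, h5, h6⟩
            · exact absurd h6 (lt_irrefl _)
            · exact ⟨hc, h5⟩
          exact lt_of_le_of_lt (card_le_card this) h2
    rw [key, card_union_of_disjoint, card_image_of_injective]
    · intro x y h
      exact (Prod.mk.inj h).1
    · rw [disjoint_left]
      rintro ⟨x, y⟩ h1 h2
      simp only [mem_filter, mem_univ, true_and, mem_image, Prod.mk.injEq] at h1 h2
      obtain ⟨_, _, _, rfl⟩ := h2
      exact haS h1.2.1

omit [Fintype V] in
private theorem Count_card_big (S : ℕ → Finset V) (τ : ℕ) :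
    (big S τ).card = (small S τ).card + (chg S τ).card := by
  have hsub : small S τ ⊆ big S τ := inter_subset_left.trans subset_union_left
  rw [chg, card_sdiff_of_subset hsub]
  have := card_le_card hsub
  omega

private theorem Count_sum_min (K m d : ℕ) :
    ∑ j ∈ range (m + d), min j K ≤ ∑ j ∈ range m, min j K + K * d := by
  induction d with
  | zero => simp
  | succ d ih =>
    rw [← add_assoc, sum_range_succ, mul_add, mul_one]
    have : min (m + d) K ≤ K := min_le_right _ _
    omega

/-- `|e1| - |e2| = h(|big|) - h(|small|) ≤ K |chg|` with `h(N) = ∑_{j<N} min j K`. -/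
theorem card_e1_le (K : ℕ) (S : ℕ → Finset V) (τ : ℕ) :
    (e1 K S τ).card ≤ (e2 K S τ).card + K * (chg S τ).card := by
  have h1 := near_card K (big S τ)
  have h2 := near_card K (small S τ)
  rw [Count_card_big] at h1
  have h3 := Count_sum_min K (small S τ).card (chg S τ).card
  have h4 := card_filter_add_card_filter_not
    (s := univ.filter fun p : V × V => Near K (big S τ) p.1 p.2)
    (fun p : V × V => Near K (small S τ) p.1 p.2)
  have h5 := card_filter_add_card_filter_not
    (s := univ.filter fun p : V × V => Near K (small S τ) p.1 p.2)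
    (fun p : V × V => Near K (big S τ) p.1 p.2)
  rw [filter_filter, filter_filter] at h4 h5
  have h6 : (univ.filter fun p : V × V =>
      Near K (big S τ) p.1 p.2 ∧ Near K (small S τ) p.1 p.2) =
      (univ.filter fun p : V × V =>
      Near K (small S τ) p.1 p.2 ∧ Near K (big S τ) p.1 p.2) := by
    ext p
    simp only [mem_filter, mem_univ, true_and, and_comm]
  rw [h6] at h4
  unfold e1 e2
  omega

private theorem Count_one (K : ℕ) (S : Finset V) (w : V) :
    (univ.filter fun p : V × V => Near K (S.erase w) p.1 p.2 ∧ ¬ Near K S p.1 p.2).card ≤ K := by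
  have hmaps : ∀ p ∈ (univ.filter fun p : V × V =>
      Near K (S.erase w) p.1 p.2 ∧ ¬ Near K S p.1 p.2),
      p.1 ∈ S ∧ p.2 ∈ S ∧ p.1 < w ∧ w < p.2 ∧ btw S p.1 w + 1 + btw S w p.2 = K := by
    rintro ⟨a, b⟩ hp
    simp only [mem_filter, mem_univ, true_and, Near, mem_erase] at hp ⊢
    obtain ⟨⟨h1, h2, h3, h4⟩, h5⟩ := hp
    have h6 : K ≤ btw S a b := by
      by_contra h
      exact h5 ⟨h1.2, h2.2, h3, not_le.1 h⟩
    have h7 : w ∈ S ∧ a < w ∧ w < b := by
      by_contra h
      have : S.filter (fun c => a < c ∧ c < b) ⊆ (S.erase w).filter (fun c => a < c ∧ c < b) := by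
        intro c hc
        simp only [mem_filter, mem_erase] at hc ⊢
        refine ⟨⟨?_, hc.1⟩, hc.2⟩
        rintro rfl
        exact h ⟨hc.1, hc.2⟩
      have := card_le_card this
      unfold btw at h4 h6
      omega
    obtain ⟨hw, hw1, hw2⟩ := h7
    have h8 : S.filter (fun c => a < c ∧ c < b) =
        insert w ((S.filter fun c => a < c ∧ c < w) ∪ (S.filter fun c => w < c ∧ c < b)) := by
      ext c
      simp only [mem_filter, mem_insert, mem_union]
      constructor
      · rintro ⟨h, h', h''⟩
        rcases lt_trichotomy c w with h9 | h9 | h9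
        · exact Or.inr (Or.inl ⟨h, h', h9⟩)
        · exact Or.inl h9
        · exact Or.inr (Or.inr ⟨h, h9, h''⟩)
      · rintro (rfl | ⟨h, h', h''⟩ | ⟨h, h', h''⟩)
        · exact ⟨hw, hw1, hw2⟩
        · exact ⟨h, h', h''.trans hw2⟩
        · exact ⟨h, hw1.trans h', h''⟩
    have h9 : btw S a b = btw S a w + 1 + btw S w b := by
      unfold btw
      rw [h8, card_insert_of_notMem (by simp), card_union_of_disjoint]
      · omega
      · rw [disjoint_left]
        intro c hc hc'
        simp only [mem_filter] at hc hc'
        exact lt_asymm hc.2.2 hc'.2.1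
    have h10 : btw S a b ≤ btw (S.erase w) a b + 1 := by
      unfold btw
      have : S.filter (fun c => a < c ∧ c < b) ⊆
          insert w ((S.erase w).filter (fun c => a < c ∧ c < b)) := by
        intro c hc
        simp only [mem_filter, mem_insert, mem_erase] at hc ⊢
        by_cases h : c = w
        · exact Or.inl h
        · exact Or.inr ⟨⟨h, hc.1⟩, hc.2⟩
      exact (card_le_card this).trans (card_insert_le _ _)
    refine ⟨h1.2, h2.2, hw1, hw2, ?_⟩
    omega
  have := card_le_card_of_injOn (s := univ.filter fun p : V × V =>
      Near K (S.erase w) p.1 p.2 ∧ ¬ Near K S p.1 p.2) (t := range K) (fun p => btw S p.1 w)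
    (by
      intro p hp
      have := hmaps p hp
      simp only [coe_range, Set.mem_Iio]
      omega)
    (by
      intro p hp p' hp' he
      have h := hmaps p hp
      have h' := hmaps p' hp'
      simp only at he
      refine Prod.ext ?_ ?_
      · exact Count_btw_inj h.1 h'.1 h.2.2.1 h'.2.2.1 he
      · exact Count_btw_inj' h.2.1 h'.2.1 h.2.2.2.1 h'.2.2.2.1 (by omega))
  simpa using this

private theorem Count_many (K : ℕ) (S W : Finset V) :
    (univ.filter fun p : V × V => Near K (S \ W) p.1 p.2 ∧ ¬ Near K S p.1 p.2).card ≤
      K * W.card := by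
  induction W using Finset.induction_on with
  | empty =>
    have : (univ.filter fun p : V × V => Near K (S \ ∅) p.1 p.2 ∧ ¬ Near K S p.1 p.2) = ∅ := by
      rw [filter_eq_empty_iff]
      intro p _
      rw [sdiff_empty]
      tauto
    rw [this]
    simp
  | insert w W hw ih =>
    rw [card_insert_of_notMem hw, mul_add, mul_one]
    have h1 : (univ.filter fun p : V × V =>
        Near K (S \ insert w W) p.1 p.2 ∧ ¬ Near K S p.1 p.2) ⊆
        (univ.filter fun p : V × V => Near K (S \ W) p.1 p.2 ∧ ¬ Near K S p.1 p.2) ∪
        (univ.filter fun p : V × V =>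
          Near K ((S \ W).erase w) p.1 p.2 ∧ ¬ Near K (S \ W) p.1 p.2) := by
      intro p hp
      have he : S \ insert w W = (S \ W).erase w := sdiff_insert S W w
      rw [he] at hp
      simp only [mem_filter, mem_univ, true_and, mem_union] at hp ⊢
      tauto
    exact (card_le_card h1).trans ((card_union_le _ _).trans (add_le_add ih (Count_one K _ w)))

/-- For given `a` at most... remove the changing elements one by one: removing one element makes at
most `K` new pairs near. -/
theorem card_e2_le (K : ℕ) (S : ℕ → Finset V) (τ : ℕ) :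
    (e2 K S τ).card ≤ K * (chg S τ).card := by
  have hsub : small S τ ⊆ big S τ := inter_subset_left.trans subset_union_left
  have h := Count_many K (big S τ) (chg S τ)
  have h1 : big S τ \ chg S τ = small S τ := by
    rw [chg, sdiff_sdiff_right_self]
    exact inter_eq_right.2 hsub
  rw [h1] at h
  exact h

omit [Fintype V] in
private theorem Count_two {S : ℕ → Finset V} {T : ℕ} (hS : IsSeq S T) (v : V) :
    ((range T).filter fun τ => v ∈ chg S τ).card = 2 := by
  classical
  obtain ⟨m, hm, hvm⟩ := hS.all v
  have h0 : v ∉ S 0 := by rw [hS.zero]; simp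
  have hT : v ∉ S T := by rw [hS.last]; simp
  -- first and last time
  have hex : ∃ i, v ∈ S i := ⟨m, hvm⟩
  set i := Nat.find hex with hi
  have hi1 : v ∈ S i := Nat.find_spec hex
  have hi2 : ∀ j < i, v ∉ S j := fun j hj => Nat.find_min hex hj
  have him : i ≤ m := Nat.find_min' hex hvm
  have hi0 : i ≠ 0 := fun h => h0 (h ▸ hi1)
  have hex' : ∃ j, m ≤ j ∧ v ∉ S j := ⟨T, hm, hT⟩
  set j := Nat.find hex' with hj
  have hj1 : m ≤ j ∧ v ∉ S j := Nat.find_spec hex'
  have hj2 : ∀ l < j, ¬ (m ≤ l ∧ v ∉ S l) := fun l hl => Nat.find_min hex' hl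
  have hjT : j ≤ T := Nat.find_min' hex' ⟨hm, hT⟩
  have hmj : m < j := lt_of_le_of_ne hj1.1 (fun h => hj1.2 (h ▸ hvm))
  have hin : ∀ l, i ≤ l → l < j → v ∈ S l := by
    intro l h1 h2
    rcases le_total m l with h | h
    · by_contra hcon
      exact hj2 l h2 ⟨h, hcon⟩
    · exact hS.conv v i l m h1 h hm hi1 hvm
  have hout : ∀ l, j ≤ l → l ≤ T → v ∉ S l := by
    intro l h1 h2 hcon
    exact hj1.2 (hS.conv v m j l hj1.1 h1 h2 hvm hcon)
  have hchg : ∀ τ, v ∈ chg S τ ↔ ¬ (v ∈ S τ ↔ v ∈ S (τ + 1)) := by
    intro τ
    simp only [chg, big, small, mem_sdiff, mem_union, mem_inter]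
    tauto
  have hset : ((range T).filter fun τ => v ∈ chg S τ) = {i - 1, j - 1} := by
    ext τ
    simp only [mem_filter, mem_range, mem_insert, mem_singleton, hchg]
    constructor
    · rintro ⟨h1, h2⟩
      by_contra hcon
      push Not at hcon
      apply h2
      rcases lt_or_ge (τ + 1) i with h | h
      · exact iff_of_false (hi2 τ (by omega)) (hi2 _ h)
      · rcases lt_or_ge (τ + 1) j with h' | h'
        · exact iff_of_true (hin τ (by omega) (by omega)) (hin _ h h')
        · exact iff_of_false (hout τ (by omega) (by omega)) (hout _ h' (by omega))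
    · rintro (rfl | rfl)
      · refine ⟨by omega, fun h => ?_⟩
        have h1 : v ∉ S (i - 1) := hi2 _ (by omega)
        have h2 : v ∈ S (i - 1 + 1) := by
          rw [Nat.sub_add_cancel (by omega)]; exact hi1
        exact h1 (h.2 h2)
      · refine ⟨by omega, fun h => ?_⟩
        have h1 : v ∈ S (j - 1) := hin _ (by omega) (by omega)
        have h2 : v ∉ S (j - 1 + 1) := by
          rw [Nat.sub_add_cancel (by omega)]; exact hj1.2
        exact h2 (h.1 h1)
  rw [hset, card_pair]
  omega

/-- Every element is inserted in exactly one step and deleted in exactly one step. -/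
theorem sum_card_chg {S : ℕ → Finset V} {T : ℕ} (hS : IsSeq S T) :
    ∑ τ ∈ range T, (chg S τ).card = 2 * Fintype.card V := by
  classical
  have h1 : ∀ τ, (chg S τ).card = ∑ v : V, if v ∈ chg S τ then 1 else 0 := by
    intro τ
    rw [← card_filter, filter_mem_eq_inter, univ_inter]
  simp only [h1]
  rw [sum_comm]
  have h2 : ∀ v : V, ∑ τ ∈ range T, (if v ∈ chg S τ then 1 else 0) = 2 := by
    intro v
    rw [← card_filter]
    exact Count_two hS v
  simp only [h2, sum_const, card_univ, smul_eq_mul]
  ring

/-- The darts of step `τ` are the pairs of `e1` and `e2`. -/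
theorem card_Dt {S : ℕ → Finset V} {T : ℕ} (hS : IsSeq S T) (K : ℕ) :
    Fintype.card (Dt K T S) = ∑ τ ∈ range T, ((e1 K S τ).card + (e2 K S τ).card) := by
  classical
  rw [← Fintype.card_congr (Dt.equiv K T S), Fintype.card_subtype]
  rw [← Fin.sum_univ_eq_sum_range (fun τ => (e1 K S τ).card + (e2 K S τ).card) T]
  rw [card_filter, Fintype.sum_prod_type]
  refine sum_congr rfl fun τ _ => ?_
  rw [← card_filter]
  have h : (univ.filter fun p : V × V => Ch K S τ p.1 p.2) = e1 K S τ ∪ e2 K S τ := by
    ext p
    simp only [mem_filter, mem_univ, true_and, e1, e2, mem_union]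
    rw [ch_iff (hS.mono τ τ.2)]
    tauto
  rw [h, card_union_of_disjoint]
  rw [disjoint_left]
  intro p hp hp'
  simp only [e1, e2, mem_filter, mem_univ, true_and] at hp hp'
  exact hp.2 hp'.1

end Pool.Agent.H20.BK
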