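import Mathlib
import Pool.Agent.H20.BK.CycDefs

/-!
Project BK, module Fiber. If all arcs stay inside the fibres of a map, the cycle number is the sum
of the cycle numbers of the fibres.

Proof sketch. `cyc (Y_x)` with `Y_x = Y.filter (f p.1 = x)`, on the whole set `D`: the classes of
`Y_x` are the classes of `Y` contained in the fibre of `x`, and singletons for the points outside
the fibre. So `cyc Y_x = (number of classes of Y in the fibre) + |Y_x| - |fibre|`. Sum over `x`.
-/

namespace Pool.Agent.H20.BK

open Finset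

private theorem Fiber_eqv {D V : Type*} [DecidableEq V]
    (f : D → V) (Y : Finset (D × D)) (h : ∀ p ∈ Y, f p.1 = f p.2) (x : V) {a b : D}
    (hab : Relation.EqvGen (fun a b : D => (a, b) ∈ Y) a b) :
    f a = f b ∧ (f a = x →
      Quot.mk (fun a b : D => (a, b) ∈ Y.filter fun p => f p.1 = x) a =
        Quot.mk (fun a b : D => (a, b) ∈ Y.filter fun p => f p.1 = x) b) := by
  induction hab with
  | rel a b hr =>
    refine ⟨h _ hr, fun hx => Quot.sound ?_⟩
    exact mem_filter.2 ⟨hr, hx⟩
  | refl a => exact ⟨rfl, fun _ => rfl⟩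
  | symm a b _ ih => exact ⟨ih.1.symm, fun hx => (ih.2 (ih.1.trans hx)).symm⟩
  | trans a b c _ _ ih1 ih2 =>
    exact ⟨ih1.1.trans ih2.1, fun hx => (ih1.2 hx).trans (ih2.2 (ih1.1.symm.trans hx))⟩

private theorem Fiber_card {D V : Type*} [Fintype D] [DecidableEq V]
    (f : D → V) (Y : Finset (D × D)) (h : ∀ p ∈ Y, f p.1 = f p.2) (x : V)
    (g : Quot (fun a b : D => (a, b) ∈ Y) → V) (hg : ∀ d, g (Quot.mk _ d) = f d) :
    ncls (Y.filter fun p => f p.1 = x) + Nat.card {d : D // f d = x} =
      Nat.card {c : Quot (fun a b : D => (a, b) ∈ Y) // g c = x} + Nat.card D := by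
  classical
  let F : D → {c : Quot (fun a b : D => (a, b) ∈ Y) // g c = x} ⊕ {d : D // ¬ f d = x} :=
    fun d => if hd : f d = x then Sum.inl ⟨Quot.mk _ d, (hg d).trans hd⟩ else Sum.inr ⟨d, hd⟩
  let φ : Quot (fun a b : D => (a, b) ∈ Y.filter fun p => f p.1 = x) →
      {c : Quot (fun a b : D => (a, b) ∈ Y) // g c = x} ⊕ {d : D // ¬ f d = x} :=
    Quot.lift F (by
      intro a b hab
      have hab' := mem_filter.1 hab
      have ha : f a = x := hab'.2
      have hb : f b = x := (h _ hab'.1).symm.trans hab'.2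
      simp only [F, ha, hb, dif_pos, Sum.inl.injEq, Subtype.mk.injEq]
      exact Quot.sound hab'.1)
  have hφ : Function.Bijective φ := by
    constructor
    · intro c c' hcc
      induction c using Quot.ind with | mk a => ?_
      induction c' using Quot.ind with | mk b => ?_
      change F a = F b at hcc
      by_cases ha : f a = x <;> by_cases hb : f b = x
      · simp only [F, ha, hb, dif_pos, Sum.inl.injEq, Subtype.mk.injEq] at hcc
        exact (Fiber_eqv f Y h x (Quot.eqvGen_exact hcc)).2 ha
      · simp [F, ha, hb] at hcc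
      · simp [F, ha, hb] at hcc
      · simp only [F, ha, hb, not_false_eq_true, dif_neg, Sum.inr.injEq, Subtype.mk.injEq] at hcc
        rw [hcc]
    · rintro (⟨c, hc⟩ | ⟨d, hd⟩)
      · induction c using Quot.ind with | mk a => ?_
        have ha : f a = x := (hg a).symm.trans hc
        refine ⟨Quot.mk _ a, ?_⟩
        change F a = _
        simp only [F, ha, dif_pos]
      · refine ⟨Quot.mk _ d, ?_⟩
        change F d = _
        simp only [F, hd, not_false_eq_true, dif_neg]
  have h1 : ncls (Y.filter fun p => f p.1 = x) =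
      Nat.card {c : Quot (fun a b : D => (a, b) ∈ Y) // g c = x} +
        Nat.card {d : D // ¬ f d = x} := by
    unfold ncls
    rw [Nat.card_eq_of_bijective φ hφ]
    have : Finite (Quot (fun a b : D => (a, b) ∈ Y)) := Quot.finite _
    exact Nat.card_sum
  have h2 : Nat.card D = Nat.card {d : D // f d = x} + Nat.card {d : D // ¬ f d = x} := by
    rw [← Nat.card_sum]
    exact Nat.card_congr (Equiv.sumCompl _).symm
  rw [h1, h2]
  ring

theorem cyc_fiber {D V : Type*} [Fintype D] [DecidableEq D] [Fintype V] [DecidableEq V]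
    (f : D → V) (Y : Finset (D × D)) (h : ∀ p ∈ Y, f p.1 = f p.2) :
    cyc Y = ∑ x, cyc (Y.filter fun p => f p.1 = x) := by
  classical
  have : Finite (Quot (fun a b : D => (a, b) ∈ Y)) := Quot.finite _
  let g : Quot (fun a b : D => (a, b) ∈ Y) → V := Quot.lift f fun a b hab => h _ hab
  have h1 : ∀ x : V, cyc (Y.filter fun p => f p.1 = x) =
      (Nat.card {c : Quot (fun a b : D => (a, b) ∈ Y) // g c = x} : ℤ) +
        ((Y.filter fun p => f p.1 = x).card : ℤ) - (Nat.card {d : D // f d = x} : ℤ) := by
    intro x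
    have := Fiber_card f Y h x g (fun _ => rfl)
    unfold cyc
    omega
  simp only [h1]
  rw [Finset.sum_sub_distrib, Finset.sum_add_distrib]
  have h2 : ∑ x : V, (Nat.card {c : Quot (fun a b : D => (a, b) ∈ Y) // g c = x} : ℤ) =
      (ncls Y : ℤ) := by
    rw [← Nat.cast_sum]
    congr 1
    unfold ncls
    rw [← Nat.card_congr (Equiv.sigmaFiberEquiv g), Nat.card_sigma]
  have h3 : ∑ x : V, (Nat.card {d : D // f d = x} : ℤ) = (Nat.card D : ℤ) := by
    rw [← Nat.cast_sum]
    congr 1
    rw [← Nat.card_congr (Equiv.sigmaFiberEquiv f), Nat.card_sigma]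
  have h4 : ∑ x : V, ((Y.filter fun p => f p.1 = x).card : ℤ) = (Y.card : ℤ) := by
    rw [← Nat.cast_sum]
    congr 1
    exact (Finset.card_eq_sum_card_fiberwise (f := fun p : D × D => f p.1) (t := univ)
      (fun p _ => by simp)).symm
  rw [h2, h3, h4]
  rfl

end Pool.Agent.H20.BK
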