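import Mathlib
import Pool.Agent.H20.BK.Model

/-!
Project BK, module Loss. Almost all pairs of `e2` belong to `inst`.

Proof sketch. Write `W = chg S τ` (may be assumed nonempty: if `W = ∅` then `big = small` and
`e2 = ∅`), `w₀ = min W`, `w₁ = max W`. For a pair `(a, b) ∈ e2`: `btw small a b < K ≤ btw big a b`,
so some `u ∈ W` lies between `a` and `b`, and `btw big a b ≤ btw small a b + |W| < K + |W|`; for
given `a` there are at most `|W|` such `b` (`b ↦ btw big a b` is injective on the elements of
`small` below `a`, with values in `[K, K + |W|)`), for given `b` at most `|W|` such `a`. If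
`(a, b) ∉ inst` then one of the following holds:
(A) `¬ (∀ u ∈ W, a < u)`: then `w₀ < a < w₁` (some `u ∈ W` lies below `a` in the order and some
    above), at most `R` such `a` by `HullLE`;
(B) symmetrically `w₀ < b < w₁`;
(C) `a < w₀`, `w₁ < b`, and `K ≤ btw big a u` for some `u ∈ W`: the elements of `big` between `a`
    and `w₀` are in `small` and between `a` and `b`, so `btw big a w₀ < K`, and
    `btw big a u ≤ btw big a w₀ + R`, so `K - R ≤ btw big a w₀ < K`: at most `R` such `a`;
(D) symmetrically for `b`.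
So the pairs of `e2` not in `inst` have `a` in a set of at most `2R` elements or `b` in a set of at
most `2R` elements; total at most `4 R |W|`.
-/

namespace Pool.Agent.H20.BK

open Finset

variable {V : Type*} [LinearOrder V] [Fintype V]

omit [Fintype V] in
private theorem Loss_btw_lt {S : Finset V} {a a' w : V} (h : a < a') (ha' : a' ∈ S) (hw : a' < w) :
    btw S a' w < btw S a w := by
  unfold btw
  apply card_lt_card
  rw [ssubset_iff_of_subset]
  · exact ⟨a', by simp [ha', h, hw], by simp⟩
  · intro c hc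
    simp only [mem_filter] at hc ⊢
    exact ⟨hc.1, h.trans hc.2.1, hc.2.2⟩

omit [Fintype V] in
private theorem Loss_btw_lt' {S : Finset V} {b b' w : V} (h : b < b') (hb : b ∈ S) (hw : w < b) :
    btw S w b < btw S w b' := by
  unfold btw
  apply card_lt_card
  rw [ssubset_iff_of_subset]
  · exact ⟨b, by simp [hb, h, hw], by simp⟩
  · intro c hc
    simp only [mem_filter] at hc ⊢
    exact ⟨hc.1, hc.2.1, hc.2.2.trans h⟩

omit [Fintype V] in
private theorem Loss_btw_inj {S : Finset V} {a a' w : V} (ha : a ∈ S) (ha' : a' ∈ S)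
    (hw : a < w) (hw' : a' < w) (he : btw S a w = btw S a' w) : a = a' := by
  rcases lt_trichotomy a a' with h | h | h
  · have := Loss_btw_lt h ha' hw'
    omega
  · exact h
  · have := Loss_btw_lt h ha hw
    omega

omit [Fintype V] in
private theorem Loss_btw_inj' {S : Finset V} {b b' w : V} (hb : b ∈ S) (hb' : b' ∈ S)
    (hw : w < b) (hw' : w < b') (he : btw S w b = btw S w b') : b = b' := by
  rcases lt_trichotomy b b' with h | h | h
  · have := Loss_btw_lt' h hb hw
    omega
  · exact h
  · have := Loss_btw_lt' h hb' hw'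
    omega

/-- Few elements above `w` with the number of elements in between in a given range. -/
private theorem Loss_card_left (S : Finset V) (w : V) (lo hi : ℕ) :
    (univ.filter fun x : V => x ∈ S ∧ x < w ∧ lo ≤ btw S x w ∧ btw S x w < hi).card ≤
      hi - lo := by
  have := card_le_card_of_injOn
    (s := univ.filter fun x : V => x ∈ S ∧ x < w ∧ lo ≤ btw S x w ∧ btw S x w < hi)
    (t := Finset.Ico lo hi) (fun x => btw S x w)
    (by
      intro x hx
      simp only [coe_filter, mem_univ, true_and, Set.mem_ofPred_eq] at hx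
      simp only [coe_Ico, Set.mem_Ico]
      exact hx.2.2)
    (by
      intro x hx y hy he
      simp only [coe_filter, mem_univ, true_and, Set.mem_ofPred_eq] at hx hy
      exact Loss_btw_inj hx.1 hy.1 hx.2.1 hy.2.1 he)
  simpa using this

private theorem Loss_card_right (S : Finset V) (w : V) (lo hi : ℕ) :
    (univ.filter fun x : V => x ∈ S ∧ w < x ∧ lo ≤ btw S w x ∧ btw S w x < hi).card ≤
      hi - lo := by
  have := card_le_card_of_injOn
    (s := univ.filter fun x : V => x ∈ S ∧ w < x ∧ lo ≤ btw S w x ∧ btw S w x < hi)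
    (t := Finset.Ico lo hi) (fun x => btw S w x)
    (by
      intro x hx
      simp only [coe_filter, mem_univ, true_and, Set.mem_ofPred_eq] at hx
      simp only [coe_Ico, Set.mem_Ico]
      exact hx.2.2)
    (by
      intro x hx y hy he
      simp only [coe_filter, mem_univ, true_and, Set.mem_ofPred_eq] at hx hy
      exact Loss_btw_inj' hx.1 hy.1 hx.2.1 hy.2.1 he)
  simpa using this

private theorem Loss_mem_e2 {K : ℕ} {S : ℕ → Finset V} {τ : ℕ} {p : V × V}
    (hp : p ∈ e2 K S τ) : p.1 ∈ small S τ ∧ p.2 ∈ small S τ ∧ p.1 < p.2 ∧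
      btw (small S τ) p.1 p.2 < K ∧ K ≤ btw (big S τ) p.1 p.2 ∧
      btw (big S τ) p.1 p.2 < K + (chg S τ).card ∧ ∃ u ∈ chg S τ, p.1 < u ∧ u < p.2 := by
  have hsub : small S τ ⊆ big S τ := inter_subset_left.trans subset_union_left
  simp only [e2, mem_filter, mem_univ, true_and] at hp
  obtain ⟨⟨h1, h2, h3, h4⟩, h5⟩ := hp
  have h6 : K ≤ btw (big S τ) p.1 p.2 := by
    by_contra h
    exact h5 ⟨hsub h1, hsub h2, h3, not_le.1 h⟩
  have h7 : btw (big S τ) p.1 p.2 ≤ btw (small S τ) p.1 p.2 +
      ((chg S τ).filter fun c => p.1 < c ∧ c < p.2).card := by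
    unfold btw
    refine (card_le_card ?_).trans (card_union_le _ _)
    intro c hc
    simp only [mem_filter, mem_union, chg, mem_sdiff] at hc ⊢
    by_cases hcs : c ∈ small S τ
    · exact Or.inl ⟨hcs, hc.2⟩
    · exact Or.inr ⟨⟨hc.1, hcs⟩, hc.2⟩
  have h8 : ((chg S τ).filter fun c => p.1 < c ∧ c < p.2).card ≤ (chg S τ).card :=
    card_filter_le _ _
  refine ⟨h1, h2, h3, h4, h6, by omega, ?_⟩
  have h9 : 0 < ((chg S τ).filter fun c => p.1 < c ∧ c < p.2).card := by omega
  obtain ⟨u, hu⟩ := card_pos.1 h9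
  exact ⟨u, (mem_filter.1 hu).1, (mem_filter.1 hu).2⟩

theorem card_e2_le_inst (K R : ℕ) (S : ℕ → Finset V) (τ : ℕ)
    (hR : HullLE (big S τ) (chg S τ) R) :
    (e2 K S τ).card ≤ (inst K S τ).card + 4 * R * (chg S τ).card := by
  have hsub : small S τ ⊆ big S τ := inter_subset_left.trans subset_union_left
  rcases (chg S τ).eq_empty_or_nonempty with hW | hW
  · have : e2 K S τ = ∅ := by
      rw [eq_empty_iff_forall_notMem]
      intro p hp
      obtain ⟨_, _, _, _, _, _, u, hu, _⟩ := Loss_mem_e2 hp
      rw [hW] at hu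
      exact absurd hu (notMem_empty u)
    rw [this]
    simp
  set W := chg S τ with hWdef
  set B := big S τ with hB
  set w₀ := W.min' hW with hw₀
  set w₁ := W.max' hW with hw₁
  have hw₀W : w₀ ∈ W := min'_mem _ _
  have hw₁W : w₁ ∈ W := max'_mem _ _
  have hWB : ∀ u ∈ W, u ∈ B ∧ u ∉ small S τ := fun u hu => mem_sdiff.1 hu
  have hmin : ∀ u ∈ W, w₀ ≤ u := fun u hu => min'_le _ _ hu
  have hmax : ∀ u ∈ W, u ≤ w₁ := fun u hu => le_max' _ _ hu
  have hhull := hR w₀ hw₀W w₁ hw₁W
  set A1 : Finset V := (B.filter fun c => w₀ ≤ c ∧ c ≤ w₁) ∪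
    (univ.filter fun x : V => x ∈ B ∧ x < w₀ ∧ K - R ≤ btw B x w₀ ∧ btw B x w₀ < K) with hA1
  set B1 : Finset V := (B.filter fun c => w₀ ≤ c ∧ c ≤ w₁) ∪
    (univ.filter fun x : V => x ∈ B ∧ w₁ < x ∧ K - R ≤ btw B w₁ x ∧ btw B w₁ x < K) with hB1
  have hA1c : A1.card ≤ 2 * R := by
    have h1 := Loss_card_left B w₀ (K - R) K
    have h2 : A1.card ≤ _ := card_union_le _ _
    omega
  have hB1c : B1.card ≤ 2 * R := by
    have h1 := Loss_card_right B w₁ (K - R) K
    have h2 : B1.card ≤ _ := card_union_le _ _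
    omega
  have hcover : e2 K S τ ⊆ inst K S τ ∪ (((e2 K S τ).filter fun p => p.1 ∈ A1) ∪
      ((e2 K S τ).filter fun p => p.2 ∈ B1)) := by
    intro p hp
    rw [mem_union, mem_union, mem_filter, mem_filter]
    by_contra hcon
    push Not at hcon
    obtain ⟨hc1, hc2, hc3⟩ := hcon
    have hpA : p.1 ∉ A1 := hc2 hp
    have hpB : p.2 ∉ B1 := hc3 hp
    obtain ⟨h1, h2, h3, h4, h5, h6, u, hu, hu1, hu2⟩ := Loss_mem_e2 hp
    rw [hA1, mem_union, mem_filter, mem_filter] at hpA
    rw [hB1, mem_union, mem_filter, mem_filter] at hpB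
    push Not at hpA hpB
    have ha : p.1 < w₀ := by
      by_contra h
      have := hpA.1 (hsub h1) (not_lt.1 h)
      exact absurd (hu1.trans_le (hmax u hu)) (lt_asymm this)
    have hb : w₁ < p.2 := by
      by_contra h
      have h' := hpB.1 (hsub h2) ((hmin u hu).trans hu2.le)
      exact h (h')
    have ha2 : btw B p.1 w₀ ≤ btw (small S τ) p.1 p.2 := by
      unfold btw
      apply card_le_card
      intro c hc
      simp only [mem_filter] at hc ⊢
      refine ⟨?_, hc.2.1, ?_⟩
      · by_contra hcs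
        have : c ∈ W := mem_sdiff.2 ⟨hc.1, hcs⟩
        exact absurd (hmin c this) (not_le.2 hc.2.2)
      · exact hc.2.2.trans_le ((hmin w₁ hw₁W).trans hb.le)
    have hb2 : btw B w₁ p.2 ≤ btw (small S τ) p.1 p.2 := by
      unfold btw
      apply card_le_card
      intro c hc
      simp only [mem_filter] at hc ⊢
      refine ⟨?_, ?_, hc.2.2⟩
      · by_contra hcs
        have : c ∈ W := mem_sdiff.2 ⟨hc.1, hcs⟩
        exact absurd (hmax c this) (not_le.2 hc.2.1)
      · exact (ha.trans_le (hmin w₁ hw₁W)).trans hc.2.1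
    have ha3 : btw B p.1 w₀ + R < K := by
      by_contra h
      have := hpA.2 (mem_univ _) (hsub h1) ha (by omega)
      omega
    have hb3 : btw B w₁ p.2 + R < K := by
      by_contra h
      have := hpB.2 (mem_univ _) (hsub h2) hb (by omega)
      omega
    apply hc1
    simp only [inst, mem_filter, mem_univ, true_and]
    refine ⟨h1, h2, fun v hv => ⟨ha.trans_le (hmin v hv), (hmax v hv).trans_lt hb⟩,
      fun v hv => ⟨?_, ?_⟩, h5, h6⟩
    · refine lt_of_le_of_lt ?_ ha3
      refine le_trans ?_ (add_le_add le_rfl hhull)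
      unfold btw
      refine (card_le_card ?_).trans (card_union_le _ _)
      intro c hc
      simp only [mem_filter, mem_union] at hc ⊢
      rcases lt_or_ge c w₀ with h | h
      · exact Or.inl ⟨hc.1, hc.2.1, h⟩
      · exact Or.inr ⟨hc.1, h, (hc.2.2.trans_le (hmax v hv)).le⟩
    · refine lt_of_le_of_lt ?_ hb3
      refine le_trans ?_ (add_le_add le_rfl hhull)
      unfold btw
      refine (card_le_card ?_).trans (card_union_le _ _)
      intro c hc
      simp only [mem_filter, mem_union] at hc ⊢
      rcases lt_or_ge w₁ c with h | h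
      · exact Or.inl ⟨hc.1, h, hc.2.2⟩
      · exact Or.inr ⟨hc.1, ((hmin v hv).trans_lt hc.2.1).le, h⟩
  have hcA : ((e2 K S τ).filter fun p => p.1 ∈ A1).card ≤ A1.card * W.card := by
    have := card_le_card_of_injOn (s := (e2 K S τ).filter fun p => p.1 ∈ A1)
      (t := A1 ×ˢ range W.card) (fun p => (p.1, btw B p.1 p.2 - K))
      (by
        intro p hp
        have hp' := mem_filter.1 (mem_coe.1 hp)
        obtain ⟨h1, h2, h3, h4, h5, h6, _⟩ := Loss_mem_e2 hp'.1
        rw [mem_coe, mem_product]
        refine ⟨hp'.2, ?_⟩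
        rw [mem_range]
        have h6' : btw B p.1 p.2 < K + W.card := h6
        have h5' : K ≤ btw B p.1 p.2 := h5
        change btw B p.1 p.2 - K < W.card
        omega)
      (by
        intro p hp p' hp' he
        have hp1 := mem_filter.1 (mem_coe.1 hp)
        have hp2 := mem_filter.1 (mem_coe.1 hp')
        obtain ⟨h1, h2, h3, h4, h5, h6, _⟩ := Loss_mem_e2 hp1.1
        obtain ⟨h1', h2', h3', h4', h5', h6', _⟩ := Loss_mem_e2 hp2.1
        obtain ⟨he1, he2⟩ := Prod.mk.inj he
        refine Prod.ext he1 (Loss_btw_inj' (S := B) (w := p.1) (hsub h2) (hsub h2') h3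
          (he1 ▸ h3') ?_)
        rw [hB, ← he1] at he2
        rw [← he1] at h5' h6'
        rw [hB]
        omega)
    rwa [card_product, card_range] at this
  have hcB : ((e2 K S τ).filter fun p => p.2 ∈ B1).card ≤ B1.card * W.card := by
    have := card_le_card_of_injOn (s := (e2 K S τ).filter fun p => p.2 ∈ B1)
      (t := B1 ×ˢ range W.card) (fun p => (p.2, btw B p.1 p.2 - K))
      (by
        intro p hp
        have hp' := mem_filter.1 (mem_coe.1 hp)
        obtain ⟨h1, h2, h3, h4, h5, h6, _⟩ := Loss_mem_e2 hp'.1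
        rw [mem_coe, mem_product]
        refine ⟨hp'.2, ?_⟩
        rw [mem_range]
        have h6' : btw B p.1 p.2 < K + W.card := h6
        have h5' : K ≤ btw B p.1 p.2 := h5
        change btw B p.1 p.2 - K < W.card
        omega)
      (by
        intro p hp p' hp' he
        have hp1 := mem_filter.1 (mem_coe.1 hp)
        have hp2 := mem_filter.1 (mem_coe.1 hp')
        obtain ⟨h1, h2, h3, h4, h5, h6, _⟩ := Loss_mem_e2 hp1.1
        obtain ⟨h1', h2', h3', h4', h5', h6', _⟩ := Loss_mem_e2 hp2.1
        obtain ⟨he1, he2⟩ := Prod.mk.inj he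
        refine Prod.ext (Loss_btw_inj (S := B) (w := p.2) (hsub h1) (hsub h1') h3
          (he1 ▸ h3') ?_) he1
        rw [hB, ← he1] at he2
        rw [← he1] at h5' h6'
        rw [hB]
        omega)
    rwa [card_product, card_range] at this
  have h1 := card_le_card hcover
  have h2 := card_union_le (inst K S τ) (((e2 K S τ).filter fun p => p.1 ∈ A1) ∪
      ((e2 K S τ).filter fun p => p.2 ∈ B1))
  have h3 := card_union_le ((e2 K S τ).filter fun p => p.1 ∈ A1)
      ((e2 K S τ).filter fun p => p.2 ∈ B1)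
  have h4 : A1.card * W.card ≤ 2 * R * W.card := Nat.mul_le_mul_right _ hA1c
  have h5 : B1.card * W.card ≤ 2 * R * W.card := Nat.mul_le_mul_right _ hB1c
  have h6 : 4 * R * W.card = 2 * R * W.card + 2 * R * W.card := by ring
  omega

/-- At most `2K` elements take part in the faces of a step (at most `K` with `x = a`: then `x` is
above `w₀ = min (chg S τ)` with `btw big x w₀ < K`; at most `K` with `x = b`). -/
theorem card_part_le (K : ℕ) (S : ℕ → Finset V) (τ : ℕ) :
    (univ.filter fun x => Part K S τ x).card ≤ 2 * K := by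
  have hsub : small S τ ⊆ big S τ := inter_subset_left.trans subset_union_left
  rcases (chg S τ).eq_empty_or_nonempty with hW | hW
  · have : (univ.filter fun x => Part K S τ x) = ∅ := by
      rw [filter_eq_empty_iff]
      rintro x _ ⟨p, hp, _⟩
      simp only [inst, mem_filter, mem_univ, true_and, hW, card_empty] at hp
      omega
    rw [this]
    simp
  obtain ⟨w, hw⟩ := hW
  have hcov : (univ.filter fun x => Part K S τ x) ⊆
      (univ.filter fun x : V => x ∈ big S τ ∧ x < w ∧ 0 ≤ btw (big S τ) x w ∧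
        btw (big S τ) x w < K) ∪
      (univ.filter fun x : V => x ∈ big S τ ∧ w < x ∧ 0 ≤ btw (big S τ) w x ∧
        btw (big S τ) w x < K) := by
    intro x hx
    rw [mem_filter] at hx
    obtain ⟨_, p, hp, hpx⟩ := hx
    simp only [inst, mem_filter, mem_univ, true_and] at hp
    rw [mem_union, mem_filter, mem_filter]
    rcases hpx with rfl | rfl
    · exact Or.inl ⟨mem_univ _, hsub hp.1, (hp.2.2.1 w hw).1, Nat.zero_le _,
        (hp.2.2.2.1 w hw).1⟩
    · exact Or.inr ⟨mem_univ _, hsub hp.2.1, (hp.2.2.1 w hw).2, Nat.zero_le _,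
        (hp.2.2.2.1 w hw).2⟩
  have h1 := card_le_card hcov
  have h2 := card_union_le (univ.filter fun x : V => x ∈ big S τ ∧ x < w ∧
      0 ≤ btw (big S τ) x w ∧ btw (big S τ) x w < K)
    (univ.filter fun x : V => x ∈ big S τ ∧ w < x ∧ 0 ≤ btw (big S τ) w x ∧
        btw (big S τ) w x < K)
  have h3 := Loss_card_left (big S τ) w 0 K
  have h4 := Loss_card_right (big S τ) w 0 K
  omega

end Pool.Agent.H20.BK
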