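import Mathlib
import Pool.Agent.H20.BK.CycDefs

/-!
Project BK, module Own. Two monotone partial injections between two ordered sets only have cycles
of length two.

Proof sketch. Let `Y` be the union of the two sets of arcs, a partial injection. By definition
`cyc Y = classes - (points - arcs)` and `points - arcs` is the number of elements of `D` that are
not a target. A class without a non-target contains some `t1 i` or `t2 j` and then, following
backwards, elements of both kinds. Take in it an arc `i` (from `s1 i` to `t1 i`) whose key `kb1 i`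
is maximal among the arcs of the first kind in that class. All elements of the class are targets,
so `s1 i = t2 j` for some `j`, and `s2 j = t1 i'` for some `i'` with `kb1 i' ≤ kb1 i`. If
`kb1 i' < kb1 i`: then going forwards monotonicity gives an infinite strictly increasing sequence of
keys going backwards or forwards, see below; hence `kb1 i' = kb1 i`, so `i' = i` and
`(i, j)` is a pair of the right-hand side, i.e. `t1 i = s2 j ∧ t2 j = s1 i`. In detail: the partial
map `g : i' ↦ i` (`t1 i' = s2 j`, `t2 j = s1 i`) is injective and strictly increasing in the key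
`kb1`, and on a class without non-target it is a bijection of a finite set of arcs, so an increasing
bijection of a finite linear order, hence the identity. Distinct classes give distinct pairs.
(One can choose any other proof.)
-/

namespace Pool.Agent.H20.BK

open Finset

theorem cyc_own_le {D A₁ A₂ κ₁ κ₂ : Type*} [Fintype D] [DecidableEq D] [Fintype A₁] [Fintype A₂]
    [LinearOrder κ₁] [LinearOrder κ₂] (s₁ t₁ : A₁ → D) (s₂ t₂ : A₂ → D)
    (hs₁ : Function.Injective s₁) (ht₁ : Function.Injective t₁)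
    (hs₂ : Function.Injective s₂) (ht₂ : Function.Injective t₂)
    (kb₁ : A₁ → κ₁) (ka₁ : A₁ → κ₂) (ka₂ : A₂ → κ₂) (kb₂ : A₂ → κ₁)
    (hkb₁ : Function.Injective kb₁) (hkb₂ : Function.Injective kb₂)
    (hm₁ : ∀ i i', kb₁ i < kb₁ i' ↔ ka₁ i < ka₁ i')
    (hm₂ : ∀ j j', ka₂ j < ka₂ j' ↔ kb₂ j < kb₂ j')
    (hk₁ : ∀ i j, t₁ i = s₂ j → ka₁ i = ka₂ j) (hk₂ : ∀ i j, t₂ j = s₁ i → kb₂ j = kb₁ i)
    (hd₁ : ∀ i j, s₁ i ≠ s₂ j) (hd₂ : ∀ i j, t₁ i ≠ t₂ j)
    (hd₃ : ∀ i i', t₁ i ≠ s₁ i') (hd₄ : ∀ j j', t₂ j ≠ s₂ j') :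
    cyc ((univ.image fun i => (s₁ i, t₁ i)) ∪ (univ.image fun j => (s₂ j, t₂ j))) ≤
      (Nat.card {x : A₁ × A₂ // t₁ x.1 = s₂ x.2 ∧ t₂ x.2 = s₁ x.1} : ℤ) := by
  classical
  set Y : Finset (D × D) :=
    (univ.image fun i => (s₁ i, t₁ i)) ∪ (univ.image fun j => (s₂ j, t₂ j)) with hY
  have hY1 : ∀ i, (s₁ i, t₁ i) ∈ Y := fun i =>
    mem_union_left _ (mem_image_of_mem _ (mem_univ i))
  have hY2 : ∀ j, (s₂ j, t₂ j) ∈ Y := fun j =>
    mem_union_right _ (mem_image_of_mem _ (mem_univ j))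
  let r : D → D → Prop := fun a b => (a, b) ∈ Y
  have hq1 : ∀ i, Quot.mk r (s₁ i) = Quot.mk r (t₁ i) := fun i => Quot.sound (hY1 i)
  have hq2 : ∀ j, Quot.mk r (s₂ j) = Quot.mk r (t₂ j) := fun j => Quot.sound (hY2 j)
  -- the targets
  let Tg : Finset D := (univ.image t₁) ∪ (univ.image t₂)
  have hTg : Tg.card = Fintype.card A₁ + Fintype.card A₂ := by
    have hdisj : Disjoint (univ.image t₁) (univ.image t₂) := by
      rw [Finset.disjoint_left]
      intro x hx hx'
      obtain ⟨i, _, hi⟩ := mem_image.1 hx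
      obtain ⟨j, _, hj⟩ := mem_image.1 hx'
      exact hd₂ i j (hi.trans hj.symm)
    show ((univ.image t₁) ∪ (univ.image t₂)).card = _
    rw [card_union_of_disjoint hdisj, card_image_of_injective _ ht₁,
      card_image_of_injective _ ht₂, card_univ, card_univ]
  have hYc : Y.card ≤ Fintype.card A₁ + Fintype.card A₂ := by
    rw [hY]
    refine (card_union_le _ _).trans (Nat.add_le_add ?_ ?_)
    · exact card_image_le.trans card_univ.le
    · exact card_image_le.trans card_univ.le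
  -- the key fact on classes without non-target
  have key : ∀ c : Quot r, (∀ x, Quot.mk r x = c → x ∈ Tg) →
      ∃ i j, t₁ i = s₂ j ∧ t₂ j = s₁ i ∧ Quot.mk r (t₁ i) = c := by
    intro c hc
    have hback : ∀ i, Quot.mk r (t₁ i) = c →
        ∃ j, t₂ j = s₁ i ∧ ∃ i', t₁ i' = s₂ j ∧ Quot.mk r (t₁ i') = c := by
      intro i hi
      have h1 := hc (s₁ i) ((hq1 i).trans hi)
      rcases mem_union.1 h1 with h2 | h2
      · obtain ⟨i', _, hi'⟩ := mem_image.1 h2
        exact absurd hi' (hd₃ i' i)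
      · obtain ⟨j, _, hj⟩ := mem_image.1 h2
        refine ⟨j, hj, ?_⟩
        have h3 : Quot.mk r (s₂ j) = c := by
          rw [hq2 j, hj, hq1 i, hi]
        rcases mem_union.1 (hc _ h3) with h4 | h4
        · obtain ⟨i', _, hi'⟩ := mem_image.1 h4
          exact ⟨i', hi', by rw [hi', h3]⟩
        · obtain ⟨j', _, hj'⟩ := mem_image.1 h4
          exact absurd hj' (hd₄ j' j)
    have hmono : ∀ a a' b b' ja jb, t₂ ja = s₁ a → t₁ a' = s₂ ja → t₂ jb = s₁ b →
        t₁ b' = s₂ jb → kb₁ a < kb₁ b → kb₁ a' < kb₁ b' := by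
      intro a a' b b' ja jb h1 h2 h3 h4 h5
      have h6 := hk₂ a ja h1
      have h7 := hk₂ b jb h3
      have h8 : ka₂ ja < ka₂ jb := (hm₂ ja jb).2 (by rw [h6, h7]; exact h5)
      rw [hm₁, hk₁ a' ja h2, hk₁ b' jb h4]
      exact h8
    have hge : ∀ i, Quot.mk r (t₁ i) = c → ∀ j i', t₂ j = s₁ i → t₁ i' = s₂ j →
        kb₁ i ≤ kb₁ i' := by
      by_contra hcon
      push Not at hcon
      obtain ⟨i0, hi0, j0, i0', h01, h02, h03⟩ := hcon
      let Bad : Finset A₁ := univ.filter (fun i => Quot.mk r (t₁ i) = c ∧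
        ∃ j i', t₂ j = s₁ i ∧ t₁ i' = s₂ j ∧ kb₁ i' < kb₁ i)
      have hBne : Bad.Nonempty := ⟨i0, mem_filter.2 ⟨mem_univ _, hi0, j0, i0', h01, h02, h03⟩⟩
      obtain ⟨i, hi, hmin⟩ := exists_min_image Bad kb₁ hBne
      obtain ⟨_, hic, j, i', h1, h2, h3⟩ := mem_filter.1 hi
      have hi'c : Quot.mk r (t₁ i') = c := by
        rw [h2, hq2 j, h1, hq1 i, hic]
      obtain ⟨j', h4, i'', h5, h6⟩ := hback i' hi'c
      have h7 := hmono i' i'' i i' j' j h4 h5 h1 h2 h3
      have h8 := hmin i' (mem_filter.2 ⟨mem_univ _, hi'c, j', i'', h4, h5, h7⟩)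
      exact absurd h3 (not_lt.2 h8)
    -- some arc of the first kind
    have hne : ∃ i, Quot.mk r (t₁ i) = c := by
      obtain ⟨x, hx⟩ := Quot.exists_rep c
      rcases mem_union.1 (hc x hx) with h2 | h2
      · obtain ⟨i, _, hi⟩ := mem_image.1 h2
        exact ⟨i, by rw [hi, hx]⟩
      · obtain ⟨j, _, hj⟩ := mem_image.1 h2
        have h3 : Quot.mk r (s₂ j) = c := by
          rw [hq2 j, hj, hx]
        rcases mem_union.1 (hc _ h3) with h4 | h4
        · obtain ⟨i', _, hi'⟩ := mem_image.1 h4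
          exact ⟨i', by rw [hi', h3]⟩
        · obtain ⟨j', _, hj'⟩ := mem_image.1 h4
          exact absurd hj' (hd₄ j' j)
    obtain ⟨i1, hi1⟩ := hne
    obtain ⟨i, hi, hmax⟩ := exists_max_image (univ.filter (fun i => Quot.mk r (t₁ i) = c)) kb₁
      ⟨i1, mem_filter.2 ⟨mem_univ _, hi1⟩⟩
    have hic := (mem_filter.1 hi).2
    obtain ⟨j, h1, i', h2, h3⟩ := hback i hic
    have h4 := hge i hic j i' h1 h2
    have h5 := hmax i' (mem_filter.2 ⟨mem_univ _, h3⟩)
    have h6 : i' = i := hkb₁ (le_antisymm h5 h4)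
    rw [h6] at h2
    exact ⟨i, j, h2, h1, hic⟩
  let f : {x : D // x ∉ Tg} ⊕ {x : A₁ × A₂ // t₁ x.1 = s₂ x.2 ∧ t₂ x.2 = s₁ x.1} → Quot r :=
    Sum.elim (fun x => Quot.mk r x.1) (fun x => Quot.mk r (t₁ x.1.1))
  have hf : Function.Surjective f := by
    intro c
    by_cases h : ∀ x, Quot.mk r x = c → x ∈ Tg
    · obtain ⟨i, j, h1, h2, h3⟩ := key c h
      exact ⟨Sum.inr ⟨(i, j), h1, h2⟩, h3⟩
    · push Not at h
      obtain ⟨x, hx, hx'⟩ := h
      exact ⟨Sum.inl ⟨x, hx'⟩, hx⟩
  have hcard : Nat.card (Quot r) ≤ Nat.card ({x : D // x ∉ Tg} ⊕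
      {x : A₁ × A₂ // t₁ x.1 = s₂ x.2 ∧ t₂ x.2 = s₁ x.1}) :=
    Nat.card_le_card_of_surjective f hf
  rw [Nat.card_sum] at hcard
  have hnt : Nat.card {x : D // x ∉ Tg} = Fintype.card D - Tg.card := by
    rw [Nat.card_eq_fintype_card, Fintype.card_subtype_compl]
    simp
  have hle : Tg.card ≤ Fintype.card D := card_le_univ Tg
  have hD : Nat.card D = Fintype.card D := Nat.card_eq_fintype_card
  have hncls : ncls Y = Nat.card (Quot r) := rfl
  unfold cyc
  rw [hncls, hD]
  omega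

end Pool.Agent.H20.BK
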