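import Mathlib
import Pool.Agent.H20.BK.TriProps
import Pool.Agent.H20.BK.Own
import Pool.Agent.H20.BK.Loss

/-!
Project BK, module OwnSum. The arcs at `x` coming from the steps in which `x` itself changes.

Proof sketch. `x` is inserted in exactly one step `τ₁` and deleted in exactly one step `τ₂ > τ₁`
(`hS.conv`, `hS.all`); `Θ ⊆ {τ₁, τ₂}`. The arcs at `x` of step `τ₁` (if `τ₁ ∈ Θ`) are
`(α (dart of (x, b)), dart of (a, x))` for the instances `(a, b)` of step `τ₁` with third vertex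
`x` (index `j = 0`), i.e. with `lam = l₁ := (π τ₁)⁻¹ (index of x)`. Those of step `τ₂` are
`(α (dart of (a, x)), dart of (x, b))` for the instances `(a, b)` of step `τ₂` with
`lam = l₂ := (π τ₂)⁻¹ (index of x)`. Apply `cyc_own_le` with `A₁`, `A₂` these two sets of
instances (empty if the step is not in `Θ`), `kb₁ (a,b) = b`, `ka₁ (a,b) = a`, `ka₂ (a,b) = a`,
`kb₂ (a,b) = b`, `κ₁ = κ₂ = V` (monotonicity: `inst_mono`; injectivity: `inst_inj_left/right`).
The result: `cyc ≤` number of pairs `(a, b)` that are instances of both steps with `lam = l₁` in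
step `τ₁` and `lam = l₂` in step `τ₂`. For fixed `l₁` sum over the values of `l₂`: at most the
number of instances of step `τ₁` with `lam = l₁`, which is at most `K` (`b` is determined by `a`,
and `a` is one of the at most `K` elements of `big S τ₁` above `x` with `btw (big S τ₁) a x < K`).
Each value of `l₂` is taken by `(s-1)!` permutations `ρ` of `Fin s`, `s = |chg S τ₂|`. So the sum
over `π τ₂` is at most `K (s-1)! = s! K / s ≤ s! K / q`, and the sum over all `π` is at most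
`|Perms| K / q`. (If one of the two steps is not in `Θ` then `cyc ≤ 0`.)
-/

namespace Pool.Agent.H20.BK

open Finset

variable {V : Type*} [LinearOrder V] [Fintype V] {K T : ℕ} {S : ℕ → Finset V}

omit [Fintype V] in
private theorem ownSum_chg_ins {τ : ℕ} (h : S τ ⊆ S (τ + 1)) {x : V} (hx : x ∈ chg S τ) :
    x ∉ S τ ∧ x ∈ S (τ + 1) := by
  unfold chg at hx
  rw [(big_small_of_subset h).1, (big_small_of_subset h).2] at hx
  exact ⟨(mem_sdiff.1 hx).2, (mem_sdiff.1 hx).1⟩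

omit [Fintype V] in
private theorem ownSum_chg_del (hS : IsSeq S T) {τ : ℕ} (hτ : τ < T) (h : ¬ S τ ⊆ S (τ + 1))
    {x : V} (hx : x ∈ chg S τ) : x ∈ S τ ∧ x ∉ S (τ + 1) := by
  have h' := (hS.mono τ hτ).resolve_left h
  unfold chg at hx
  rw [(big_small_of_superset h').1, (big_small_of_superset h').2] at hx
  exact ⟨(mem_sdiff.1 hx).1, (mem_sdiff.1 hx).2⟩

omit [Fintype V] in
private theorem ownSum_ins_aux (hS : IsSeq S T) {x : V} {τ τ' : ℕ} (hτ' : τ' < T)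
    (h : S τ ⊆ S (τ + 1)) (h' : S τ' ⊆ S (τ' + 1)) (hx : x ∈ chg S τ) (hx' : x ∈ chg S τ') :
    ¬ τ < τ' := by
  intro hlt
  have h1 := ownSum_chg_ins h hx
  have h2 := ownSum_chg_ins h' hx'
  exact h2.1 (hS.conv x (τ + 1) τ' (τ' + 1) (by omega) (by omega) (by omega) h1.2 h2.2)

omit [Fintype V] in
private theorem ownSum_ins_unique (hS : IsSeq S T) {x : V} {τ τ' : Fin T}
    (h : S τ ⊆ S (τ + 1)) (h' : S τ' ⊆ S (τ' + 1)) (hx : x ∈ chg S τ) (hx' : x ∈ chg S τ') :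
    τ = τ' := by
  have h1 := ownSum_ins_aux hS τ'.2 h h' hx hx'
  have h2 := ownSum_ins_aux hS τ.2 h' h hx' hx
  exact Fin.ext (by omega)

omit [Fintype V] in
private theorem ownSum_del_aux (hS : IsSeq S T) {x : V} {τ τ' : ℕ} (hτ : τ < T) (hτ' : τ' < T)
    (h : ¬ S τ ⊆ S (τ + 1)) (h' : ¬ S τ' ⊆ S (τ' + 1)) (hx : x ∈ chg S τ)
    (hx' : x ∈ chg S τ') : ¬ τ < τ' := by
  intro hlt
  have h1 := ownSum_chg_del hS hτ h hx
  have h2 := ownSum_chg_del hS hτ' h' hx'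
  exact h1.2 (hS.conv x τ (τ + 1) τ' (by omega) (by omega) (by omega) h1.1 h2.1)

omit [Fintype V] in
private theorem ownSum_del_unique (hS : IsSeq S T) {x : V} {τ τ' : Fin T}
    (h : ¬ S τ ⊆ S (τ + 1)) (h' : ¬ S τ' ⊆ S (τ' + 1)) (hx : x ∈ chg S τ)
    (hx' : x ∈ chg S τ') : τ = τ' := by
  have h1 := ownSum_del_aux hS τ.2 τ'.2 h h' hx hx'
  have h2 := ownSum_del_aux hS τ'.2 τ.2 h' h hx' hx
  exact Fin.ext (by omega)

private theorem ownSum_idx_ext {good : Finset (Fin T)} {y y' : Idx K T S good}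
    (h1 : y.1.1 = y'.1.1) (h2 : y.2.1 = y'.2.1) : y = y' := by
  obtain ⟨⟨τ, hτ⟩, ⟨p, hp⟩⟩ := y
  obtain ⟨⟨τ', hτ'⟩, ⟨p', hp'⟩⟩ := y'
  dsimp only at h1 h2
  subst h1
  subst h2
  rfl

private theorem ownSum_lam_eq {τ : ℕ} {p p' : V × V} (hp : p ∈ inst K S τ)
    (hp' : p' ∈ inst K S τ) (ρ : Equiv.Perm (Fin (chg S τ).card))
    (h : uu S τ (ρ (lam K S τ p hp)) = uu S τ (ρ (lam K S τ p' hp'))) :
    btw (big S τ) p.1 p.2 = btw (big S τ) p'.1 p'.2 := by
  have h3 : lam K S τ p hp = lam K S τ p' hp' :=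
    ρ.injective (((chg S τ).orderEmbOfFin rfl).injective h)
  have h4 := congrArg Fin.val h3
  simp only [lam] at h4
  simp only [inst, mem_filter, mem_univ, true_and] at hp hp'
  omega

private theorem ownSum_btw_eq {good : Finset (Fin T)} (π : Perms T S) {y y' : Idx K T S good}
    (h1 : y.1.1 = y'.1.1) (h : third π y = third π y') :
    btw (big S y.1.1) y.2.1.1 y.2.1.2 = btw (big S y.1.1) y'.2.1.1 y'.2.1.2 := by
  obtain ⟨⟨τ, hτ⟩, ⟨p, hp⟩⟩ := y
  obtain ⟨⟨τ', hτ'⟩, ⟨p', hp'⟩⟩ := y'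
  dsimp only at h1
  subst h1
  exact ownSum_lam_eq hp hp' (π τ) h

private theorem ownSum_mem_inst {good : Finset (Fin T)} {y y' : Idx K T S good}
    (h1 : y.1.1 = y'.1.1) : y'.2.1 ∈ inst K S y.1.1 := by
  rw [h1]; exact y'.2.2

/-- for two indices of the same step with the same third vertex, `b < b' ↔ a < a'` -/
private theorem ownSum_mono {good : Finset (Fin T)} (π : Perms T S) {y y' : Idx K T S good}
    (h1 : y.1.1 = y'.1.1) (h : third π y = third π y') :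
    y.2.1.2 < y'.2.1.2 ↔ y.2.1.1 < y'.2.1.1 :=
  inst_mono (τ := y.1.1) y.2.2 (ownSum_mem_inst h1) (ownSum_btw_eq π h1 h)

private theorem ownSum_inj_b {good : Finset (Fin T)} (π : Perms T S) {y y' : Idx K T S good}
    (h1 : y.1.1 = y'.1.1) (h : third π y = third π y') (hb : y.2.1.2 = y'.2.1.2) : y = y' := by
  refine ownSum_idx_ext h1 (Prod.ext ?_ hb)
  have hm := ownSum_mem_inst h1
  have hb' := ownSum_btw_eq π h1 h
  have h2 : ((y.2.1.1, y'.2.1.2) : V × V) ∈ inst K S y.1.1 := by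
    rw [← hb]; exact y.2.2
  rw [hb] at hb'
  exact inst_inj_right (τ := y.1.1) h2 hm hb'

private theorem ownSum_src_one (hS : IsSeq S T) {good : Finset (Fin T)} (π : Perms T S)
    (y : Idx K T S good) : src (tri hS π (y, 1)) = third π y := by
  have h12 : ¬ ((1 : Fin 3) = 2) := by decide
  unfold src
  by_cases h : S y.1.1 ⊆ S (y.1.1 + 1)
  · rw [if_pos ((isStart_tri hS π y 1).2 (by tauto))]
    simp [tri, triPair, h]
  · rw [if_neg (fun hc => absurd ((isStart_tri hS π y 1).1 hc) (by tauto))]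
    simp [tri, triPair, h]

private theorem ownSum_src_ne (hS : IsSeq S T) {good : Finset (Fin T)} (π : Perms T S)
    (y : Idx K T S good) {j : Fin 3} (hj : j ≠ 1) :
    src (tri hS π (y, j)) ∈ small S y.1.1 := by
  have hy := y.2.2
  simp only [inst, mem_filter, mem_univ, true_and] at hy
  have h02 : ¬ ((0 : Fin 3) = 2) := by decide
  unfold src
  by_cases h : S y.1.1 ⊆ S (y.1.1 + 1)
  · have : j = 0 ∨ j = 2 := by omega
    rcases this with rfl | rfl
    · rw [if_pos ((isStart_tri hS π y 0).2 (by tauto))]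
      simpa [tri, triPair, h] using hy.2.1
    · rw [if_neg (fun hc => absurd ((isStart_tri hS π y 2).1 hc) (by tauto))]
      simpa [tri, triPair, h] using hy.1
  · have : j = 0 ∨ j = 2 := by omega
    rcases this with rfl | rfl
    · rw [if_neg (fun hc => absurd ((isStart_tri hS π y 0).1 hc) (by tauto))]
      simpa [tri, triPair, h] using hy.1
    · rw [if_pos ((isStart_tri hS π y 2).2 (by tauto))]
      simpa [tri, triPair, h] using hy.2.1

/-- the arcs at `x` -/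
private theorem ownSum_mem_arcsAt (hS : IsSeq S T) {α : Equiv.Perm (Dt K T S)} (hα : IsAlpha α)
    (x : V) (Θ : Finset (Fin T)) (hΘ : ∀ τ ∈ Θ, x ∈ chg S τ) (π : Perms T S)
    (p : Dt K T S × Dt K T S) :
    p ∈ arcsAt hS α Θ π x ↔
      ∃ y : Idx K T S Θ, third π y = x ∧ (α (tri hS π (y, 0)), tri hS π (y, 1)) = p := by
  unfold arcsAt arcs
  rw [mem_filter, mem_image]
  constructor
  · rintro ⟨⟨⟨y, j⟩, -, rfl⟩, hs⟩
    dsimp only at hs ⊢
    rw [← src_tri hS hα π y j] at hs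
    have hxs : x ∉ small S y.1.1 := (mem_sdiff.1 (hΘ y.1.1 y.1.2)).2
    have hj : j + 1 = 1 := by
      by_contra hne
      exact hxs (hs ▸ ownSum_src_ne hS π y hne)
    have hj0 : j = 0 := by omega
    subst hj0
    refine ⟨y, ?_, rfl⟩
    rw [← hs]
    exact (ownSum_src_one hS π y).symm
  · rintro ⟨y, hy, rfl⟩
    refine ⟨⟨(y, 0), mem_univ _, rfl⟩, ?_⟩
    dsimp only
    rw [← src_tri hS hα π y 0]
    exact (ownSum_src_one hS π y).trans hy

/-- pairs of arcs forming a cycle of length two -/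
private abbrev OwnPairs (hS : IsSeq S T) (α : Equiv.Perm (Dt K T S)) (x : V)
    (Θ : Finset (Fin T)) (π : Perms T S) : Type _ :=
  {z : {y : Idx K T S Θ // S y.1.1 ⊆ S (y.1.1 + 1) ∧ third π y = x} ×
      {y : Idx K T S Θ // ¬ S y.1.1 ⊆ S (y.1.1 + 1) ∧ third π y = x} //
    tri hS π (z.1.1, 1) = α (tri hS π (z.2.1, 0)) ∧
      tri hS π (z.2.1, 1) = α (tri hS π (z.1.1, 0))}

private theorem ownSum_step_eq (hS : IsSeq S T) {x : V} {Θ : Finset (Fin T)}
    (hΘ : ∀ τ ∈ Θ, x ∈ chg S τ) {y y' : Idx K T S Θ} (h : S y.1.1 ⊆ S (y.1.1 + 1))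
    (h' : S y'.1.1 ⊆ S (y'.1.1 + 1)) : y.1.1 = y'.1.1 :=
  ownSum_ins_unique hS h h' (hΘ _ y.1.2) (hΘ _ y'.1.2)

private theorem ownSum_step_eq' (hS : IsSeq S T) {x : V} {Θ : Finset (Fin T)}
    (hΘ : ∀ τ ∈ Θ, x ∈ chg S τ) {y y' : Idx K T S Θ} (h : ¬ S y.1.1 ⊆ S (y.1.1 + 1))
    (h' : ¬ S y'.1.1 ⊆ S (y'.1.1 + 1)) : y.1.1 = y'.1.1 :=
  ownSum_del_unique hS h h' (hΘ _ y.1.2) (hΘ _ y'.1.2)

private theorem ownSum_ab (hS : IsSeq S T) {α : Equiv.Perm (Dt K T S)} (hα : IsAlpha α)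
    {good : Finset (Fin T)} (π : Perms T S) {i j : Idx K T S good}
    (hi : S i.1.1 ⊆ S (i.1.1 + 1)) (hj : ¬ S j.1.1 ⊆ S (j.1.1 + 1))
    (h : tri hS π (i, 1) = α (tri hS π (j, 0))) : i.2.1.1 = j.2.1.1 := by
  have h2 := congrArg Dt.a h
  rw [hα.pair_a] at h2
  simpa [tri, triPair, hi, hj] using h2

private theorem ownSum_ab' (hS : IsSeq S T) {α : Equiv.Perm (Dt K T S)} (hα : IsAlpha α)
    {good : Finset (Fin T)} (π : Perms T S) {i j : Idx K T S good}
    (hi : S i.1.1 ⊆ S (i.1.1 + 1)) (hj : ¬ S j.1.1 ⊆ S (j.1.1 + 1))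
    (h : tri hS π (j, 1) = α (tri hS π (i, 0))) : j.2.1.2 = i.2.1.2 := by
  have h2 := congrArg Dt.b h
  rw [hα.pair_b] at h2
  simpa [tri, triPair, hi, hj] using h2

private theorem ownSum_cyc_le (hS : IsSeq S T) {α : Equiv.Perm (Dt K T S)} (hα : IsAlpha α)
    (x : V) (Θ : Finset (Fin T)) (hΘ : ∀ τ ∈ Θ, x ∈ chg S τ) (π : Perms T S) :
    cyc (arcsAt hS α Θ π x) ≤ (Nat.card (OwnPairs hS α x Θ π) : ℤ) := by
  have h12 : ¬ ((1 : Fin 3) = 2) := by decide
  have h02 : ¬ ((0 : Fin 3) = 2) := by decide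
  set A₁ := {y : Idx K T S Θ // S y.1.1 ⊆ S (y.1.1 + 1) ∧ third π y = x} with hA₁
  set A₂ := {y : Idx K T S Θ // ¬ S y.1.1 ⊆ S (y.1.1 + 1) ∧ third π y = x} with hA₂
  have he : arcsAt hS α Θ π x =
      (univ.image fun i : A₁ => (α (tri hS π (i.1, 0)), tri hS π (i.1, 1))) ∪
      (univ.image fun i : A₂ => (α (tri hS π (i.1, 0)), tri hS π (i.1, 1))) := by
    ext p
    rw [ownSum_mem_arcsAt hS hα x Θ hΘ π p, mem_union, mem_image, mem_image]
    constructor
    · rintro ⟨y, hy, hp⟩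
      by_cases h : S y.1.1 ⊆ S (y.1.1 + 1)
      · exact Or.inl ⟨⟨y, h, hy⟩, mem_univ _, hp⟩
      · exact Or.inr ⟨⟨y, h, hy⟩, mem_univ _, hp⟩
    · rintro (⟨⟨y, h, hy⟩, -, hp⟩ | ⟨⟨y, h, hy⟩, -, hp⟩)
      · exact ⟨y, hy, hp⟩
      · exact ⟨y, hy, hp⟩
  rw [he]
  have a1 : Function.Injective fun i : A₁ => α (tri hS π (i.1, 0)) := by
    intro i i' h
    exact Subtype.ext (Prod.ext_iff.1 (tri_injective hS π (α.injective h))).1
  have a2 : Function.Injective fun i : A₁ => tri hS π (i.1, 1) := by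
    intro i i' h
    exact Subtype.ext (Prod.ext_iff.1 (tri_injective hS π h)).1
  have a3 : Function.Injective fun i : A₂ => α (tri hS π (i.1, 0)) := by
    intro i i' h
    exact Subtype.ext (Prod.ext_iff.1 (tri_injective hS π (α.injective h))).1
  have a4 : Function.Injective fun i : A₂ => tri hS π (i.1, 1) := by
    intro i i' h
    exact Subtype.ext (Prod.ext_iff.1 (tri_injective hS π h)).1
  have a5 : Function.Injective fun i : A₁ => i.1.2.1.2 := by
    intro i i' h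
    exact Subtype.ext (ownSum_inj_b π (ownSum_step_eq hS hΘ i.2.1 i'.2.1)
      (i.2.2.trans i'.2.2.symm) h)
  have a6 : Function.Injective fun i : A₂ => i.1.2.1.2 := by
    intro i i' h
    exact Subtype.ext (ownSum_inj_b π (ownSum_step_eq' hS hΘ i.2.1 i'.2.1)
      (i.2.2.trans i'.2.2.symm) h)
  have a7 : ∀ i i' : A₁, i.1.2.1.2 < i'.1.2.1.2 ↔ i.1.2.1.1 < i'.1.2.1.1 := by
    intro i i'
    exact ownSum_mono π (ownSum_step_eq hS hΘ i.2.1 i'.2.1) (i.2.2.trans i'.2.2.symm)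
  have a8 : ∀ i i' : A₂, i.1.2.1.1 < i'.1.2.1.1 ↔ i.1.2.1.2 < i'.1.2.1.2 := by
    intro i i'
    exact (ownSum_mono π (ownSum_step_eq' hS hΘ i.2.1 i'.2.1)
      (i.2.2.trans i'.2.2.symm)).symm
  have a9 : ∀ (i : A₁) (j : A₂), tri hS π (i.1, 1) = α (tri hS π (j.1, 0)) →
      i.1.2.1.1 = j.1.2.1.1 := by
    intro i j h
    exact ownSum_ab hS hα π i.2.1 j.2.1 h
  have a10 : ∀ (i : A₁) (j : A₂), tri hS π (j.1, 1) = α (tri hS π (i.1, 0)) →
      j.1.2.1.2 = i.1.2.1.2 := by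
    intro i j h
    exact ownSum_ab' hS hα π i.2.1 j.2.1 h
  have a11 : ∀ (i : A₁) (j : A₂), α (tri hS π (i.1, 0)) ≠ α (tri hS π (j.1, 0)) := by
    intro i j h
    have := (Prod.ext_iff.1 (tri_injective hS π (α.injective h))).1
    dsimp only at this
    exact j.2.1 (this ▸ i.2.1)
  have a12 : ∀ (i : A₁) (j : A₂), tri hS π (i.1, 1) ≠ tri hS π (j.1, 1) := by
    intro i j h
    have := (Prod.ext_iff.1 (tri_injective hS π h)).1
    dsimp only at this
    exact j.2.1 (this ▸ i.2.1)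
  have a13 : ∀ i i' : A₁, tri hS π (i.1, 1) ≠ α (tri hS π (i'.1, 0)) := by
    intro i i' h
    have h1 : IsStart (tri hS π (i.1, 1)) := by
      rw [isStart_tri]
      have := i.2.1
      tauto
    rw [h, hα.start, isStart_tri] at h1
    have := i'.2.1
    tauto
  have a14 : ∀ i i' : A₂, tri hS π (i.1, 1) ≠ α (tri hS π (i'.1, 0)) := by
    intro i i' h
    have h1 : ¬ IsStart (tri hS π (i.1, 1)) := by
      rw [isStart_tri]
      have := i.2.1
      tauto
    rw [h, hα.start, isStart_tri] at h1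
    have := i'.2.1
    tauto
  exact cyc_own_le _ _ _ _ a1 a2 a3 a4 _ (fun i : A₁ => i.1.2.1.1) (fun i : A₂ => i.1.2.1.1) _
    a5 a6 a7 a8 a9 a10 a11 a12 a13 a14

/-- `x` is the third vertex of the instance `p` of step `τ` -/
private def OwnH (K : ℕ) (S : ℕ → Finset V) (x : V) (τ : ℕ)
    (ρ : Equiv.Perm (Fin (chg S τ).card)) (p : V × V) : Prop :=
  ∃ hp : p ∈ inst K S τ, uu S τ (ρ (lam K S τ p hp)) = x

omit [Fintype V] in
private theorem ownSum_card_near (R : Finset V) (x : V) :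
    (R.filter fun a => a < x ∧ btw R a x < K).card ≤ K := by
  rcases (R.filter fun a => a < x ∧ btw R a x < K).eq_empty_or_nonempty with h | h
  · rw [h]; simp
  · obtain ⟨m, hm, hle⟩ : ∃ m ∈ R.filter fun a => a < x ∧ btw R a x < K,
        ∀ a ∈ R.filter fun a => a < x ∧ btw R a x < K, m ≤ a :=
      ⟨_, Finset.min'_mem _ h, fun a ha => Finset.min'_le _ a ha⟩
    have hm := mem_filter.1 hm
    have hsub : (R.filter fun a => a < x ∧ btw R a x < K) ⊆
        insert m (R.filter fun c => m < c ∧ c < x) := by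
      intro a ha
      rw [mem_insert, mem_filter]
      rcases (hle a ha).eq_or_lt with h1 | h1
      · exact Or.inl h1.symm
      · refine Or.inr ⟨?_, h1, ?_⟩
        · exact (mem_filter.1 ha).1
        · exact (mem_filter.1 ha).2.1
    have h2 := (card_le_card hsub).trans (card_insert_le _ _)
    have h3 : (R.filter fun c => m < c ∧ c < x).card < K := hm.2.2
    omega

open Classical in
private theorem ownSum_card_H (x : V) (τ : ℕ) (ρ : Equiv.Perm (Fin (chg S τ).card))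
    (hx : x ∈ chg S τ) :
    (univ.filter fun p : V × V => OwnH K S x τ ρ p).card ≤ K := by
  refine le_trans ?_ (ownSum_card_near (K := K) (big S τ) x)
  refine card_le_card_of_injOn (fun p => p.1) ?_ ?_
  · intro p hp
    rw [mem_coe, mem_filter] at hp
    obtain ⟨-, hp, -⟩ := hp
    have hp' := hp
    simp only [inst, mem_filter, mem_univ, true_and] at hp'
    have hsub : small S τ ⊆ big S τ := inter_subset_left.trans subset_union_left
    rw [mem_coe, mem_filter]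
    exact ⟨hsub hp'.1, (hp'.2.2.1 x hx).1, (hp'.2.2.2.1 x hx).1⟩
  · intro p hp p' hp' h
    rw [mem_coe, mem_filter] at hp hp'
    obtain ⟨-, hp, h1⟩ := hp
    obtain ⟨-, hp', h1'⟩ := hp'
    dsimp only at h
    have hb := ownSum_lam_eq hp hp' ρ (h1.trans h1'.symm)
    refine Prod.ext h ?_
    have h2 : ((p'.1, p.2) : V × V) ∈ inst K S τ := by rw [← h]; exact hp
    rw [h] at hb
    exact inst_inj_left (τ := τ) h2 hp' hb

open Classical in
private theorem ownSum_card_pairs (hS : IsSeq S T) {α : Equiv.Perm (Dt K T S)}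
    (hα : IsAlpha α) (x : V) (Θ : Finset (Fin T)) (hΘ : ∀ τ ∈ Θ, x ∈ chg S τ) (π : Perms T S)
    {τ₁ τ₂ : Fin T} (h₁ : τ₁ ∈ Θ) (h₂ : τ₂ ∈ Θ) (hi : S τ₁ ⊆ S (τ₁ + 1))
    (hd : ¬ S τ₂ ⊆ S (τ₂ + 1)) :
    Nat.card (OwnPairs hS α x Θ π) ≤
      (univ.filter fun p : V × V => OwnH K S x τ₁ (π τ₁) p ∧ OwnH K S x τ₂ (π τ₂) p).card := by
  have hab : ∀ z : OwnPairs hS α x Θ π, z.1.1.1.2.1 = z.1.2.1.2.1 := by
    intro z
    exact Prod.ext (ownSum_ab hS hα π z.1.1.2.1 z.1.2.2.1 z.2.1)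
      (ownSum_ab' hS hα π z.1.1.2.1 z.1.2.2.1 z.2.2).symm
  have hH : ∀ (y : Idx K T S Θ) (τ : Fin T), y.1.1 = τ → third π y = x →
      OwnH K S x τ (π τ) y.2.1 := by
    rintro ⟨⟨τ, hτ⟩, ⟨p, hp⟩⟩ τ' h hx
    dsimp only at h
    subst h
    exact ⟨hp, hx⟩
  have hs1 : ∀ z : OwnPairs hS α x Θ π, z.1.1.1.1.1 = τ₁ := fun z =>
    ownSum_ins_unique hS z.1.1.2.1 hi (hΘ _ z.1.1.1.1.2) (hΘ _ h₁)
  have hs2 : ∀ z : OwnPairs hS α x Θ π, z.1.2.1.1.1 = τ₂ := fun z =>
    ownSum_del_unique hS z.1.2.2.1 hd (hΘ _ z.1.2.1.1.2) (hΘ _ h₂)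
  rw [Nat.card_eq_fintype_card, ← Finset.card_univ]
  refine card_le_card_of_injOn (fun z => z.1.1.1.2.1) ?_ ?_
  · intro z _
    rw [mem_coe, mem_filter]
    refine ⟨mem_univ _, hH _ _ (hs1 z) z.1.1.2.2, ?_⟩
    dsimp only
    rw [hab z]
    exact hH _ _ (hs2 z) z.1.2.2.2
  · intro z _ z' _ h
    dsimp only at h
    have e1 : z.1.1 = z'.1.1 :=
      Subtype.ext (ownSum_idx_ext ((hs1 z).trans (hs1 z').symm) h)
    have e2 : z.1.2 = z'.1.2 :=
      Subtype.ext (ownSum_idx_ext ((hs2 z).trans (hs2 z').symm)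
        (((hab z).symm.trans h).trans (hab z')))
    exact Subtype.ext (Prod.ext e1 e2)

omit [Fintype V] in
private theorem ownSum_exists_index {τ : ℕ} {x : V} (hx : x ∈ chg S τ) :
    ∃ l : Fin (chg S τ).card, uu S τ l = x := by
  have h : x ∈ Set.range ((chg S τ).orderEmbOfFin rfl) := by
    rw [Finset.range_orderEmbOfFin]
    exact hx
  exact h

open Classical in
private theorem ownSum_count (x : V) {τ₁ τ₂ : Fin T} (h12 : τ₁ ≠ τ₂) (hx₁ : x ∈ chg S τ₁)
    (hx₂ : x ∈ chg S τ₂) :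
    (chg S τ₂).card * ∑ π : Perms T S, (univ.filter fun p : V × V =>
      OwnH K S x τ₁ (π τ₁) p ∧ OwnH K S x τ₂ (π τ₂) p).card ≤
      Fintype.card (Perms T S) * K := by
  obtain ⟨j₂, hj₂⟩ := ownSum_exists_index hx₂
  set F : Perms T S → Finset (V × V) := fun π => univ.filter fun p : V × V =>
      OwnH K S x τ₁ (π τ₁) p ∧ OwnH K S x τ₂ (π τ₂) p with hF
  let E : Fin (chg S τ₂).card → Perms T S := fun c =>
    Pi.mulSingle (M := fun τ : Fin T => Equiv.Perm (Fin (chg S τ).card)) τ₂ (Equiv.swap j₂ c)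
  have hE1 : ∀ c (π : Perms T S), (E c * π) τ₁ = π τ₁ := by
    intro c π
    rw [Pi.mul_apply]
    simp only [E]
    rw [Pi.mulSingle_eq_of_ne h12, one_mul]
  have hE2 : ∀ c (π : Perms T S), (E c * π) τ₂ = Equiv.swap j₂ c * π τ₂ := by
    intro c π
    rw [Pi.mul_apply]
    simp only [E]
    rw [Pi.mulSingle_eq_same]
  have hsum : ∀ c, ∑ π : Perms T S, (F (E c * π)).card = ∑ π : Perms T S, (F π).card :=
    fun c => Equiv.sum_comp (Equiv.mulLeft (E c)) fun π => (F π).card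
  have hpt : ∀ π : Perms T S, ∑ c, (F (E c * π)).card ≤ K := by
    intro π
    have hval : ∀ c p, p ∈ F (E c * π) → OwnH K S x τ₁ (π τ₁) p ∧
        ∃ hp : p ∈ inst K S τ₂, π τ₂ (lam K S τ₂ p hp) = c := by
      intro c p hp
      rw [hF] at hp
      dsimp only at hp
      rw [mem_filter, hE1, hE2] at hp
      refine ⟨hp.2.1, ?_⟩
      obtain ⟨hp', he⟩ := hp.2.2
      refine ⟨hp', ?_⟩
      have h3 : Equiv.swap j₂ c (π τ₂ (lam K S τ₂ p hp')) = j₂ :=
        ((chg S τ₂).orderEmbOfFin rfl).injective (he.trans hj₂.symm)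
      rw [Equiv.swap_apply_eq_iff, Equiv.swap_apply_left] at h3
      exact h3
    rw [← Finset.card_biUnion]
    · refine le_trans (card_le_card ?_) (ownSum_card_H (K := K) x τ₁ (π τ₁) hx₁)
      intro p hp
      rw [mem_biUnion] at hp
      obtain ⟨c, -, hp⟩ := hp
      rw [mem_filter]
      exact ⟨mem_univ _, (hval c p hp).1⟩
    · intro c _ c' _ hcc
      rw [Function.onFun, disjoint_left]
      intro p hp hp'
      obtain ⟨_, h1⟩ := (hval c p hp).2
      obtain ⟨_, h2⟩ := (hval c' p hp').2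
      exact hcc (h1.symm.trans h2)
  calc (chg S τ₂).card * ∑ π : Perms T S, (F π).card
      = ∑ c : Fin (chg S τ₂).card, ∑ π : Perms T S, (F (E c * π)).card := by
        rw [Finset.sum_congr rfl fun c _ => hsum c]
        simp
    _ = ∑ π : Perms T S, ∑ c, (F (E c * π)).card := Finset.sum_comm
    _ ≤ ∑ _π : Perms T S, K := Finset.sum_le_sum fun π _ => hpt π
    _ = Fintype.card (Perms T S) * K := by
        rw [Finset.sum_const, Finset.card_univ, smul_eq_mul]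

theorem own_sum (hS : IsSeq S T) {α : Equiv.Perm (Dt K T S)} (hα : IsAlpha α) (q : ℕ)
    (hq : 1 ≤ q) (x : V) (Θ : Finset (Fin T)) (hΘ : ∀ τ ∈ Θ, x ∈ chg S τ)
    (hs : ∀ τ ∈ Θ, q ≤ (chg S τ).card) :
    ∑ π : Perms T S, (cyc (arcsAt hS α Θ π x) : ℝ) ≤
      (Fintype.card (Perms T S) : ℝ) * ((K : ℝ) / q) := by
  classical
  have hle : ∑ π : Perms T S, (cyc (arcsAt hS α Θ π x) : ℝ) ≤
      ∑ π : Perms T S, (Nat.card (OwnPairs hS α x Θ π) : ℝ) := by
    refine Finset.sum_le_sum fun π _ => ?_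
    have := ownSum_cyc_le hS hα x Θ hΘ π
    exact_mod_cast this
  refine hle.trans ?_
  have hR : (0 : ℝ) ≤ (Fintype.card (Perms T S) : ℝ) * ((K : ℝ) / q) := by positivity
  by_cases h1 : ∃ τ₁ ∈ Θ, S τ₁ ⊆ S (τ₁ + 1)
  swap
  · refine le_trans (le_of_eq ?_) hR
    refine Finset.sum_eq_zero fun π _ => ?_
    have : IsEmpty (OwnPairs hS α x Θ π) :=
      ⟨fun z => h1 ⟨z.1.1.1.1.1, z.1.1.1.1.2, z.1.1.2.1⟩⟩
    simp
  by_cases h2 : ∃ τ₂ ∈ Θ, ¬ S τ₂ ⊆ S (τ₂ + 1)
  swap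
  · refine le_trans (le_of_eq ?_) hR
    refine Finset.sum_eq_zero fun π _ => ?_
    have : IsEmpty (OwnPairs hS α x Θ π) :=
      ⟨fun z => h2 ⟨z.1.2.1.1.1, z.1.2.1.1.2, z.1.2.2.1⟩⟩
    simp
  obtain ⟨τ₁, ht₁, hi⟩ := h1
  obtain ⟨τ₂, ht₂, hd⟩ := h2
  have h12 : τ₁ ≠ τ₂ := by
    rintro rfl
    exact hd hi
  have hc := ownSum_count (K := K) x h12 (hΘ _ ht₁) (hΘ _ ht₂)
  have hp : ∑ π : Perms T S, Nat.card (OwnPairs hS α x Θ π) ≤
      ∑ π : Perms T S, (univ.filter fun p : V × V =>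
        OwnH K S x τ₁ (π τ₁) p ∧ OwnH K S x τ₂ (π τ₂) p).card :=
    Finset.sum_le_sum fun π _ => ownSum_card_pairs hS hα x Θ hΘ π ht₁ ht₂ hi hd
  have hfin : q * ∑ π : Perms T S, Nat.card (OwnPairs hS α x Θ π) ≤
      Fintype.card (Perms T S) * K :=
    (Nat.mul_le_mul (hs _ ht₂) hp).trans hc
  have hfin' : (q : ℝ) * ∑ π : Perms T S, (Nat.card (OwnPairs hS α x Θ π) : ℝ) ≤
      (Fintype.card (Perms T S) : ℝ) * K := by
    exact_mod_cast hfin
  have hq' : (0 : ℝ) < q := by exact_mod_cast hq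
  rw [← mul_div_assoc, le_div_iff₀ hq', mul_comm]
  exact hfin'

end Pool.Agent.H20.BK
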