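import Mathlib
import Pool.Agent.H20.BK.AvgStep
import Pool.Agent.H20.BK.OwnSum
import Pool.Agent.H20.BK.Fiber
import Pool.Agent.H20.BK.Count

/-!
Project BK, module AvgFinal. Averaging over all choices of permutations.

Proof sketch. For every vertex `x` put `Θ₀ = good.filter (x ∈ chg S τ)`. Adding the other steps of
`good` one after the other (`Finset.induction_on`), `avg_step` and the identity
`∑ π, f π = (1 / s!) ∑ π, ∑ ρ, f (Function.update π τ ρ)` give
`∑ π, cyc (arcsAt hS α good π x) ≤ |Perms| (K/q + ∑_{τ ∈ good, Part K S τ x} harmonic (2q))`.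
Sum over `x` (`cyc_fiber`, `src_arcs`), use `card_part_le` (`≤ 2K` vertices take part in a step) and
`|good| q ≤ ∑ |chg| = 2n` (`sum_card_chg`). So the average over `π` is at most
`n K / q + (2n/q) 2K harmonic (2q)`; some `π` is at most the average.
-/

namespace Pool.Agent.H20.BK

open Finset

variable {V : Type*} [LinearOrder V] [Fintype V] {K T : ℕ} {S : ℕ → Finset V}

private theorem AvgFinal_harmonic_mono {m n : ℕ} (h : m ≤ n) :
    ((harmonic m : ℚ) : ℝ) ≤ ((harmonic n : ℚ) : ℝ) := by
  have : harmonic m ≤ harmonic n := by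
    unfold harmonic
    apply Finset.sum_le_sum_of_subset_of_nonneg
    · exact Finset.range_mono h
    · intro i _ _
      positivity
  exact_mod_cast this

private theorem AvgFinal_harmonic_nonneg (n : ℕ) : 0 ≤ ((harmonic n : ℚ) : ℝ) := by
  have := AvgFinal_harmonic_mono (Nat.zero_le n)
  simpa using this

omit [Fintype V] in
/-- Resampling one coordinate. -/
private theorem AvgFinal_resample {T : ℕ} {S : ℕ → Finset V} (τ : Fin T) (f : Perms T S → ℝ) :
    ∑ π : Perms T S, ∑ ρ : Equiv.Perm (Fin (chg S τ).card), f (Function.update π τ ρ) =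
      ((chg S τ).card.factorial : ℝ) * ∑ π : Perms T S, f π := by
  classical
  have hcard : Fintype.card (Equiv.Perm (Fin (chg S τ).card)) = (chg S τ).card.factorial := by
    rw [Fintype.card_perm, Fintype.card_fin]
  let e : Perms T S × Equiv.Perm (Fin (chg S τ).card) ≃
      Perms T S × Equiv.Perm (Fin (chg S τ).card) :=
    { toFun := fun p => (Function.update p.1 τ p.2, p.1 τ)
      invFun := fun p => (Function.update p.1 τ p.2, p.1 τ)
      left_inv := fun p => by simp
      right_inv := fun p => by simp }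
  calc ∑ π : Perms T S, ∑ ρ : Equiv.Perm (Fin (chg S τ).card), f (Function.update π τ ρ)
      = ∑ p : Perms T S × Equiv.Perm (Fin (chg S τ).card), f (Function.update p.1 τ p.2) := by
        rw [Fintype.sum_prod_type]
    _ = ∑ p : Perms T S × Equiv.Perm (Fin (chg S τ).card), f p.1 :=
        Fintype.sum_equiv e _ _ fun p => rfl
    _ = ∑ π : Perms T S, ∑ _ρ : Equiv.Perm (Fin (chg S τ).card), f π := by
        rw [Fintype.sum_prod_type]
    _ = _ := by
        simp only [Finset.sum_const, Finset.card_univ, hcard, nsmul_eq_mul]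
        rw [Finset.mul_sum]

private theorem AvgFinal_induct (hS : IsSeq S T) {α : Equiv.Perm (Dt K T S)} (hα : IsAlpha α)
    (q : ℕ) (hq : 1 ≤ q) (good : Finset (Fin T))
    (hgood : ∀ τ ∈ good, q ≤ (chg S τ).card ∧ (chg S τ).card ≤ 2 * q) (x : V)
    (Δ : Finset (Fin T)) (hΔ : Δ ⊆ good.filter fun τ => x ∉ chg S τ) :
    ∑ π : Perms T S,
      (cyc (arcsAt hS α ((good.filter fun τ => x ∈ chg S τ) ∪ Δ) π x) : ℝ) ≤
      (Fintype.card (Perms T S) : ℝ) * ((K : ℝ) / q +
        ∑ τ ∈ Δ, if Part K S τ x then ((harmonic (2 * q) : ℚ) : ℝ) else 0) := by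
  classical
  induction Δ using Finset.induction_on with
  | empty =>
    simp only [Finset.union_empty, Finset.sum_empty, add_zero]
    exact own_sum hS hα q hq x _ (fun τ hτ => (Finset.mem_filter.1 hτ).2)
      (fun τ hτ => (hgood τ (Finset.mem_filter.1 hτ).1).1)
  | insert τ Δ hτΔ ih =>
    have hτ : τ ∈ good ∧ x ∉ chg S τ := by
      have := hΔ (Finset.mem_insert_self τ Δ)
      exact Finset.mem_filter.1 this
    have hΔ' : Δ ⊆ good.filter fun τ => x ∉ chg S τ := fun y hy =>
      hΔ (Finset.mem_insert_of_mem hy)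
    have ih' := ih hΔ'
    set Θ : Finset (Fin T) := (good.filter fun τ : Fin T => x ∈ chg S τ) ∪ Δ with hΘ
    have hnot : τ ∉ Θ := by
      rw [hΘ, Finset.mem_union, Finset.mem_filter]
      rintro (h | h)
      · exact hτ.2 h.2
      · exact hτΔ h
    have hins : (good.filter fun τ : Fin T => x ∈ chg S τ) ∪ insert τ Δ = insert τ Θ := by
      rw [hΘ, Finset.union_insert]
    rw [hins, Finset.sum_insert hτΔ]
    set s := (chg S τ).card with hs
    have hfac : (0 : ℝ) < (s.factorial : ℝ) := by exact_mod_cast Nat.factorial_pos _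
    have hstep : ∑ π : Perms T S, ∑ ρ : Equiv.Perm (Fin (chg S τ).card),
        ((cyc (arcsAt hS α (insert τ Θ) (Function.update π τ ρ) x) : ℝ) -
          (cyc (arcsAt hS α Θ π x) : ℝ)) ≤
        ∑ _π : Perms T S, (if Part K S τ x then
          ((chg S τ).card.factorial : ℝ) * ((harmonic (chg S τ).card : ℚ) : ℝ) else 0) :=
      Finset.sum_le_sum fun π _ => avg_step hS hα Θ τ hnot x hτ.2 π
    have hA : ∑ π : Perms T S, ∑ ρ : Equiv.Perm (Fin (chg S τ).card),
        ((cyc (arcsAt hS α (insert τ Θ) (Function.update π τ ρ) x) : ℝ) -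
          (cyc (arcsAt hS α Θ π x) : ℝ)) =
        (s.factorial : ℝ) * ∑ π : Perms T S, (cyc (arcsAt hS α (insert τ Θ) π x) : ℝ) -
          (s.factorial : ℝ) * ∑ π : Perms T S, (cyc (arcsAt hS α Θ π x) : ℝ) := by
      simp only [Finset.sum_sub_distrib]
      rw [AvgFinal_resample τ (fun π => (cyc (arcsAt hS α (insert τ Θ) π x) : ℝ))]
      congr 1
      simp only [Finset.sum_const, Finset.card_univ, nsmul_eq_mul, Fintype.card_perm,
        Fintype.card_fin]
      rw [Finset.mul_sum]
    have hB : ∑ _π : Perms T S, (if Part K S τ x then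
          ((chg S τ).card.factorial : ℝ) * ((harmonic (chg S τ).card : ℚ) : ℝ) else 0) ≤
        (s.factorial : ℝ) * ((Fintype.card (Perms T S) : ℝ) *
          (if Part K S τ x then ((harmonic (2 * q) : ℚ) : ℝ) else 0)) := by
      rw [Finset.sum_const, Finset.card_univ, nsmul_eq_mul]
      split_ifs with hP
      · have h1 := AvgFinal_harmonic_mono (hgood τ hτ.1).2
        have h2 : (0 : ℝ) ≤ (Fintype.card (Perms T S) : ℝ) := Nat.cast_nonneg _
        calc (Fintype.card (Perms T S) : ℝ) *
              ((s.factorial : ℝ) * ((harmonic s : ℚ) : ℝ))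
            = (s.factorial : ℝ) * ((Fintype.card (Perms T S) : ℝ) * ((harmonic s : ℚ) : ℝ)) := by
              ring
          _ ≤ _ := by
              apply mul_le_mul_of_nonneg_left _ hfac.le
              exact mul_le_mul_of_nonneg_left h1 h2
      · simp
    rw [hA] at hstep
    have h3 : (s.factorial : ℝ) * (∑ π : Perms T S,
        (cyc (arcsAt hS α (insert τ Θ) π x) : ℝ)) ≤
        (s.factorial : ℝ) * (∑ π : Perms T S, (cyc (arcsAt hS α Θ π x) : ℝ) +
          (Fintype.card (Perms T S) : ℝ) *
            (if Part K S τ x then ((harmonic (2 * q) : ℚ) : ℝ) else 0)) := by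
      rw [mul_add]
      linarith
    have h4 := le_of_mul_le_mul_left h3 hfac
    calc _ ≤ _ := h4
      _ ≤ (Fintype.card (Perms T S) : ℝ) * ((K : ℝ) / q +
          ∑ τ ∈ Δ, if Part K S τ x then ((harmonic (2 * q) : ℚ) : ℝ) else 0) +
          (Fintype.card (Perms T S) : ℝ) *
            (if Part K S τ x then ((harmonic (2 * q) : ℚ) : ℝ) else 0) := by linarith
      _ = _ := by ring

theorem exists_perms (hS : IsSeq S T) {α : Equiv.Perm (Dt K T S)} (hα : IsAlpha α) (q : ℕ)
    (hq : 1 ≤ q) (good : Finset (Fin T))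
    (hgood : ∀ τ ∈ good, q ≤ (chg S τ).card ∧ (chg S τ).card ≤ 2 * q) :
    ∃ π : Perms T S, (cyc (arcs hS α good π) : ℝ) ≤
      (4 * K * (Fintype.card V : ℝ) * ((harmonic (2 * q) : ℚ) : ℝ) +
        K * (Fintype.card V : ℝ)) / q := by
  classical
  set H : ℝ := ((harmonic (2 * q) : ℚ) : ℝ) with hH
  have hH0 : 0 ≤ H := AvgFinal_harmonic_nonneg _
  have hP0 : (0 : ℝ) < (Fintype.card (Perms T S) : ℝ) := by
    exact_mod_cast Fintype.card_pos
  have hq0 : (0 : ℝ) < q := by exact_mod_cast hq
  -- one vertex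
  have hx : ∀ x : V, ∑ π : Perms T S, (cyc (arcsAt hS α good π x) : ℝ) ≤
      (Fintype.card (Perms T S) : ℝ) * ((K : ℝ) / q +
        ∑ τ ∈ good, if Part K S τ x then H else 0) := by
    intro x
    have h := AvgFinal_induct hS hα q hq good hgood x (good.filter fun τ => x ∉ chg S τ)
      (Finset.Subset.refl _)
    rw [Finset.filter_union_filter_not_eq] at h
    refine h.trans (mul_le_mul_of_nonneg_left ?_ hP0.le)
    refine add_le_add le_rfl ?_
    apply Finset.sum_le_sum_of_subset_of_nonneg (Finset.filter_subset _ _)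
    intro τ _ _
    split_ifs
    · exact hH0
    · exact le_rfl
  have hgoodcard : (good.card : ℝ) * q ≤ 2 * Fintype.card V := by
    have h1 : good.card * q ≤ 2 * Fintype.card V := by
      rw [← sum_card_chg hS]
      calc good.card * q = ∑ _τ ∈ good, q := by rw [Finset.sum_const, smul_eq_mul]
        _ ≤ ∑ τ ∈ good, (chg S τ).card := Finset.sum_le_sum fun τ h => (hgood τ h).1
        _ ≤ ∑ τ : Fin T, (chg S τ).card :=
            Finset.sum_le_univ_sum_of_nonneg fun _ => Nat.zero_le _
        _ = _ := Fin.sum_univ_eq_sum_range (fun τ => (chg S τ).card) T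
    exact_mod_cast h1
  have hpart : ∑ x : V, ∑ τ ∈ good, (if Part K S τ x then H else 0) ≤
      good.card * (2 * K * H) := by
    rw [Finset.sum_comm]
    rw [← nsmul_eq_mul, ← Finset.sum_const]
    refine Finset.sum_le_sum fun τ _ => ?_
    rw [← Finset.sum_filter, Finset.sum_const, nsmul_eq_mul]
    apply mul_le_mul_of_nonneg_right _ hH0
    exact_mod_cast card_part_le K S τ
  have htotal : ∑ π : Perms T S, (cyc (arcs hS α good π) : ℝ) ≤
      ∑ _π : Perms T S, ((4 * K * (Fintype.card V : ℝ) * H + K * (Fintype.card V : ℝ)) / q) := by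
    have h1 : ∀ π : Perms T S, (cyc (arcs hS α good π) : ℝ) =
        ∑ x : V, (cyc (arcsAt hS α good π x) : ℝ) := by
      intro π
      rw [cyc_fiber (src (K := K) (T := T) (S := S)) (arcs hS α good π) (src_arcs hS hα good π)]
      push_cast
      rfl
    simp only [h1]
    rw [Finset.sum_comm]
    calc ∑ x : V, ∑ π : Perms T S, (cyc (arcsAt hS α good π x) : ℝ)
        ≤ ∑ x : V, (Fintype.card (Perms T S) : ℝ) * ((K : ℝ) / q +
          ∑ τ ∈ good, if Part K S τ x then H else 0) := Finset.sum_le_sum fun x _ => hx x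
      _ = (Fintype.card (Perms T S) : ℝ) * ((Fintype.card V : ℝ) * ((K : ℝ) / q) +
          ∑ x : V, ∑ τ ∈ good, if Part K S τ x then H else 0) := by
          rw [← Finset.mul_sum, Finset.sum_add_distrib, Finset.sum_const, Finset.card_univ,
            nsmul_eq_mul]
      _ ≤ (Fintype.card (Perms T S) : ℝ) * ((Fintype.card V : ℝ) * ((K : ℝ) / q) +
          good.card * (2 * K * H)) := by
          apply mul_le_mul_of_nonneg_left _ hP0.le
          linarith
      _ ≤ (Fintype.card (Perms T S) : ℝ) *
          ((4 * K * (Fintype.card V : ℝ) * H + K * (Fintype.card V : ℝ)) / q) := by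
          apply mul_le_mul_of_nonneg_left _ hP0.le
          rw [le_div_iff₀ hq0, add_mul, mul_assoc (Fintype.card V : ℝ), div_mul_cancel₀ _ hq0.ne']
          have h2 : (good.card : ℝ) * (2 * K * H) * q =
            ((good.card : ℝ) * q) * (2 * K * H) := by ring
          have h3 : ((good.card : ℝ) * q) * (2 * K * H) ≤
              2 * Fintype.card V * (2 * K * H) :=
            mul_le_mul_of_nonneg_right hgoodcard (by positivity)
          rw [h2]
          linarith
      _ = _ := by rw [Finset.sum_const, Finset.card_univ, nsmul_eq_mul]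
  obtain ⟨π, _, hπ⟩ := Finset.exists_le_of_sum_le (Finset.univ_nonempty) htotal
  exact ⟨π, hπ⟩

end Pool.Agent.H20.BK
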