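import Mathlib
import Pool.Agent.H20.BK.Model

/-!
Definitions for the batching step.
-/

namespace Pool.Agent.H20.BK

open Finset

variable {V : Type*} [LinearOrder V]

/-- A sequence of states from `∅` to `∅`, every element present during one interval of times;
every step inserts a set or deletes one element. -/
structure IsBase (B : ℕ → Finset V) (T : ℕ) : Prop where
  zero : B 0 = ∅
  last : B T = ∅
  conv : ∀ v i j k, i ≤ j → j ≤ k → k ≤ T → v ∈ B i → v ∈ B k → v ∈ B j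
  step : ∀ τ, τ < T → B τ ⊆ B (τ + 1) ∨ ∃ w ∈ B τ, B (τ + 1) = (B τ).erase w

/-- Any `q` elements of `P` contain two with at least `ρ` elements of `S` strictly in between. -/
def Sparse (q ρ : ℕ) (S P : Finset V) : Prop :=
  ∀ Q ⊆ P, Q.card = q → ∃ a ∈ Q, ∃ b ∈ Q, a < b ∧ ρ ≤ btw S a b

/-- The result of the batching procedure. -/
structure IsFlush (q ρ : ℕ) (B : ℕ → Finset V) (T : ℕ) (S : ℕ → Finset V) : Prop where
  sub : ∀ τ, τ ≤ T → B τ ⊆ S τ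
  zero : S 0 = ∅
  last : S (T + 1) = ∅
  conv : ∀ v i j k, i ≤ j → j ≤ k → k ≤ T + 1 → v ∈ S i → v ∈ S k → v ∈ S j
  sparse : ∀ τ, τ ≤ T → Sparse q ρ (S τ) (S τ \ B τ)
  ins : ∀ τ, τ < T → B τ ⊆ B (τ + 1) →
    S (τ + 1) = S τ ∪ (B (τ + 1) \ B τ) ∧ Disjoint (S τ) (B (τ + 1) \ B τ)
  del : ∀ τ, τ < T → ¬ B τ ⊆ B (τ + 1) → S (τ + 1) ⊆ S τ ∧
    (S τ \ S (τ + 1) = ∅ ∨ (q ≤ (S τ \ S (τ + 1)).card ∧ (S τ \ S (τ + 1)).card ≤ 2 * q ∧
      HullLE (S τ) (S τ \ S (τ + 1)) (2 * ρ + 1)))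
  final : (S T).card < q

/-- The level after one batching with `ρ = 2 q ^ 2`. -/
def up (q K : ℕ) : ℕ := K + K / q + 2 * q

end Pool.Agent.H20.BK
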