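import Mathlib
import Pool.Agent.H20.BK.Batch

/-!
Project BK, module Base. From an arrangement of bars to a sequence of states.

Proof sketch. Let `z` be any bar (e.g. `0`); it is made present at all times. Order the `2n`
endpoints: first the left endpoint of `z`, then the endpoints of the other bars ordered by
(abscissa, left endpoints before right endpoints at the same abscissa, index), last the right
endpoint of `z`. `T = 2n` and `B τ` = set of the bars whose left endpoint is among the first `τ`
endpoints and whose right endpoint is not. If `i`, `j` are adjacent in `Bs.graph k`, witnessed by the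
abscissa `x`, let `τ` be the number of endpoints in the initial segment consisting of the left
endpoint of `z`, all left endpoints `≤ x` and all right endpoints `< x` (of the other bars): this is
an initial segment of the order, and `B τ = {m | m = z ∨ Bs.meets x m}`. An element `c ≠ z` of
`B τ` strictly between `i` and `j` (in the order of `Fin n`) has height between those of `i` and
`j` because `Bs.y` is monotone, so there are at most `k` of them; with `z` at most `k + 1 < k + 2`.
(The order of the endpoints can be obtained e.g. from `Finset.orderIsoOfFin` /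
`monoEquivOfFin` for the lexicographic order, or by counting.)
-/

namespace Pool.Agent.H20.BK

open Finset

section Rank

variable {E L : Type*} [Fintype E] [LinearOrder L]

/-- The rank of an element. -/
private noncomputable def brank (key : E → L) (e : E) : ℕ :=
  (univ.filter fun e' => key e' < key e).card

private theorem brank_lt {key : E → L} {e f : E} (h : key e < key f) :
    brank key e < brank key f := by
  classical
  refine Finset.card_lt_card ?_
  rw [Finset.ssubset_iff_of_subset]
  · refine ⟨e, ?_, ?_⟩
    · rw [Finset.mem_filter]; exact ⟨Finset.mem_univ _, h⟩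
    · rw [Finset.mem_filter]; exact fun h' => lt_irrefl _ h'.2
  · intro g hg
    rw [Finset.mem_filter] at hg ⊢
    exact ⟨hg.1, hg.2.trans h⟩

private theorem brank_le {key : E → L} {e f : E} (h : key e ≤ key f) :
    brank key e ≤ brank key f := by
  refine Finset.card_le_card ?_
  intro g hg
  rw [Finset.mem_filter] at hg ⊢
  exact ⟨hg.1, hg.2.trans_le h⟩

private theorem brank_inj {key : E → L} (hk : Function.Injective key) {e f : E}
    (h : brank key e = brank key f) : e = f := by
  rcases lt_trichotomy (key e) (key f) with h1 | h1 | h1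
  · exact absurd (brank_lt h1) (by omega)
  · exact hk h1
  · exact absurd (brank_lt h1) (by omega)

private theorem brank_lt_card (key : E → L) (e : E) : brank key e < Fintype.card E := by
  classical
  unfold brank
  rw [← Finset.card_univ]
  refine Finset.card_lt_card ?_
  rw [Finset.ssubset_iff_of_subset (Finset.subset_univ _)]
  exact ⟨e, Finset.mem_univ _, fun h => lt_irrefl _ (Finset.mem_filter.1 h).2⟩

private theorem brank_lt_iff {key : E → L} {I : Finset E}
    (hI : ∀ e ∈ I, ∀ f, key f < key e → f ∈ I) (hk : Function.Injective key) (e : E) :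
    brank key e < I.card ↔ e ∈ I := by
  classical
  constructor
  · intro h
    by_contra he
    have hsub : I ⊆ univ.filter fun e' => key e' < key e := by
      intro f hf
      rw [Finset.mem_filter]
      refine ⟨Finset.mem_univ _, ?_⟩
      rcases lt_trichotomy (key f) (key e) with h1 | h1 | h1
      · exact h1
      · exact absurd (hk h1 ▸ hf) he
      · exact absurd (hI f hf e h1) he
    have := Finset.card_le_card hsub
    unfold brank at h
    omega
  · intro he
    unfold brank
    refine Finset.card_lt_card ?_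
    rw [Finset.ssubset_iff_of_subset]
    · exact ⟨e, he, fun h => lt_irrefl _ (Finset.mem_filter.1 h).2⟩
    · intro f hf
      exact hI e he f (Finset.mem_filter.1 hf).2

end Rank

section Events

variable {n : ℕ}

/-- The abscissa of an endpoint; the bar `z` is extended to infinity in both directions. -/
private noncomputable def babs (Bs : Bars n) (z : Fin n) (e : Fin n × Bool) : EReal :=
  if e.2 = false then (if e.1 = z then ⊥ else ((Bs.l e.1 : ℝ) : EReal))
  else (if e.1 = z then ⊤ else ((Bs.r e.1 : ℝ) : EReal))

/-- The sorting key of an endpoint. -/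
private noncomputable def bkey (Bs : Bars n) (z : Fin n) (e : Fin n × Bool) :
    EReal ×ₗ (Bool ×ₗ Fin n) :=
  toLex (babs Bs z e, toLex (e.2, e.1))

private theorem bkey_inj (Bs : Bars n) (z : Fin n) : Function.Injective (bkey Bs z) := by
  intro e f h
  unfold bkey at h
  have h1 := congrArg (fun t => (ofLex (ofLex t).2)) h
  simp only [ofLex_toLex] at h1
  rw [Prod.ext_iff] at h1
  exact Prod.ext h1.2 h1.1

private theorem bkey_lt_iff (Bs : Bars n) (z : Fin n) (e f : Fin n × Bool) :
    bkey Bs z e < bkey Bs z f ↔ babs Bs z e < babs Bs z f ∨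
      (babs Bs z e = babs Bs z f ∧ (e.2 < f.2 ∨ (e.2 = f.2 ∧ e.1 < f.1))) := by
  unfold bkey
  rw [Prod.Lex.toLex_lt_toLex, Prod.Lex.toLex_lt_toLex]

private theorem babs_false (Bs : Bars n) (z v : Fin n) :
    babs Bs z (v, false) = if v = z then ⊥ else ((Bs.l v : ℝ) : EReal) := by
  simp [babs]

private theorem babs_true (Bs : Bars n) (z v : Fin n) :
    babs Bs z (v, true) = if v = z then ⊤ else ((Bs.r v : ℝ) : EReal) := by
  simp [babs]

private theorem bkey_lt_self (Bs : Bars n) (z v : Fin n) :
    bkey Bs z (v, false) < bkey Bs z (v, true) := by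
  rw [bkey_lt_iff, babs_false, babs_true]
  left
  by_cases h : v = z
  · rw [if_pos h, if_pos h]; exact bot_lt_top
  · rw [if_neg h, if_neg h]; exact EReal.coe_lt_coe (Bs.lt v)

private theorem bkey_z_min (Bs : Bars n) (z v : Fin n) :
    bkey Bs z (z, false) ≤ bkey Bs z (v, false) := by
  by_cases h : v = z
  · rw [h]
  · refine le_of_lt ?_
    rw [bkey_lt_iff, babs_false, babs_false, if_pos rfl, if_neg h]
    exact Or.inl (EReal.bot_lt_coe _)

private theorem bkey_z_max (Bs : Bars n) (z v : Fin n) :
    bkey Bs z (v, true) ≤ bkey Bs z (z, true) := by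
  by_cases h : v = z
  · rw [h]
  · refine le_of_lt ?_
    rw [bkey_lt_iff, babs_true, babs_true, if_pos rfl, if_neg h]
    exact Or.inl (EReal.coe_lt_top _)

/-- The states. -/
private noncomputable def bstate (Bs : Bars n) (z : Fin n) (τ : ℕ) : Finset (Fin n) :=
  univ.filter fun v => brank (bkey Bs z) (v, false) < τ ∧ τ ≤ brank (bkey Bs z) (v, true)

private theorem mem_bstate (Bs : Bars n) (z : Fin n) (τ : ℕ) (v : Fin n) :
    v ∈ bstate Bs z τ ↔ brank (bkey Bs z) (v, false) < τ ∧ τ ≤ brank (bkey Bs z) (v, true) := by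
  simp [bstate]

/-- The endpoints before the abscissa `x`. -/
private noncomputable def binit (Bs : Bars n) (z : Fin n) (x : ℝ) : Finset (Fin n × Bool) :=
  univ.filter fun e => babs Bs z e < (x : EReal) ∨ (babs Bs z e = (x : EReal) ∧ e.2 = false)

private theorem binit_down (Bs : Bars n) (z : Fin n) (x : ℝ) :
    ∀ e ∈ binit Bs z x, ∀ f, bkey Bs z f < bkey Bs z e → f ∈ binit Bs z x := by
  intro e he f hf
  unfold binit at he ⊢
  rw [Finset.mem_filter] at he ⊢
  refine ⟨Finset.mem_univ _, ?_⟩
  rw [bkey_lt_iff] at hf
  rcases hf with h1 | ⟨h1, h2⟩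
  · rcases he.2 with h3 | ⟨h3, -⟩
    · exact Or.inl (h1.trans h3)
    · exact Or.inl (h3 ▸ h1)
  · rcases he.2 with h3 | ⟨h3, h4⟩
    · exact Or.inl (h1 ▸ h3)
    · refine Or.inr ⟨h1.trans h3, ?_⟩
      rw [h4] at h2
      rcases h2 with h2 | ⟨h2, -⟩
      · exact absurd h2 (by cases f.2 <;> decide)
      · exact h2

private theorem mem_bstate_init (Bs : Bars n) (z : Fin n) (x : ℝ) (v : Fin n) :
    v ∈ bstate Bs z (binit Bs z x).card ↔ v = z ∨ Bs.meets x v := by
  rw [mem_bstate, brank_lt_iff (binit_down Bs z x) (bkey_inj Bs z), ← not_lt,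
    brank_lt_iff (binit_down Bs z x) (bkey_inj Bs z)]
  unfold binit
  rw [Finset.mem_filter, Finset.mem_filter, babs_false, babs_true]
  by_cases h : v = z
  · rw [if_pos h, if_pos h]
    simp [h, EReal.bot_lt_coe]
  · rw [if_neg h, if_neg h]
    simp only [Finset.mem_univ, true_and, EReal.coe_lt_coe_iff, EReal.coe_eq_coe_iff, and_true,
      Bool.true_eq_false, and_false, or_false, h, false_or, Bars.meets, not_lt]
    constructor
    · rintro ⟨h1, h2⟩
      refine ⟨?_, h2⟩
      rcases h1 with h1 | h1
      · exact h1.le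
      · exact h1.le
    · rintro ⟨h1, h2⟩
      exact ⟨lt_or_eq_of_le h1, h2⟩

/-- Few elements between two bars which see each other. -/
private theorem bnear (Bs : Bars n) (hy : Monotone Bs.y) (z : Fin n) (k : ℕ) (x : ℝ)
    {i j : Fin n} (hij : i < j) (hi : Bs.meets x i) (hj : Bs.meets x j)
    (hc : Nat.card {m : Fin n // m ≠ i ∧ m ≠ j ∧ Bs.meets x m ∧
      Bs.y i ≤ Bs.y m ∧ Bs.y m ≤ Bs.y j} ≤ k) :
    Near (k + 2) (bstate Bs z (binit Bs z x).card) i j := by
  classical
  refine ⟨(mem_bstate_init Bs z x i).2 (Or.inr hi), (mem_bstate_init Bs z x j).2 (Or.inr hj), hij,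
    ?_⟩
  have hsub : (bstate Bs z (binit Bs z x).card).filter (fun c => i < c ∧ c < j) ⊆
      insert z (univ.filter fun m => m ≠ i ∧ m ≠ j ∧ Bs.meets x m ∧
        Bs.y i ≤ Bs.y m ∧ Bs.y m ≤ Bs.y j) := by
    intro c hc'
    rw [Finset.mem_filter, mem_bstate_init] at hc'
    rw [Finset.mem_insert, Finset.mem_filter]
    obtain ⟨h1, h2, h3⟩ := hc'
    rcases h1 with h1 | h1
    · exact Or.inl h1
    · exact Or.inr ⟨Finset.mem_univ _, h2.ne', h3.ne, h1, hy h2.le, hy h3.le⟩
  have h1 := (Finset.card_le_card hsub).trans (Finset.card_insert_le _ _)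
  have h2 : (univ.filter fun m => m ≠ i ∧ m ≠ j ∧ Bs.meets x m ∧
      Bs.y i ≤ Bs.y m ∧ Bs.y m ≤ Bs.y j).card ≤ k := by
    rw [Nat.card_eq_fintype_card, Fintype.card_subtype] at hc
    exact hc
  unfold btw
  omega

end Events

theorem base_of_bars {n : ℕ} (hn : 1 ≤ n) (k : ℕ) (Bs : Bars n) (hy : Monotone Bs.y) :
    ∃ (T : ℕ) (B : ℕ → Finset (Fin n)), IsBase B T ∧
      (∀ τ, τ < T → (B (τ + 1) \ B τ).card ≤ 1) ∧
      (∃ z : Fin n, ∀ v, ∃ τ, τ ≤ T ∧ v ∈ B τ ∧ z ∈ B τ) ∧
      ∀ i j, (Bs.graph k).Adj i j →
        ∃ τ, τ ≤ T ∧ (Near (k + 2) (B τ) i j ∨ Near (k + 2) (B τ) j i) := by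
  classical
  set z : Fin n := ⟨0, hn⟩ with hz
  set ρ := brank (bkey Bs z) with hρ
  have hinj : ∀ e f : Fin n × Bool, ρ e = ρ f → e = f := fun e f h =>
    brank_inj (bkey_inj Bs z) h
  have hself : ∀ v, ρ (v, false) < ρ (v, true) := fun v => brank_lt (bkey_lt_self Bs z v)
  have hcard : ∀ e, ρ e < Fintype.card (Fin n × Bool) := fun e => brank_lt_card _ e
  have hmem : ∀ τ v, v ∈ bstate Bs z τ ↔ ρ (v, false) < τ ∧ τ ≤ ρ (v, true) := fun τ v =>
    mem_bstate Bs z τ v
  refine ⟨Fintype.card (Fin n × Bool), bstate Bs z, ⟨?_, ?_, ?_, ?_⟩, ?_, ⟨z, ?_⟩, ?_⟩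
  · rw [Finset.eq_empty_iff_forall_notMem]
    intro v hv
    rw [hmem] at hv
    omega
  · rw [Finset.eq_empty_iff_forall_notMem]
    intro v hv
    rw [hmem] at hv
    have := hcard (v, true)
    omega
  · intro v i j k hij hjk _ hi hk
    rw [hmem] at hi hk ⊢
    omega
  · intro τ _
    by_cases hw : ∃ w, ρ (w, true) = τ
    · right
      obtain ⟨w, hw⟩ := hw
      refine ⟨w, ?_, ?_⟩
      · rw [hmem]
        have := hself w
        omega
      · ext v
        rw [Finset.mem_erase, hmem, hmem]
        constructor
        · rintro ⟨h1, h2⟩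
          refine ⟨?_, ?_, by omega⟩
          · rintro rfl; omega
          · by_contra h3
            have h4 : ρ (v, false) = τ := by omega
            have := hinj _ _ (h4.trans hw.symm)
            simp at this
        · rintro ⟨h1, h2, h3⟩
          refine ⟨by omega, ?_⟩
          by_contra h4
          have h5 : ρ (v, true) = τ := by omega
          have := hinj _ _ (h5.trans hw.symm)
          simp at this
          exact h1 this
    · left
      intro v hv
      rw [hmem] at hv ⊢
      push Not at hw
      have := hw v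
      omega
  · intro τ _
    rw [Finset.card_le_one]
    intro a ha b hb
    rw [Finset.mem_sdiff, hmem, hmem] at ha hb
    have h1 : ρ (a, false) = τ := by omega
    have h2 : ρ (b, false) = τ := by omega
    have := hinj _ _ (h1.trans h2.symm)
    simpa using this
  · intro v
    refine ⟨ρ (v, false) + 1, ?_, ?_, ?_⟩
    · have := hcard (v, false)
      omega
    · rw [hmem]
      have := hself v
      omega
    · rw [hmem]
      have h1 : ρ (z, false) ≤ ρ (v, false) := brank_le (bkey_z_min Bs z v)
      have h2 : ρ (v, true) ≤ ρ (z, true) := brank_le (bkey_z_max Bs z v)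
      have := hself v
      omega
  · intro i j hadj
    have hle : ∀ x : ℝ, (binit Bs z x).card ≤ Fintype.card (Fin n × Bool) := fun x =>
      Finset.card_le_univ _
    obtain ⟨hne, hs⟩ := hadj
    -- the case of a fixed order of `a` and `b`
    have key : ∀ a b : Fin n, a ≠ b → Bs.sees k a b →
        ∃ τ, τ ≤ Fintype.card (Fin n × Bool) ∧
          (Near (k + 2) (bstate Bs z τ) a b ∨ Near (k + 2) (bstate Bs z τ) b a) := by
      intro a b hab hsee
      obtain ⟨x, ha, hb, hc⟩ := hsee
      refine ⟨(binit Bs z x).card, hle x, ?_⟩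
      rcases lt_or_gt_of_ne hab with h | h
      · left
        refine bnear Bs hy z k x h ha hb ?_
        rw [min_eq_left (hy h.le), max_eq_right (hy h.le)] at hc
        exact hc
      · right
        refine bnear Bs hy z k x h hb ha ?_
        rw [min_eq_right (hy h.le), max_eq_left (hy h.le)] at hc
        refine le_trans (le_of_eq ?_) hc
        refine Nat.card_congr (Equiv.subtypeEquivRight fun m => ?_)
        tauto
    rcases hs with hs | hs
    · exact key i j hne hs
    · obtain ⟨τ, h1, h2⟩ := key j i hne.symm hs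
      exact ⟨τ, h1, h2.symm⟩

end Pool.Agent.H20.BK
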