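import Mathlib
import Pool.Agent.H20.BK.CycDefs

/-!
Project BK, module Embed. From a family of oriented triangles using every dart at most once to a
rotation system with many faces.

Proof sketch. Arcs `b ↦ w`: `(α (tri x), tri (x.1, x.2+1))`, one for every `x : ι × Fin 3`
(distinct, a partial injection: `tri` is injective). Start with `σ₀ = 1` (every dart is alone in its
cycle) and treat the arcs one after the other: if `b` and `w` are in different cycles of the
present `σ`, replace `σ` by `swap (σ b) w * σ` (then `b ↦ w`, the two cycles are merged, the arcs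
kept before are still arcs of `σ` since `b` is not the source and `w` not the target of another
arc); otherwise discard the arc. Invariants: the cycles of `σ` are the classes generated by the
kept arcs (= by all treated arcs), every cycle contains a dart `d` such that `(d, σ d)` is not a
kept arc. At the end exactly `cyc (arcs)` arcs are discarded (each kept arc lowers the number of
classes by one, and the number of classes at the end is `ncls`). Since arcs join darts of the same
source (`hsrc`, `α` an involution), cycles stay inside the fibres of `src`. Then merge the cycles of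
each fibre: if `d`, `e` are in different cycles of the same fibre and `(d, σ d)`, `(e, σ e)` are not
kept arcs, `swap (σ d) (σ e) * σ` merges the cycles and keeps all kept arcs, and every cycle still
has a non-kept place. Finally, if the three arcs of `i : ι` are kept, then
`σ (α (tri (i, j))) = tri (i, j+1)` for all `j`, so `{tri (i, 0), tri (i, 1), tri (i, 2)}` is an
orbit of `σ * α`; these orbits are distinct for distinct `i`, and at most `cyc` many `i` are lost.
-/

namespace Pool.Agent.H20.BK

open Finset

/-! ### Cycles of a permutation -/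

theorem Embed_le_of {α : Type*} (f : Equiv.Perm α) (R : α → α → Prop) (hrefl : ∀ x, R x x)
    (hsymm : ∀ x y, R x y → R y x) (htrans : ∀ x y z, R x y → R y z → R x z)
    (hf : ∀ x, R x (f x)) (x y : α) (h : f.SameCycle x y) : R x y := by
  have hnat : ∀ (n : ℕ) (x : α), R x ((f ^ n) x) := by
    intro n
    induction n with
    | zero => intro x; simpa using hrefl x
    | succ n ih =>
      intro x
      rw [pow_succ', Equiv.Perm.mul_apply]
      exact htrans _ _ _ (ih x) (hf _)
  obtain ⟨i, hi⟩ := h
  rcases Int.eq_nat_or_neg i with ⟨n, rfl | rfl⟩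
  · rw [zpow_natCast] at hi
    rw [← hi]
    exact hnat n x
  · have : (f ^ n) y = x := by
      rw [← hi, zpow_neg, zpow_natCast]
      simp
    rw [← this]
    exact hsymm _ _ (hnat n y)

theorem Embed_step {α : Type*} [DecidableEq α] (σ : Equiv.Perm α) (a b x : α) (hxa : x ≠ a)
    (hxb : x ≠ b) : (σ * Equiv.swap a b).SameCycle x (σ x) := by
  refine ⟨1, ?_⟩
  rw [zpow_one, Equiv.Perm.mul_apply, Equiv.swap_apply_of_ne_of_ne hxa hxb]

theorem Embed_step_a {α : Type*} [DecidableEq α] (σ : Equiv.Perm α) (a b : α) :
    (σ * Equiv.swap a b).SameCycle a (σ b) := by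
  refine ⟨1, ?_⟩
  rw [zpow_one, Equiv.Perm.mul_apply, Equiv.swap_apply_left]

theorem Embed_step_b {α : Type*} [DecidableEq α] (σ : Equiv.Perm α) (a b : α) :
    (σ * Equiv.swap a b).SameCycle b (σ a) := by
  refine ⟨1, ?_⟩
  rw [zpow_one, Equiv.Perm.mul_apply, Equiv.swap_apply_right]

theorem Embed_around {α : Type*} [Finite α] [DecidableEq α] (σ : Equiv.Perm α) (a b : α)
    (h : ¬ σ.SameCycle a b) : (σ * Equiv.swap a b).SameCycle (σ b) b := by
  have key : ∀ i : ℕ, (σ * Equiv.swap a b).SameCycle (σ b) ((σ ^ (i + 1)) b) ∨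
      (σ * Equiv.swap a b).SameCycle (σ b) b := by
    intro i
    induction i with
    | zero => left; simpa using Equiv.Perm.SameCycle.refl _ _
    | succ i ih =>
      rcases ih with ih | ih
      · by_cases hb : (σ ^ (i + 1)) b = b
        · right; rw [hb] at ih; exact ih
        · have ha : (σ ^ (i + 1)) b ≠ a := by
            intro ha
            apply h
            refine Equiv.Perm.SameCycle.symm ⟨(i + 1 : ℕ), ?_⟩
            rw [zpow_natCast]
            exact ha
          left
          rw [pow_succ', Equiv.Perm.mul_apply]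
          exact ih.trans (Embed_step σ a b _ ha hb)
      · right; exact ih
  have h1 := key (orderOf σ - 1)
  have h2 : orderOf σ - 1 + 1 = orderOf σ := Nat.sub_add_cancel (orderOf_pos σ)
  rw [h2, pow_orderOf_eq_one] at h1
  simpa using h1

theorem Embed_sameCycle_mul_swap {α : Type*} [Finite α] [DecidableEq α] (σ : Equiv.Perm α)
    (a b : α) (h : ¬ σ.SameCycle a b) (x y : α) : (σ * Equiv.swap a b).SameCycle x y ↔
      σ.SameCycle x y ∨ (σ.SameCycle x a ∧ σ.SameCycle b y) ∨
        (σ.SameCycle x b ∧ σ.SameCycle a y) := by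
  constructor
  · intro hxy
    refine Embed_le_of (σ * Equiv.swap a b) (fun x y => σ.SameCycle x y ∨
      (σ.SameCycle x a ∧ σ.SameCycle b y) ∨ (σ.SameCycle x b ∧ σ.SameCycle a y))
      (fun x => Or.inl (Equiv.Perm.SameCycle.refl σ x)) ?_ ?_ ?_ x y hxy
    · rintro x y (h1 | ⟨h1, h2⟩ | ⟨h1, h2⟩)
      · exact Or.inl h1.symm
      · exact Or.inr (Or.inr ⟨h2.symm, h1.symm⟩)
      · exact Or.inr (Or.inl ⟨h2.symm, h1.symm⟩)
    · rintro x y z (h1 | ⟨h1, h2⟩ | ⟨h1, h2⟩) (h3 | ⟨h3, h4⟩ | ⟨h3, h4⟩)
      · exact Or.inl (h1.trans h3)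
      · exact Or.inr (Or.inl ⟨h1.trans h3, h4⟩)
      · exact Or.inr (Or.inr ⟨h1.trans h3, h4⟩)
      · exact Or.inr (Or.inl ⟨h1, h2.trans h3⟩)
      · exact absurd (h2.trans h3).symm h
      · exact Or.inl (h1.trans h4)
      · exact Or.inr (Or.inr ⟨h1, h2.trans h3⟩)
      · exact Or.inl (h1.trans h4)
      · exact absurd (h2.trans h3) h
    · intro x
      by_cases hxa : x = a
      · right; left
        rw [hxa, Equiv.Perm.mul_apply, Equiv.swap_apply_left]
        exact ⟨Equiv.Perm.SameCycle.refl σ a, ⟨1, by simp⟩⟩
      · by_cases hxb : x = b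
        · right; right
          rw [hxb, Equiv.Perm.mul_apply, Equiv.swap_apply_right]
          exact ⟨Equiv.Perm.SameCycle.refl σ b, ⟨1, by simp⟩⟩
        · left
          rw [Equiv.Perm.mul_apply, Equiv.swap_apply_of_ne_of_ne hxa hxb]
          exact ⟨1, by simp⟩
  · have hab : (σ * Equiv.swap a b).SameCycle a b :=
      (Embed_step_a σ a b).trans (Embed_around σ a b h)
    have hstep : ∀ x, (σ * Equiv.swap a b).SameCycle x (σ x) := by
      intro x
      by_cases hxa : x = a
      · rw [hxa]
        exact hab.trans (Embed_step_b σ a b)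
      · by_cases hxb : x = b
        · rw [hxb]
          exact (Embed_around σ a b h).symm
        · exact Embed_step σ a b x hxa hxb
    have hle : ∀ x y, σ.SameCycle x y → (σ * Equiv.swap a b).SameCycle x y := by
      intro x y hxy
      exact Embed_le_of σ (fun x y => (σ * Equiv.swap a b).SameCycle x y)
        (fun x => Equiv.Perm.SameCycle.refl _ x) (fun x y h => h.symm)
        (fun x y z h1 h2 => h1.trans h2) hstep x y hxy
    rintro (h1 | ⟨h1, h2⟩ | ⟨h1, h2⟩)
    · exact hle _ _ h1
    · exact ((hle _ _ h1).trans hab).trans (hle _ _ h2)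
    · exact ((hle _ _ h1).trans hab.symm).trans (hle _ _ h2)

/-- Multiplying by a transposition of two points in different cycles joins the two cycles. -/
theorem Embed_numOrbits_merge {α : Type*} [Finite α] [DecidableEq α] (σ : Equiv.Perm α)
    (a b : α) (h : ¬ σ.SameCycle a b) :
    numOrbits (σ * Equiv.swap a b) + 1 = numOrbits σ := by
  classical
  unfold numOrbits
  set s := Equiv.Perm.SameCycle.setoid σ with hs
  set t := Equiv.Perm.SameCycle.setoid (σ * Equiv.swap a b) with ht
  have h1 : Nat.card (Option {q : Quotient s // q ≠ Quotient.mk s b}) = Nat.card (Quotient s) :=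
    Nat.card_congr (Equiv.optionSubtypeNe (Quotient.mk s b))
  rw [← h1, Finite.card_option]
  congr 1
  have hmap : ∀ x y, σ.SameCycle x y → (σ * Equiv.swap a b).SameCycle x y := fun x y hxy =>
    (Embed_sameCycle_mul_swap σ a b h x y).2 (Or.inl hxy)
  refine (Nat.card_congr (Equiv.ofBijective
    (fun q : {q : Quotient s // q ≠ Quotient.mk s b} =>
      Quotient.lift (s := s) (fun x => Quotient.mk t x)
        (fun x y hxy => Quotient.sound (hmap x y hxy)) q.1) ⟨?_, ?_⟩)).symm
  · rintro ⟨p, hp⟩ ⟨q, hq⟩
    induction p using Quotient.inductionOn with | _ x => ?_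
    induction q using Quotient.inductionOn with | _ y => ?_
    intro hxy
    have hxy' : (σ * Equiv.swap a b).SameCycle x y := Quotient.exact (s := t) hxy
    have hx : ¬ σ.SameCycle x b := fun h' => hp (Quotient.sound (s := s) h')
    have hy : ¬ σ.SameCycle y b := fun h' => hq (Quotient.sound (s := s) h')
    rcases (Embed_sameCycle_mul_swap σ a b h x y).1 hxy' with h1 | ⟨h1, h2⟩ | ⟨h1, h2⟩
    · exact Subtype.ext (Quotient.sound (s := s) h1)
    · exact absurd h2.symm hy
    · exact absurd h1 hx
  · intro q
    induction q using Quotient.inductionOn with | _ y => ?_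
    by_cases hy : σ.SameCycle y b
    · refine ⟨⟨Quotient.mk s a, fun h' => h (Quotient.exact h')⟩, ?_⟩
      exact Quotient.sound (s := t) (((Embed_sameCycle_mul_swap σ a b h y a).2
        (Or.inr (Or.inr ⟨hy, Equiv.Perm.SameCycle.refl σ a⟩))).symm)
    · exact ⟨⟨Quotient.mk s y, fun h' => hy (Quotient.exact h')⟩, rfl⟩

/-! ### The greedy construction -/

theorem Embed_ncls {D : Type*} (Y : Finset (D × D)) (σ : Equiv.Perm D)
    (h : ∀ d e, σ.SameCycle d e ↔ Relation.EqvGen (fun a b : D => (a, b) ∈ Y) d e) :
    ncls Y = numOrbits σ := by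
  unfold ncls numOrbits
  refine Nat.card_congr (Equiv.ofBijective (Quot.lift
    (fun d => Quotient.mk (Equiv.Perm.SameCycle.setoid σ) d) ?_) ⟨?_, ?_⟩)
  · intro a b hab
    exact Quotient.sound ((h a b).2 (Relation.EqvGen.rel a b hab))
  · intro p q
    induction p using Quot.ind with | _ x => ?_
    induction q using Quot.ind with | _ y => ?_
    intro hxy
    have h1 : σ.SameCycle x y := Quotient.exact hxy
    exact Quot.eqvGen_sound ((h x y).1 h1)
  · intro q
    induction q using Quotient.inductionOn with | _ y => ?_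
    exact ⟨Quot.mk _ y, rfl⟩

theorem Embed_numOrbits_one {D : Type*} : numOrbits (1 : Equiv.Perm D) = Nat.card D := by
  unfold numOrbits
  refine (Nat.card_congr (Equiv.ofBijective
    (fun d => Quotient.mk (Equiv.Perm.SameCycle.setoid (1 : Equiv.Perm D)) d) ⟨?_, ?_⟩)).symm
  · intro x y hxy
    obtain ⟨i, hi⟩ : (1 : Equiv.Perm D).SameCycle x y := Quotient.exact hxy
    simpa using hi
  · intro q
    induction q using Quotient.inductionOn with | _ y => ?_
    exact ⟨y, rfl⟩

theorem Embed_greedy {D : Type*} [Fintype D] [DecidableEq D] (Y : Finset (D × D))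
    (hY : PInj Y) :
    ∃ (K : Finset (D × D)) (σ : Equiv.Perm D), K ⊆ Y ∧ (∀ p ∈ K, σ p.1 = p.2) ∧
      (∀ d e, σ.SameCycle d e ↔ Relation.EqvGen (fun a b : D => (a, b) ∈ Y) d e) ∧
      (∀ d, ∃ e, σ.SameCycle d e ∧ ∀ w, (e, w) ∉ K) ∧
      K.card + numOrbits σ = Nat.card D := by
  induction Y using Finset.induction_on with
  | empty =>
    refine ⟨∅, 1, Finset.Subset.refl _, by simp, ?_, ?_, ?_⟩
    · intro d e
      constructor
      · rintro ⟨i, hi⟩
        have : d = e := by simpa using hi
        rw [this]
        exact Relation.EqvGen.refl e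
      · intro h
        induction h with
        | rel x y h => simp at h
        | refl x => exact Equiv.Perm.SameCycle.refl _ _
        | symm x y _ ih => exact ih.symm
        | trans x y z _ _ ih1 ih2 => exact ih1.trans ih2
    · intro d
      exact ⟨d, Equiv.Perm.SameCycle.refl _ _, by simp⟩
    · simp [Embed_numOrbits_one]
  | insert p Y' hp ih =>
    obtain ⟨b, w⟩ := p
    have hY' : PInj Y' := fun p hp q hq =>
      hY p (Finset.mem_insert_of_mem hp) q (Finset.mem_insert_of_mem hq)
    obtain ⟨K, σ, hK, ha, hb, hc, hd⟩ := ih hY'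
    have hmono : ∀ d e, Relation.EqvGen (fun a b : D => (a, b) ∈ Y') d e →
        Relation.EqvGen (fun a c : D => (a, c) ∈ insert (b, w) Y') d e := fun d e h =>
      h.mono fun a c hac => Finset.mem_insert_of_mem hac
    by_cases hbw : σ.SameCycle b w
    · refine ⟨K, σ, hK.trans (Finset.subset_insert _ _), ha, ?_, hc, hd⟩
      intro d e
      constructor
      · intro h
        exact hmono d e ((hb d e).1 h)
      · intro h
        induction h with
        | rel x y h =>
          rcases Finset.mem_insert.1 h with h | h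
          · obtain ⟨rfl, rfl⟩ := Prod.mk.inj h
            exact hbw
          · exact (hb x y).2 (Relation.EqvGen.rel x y h)
        | refl x => exact Equiv.Perm.SameCycle.refl _ _
        | symm x y _ ih => exact ih.symm
        | trans x y z _ _ ih1 ih2 => exact ih1.trans ih2
    · -- the two cycles are merged
      set w' : D := σ.symm w with hw'
      have hw1 : σ w' = w := by simp [hw']
      have hww : σ.SameCycle w' w := ⟨1, by simpa using hw1⟩
      have hbw' : ¬ σ.SameCycle b w' := fun h => hbw (h.trans hww)
      have hmem : ∀ x y, (σ * Equiv.swap b w').SameCycle x y ↔ σ.SameCycle x y ∨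
          (σ.SameCycle x b ∧ σ.SameCycle w' y) ∨ (σ.SameCycle x w' ∧ σ.SameCycle b y) :=
        Embed_sameCycle_mul_swap σ b w' hbw'
      have hnb : ∀ q ∈ K, q.1 ≠ b := by
        intro q hq hqb
        have h1 := (hY q (Finset.mem_insert_of_mem (hK hq)) (b, w)
          (Finset.mem_insert_self _ _)).1 hqb
        have h2 : q = (b, w) := Prod.ext hqb h1
        exact hp (h2 ▸ hK hq)
      have hnw : ∀ q ∈ K, q.1 ≠ w' := by
        intro q hq hqw
        have h0 : q.2 = w := by rw [← ha q hq, hqw, hw1]
        have h1 := (hY q (Finset.mem_insert_of_mem (hK hq)) (b, w)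
          (Finset.mem_insert_self _ _)).2 h0
        exact hnb q hq h1
      refine ⟨insert (b, w) K, σ * Equiv.swap b w', Finset.insert_subset_insert _ hK, ?_, ?_,
        ?_, ?_⟩
      · intro q hq
        rcases Finset.mem_insert.1 hq with rfl | hq
        · rw [Equiv.Perm.mul_apply]
          change σ ((Equiv.swap b w') b) = w
          rw [Equiv.swap_apply_left, hw1]
        · rw [Equiv.Perm.mul_apply, Equiv.swap_apply_of_ne_of_ne (hnb q hq) (hnw q hq)]
          exact ha q hq
      · intro d e
        rw [hmem]
        have hrel : Relation.EqvGen (fun a c : D => (a, c) ∈ insert (b, w) Y') b w :=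
          Relation.EqvGen.rel _ _ (Finset.mem_insert_self _ _)
        have hle : ∀ x y, σ.SameCycle x y →
            Relation.EqvGen (fun a c : D => (a, c) ∈ insert (b, w) Y') x y := fun x y h =>
          hmono x y ((hb x y).1 h)
        constructor
        · rintro (h | ⟨h1, h2⟩ | ⟨h1, h2⟩)
          · exact hle _ _ h
          · exact ((hle _ _ h1).trans _ _ _ hrel).trans _ _ _ (hle _ _ (hww.symm.trans h2))
          · exact ((hle _ _ (h1.trans hww)).trans _ _ _ (hrel.symm)).trans _ _ _ (hle _ _ h2)
        · intro h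
          rw [← hmem]
          induction h with
          | rel x y h =>
            rw [hmem]
            rcases Finset.mem_insert.1 h with h | h
            · obtain ⟨rfl, rfl⟩ := Prod.mk.inj h
              exact Or.inr (Or.inl ⟨Equiv.Perm.SameCycle.refl _ _, hww⟩)
            · exact Or.inl ((hb x y).2 (Relation.EqvGen.rel x y h))
          | refl x => exact Equiv.Perm.SameCycle.refl _ _
          | symm x y _ ih => exact ih.symm
          | trans x y z _ _ ih1 ih2 => exact ih1.trans ih2
      · intro d
        by_cases hdb : σ.SameCycle d b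
        · obtain ⟨e, he, he'⟩ := hc w
          refine ⟨e, (hmem d e).2 (Or.inr (Or.inl ⟨hdb, hww.trans he⟩)), fun v hv => ?_⟩
          rcases Finset.mem_insert.1 hv with h | h
          · have h1 : e = b := (Prod.mk.inj h).1
            rw [h1] at he
            exact hbw he.symm
          · exact he' v h
        · obtain ⟨e, he, he'⟩ := hc d
          refine ⟨e, (hmem d e).2 (Or.inl he), fun v hv => ?_⟩
          rcases Finset.mem_insert.1 hv with h | h
          · have h1 : e = b := (Prod.mk.inj h).1
            rw [h1] at he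
            exact hdb he
          · exact he' v h
      · have h1 := Embed_numOrbits_merge σ b w' hbw'
        have h2 : (b, w) ∉ K := fun h => hp (hK h)
        rw [Finset.card_insert_of_notMem h2]
        omega

/-- Merging the cycles inside the fibres of `src`. -/
theorem Embed_fibres {D V : Type*} [Fintype D] [DecidableEq D] (src : D → V)
    (K : Finset (D × D)) (σ : Equiv.Perm D) (hs : ∀ d, src (σ d) = src d)
    (ha : ∀ p ∈ K, σ p.1 = p.2) (hc : ∀ d, ∃ e, σ.SameCycle d e ∧ ∀ w, (e, w) ∉ K) :
    ∃ τ : Equiv.Perm D, (∀ d, src (τ d) = src d) ∧ (∀ p ∈ K, τ p.1 = p.2) ∧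
      (∀ d e, src d = src e → τ.SameCycle d e) := by
  induction hN : numOrbits σ using Nat.strong_induction_on generalizing σ with
  | _ N ih =>
    have hsc : ∀ d e, σ.SameCycle d e → src d = src e := by
      intro d e h
      exact Embed_le_of σ (fun d e => src d = src e) (fun _ => rfl) (fun _ _ h => h.symm)
        (fun _ _ _ h1 h2 => h1.trans h2) (fun x => (hs x).symm) d e h
    by_cases hall : ∀ d e, src d = src e → σ.SameCycle d e
    · exact ⟨σ, hs, ha, hall⟩
    · push Not at hall
      obtain ⟨d, e, hde, hnot⟩ := hall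
      obtain ⟨d', hd1, hd2⟩ := hc d
      obtain ⟨e', he1, he2⟩ := hc e
      have hnot' : ¬ σ.SameCycle d' e' := fun h => hnot ((hd1.trans h).trans he1.symm)
      have hsde : src d' = src e' := by
        rw [← hsc d d' hd1, hde, hsc e e' he1]
      have hm := Embed_numOrbits_merge σ d' e' hnot'
      refine ih (numOrbits (σ * Equiv.swap d' e')) (by omega) (σ * Equiv.swap d' e') ?_ ?_ ?_ rfl
      · intro x
        rw [Equiv.Perm.mul_apply, hs]
        by_cases hx : x = d'
        · rw [hx, Equiv.swap_apply_left, hsde]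
        · by_cases hx' : x = e'
          · rw [hx', Equiv.swap_apply_right, hsde]
          · rw [Equiv.swap_apply_of_ne_of_ne hx hx']
      · intro p hp
        have h1 : p.1 ≠ d' := fun h => hd2 p.2 (by rw [← h]; exact hp)
        have h2 : p.1 ≠ e' := fun h => he2 p.2 (by rw [← h]; exact hp)
        rw [Equiv.Perm.mul_apply, Equiv.swap_apply_of_ne_of_ne h1 h2]
        exact ha p hp
      · intro x
        obtain ⟨y, hy1, hy2⟩ := hc x
        exact ⟨y, (Embed_sameCycle_mul_swap σ d' e' hnot' x y).2 (Or.inl hy1), hy2⟩

theorem exists_rot {D V ι : Type*} [Fintype D] [DecidableEq D] [Fintype ι]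
    (src : D → V) (α : Equiv.Perm D) (hα : ∀ d, α (α d) = d)
    (tri : ι × Fin 3 → D) (hinj : Function.Injective tri)
    (hsrc : ∀ i j, src (tri (i, j + 1)) = src (α (tri (i, j)))) :
    ∃ σ : Equiv.Perm D, (∀ d, src (σ d) = src d) ∧
      (∀ d e, src d = src e → σ.SameCycle d e) ∧
      (Fintype.card ι : ℤ) -
          cyc ((univ : Finset (ι × Fin 3)).image fun x => (α (tri x), tri (x.1, x.2 + 1))) ≤
        (numOrbits (σ * α) : ℤ) := by
  classical
  set arc : ι × Fin 3 → D × D := fun x => (α (tri x), tri (x.1, x.2 + 1)) with harc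
  have harcinj : Function.Injective arc := by
    intro x y hxy
    exact hinj (α.injective (Prod.mk.inj hxy).1)
  have hset : ((univ : Finset (ι × Fin 3)).image fun x => (α (tri x), tri (x.1, x.2 + 1))) =
      (univ : Finset (ι × Fin 3)).image arc := rfl
  rw [hset]
  set Y := (univ : Finset (ι × Fin 3)).image arc with hY
  have hmemY : ∀ x, arc x ∈ Y := fun x => Finset.mem_image_of_mem _ (Finset.mem_univ x)
  have hP : PInj Y := by
    intro p hp q hq
    obtain ⟨x, -, rfl⟩ := Finset.mem_image.1 hp
    obtain ⟨y, -, rfl⟩ := Finset.mem_image.1 hq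
    constructor
    · intro h
      have : x = y := hinj (α.injective h)
      rw [this]
    · intro h
      have h1 : (x.1, x.2 + 1) = (y.1, y.2 + 1) := hinj h
      have h2 := Prod.mk.inj h1
      have h3 : x.2 = y.2 := add_right_cancel h2.2
      have : x = y := Prod.ext h2.1 h3
      rw [this]
  obtain ⟨K, σ, hK, ha, hb, hc, hd⟩ := Embed_greedy Y hP
  have hs : ∀ d, src (σ d) = src d := by
    intro d
    have h1 : Relation.EqvGen (fun a b : D => (a, b) ∈ Y) d (σ d) := (hb d (σ d)).1 ⟨1, by simp⟩
    have h2 : ∀ x y, Relation.EqvGen (fun a b : D => (a, b) ∈ Y) x y → src x = src y := by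
      intro x y h
      induction h with
      | rel x y h =>
        obtain ⟨z, -, hz⟩ := Finset.mem_image.1 h
        obtain ⟨h3, h4⟩ := Prod.mk.inj hz
        rw [← h3, ← h4]
        exact (hsrc z.1 z.2).symm
      | refl x => rfl
      | symm x y _ ih => exact ih.symm
      | trans x y z _ _ ih1 ih2 => exact ih1.trans ih2
    exact (h2 _ _ h1).symm
  obtain ⟨τ, t1, t2, t3⟩ := Embed_fibres src K σ hs ha hc
  refine ⟨τ, t1, t3, ?_⟩
  -- the good indices
  set good : Finset ι := univ.filter fun i => ∀ j, arc (i, j) ∈ K with hgood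
  have hface : good.card ≤ numOrbits (τ * α) := by
    have hφ : ∀ i ∈ good, ∀ j, (τ * α) (tri (i, j)) = tri (i, j + 1) := by
      intro i hi j
      have h1 : arc (i, j) ∈ K := (Finset.mem_filter.1 hi).2 j
      exact t2 _ h1
    have hinv : ∀ i ∈ good, ∀ x, (∃ j, tri (i, j) = x) → ∃ j, tri (i, j) = (τ * α) x := by
      rintro i hi x ⟨j, rfl⟩
      exact ⟨j + 1, (hφ i hi j).symm⟩
    have hinv' : ∀ i ∈ good, ∀ (n : ℕ) (x : D), (∃ j, tri (i, j) = x) →
        ∃ j, tri (i, j) = ((τ * α) ^ n) x := by
      intro i hi n
      induction n with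
      | zero => intro x hx; simpa using hx
      | succ n ih =>
        intro x hx
        rw [pow_succ', Equiv.Perm.mul_apply]
        exact hinv i hi _ (ih x hx)
    have hcard : Fintype.card good = good.card := Fintype.card_coe good
    rw [← hcard, ← Nat.card_eq_fintype_card]
    unfold numOrbits
    refine Nat.card_le_card_of_injective (fun i : good =>
      Quotient.mk (Equiv.Perm.SameCycle.setoid (τ * α)) (tri (i.1, 0))) ?_
    intro i i' h
    have h1 : (τ * α).SameCycle (tri (i.1, 0)) (tri (i'.1, 0)) := Quotient.exact h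
    obtain ⟨n, -, hn⟩ := h1.exists_pow_eq'
    obtain ⟨j, hj⟩ := hinv' i.1 i.2 n _ ⟨0, rfl⟩
    rw [hn] at hj
    exact Subtype.ext (Prod.mk.inj (hinj hj)).1
  have hbad : (univ.filter fun i : ι => ¬ ∀ j, arc (i, j) ∈ K).card ≤ (Y \ K).card := by
    have hch : ∀ i : ι, ∃ j : Fin 3, (¬ ∀ j, arc (i, j) ∈ K) → arc (i, j) ∉ K := by
      intro i
      by_cases h : ∀ j, arc (i, j) ∈ K
      · exact ⟨0, fun h' => absurd h h'⟩
      · obtain ⟨j, hj⟩ := not_forall.1 h
        exact ⟨j, fun _ => hj⟩
    choose J hJ using hch
    refine Finset.card_le_card_of_injOn (fun i => arc (i, J i)) ?_ ?_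
    · intro i hi
      have hi' := (Finset.mem_filter.1 hi).2
      exact Finset.mem_sdiff.2 ⟨hmemY _, hJ i hi'⟩
    · intro i _ i' _ h
      exact (Prod.mk.inj (harcinj h)).1
  have hsum : good.card + (univ.filter fun i : ι => ¬ ∀ j, arc (i, j) ∈ K).card =
      Fintype.card ι := by
    rw [hgood, Finset.card_filter_add_card_filter_not]
    rfl
  have hsd : (Y \ K).card + K.card = Y.card := Finset.card_sdiff_add_card_eq_card hK
  have hn : ncls Y = numOrbits σ := Embed_ncls Y σ hb
  unfold cyc
  rw [hn]
  omega

end Pool.Agent.H20.BK
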