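import Mathlib
import Pool.Agent.H20.BK.Defs

/-!
Project BK, module Simple. From a rotation system of a loopless multigraph (darts `D`, reversal
`α`, source `src`, rotation `σ`) to a rotation system of the underlying simple graph `H`.

Proof sketch. Induction on `|D|` (statement for all `D`). If no two darts of `D` have the same
source and the same target then `D` is in bijection with `H.Dart`, transport `σ`. Otherwise let
`d ≠ d'` be darts with the same source and target; remove the edge `{d, α d}`: the new set of darts
is `D' = D \ {d, α d}`, `σ'` skips `d` and `α d`; the underlying simple graph is the same. The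
number of orbits of `σ * α` decreases by at most one, the number of edges by exactly one. (The
number of orbits of `φ * swap d (α d)` is at least the number of orbits of `φ` minus one, and
skipping a point which is not fixed does not change the number of orbits.)
-/

namespace Pool.Agent.H20.BK

open Finset

/-! ### Counting orbits -/

/-- If `x ∼ π' x` for an equivalence relation, the cycles of `π'` are contained in its classes. -/
theorem Simple_sameCycle_rel {D : Type*} {π : Equiv.Perm D} {E : D → D → Prop}
    (hE : Equivalence E) (h : ∀ x, E x (π x)) {x y : D} (hxy : π.SameCycle x y) : E x y := by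
  obtain ⟨i, rfl⟩ := hxy
  have hnat : ∀ n : ℕ, ∀ x, E x ((π ^ n) x) := by
    intro n
    induction n with
    | zero => intro x; exact hE.refl x
    | succ n ih =>
      intro x
      rw [pow_succ', Equiv.Perm.mul_apply]
      exact hE.trans (ih x) (h _)
  obtain ⟨n, rfl | rfl⟩ := i.eq_nat_or_neg
  · rw [zpow_natCast]
    exact hnat n x
  · have h1 := hnat n ((π ^ (-(n : ℤ))) x)
    rw [← zpow_natCast, ← Equiv.Perm.mul_apply, ← zpow_add, add_neg_cancel, zpow_zero,
      Equiv.Perm.one_apply] at h1
    exact hE.symm h1

theorem Simple_sameCycle_equiv {D : Type*} (π : Equiv.Perm D) : Equivalence π.SameCycle :=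
  ⟨fun x => Equiv.Perm.SameCycle.refl π x, fun h => h.symm, fun h h' => h.trans h'⟩

theorem Simple_finite_quot {D : Type*} [Finite D] (π : Equiv.Perm D) :
    Finite (Quotient (Equiv.Perm.SameCycle.setoid π)) := Quotient.finite _

/-- Multiplication by a transposition decreases the number of orbits by at most one. -/
theorem Simple_orbits_swap {D : Type*} [Finite D] [DecidableEq D] (π : Equiv.Perm D) (a b : D) :
    numOrbits π ≤ numOrbits (π * Equiv.swap a b) + 1 := by
  classical
  have := Simple_finite_quot π
  have := Simple_finite_quot (π * Equiv.swap a b)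
  set E : D → D → Prop := fun x y => π.SameCycle x y ∨
    ((π.SameCycle x a ∨ π.SameCycle x b) ∧ (π.SameCycle y a ∨ π.SameCycle y b)) with hEdef
  have hE : Equivalence E := by
    refine ⟨fun x => Or.inl (Equiv.Perm.SameCycle.refl π x), fun {x y} h => ?_,
      fun {x y z} h h' => ?_⟩
    · rcases h with h | ⟨h1, h2⟩
      · exact Or.inl h.symm
      · exact Or.inr ⟨h2, h1⟩
    · rcases h with h | ⟨h1, h2⟩
      · rcases h' with h' | ⟨h1', h2'⟩
        · exact Or.inl (h.trans h')
        · exact Or.inr ⟨h1'.imp (fun k => h.trans k) (fun k => h.trans k), h2'⟩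
      · rcases h' with h' | ⟨h1', h2'⟩
        · exact Or.inr ⟨h1, h2.imp (fun k => h'.symm.trans k) (fun k => h'.symm.trans k)⟩
        · exact Or.inr ⟨h1, h2'⟩
  have hstep : ∀ x, E x ((π * Equiv.swap a b) x) := by
    intro x
    rw [Equiv.Perm.mul_apply]
    by_cases hxa : x = a
    · subst hxa
      rw [Equiv.swap_apply_left]
      exact Or.inr ⟨Or.inl (Equiv.Perm.SameCycle.refl π x),
        Or.inr (Equiv.Perm.sameCycle_apply_left.2 (Equiv.Perm.SameCycle.refl π b))⟩
    by_cases hxb : x = b
    · subst hxb
      rw [Equiv.swap_apply_right]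
      exact Or.inr ⟨Or.inr (Equiv.Perm.SameCycle.refl π x),
        Or.inl (Equiv.Perm.sameCycle_apply_left.2 (Equiv.Perm.SameCycle.refl π a))⟩
    · rw [Equiv.swap_apply_of_ne_of_ne hxa hxb]
      exact Or.inl (Equiv.Perm.sameCycle_apply_right.2 (Equiv.Perm.SameCycle.refl π x))
  -- the map
  let f : Quotient (Equiv.Perm.SameCycle.setoid π) →
      Option (Quotient (Equiv.Perm.SameCycle.setoid (π * Equiv.swap a b))) := fun C =>
    if π.SameCycle C.out b then none else some ⟦C.out⟧
  have hf : Function.Injective f := by
    intro C C' h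
    simp only [f] at h
    by_cases h1 : π.SameCycle C.out b
    · by_cases h2 : π.SameCycle C'.out b
      · have h3 : π.SameCycle C.out C'.out := h1.trans h2.symm
        rw [← Quotient.out_eq C, ← Quotient.out_eq C']
        exact Quotient.sound h3
      · rw [if_pos h1, if_neg h2] at h
        exact absurd h (by simp)
    · by_cases h2 : π.SameCycle C'.out b
      · rw [if_neg h1, if_pos h2] at h
        exact absurd h (by simp)
      · rw [if_neg h1, if_neg h2] at h
        have h3 : (π * Equiv.swap a b).SameCycle C.out C'.out :=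
          Quotient.exact (Option.some.inj h)
        rcases Simple_sameCycle_rel hE hstep h3 with h4 | ⟨h4, h5⟩
        · rw [← Quotient.out_eq C, ← Quotient.out_eq C']
          exact Quotient.sound h4
        · have h6 := h4.resolve_right h1
          have h7 := h5.resolve_right h2
          rw [← Quotient.out_eq C, ← Quotient.out_eq C']
          exact Quotient.sound (h6.trans h7.symm)
  have hcard := Nat.card_le_card_of_injective f hf
  rw [Finite.card_option] at hcard
  exact hcard

/-- Skipping a point which is not fixed and keeping it as a fixed point gives one more orbit. -/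
theorem Simple_orbits_skip {D : Type*} [Finite D] [DecidableEq D] (π : Equiv.Perm D) (a : D)
    (ha : π a ≠ a) : numOrbits π + 1 ≤ numOrbits (Equiv.swap a (π a) * π) := by
  classical
  have := Simple_finite_quot π
  have := Simple_finite_quot (Equiv.swap a (π a) * π)
  have hfix : (Equiv.swap a (π a) * π) a = a := by
    rw [Equiv.Perm.mul_apply, Equiv.swap_apply_right]
  have hstep : ∀ x, π.SameCycle x ((Equiv.swap a (π a) * π) x) := by
    intro x
    rw [Equiv.Perm.mul_apply]
    by_cases h1 : π x = a
    · rw [h1, Equiv.swap_apply_left, ← h1]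
      exact Equiv.Perm.sameCycle_apply_right.2 (Equiv.Perm.sameCycle_apply_right.2
        (Equiv.Perm.SameCycle.refl π x))
    · by_cases h2 : π x = π a
      · rw [h2, Equiv.swap_apply_right, π.injective h2]
      · rw [Equiv.swap_apply_of_ne_of_ne h1 h2]
        exact Equiv.Perm.sameCycle_apply_right.2 (Equiv.Perm.SameCycle.refl π x)
  let r : Quotient (Equiv.Perm.SameCycle.setoid π) → D := fun C =>
    if C.out = a then π a else C.out
  have hr : ∀ C, π.SameCycle (r C) C.out := by
    intro C
    simp only [r]
    split_ifs with h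
    · rw [h]
      exact Equiv.Perm.sameCycle_apply_left.2 (Equiv.Perm.SameCycle.refl π a)
    · exact Equiv.Perm.SameCycle.refl π _
  have hra : ∀ C, r C ≠ a := by
    intro C
    simp only [r]
    split_ifs with h
    · exact ha
    · exact h
  let f : Option (Quotient (Equiv.Perm.SameCycle.setoid π)) →
      Quotient (Equiv.Perm.SameCycle.setoid (Equiv.swap a (π a) * π)) := fun C =>
    C.elim ⟦a⟧ fun C => ⟦r C⟧
  have hna : ∀ C, ¬ (Equiv.swap a (π a) * π).SameCycle a (r C) := by
    intro C h
    exact hra C (h.eq_of_left hfix).symm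
  have hf : Function.Injective f := by
    intro C C' h
    cases C with
    | none =>
      cases C' with
      | none => rfl
      | some C' => exact absurd (Quotient.exact h) (hna C')
    | some C =>
      cases C' with
      | none => exact absurd (Quotient.exact h.symm) (hna C)
      | some C' =>
        have h1 : (Equiv.swap a (π a) * π).SameCycle (r C) (r C') := Quotient.exact h
        have h2 := Simple_sameCycle_rel (Simple_sameCycle_equiv π) hstep h1
        have h3 := ((hr C).symm.trans h2).trans (hr C')
        have h4 : C = C' := by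
          rw [← Quotient.out_eq C, ← Quotient.out_eq C']
          exact Quotient.sound h3
        rw [h4]
  have hcard := Nat.card_le_card_of_injective f hf
  rw [Finite.card_option] at hcard
  exact hcard

/-- Restriction to an invariant set. -/
theorem Simple_orbits_restrict {D : Type*} [Finite D] (π : Equiv.Perm D) (p : D → Prop)
    (h : ∀ x, p (π x) ↔ p x) :
    numOrbits π ≤ numOrbits (π.subtypePerm h) + Nat.card {x // ¬ p x} := by
  classical
  have := Simple_finite_quot π
  have := Simple_finite_quot (π.subtypePerm h)
  let f : Quotient (Equiv.Perm.SameCycle.setoid π) →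
      Quotient (Equiv.Perm.SameCycle.setoid (π.subtypePerm h)) ⊕ {x // ¬ p x} := fun C =>
    if hp : p C.out then Sum.inl ⟦⟨C.out, hp⟩⟧ else Sum.inr ⟨C.out, hp⟩
  have hf : Function.Injective f := by
    intro C C' heq
    simp only [f] at heq
    by_cases h1 : p C.out
    · by_cases h2 : p C'.out
      · rw [dif_pos h1, dif_pos h2] at heq
        have h3 : (π.subtypePerm h).SameCycle ⟨C.out, h1⟩ ⟨C'.out, h2⟩ :=
          Quotient.exact (Sum.inl.inj heq)
        rw [Equiv.Perm.sameCycle_subtypePerm] at h3
        rw [← Quotient.out_eq C, ← Quotient.out_eq C']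
        exact Quotient.sound h3
      · rw [dif_pos h1, dif_neg h2] at heq
        exact absurd heq (by simp)
    · by_cases h2 : p C'.out
      · rw [dif_neg h1, dif_pos h2] at heq
        exact absurd heq (by simp)
      · rw [dif_neg h1, dif_neg h2] at heq
        have h3 := congrArg Subtype.val (Sum.inr.inj heq)
        simp only at h3
        rw [← Quotient.out_eq C, ← Quotient.out_eq C', h3]
  have hcard := Nat.card_le_card_of_injective f hf
  rw [Nat.card_sum] at hcard
  exact hcard

/-- Conjugation. -/
theorem Simple_sameCycle_conj {D D' : Type*} (e : D ≃ D') (π : Equiv.Perm D) (x y : D) :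
    π.SameCycle x y ↔ (e.permCongr π).SameCycle (e x) (e y) := by
  have hpow : ∀ i : ℤ, ((e.permCongr π) ^ i) (e x) = e ((π ^ i) x) := by
    intro i
    have h1 : (e.permCongr π) ^ i = e.permCongr (π ^ i) := (map_zpow e.permCongrHom π i).symm
    rw [h1, Equiv.permCongr_apply, Equiv.symm_apply_apply]
  constructor
  · rintro ⟨i, hi⟩
    exact ⟨i, by rw [hpow, hi]⟩
  · rintro ⟨i, hi⟩
    rw [hpow] at hi
    exact ⟨i, e.injective hi⟩

theorem Simple_orbits_conj {D D' : Type*} (e : D ≃ D') (π : Equiv.Perm D) :
    numOrbits (e.permCongr π) = numOrbits π := by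
  unfold numOrbits
  exact (Nat.card_congr (Quotient.congr e fun x y => Simple_sameCycle_conj e π x y)).symm

/-- Skipping a point does not separate the other points. -/
theorem Simple_skip_sameCycle {D : Type*} [Finite D] [DecidableEq D] (π : Equiv.Perm D) (a : D)
    {x y : D} (hx : x ≠ a) (hy : y ≠ a) (h : π.SameCycle x y) :
    (Equiv.swap a (π a) * π).SameCycle x y := by
  obtain ⟨n, hn⟩ := h.exists_nat_pow_eq
  subst hn
  induction n using Nat.strong_induction_on generalizing x with
  | _ n ih =>
    cases n with
    | zero => exact Equiv.Perm.SameCycle.refl _ _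
    | succ n =>
      have hxa : π x ≠ π a := fun h => hx (π.injective h)
      by_cases hz : π x = a
      · -- skip `a`
        have hstep : (Equiv.swap a (π a) * π) x = π a := by
          rw [Equiv.Perm.mul_apply, hz, Equiv.swap_apply_left]
        cases n with
        | zero =>
          rw [pow_one] at hy
          exact absurd hz hy
        | succ n =>
          have e : (π ^ (n + 1 + 1)) x = (π ^ n) (π a) := by
            rw [pow_succ, Equiv.Perm.mul_apply, pow_succ, Equiv.Perm.mul_apply, hz]
          rw [e] at hy ⊢
          have hpa : π a ≠ a := fun h => hx (π.injective (hz.trans h.symm))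
          have h1 := ih n (by omega) hpa hy (by
            exact Equiv.Perm.sameCycle_pow_right.2 (Equiv.Perm.SameCycle.refl π _))
          rw [← hstep] at h1
          exact Equiv.Perm.sameCycle_apply_left.1 (by rw [hstep] at h1 ⊢; exact h1)
      · have hstep : (Equiv.swap a (π a) * π) x = π x := by
          rw [Equiv.Perm.mul_apply, Equiv.swap_apply_of_ne_of_ne hz hxa]
        have e : (π ^ (n + 1)) x = (π ^ n) (π x) := by
          rw [pow_succ, Equiv.Perm.mul_apply]
        rw [e] at hy ⊢
        have h1 := ih n (by omega) hz hy (by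
          exact Equiv.Perm.sameCycle_pow_right.2 (Equiv.Perm.SameCycle.refl π _))
        exact Equiv.Perm.sameCycle_apply_left.1 (by rw [hstep]; exact h1)

theorem Simple_card_dart {V : Type*} [Finite V] (H : SimpleGraph V) :
    Nat.card H.Dart = 2 * Nat.card H.edgeSet := by
  classical
  have := Fintype.ofFinite V
  rw [Nat.card_eq_fintype_card, Nat.card_eq_fintype_card, H.dart_card_eq_twice_card_edges,
    SimpleGraph.edgeFinset_card]

/-- The case without parallel darts. -/
theorem Simple_base {D V : Type*} [Finite D] [Finite V]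
    (src : D → V) (α : Equiv.Perm D) (hα : ∀ d, α (α d) = d)
    (σ : Equiv.Perm D) (hσ : ∀ d, src (σ d) = src d)
    (htr : ∀ d e, src d = src e → σ.SameCycle d e)
    (H : SimpleGraph V) (hH : ∀ x y, H.Adj x y ↔ ∃ d, src d = x ∧ src (α d) = y)
    (hinj : ∀ d d', src d = src d' → src (α d) = src (α d') → d = d') :
    ∃ τ : Equiv.Perm H.Dart, IsRotation H τ ∧
      2 * (numOrbits (σ * α) : ℤ) - ((Nat.card D : ℤ) - 2 * (Nat.card H.edgeSet : ℤ)) ≤
        2 * (numFaces τ : ℤ) := by
  let g : D → H.Dart := fun d => ⟨(src d, src (α d)), (hH _ _).2 ⟨d, rfl, rfl⟩⟩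
  have hg : Function.Bijective g := by
    constructor
    · intro d d' h
      have h1 := congrArg SimpleGraph.Dart.toProd h
      exact hinj d d' (Prod.mk.inj h1).1 (Prod.mk.inj h1).2
    · rintro ⟨⟨x, y⟩, hxy⟩
      obtain ⟨d, rfl, rfl⟩ := (hH x y).1 hxy
      exact ⟨d, rfl⟩
  let e : D ≃ H.Dart := Equiv.ofBijective g hg
  have hfst : ∀ t : H.Dart, t.fst = src (e.symm t) := by
    intro t
    conv_lhs => rw [← e.apply_symm_apply t]
    rfl
  have hsymm : symmPerm H = e.permCongr α := by
    ext1 t
    obtain ⟨d, rfl⟩ := e.surjective t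
    rw [Equiv.permCongr_apply, Equiv.symm_apply_apply]
    apply SimpleGraph.Dart.ext
    show ((e d).symm).toProd = (e (α d)).toProd
    show (src (α d), src d) = (src (α d), src (α (α d)))
    rw [hα]
  refine ⟨e.permCongr σ, ⟨fun t => ?_, fun t t' h => ?_⟩, ?_⟩
  · rw [hfst, hfst, Equiv.permCongr_apply, Equiv.symm_apply_apply, hσ]
  · rw [hfst, hfst] at h
    have h1 := (Simple_sameCycle_conj e σ _ _).1 (htr _ _ h)
    rwa [e.apply_symm_apply, e.apply_symm_apply] at h1
  · have h1 : e.permCongr σ * symmPerm H = e.permCongr (σ * α) := by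
      rw [hsymm]
      exact (map_mul e.permCongrHom σ α).symm
    have h2 : Nat.card D = 2 * Nat.card H.edgeSet := by
      rw [← Simple_card_dart]
      exact Nat.card_congr e
    unfold numFaces
    rw [h1, Simple_orbits_conj, h2]
    push_cast
    linarith

theorem Simple_aux {V : Type*} [Finite V] (H : SimpleGraph V) (n : ℕ) :
    ∀ {D : Type*} [Finite D], Nat.card D = n →
    ∀ (src : D → V) (α : Equiv.Perm D), (∀ d, α (α d) = d) → (∀ d, src (α d) ≠ src d) →
    ∀ (σ : Equiv.Perm D), (∀ d, src (σ d) = src d) → (∀ d e, src d = src e → σ.SameCycle d e) →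
    (∀ x y, H.Adj x y ↔ ∃ d, src d = x ∧ src (α d) = y) →
    ∃ τ : Equiv.Perm H.Dart, IsRotation H τ ∧
      2 * (numOrbits (σ * α) : ℤ) - ((Nat.card D : ℤ) - 2 * (Nat.card H.edgeSet : ℤ)) ≤
        2 * (numFaces τ : ℤ) := by
  classical
  induction n using Nat.strong_induction_on with
  | _ n ih =>
    intro D _ hcard src α hα hne σ hσ htr hH
    by_cases hinj : ∀ d d', src d = src d' → src (α d) = src (α d') → d = d'
    · exact Simple_base src α hα σ hσ htr H hH hinj
    push Not at hinj
    obtain ⟨a, d', hsrc, hsrc', had'⟩ := hinj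
    set b := α a with hb
    have hαb : α b = a := hα a
    have hsab : src a ≠ src b := fun h => hne a h.symm
    have hab : a ≠ b := fun h => hsab (congrArg src h)
    -- neither `a` nor `b` is alone
    have hσa : σ a ≠ a := fun h => had' ((htr a d' hsrc).eq_of_left h)
    have hbd' : b ≠ α d' := fun h => had' (α.injective h)
    have hσb : σ b ≠ b := fun h => hbd' ((htr b (α d') hsrc').eq_of_left h)
    have hd'b : d' ≠ b := fun h => hsab (by rw [hsrc, h])
    have hαd'a : α d' ≠ a := fun h => hsab (by rw [hsrc', h])
    set σ₁ : Equiv.Perm D := Equiv.swap a (σ a) * σ with hσ₁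
    set σ₂ : Equiv.Perm D := Equiv.swap b (σ₁ b) * σ₁ with hσ₂
    set α₂ : Equiv.Perm D := Equiv.swap a b * α with hα₂
    have hσ₁a : σ₁ a = a := by rw [hσ₁, Equiv.Perm.mul_apply, Equiv.swap_apply_right]
    have hσ₁b : σ₁ b = σ b := by
      rw [hσ₁, Equiv.Perm.mul_apply, Equiv.swap_apply_of_ne_of_ne]
      · intro h
        apply hsab
        rw [← h, hσ]
      · intro h
        exact hab (σ.injective h).symm
    have hσ₂b : σ₂ b = b := by rw [hσ₂, Equiv.Perm.mul_apply, Equiv.swap_apply_right]
    have hσ₂a : σ₂ a = a := by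
      rw [hσ₂, Equiv.Perm.mul_apply, hσ₁a, Equiv.swap_apply_of_ne_of_ne hab]
      rw [hσ₁b]
      intro h
      apply hsab
      rw [h, hσ]
    have hα₂a : α₂ a = a := by
      rw [hα₂, Equiv.Perm.mul_apply, ← hb, Equiv.swap_apply_right]
    have hα₂b : α₂ b = b := by
      rw [hα₂, Equiv.Perm.mul_apply, hαb, Equiv.swap_apply_left]
    -- the sources
    have hsw : ∀ x y z : D, src x = src y → src (Equiv.swap x y z) = src z := by
      intro x y z h
      by_cases h1 : z = x
      · rw [h1, Equiv.swap_apply_left, h]
      · by_cases h2 : z = y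
        · rw [h2, Equiv.swap_apply_right, h]
        · rw [Equiv.swap_apply_of_ne_of_ne h1 h2]
    have hsσ₁ : ∀ x, src (σ₁ x) = src x := by
      intro x
      rw [hσ₁, Equiv.Perm.mul_apply, hsw _ _ _ (hσ a).symm, hσ]
    have hsσ₂ : ∀ x, src (σ₂ x) = src x := by
      intro x
      rw [hσ₂, Equiv.Perm.mul_apply, hsw _ _ _ (hsσ₁ b).symm, hsσ₁]
    -- the invariant set
    let P : D → Prop := fun x => x ≠ a ∧ x ≠ b
    have hPσ : ∀ x, P (σ₂ x) ↔ P x := by
      intro x
      have h1 : σ₂ x = a ↔ x = a := by
        constructor
        · intro h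
          exact σ₂.injective (h.trans hσ₂a.symm)
        · rintro rfl
          exact hσ₂a
      have h2 : σ₂ x = b ↔ x = b := by
        constructor
        · intro h
          exact σ₂.injective (h.trans hσ₂b.symm)
        · intro h
          rw [h, hσ₂b]
      simp only [P, ne_eq, h1, h2]
    have hPα : ∀ x, P (α x) ↔ P x := by
      intro x
      have h1 : α x = a ↔ x = b := by
        constructor
        · intro h
          exact α.injective (h.trans hαb.symm)
        · intro h
          rw [h, hαb]
      have h2 : α x = b ↔ x = a := by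
        constructor
        · intro h
          exact α.injective h
        · intro h
          rw [h]
      simp only [P, ne_eq, h1, h2]
      exact and_comm
    have hPα₂ : ∀ x, P ((σ₂ * α₂) x) ↔ P x := by
      intro x
      rw [Equiv.Perm.mul_apply, hPσ]
      have h1 : α₂ x = a ↔ x = a := by
        constructor
        · intro h
          exact α₂.injective (h.trans hα₂a.symm)
        · intro h
          rw [h, hα₂a]
      have h2 : α₂ x = b ↔ x = b := by
        constructor
        · intro h
          exact α₂.injective (h.trans hα₂b.symm)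
        · intro h
          rw [h, hα₂b]
      simp only [P, ne_eq, h1, h2]
    -- cardinalities
    have hK : Nat.card {x // ¬ P x} = 2 := by
      have h1 : {x | ¬ P x} = ({a, b} : Set D) := by
        ext x
        simp only [P, Set.mem_ofPred_eq, Set.mem_insert_iff, Set.mem_singleton_iff]
        tauto
      have h2 : Nat.card {x // ¬ P x} = Set.ncard {x | ¬ P x} := rfl
      rw [h2, h1, Set.ncard_pair hab]
    have hD' : Nat.card {x // P x} + 2 = Nat.card D := by
      rw [← hK, ← Nat.card_sum]
      exact Nat.card_congr (Equiv.sumCompl P)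
    -- the orbits
    have e1 : σ * α * Equiv.swap a b = σ * α₂ := by
      rw [mul_assoc, Equiv.mul_swap_eq_swap_mul, hαb, ← hb, Equiv.swap_comm]
    have o1 : numOrbits (σ * α) ≤ numOrbits (σ * α₂) + 1 := by
      have := Simple_orbits_swap (σ * α) a b
      rwa [e1] at this
    have o2 : numOrbits (σ * α₂) + 1 ≤ numOrbits (σ₁ * α₂) := by
      have h1 : (σ * α₂) a = σ a := by rw [Equiv.Perm.mul_apply, hα₂a]
      have := Simple_orbits_skip (σ * α₂) a (by rw [h1]; exact hσa)
      rwa [h1, ← mul_assoc] at this
    have o3 : numOrbits (σ₁ * α₂) + 1 ≤ numOrbits (σ₂ * α₂) := by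
      have h1 : (σ₁ * α₂) b = σ₁ b := by rw [Equiv.Perm.mul_apply, hα₂b]
      have := Simple_orbits_skip (σ₁ * α₂) b (by rw [h1, hσ₁b]; exact hσb)
      rwa [h1, ← mul_assoc] at this
    have o4 := Simple_orbits_restrict (σ₂ * α₂) P hPα₂
    rw [hK] at o4
    have e2 : (σ₂ * α₂).subtypePerm hPα₂ = σ₂.subtypePerm hPσ * α.subtypePerm hPα := by
      ext ⟨x, hx⟩
      have hx' := (hPα x).2 hx
      simp only [Equiv.Perm.subtypePerm_apply, Equiv.Perm.mul_apply, hα₂]
      rw [Equiv.swap_apply_of_ne_of_ne hx'.1 hx'.2]
    rw [e2] at o4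
    -- the induction hypothesis
    obtain ⟨τ, hτ, hle⟩ := ih (Nat.card {x // P x}) (by omega) (D := {x // P x}) rfl
      (fun x => src x) (α.subtypePerm hPα) (fun x => Subtype.ext (hα x)) (fun x => hne x)
      (σ₂.subtypePerm hPσ) (fun x => hsσ₂ x) (fun x y hxy => by
        rw [Equiv.Perm.sameCycle_subtypePerm]
        have h1 := Simple_skip_sameCycle σ a x.2.1 y.2.1 (htr x y hxy)
        exact Simple_skip_sameCycle σ₁ b x.2.2 y.2.2 h1)
      (fun x y => by
        rw [hH]
        constructor
        · rintro ⟨d, rfl, rfl⟩
          by_cases h1 : d = a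
          · refine ⟨⟨d', had'.symm, hd'b⟩, ?_, ?_⟩
            · show src d' = src d
              rw [h1, hsrc]
            · show src (α d') = src (α d)
              rw [h1, ← hb, hsrc']
          · by_cases h2 : d = b
            · refine ⟨⟨α d', hαd'a, hbd'.symm⟩, ?_, ?_⟩
              · show src (α d') = src d
                rw [h2, hsrc']
              · show src (α (α d')) = src (α d)
                rw [h2, hα, hαb, hsrc]
            · exact ⟨⟨d, h1, h2⟩, rfl, rfl⟩
        · rintro ⟨d, h1, h2⟩
          exact ⟨d, h1, h2⟩)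
    refine ⟨τ, hτ, le_trans ?_ hle⟩
    have h1 : (numOrbits (σ * α) : ℤ) ≤
        numOrbits (σ₂.subtypePerm hPσ * α.subtypePerm hPα) + 1 := by
      have : numOrbits (σ * α) ≤ numOrbits (σ₂.subtypePerm hPσ * α.subtypePerm hPα) + 1 := by
        omega
      exact_mod_cast this
    have h2 : (Nat.card {x // P x} : ℤ) + 2 = Nat.card D := by exact_mod_cast hD'
    linarith

theorem exists_simple {D V : Type*} [Finite D] [Finite V]
    (src : D → V) (α : Equiv.Perm D) (hα : ∀ d, α (α d) = d) (hne : ∀ d, src (α d) ≠ src d)
    (σ : Equiv.Perm D) (hσ : ∀ d, src (σ d) = src d)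
    (htr : ∀ d e, src d = src e → σ.SameCycle d e)
    (H : SimpleGraph V) (hH : ∀ x y, H.Adj x y ↔ ∃ d, src d = x ∧ src (α d) = y) :
    ∃ τ : Equiv.Perm H.Dart, IsRotation H τ ∧
      2 * (numOrbits (σ * α) : ℤ) - ((Nat.card D : ℤ) - 2 * (Nat.card H.edgeSet : ℤ)) ≤
        2 * (numFaces τ : ℤ) :=
  Simple_aux H (Nat.card D) rfl src α hα hne σ hσ htr hH

end Pool.Agent.H20.BK
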