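import Mathlib
import Pool.Agent.H20.BK.AvgFinal
import Pool.Agent.H20.BK.Embed
import Pool.Agent.H20.BK.Simple
import Pool.Agent.H20.BK.Alpha

/-!
Project BK, module Core. The genus bound for a batched sequence.

Proof sketch. `n = |V|`. Take `α` (`exists_alpha`), `π` (`exists_perms`), `tri`, the rotation `σ`
(`exists_rot` with `ι = Idx K T S good`), the rotation `τ` of `H = seqGraph K S T`
(`exists_simple`, `adj_iff_dart`). Then `numFaces τ ≥ |ι| - cyc - (|Dt|/2 - |E(H)|)`, so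
`n - |E| + numFaces ≥ n - |Dt|/2 + |ι| - cyc`. Moreover `|Dt| = ∑ (|e1| + |e2|) ≤ 2Kn + 2 ∑ |e2|`
(`card_Dt`, `card_e1_le`, `sum_card_chg`), `|ι| = ∑_{good} |inst| ≥ ∑_{good} (|e2| - 4 R |chg|)`
(`card_e2_le_inst`), and `∑_{not good} |e2| ≤ K u` (`card_e2_le`). Hence
`n - |E| + numFaces ≥ n - Kn - Ku - 8Rn - cyc ≥ 2 - 2g`.
-/

namespace Pool.Agent.H20.BK

open Finset

variable {V : Type*} [LinearOrder V] [Fintype V] {K T : ℕ} {S : ℕ → Finset V}

theorem core (hS : IsSeq S T) (q R u : ℕ) (hq : 1 ≤ q) (good : Finset (Fin T))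
    (hgood : ∀ τ ∈ good, q ≤ (chg S τ).card ∧ (chg S τ).card ≤ 2 * q ∧
      HullLE (big S τ) (chg S τ) R)
    (hbad : ∑ τ ∈ goodᶜ, (chg S τ).card ≤ u)
    (hcon : (seqGraph K S T).Connected) (g : ℕ)
    (hg : 2 + ((K : ℝ) - 1) * Fintype.card V + K * u + 8 * R * Fintype.card V +
      (4 * K * (Fintype.card V : ℝ) * ((harmonic (2 * q) : ℚ) : ℝ) +
        K * (Fintype.card V : ℝ)) / q ≤ 2 * g) :
    GenusLE (seqGraph K S T) g := by
  obtain ⟨α, hα⟩ := exists_alpha K T S hS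
  obtain ⟨π, hπ⟩ := exists_perms hS hα q hq good (fun τ h => ⟨(hgood τ h).1, (hgood τ h).2.1⟩)
  obtain ⟨σ, hσ1, hσ2, hσ3⟩ := exists_rot (src (K := K) (T := T) (S := S)) α hα.invol (tri hS π)
    (tri_injective hS (good := good) π) (fun i j => src_tri hS hα π i j)
  obtain ⟨τ, hτ, hF⟩ := exists_simple (src (K := K) (T := T) (S := S)) α hα.invol
    (src_alpha_ne hS hα) σ hσ1 hσ2 (seqGraph K S T) (adj_iff_dart hS hα)
  refine ⟨seqGraph K S T, le_rfl, hcon, τ, hτ, ?_⟩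
  -- counting
  have hι : Fintype.card (Idx K T S good) = ∑ τ ∈ good, (inst K S τ).card := by
    rw [Fintype.card_sigma]
    simp only [Fintype.card_coe]
    exact Finset.sum_coe_sort good (fun τ : Fin T => (inst K S τ).card)
  have hchg : ∑ τ : Fin T, (chg S τ).card = 2 * Fintype.card V := by
    rw [← sum_card_chg hS]
    exact Fin.sum_univ_eq_sum_range (fun τ => (chg S τ).card) T
  have hD : Fintype.card (Dt K T S) = ∑ τ : Fin T, ((e1 K S τ).card + (e2 K S τ).card) := by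
    rw [card_Dt hS K]
    exact (Fin.sum_univ_eq_sum_range (fun τ => (e1 K S τ).card + (e2 K S τ).card) T).symm
  have hD2 : Fintype.card (Dt K T S) ≤
      2 * (K * Fintype.card V) + 2 * ∑ τ : Fin T, (e2 K S τ).card := by
    have h1 : ∑ τ : Fin T, (e1 K S τ).card ≤
        ∑ τ : Fin T, ((e2 K S τ).card + K * (chg S τ).card) :=
      Finset.sum_le_sum fun τ _ => card_e1_le K S τ
    rw [Finset.sum_add_distrib, ← Finset.mul_sum, hchg] at h1
    rw [hD, Finset.sum_add_distrib]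
    have : K * (2 * Fintype.card V) = 2 * (K * Fintype.card V) := by ring
    omega
  have hgoodsum : ∑ τ ∈ good, (chg S τ).card ≤ 2 * Fintype.card V := by
    rw [← hchg]
    exact Finset.sum_le_univ_sum_of_nonneg fun _ => Nat.zero_le _
  have he2 : ∑ τ : Fin T, (e2 K S τ).card ≤
      Fintype.card (Idx K T S good) + 8 * R * Fintype.card V + K * u := by
    rw [← Finset.sum_add_sum_compl good, hι]
    have h1 : ∑ τ ∈ good, (e2 K S τ).card ≤
        ∑ τ ∈ good, ((inst K S τ).card + 4 * R * (chg S τ).card) :=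
      Finset.sum_le_sum fun τ h => card_e2_le_inst K R S τ (hgood τ h).2.2
    rw [Finset.sum_add_distrib, ← Finset.mul_sum] at h1
    have h2 : ∑ τ ∈ goodᶜ, (e2 K S τ).card ≤ ∑ τ ∈ goodᶜ, K * (chg S τ).card :=
      Finset.sum_le_sum fun τ _ => card_e2_le K S τ
    rw [← Finset.mul_sum] at h2
    have h3 : K * ∑ τ ∈ goodᶜ, (chg S τ).card ≤ K * u := Nat.mul_le_mul_left K hbad
    have h4 : 4 * R * ∑ τ ∈ good, (chg S τ).card ≤ 4 * R * (2 * Fintype.card V) :=
      Nat.mul_le_mul_left _ hgoodsum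
    have h5 : 4 * R * (2 * Fintype.card V) = 8 * R * Fintype.card V := by ring
    omega
  rw [Nat.card_eq_fintype_card (α := Dt K T S)] at hF
  rw [Nat.card_eq_fintype_card (α := V)]
  have hD2' : (Fintype.card (Dt K T S) : ℝ) ≤
      2 * (K * Fintype.card V) + 2 * ((∑ τ : Fin T, (e2 K S τ).card : ℕ) : ℝ) := by
    exact_mod_cast hD2
  have he2' : ((∑ τ : Fin T, (e2 K S τ).card : ℕ) : ℝ) ≤
      Fintype.card (Idx K T S good) + 8 * R * Fintype.card V + K * u := by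
    exact_mod_cast he2
  have hσ3' : (Fintype.card (Idx K T S good) : ℝ) - (cyc (arcs hS α good π) : ℝ) ≤
      ((numOrbits (σ * α) : ℕ) : ℝ) := by
    exact_mod_cast hσ3
  have hF' : 2 * ((numOrbits (σ * α) : ℕ) : ℝ) - ((Fintype.card (Dt K T S) : ℝ) -
      2 * ((Nat.card (seqGraph K S T).edgeSet : ℕ) : ℝ)) ≤ 2 * ((numFaces τ : ℕ) : ℝ) := by
    exact_mod_cast hF
  have hmax : (numFaces τ : ℤ) ≤ max 1 (numFaces τ : ℤ) := le_max_right _ _
  have key : (2 : ℝ) - 2 * (g : ℝ) ≤ (Fintype.card V : ℝ) -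
      ((Nat.card (seqGraph K S T).edgeSet : ℕ) : ℝ) + ((numFaces τ : ℕ) : ℝ) := by
    linarith
  have key' : (2 : ℤ) - 2 * (g : ℤ) ≤ (Fintype.card V : ℤ) -
      (Nat.card (seqGraph K S T).edgeSet : ℤ) + (numFaces τ : ℤ) := by
    exact_mod_cast key
  linarith

end Pool.Agent.H20.BK
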