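import Mathlib
import Pool.Agent.H20.BK.Batch

/-!
Project BK, module Flush. The batching procedure.

Construction. Elements of `S τ \ B τ` are called pending. `S 0 = ∅`. Step `τ → τ + 1` (`τ < T`):
if `B τ ⊆ B (τ+1)` then `S (τ+1) = S τ ∪ (B (τ+1) \ B τ)`. Otherwise `B (τ+1) = (B τ).erase w`;
let `N` be the set of all `p ∈ S τ \ B (τ+1)` (pending elements and `w`) with `p = w` or fewer than
`ρ` elements of `S τ` strictly between `p` and `w`; if `q ≤ |N|` put `S (τ+1) = S τ \ N`, else
`S (τ+1) = S τ`. Finally `S (T+1) = ∅`.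

Proof of the properties. `v ∈ S τ → ∃ i ≤ τ, v ∈ B i` (so new elements are not in `S τ`, by
`hB.conv`). `conv`: an element of `S` leaves `S` only when it is not in `B (τ+1)` any more, hence it
never comes back. Sparseness (distance of `a < b` in `S`: `btw S a b + 1`): by induction on `τ`.
* Insertion steps only increase `btw`, pending elements do not change.
* Deletion step without flush (`|N| < q`): a `q`-subset `Q` of the new pending set contains `w`
  (otherwise use the induction hypothesis). If all pairs of `Q` had `btw < ρ` then `Q ⊆ N`,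
  contradiction. (For `q = 1` there is always a flush.)
* Flush: the remaining pending elements are not in `N`, so each has at least `ρ` elements of `S τ`
  between it and `w`. Let `Q` be a `q`-subset of them. By the induction hypothesis there are
  `a < b` in `Q` with `ρ ≤ btw (S τ) a b`. If `a, b` are on the same side of `w` then no element of
  `N` lies between `a` and `b` (it would be closer to `w` than the nearer one of `a`, `b`... more
  precisely, elements between `a` and `b` are separated from `w` by at least `ρ` elements), so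
  `btw` does not change. If `a < w < b`: `btw (S τ) a b ≥ 2ρ + 1`, and at most `|N| ≤ 2q - 1`
  elements are removed, so `btw (S (τ+1)) a b ≥ 2ρ + 1 - (2q - 1) ≥ ρ`.
`|N| ≤ 2q - 1`: the elements of `N` above `w` are pending and pairwise have `btw < ρ`, so there are
fewer than `q` of them by sparseness; the same below. Hull: at most `ρ` elements of `S τ` from the
top element of `N` to (excluding) `w`, the same below, and `w`: `2ρ + 1`.
`final`: `S T` consists of pending elements only; if it had `≥ q` elements, its first `q` elements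
would have `btw ≤ q - 2 < ρ` pairwise, contradicting sparseness.
-/

namespace Pool.Agent.H20.BK

open Finset

variable {V : Type*} [LinearOrder V]

theorem Flush_btw_mono {s t : Finset V} (h : s ⊆ t) (a b : V) : btw s a b ≤ btw t a b :=
  card_le_card (filter_subset_filter _ h)

theorem Flush_btw_zero (s : Finset V) {a b : V} (h : b ≤ a) : btw s a b = 0 := by
  unfold btw
  rw [card_eq_zero, filter_eq_empty_iff]
  rintro c - ⟨h1, h2⟩
  exact absurd (h1.trans h2) (not_lt.2 h)

theorem Flush_btw_sub (s : Finset V) {a b c d : V} (h1 : a ≤ b) (h2 : c ≤ d) :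
    btw s b c ≤ btw s a d := by
  unfold btw
  apply card_le_card
  intro x hx
  rw [mem_filter] at hx ⊢
  exact ⟨hx.1, h1.trans_lt hx.2.1, hx.2.2.trans_le h2⟩

theorem Flush_lower (s : Finset V) : ∀ q, q ≤ s.card →
    ∃ Q ⊆ s, Q.card = q ∧ ∀ x ∈ s, ∀ y ∈ Q, x < y → x ∈ Q := by
  intro q
  induction q with
  | zero => exact fun _ => ⟨∅, empty_subset _, card_empty, fun x _ y hy => absurd hy (notMem_empty _)⟩
  | succ q ih =>
    intro hq
    obtain ⟨Q, hQs, hQ, hlow⟩ := ih (by omega)
    have hne : (s \ Q).Nonempty := by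
      rw [← card_pos, card_sdiff_of_subset hQs]
      omega
    obtain ⟨m, hm⟩ := (s \ Q).exists_minimal hne
    have hmem := mem_sdiff.1 hm.1
    refine ⟨insert m Q, insert_subset hmem.1 hQs, by rw [card_insert_of_notMem hmem.2, hQ], ?_⟩
    intro x hx y hy hxy
    rw [mem_insert] at hy ⊢
    by_cases hxQ : x ∈ Q
    · exact Or.inr hxQ
    · rcases hy with rfl | hy
      · have := hm.2 (mem_sdiff.2 ⟨hx, hxQ⟩) hxy.le
        exact absurd hxy (not_lt.2 this)
      · exact absurd (hlow x hx y hy hxy) hxQ

/-- At most `2 q - 1` elements are flushed. -/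
theorem Flush_card {q ρ : ℕ} (hq : 1 ≤ q) {s P N : Finset V} {w : V} (hsp : Sparse q ρ s P)
    (hN : N ⊆ insert w P) (hd : ∀ p ∈ N, btw s p w + btw s w p < ρ) : N.card ≤ 2 * q - 1 := by
  have h1 : (N.filter fun p => p < w).card < q := by
    by_contra hcon
    push Not at hcon
    obtain ⟨Q, hQ, hQc⟩ := exists_subset_card_eq hcon
    have hQP : Q ⊆ P := by
      intro x hx
      have hx' := mem_filter.1 (hQ hx)
      rcases mem_insert.1 (hN hx'.1) with h | h
      · exact absurd hx'.2 (by rw [h]; exact lt_irrefl w)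
      · exact h
    obtain ⟨a, ha, b, hb, hab, hρ⟩ := hsp Q hQP hQc
    have h2 := hd a (mem_filter.1 (hQ ha)).1
    have h3 := Flush_btw_sub s (le_refl a) (mem_filter.1 (hQ hb)).2.le
    omega
  have h2 : (N.filter fun p => w < p).card < q := by
    by_contra hcon
    push Not at hcon
    obtain ⟨Q, hQ, hQc⟩ := exists_subset_card_eq hcon
    have hQP : Q ⊆ P := by
      intro x hx
      have hx' := mem_filter.1 (hQ hx)
      rcases mem_insert.1 (hN hx'.1) with h | h
      · exact absurd hx'.2 (by rw [h]; exact lt_irrefl w)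
      · exact h
    obtain ⟨a, ha, b, hb, hab, hρ⟩ := hsp Q hQP hQc
    have h2 := hd b (mem_filter.1 (hQ hb)).1
    have h3 := Flush_btw_sub s (mem_filter.1 (hQ ha)).2.le (le_refl b)
    omega
  have h3 : N ⊆ (N.filter fun p => p < w) ∪ (N.filter fun p => w < p) ∪ {w} := by
    intro x hx
    rw [mem_union, mem_union, mem_filter, mem_filter, mem_singleton]
    rcases lt_trichotomy x w with h | h | h
    · exact Or.inl (Or.inl ⟨hx, h⟩)
    · exact Or.inr h
    · exact Or.inl (Or.inr ⟨hx, h⟩)
  have h4 := card_le_card h3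
  have h5 := card_union_le ((N.filter fun p => p < w) ∪ (N.filter fun p => w < p)) {w}
  have h6 := card_union_le (N.filter fun p => p < w) (N.filter fun p => w < p)
  rw [card_singleton] at h5
  omega

theorem Flush_hull {ρ : ℕ} {s N : Finset V} {w : V}
    (hd : ∀ p ∈ N, btw s p w + btw s w p < ρ) : HullLE s N (2 * ρ + 1) := by
  intro a ha b hb
  have h1 : (s.filter fun c => a ≤ c ∧ c < w).card ≤ ρ := by
    have hsub : (s.filter fun c => a ≤ c ∧ c < w) ⊆ insert a (s.filter fun c => a < c ∧ c < w) := by
      intro c hc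
      rw [mem_filter] at hc
      rw [mem_insert, mem_filter]
      rcases hc.2.1.eq_or_lt with h | h
      · exact Or.inl h.symm
      · exact Or.inr ⟨hc.1, h, hc.2.2⟩
    have h2 := card_le_card hsub
    have h3 := card_insert_le a (s.filter fun c => a < c ∧ c < w)
    have h4 := hd a ha
    unfold btw at h4
    omega
  have h2 : (s.filter fun c => w < c ∧ c ≤ b).card ≤ ρ := by
    have hsub : (s.filter fun c => w < c ∧ c ≤ b) ⊆ insert b (s.filter fun c => w < c ∧ c < b) := by
      intro c hc
      rw [mem_filter] at hc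
      rw [mem_insert, mem_filter]
      rcases hc.2.2.eq_or_lt with h | h
      · exact Or.inl h
      · exact Or.inr ⟨hc.1, hc.2.1, h⟩
    have h2 := card_le_card hsub
    have h3 := card_insert_le b (s.filter fun c => w < c ∧ c < b)
    have h4 := hd b hb
    unfold btw at h4
    omega
  have h3 : (s.filter fun c => a ≤ c ∧ c ≤ b) ⊆
      (s.filter fun c => a ≤ c ∧ c < w) ∪ (s.filter fun c => w < c ∧ c ≤ b) ∪ {w} := by
    intro x hx
    rw [mem_filter] at hx
    rw [mem_union, mem_union, mem_filter, mem_filter, mem_singleton]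
    rcases lt_trichotomy x w with h | h | h
    · exact Or.inl (Or.inl ⟨hx.1, hx.2.1, h⟩)
    · exact Or.inr h
    · exact Or.inl (Or.inr ⟨hx.1, h, hx.2.2⟩)
  have h4 := card_le_card h3
  have h5 := card_union_le ((s.filter fun c => a ≤ c ∧ c < w) ∪
    (s.filter fun c => w < c ∧ c ≤ b)) {w}
  have h6 := card_union_le (s.filter fun c => a ≤ c ∧ c < w) (s.filter fun c => w < c ∧ c ≤ b)
  rw [card_singleton] at h5
  omega

/-- Sparseness after a deletion without flush. -/
theorem Flush_sparse_keep {q ρ : ℕ} (hρ : 0 < ρ) {s P N : Finset V} {w : V}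
    (hsp : Sparse q ρ s P)
    (hN : ∀ p ∈ insert w P, btw s p w + btw s w p < ρ → p ∈ N) (hc : N.card < q) :
    Sparse q ρ s (insert w P) := by
  intro Q hQ hQc
  by_contra hcon
  push Not at hcon
  by_cases hw : w ∈ Q
  · have hsub : Q ⊆ N := by
      intro p hp
      apply hN p (hQ hp)
      rcases lt_trichotomy p w with h | h | h
      · have h1 := hcon p hp w hw h
        rw [Flush_btw_zero s h.le]
        omega
      · rw [h, Flush_btw_zero s (le_refl w)]
        omega
      · have h1 := hcon w hw p hp h
        rw [Flush_btw_zero s h.le]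
        omega
    have := card_le_card hsub
    omega
  · have hQP : Q ⊆ P := by
      intro x hx
      rcases mem_insert.1 (hQ hx) with h | h
      · exact absurd (h ▸ hx) hw
      · exact h
    obtain ⟨a, ha, b, hb, hab, h⟩ := hsp Q hQP hQc
    have := hcon a ha b hb hab
    omega

/-- Sparseness after a flush. -/
theorem Flush_sparse_flush {q ρ : ℕ} (hq : 1 ≤ q) (hρ : 2 * q ≤ ρ) {s P N : Finset V} {w : V}
    (hws : w ∈ s) (hsp : Sparse q ρ s P) (hNP : N ⊆ insert w P)
    (hd : ∀ p ∈ N, btw s p w + btw s w p < ρ)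
    (hN : ∀ p ∈ insert w P, btw s p w + btw s w p < ρ → p ∈ N) :
    Sparse q ρ (s \ N) (insert w P \ N) := by
  have hcard := Flush_card hq hsp hNP hd
  have hwN : w ∈ N := by
    apply hN w (mem_insert_self _ _)
    rw [Flush_btw_zero s (le_refl w)]
    omega
  intro Q hQ hQc
  have hQP : Q ⊆ P := by
    intro x hx
    have hx' := mem_sdiff.1 (hQ hx)
    rcases mem_insert.1 hx'.1 with h | h
    · exact absurd (h ▸ hwN) hx'.2
    · exact h
  obtain ⟨a, ha, b, hb, hab, h⟩ := hsp Q hQP hQc
  refine ⟨a, ha, b, hb, hab, ?_⟩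
  have hfar : ∀ x ∈ Q, x ≠ w ∧ ρ ≤ btw s x w + btw s w x := by
    intro x hx
    have hx' := mem_sdiff.1 (hQ hx)
    constructor
    · intro h
      exact hx'.2 (h ▸ hwN)
    · by_contra hcon
      exact hx'.2 (hN x hx'.1 (by omega))
  obtain ⟨haw, hfa⟩ := hfar a ha
  obtain ⟨hbw, hfb⟩ := hfar b hb
  rcases lt_or_gt_of_ne hbw with hbw | hbw
  · -- both above `w`
    refine h.trans ?_
    unfold btw
    apply card_le_card
    intro c hc
    rw [mem_filter] at hc ⊢
    refine ⟨mem_sdiff.2 ⟨hc.1, fun hcN => ?_⟩, hc.2⟩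
    have h1 := hd c hcN
    have h2 := Flush_btw_sub s hc.2.2.le (le_refl w)
    rw [Flush_btw_zero s hbw.le] at hfb
    omega
  · rcases lt_or_gt_of_ne haw with haw | haw
    · -- `w` in between
      have h1 : btw s a w + 1 + btw s w b ≤ btw s a b := by
        unfold btw
        have hsub : insert w ((s.filter fun c => a < c ∧ c < w) ∪
            (s.filter fun c => w < c ∧ c < b)) ⊆ s.filter fun c => a < c ∧ c < b := by
          intro x hx
          rw [mem_insert, mem_union, mem_filter, mem_filter] at hx
          rw [mem_filter]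
          rcases hx with rfl | hx | hx
          · exact ⟨hws, haw, hbw⟩
          · exact ⟨hx.1, hx.2.1, hx.2.2.trans hbw⟩
          · exact ⟨hx.1, haw.trans hx.2.1, hx.2.2⟩
        have hdis : Disjoint (s.filter fun c => a < c ∧ c < w)
            (s.filter fun c => w < c ∧ c < b) := by
          rw [disjoint_left]
          intro x hx hx'
          rw [mem_filter] at hx hx'
          exact absurd hx.2.2 (not_lt.2 hx'.2.1.le)
        have hnot : w ∉ (s.filter fun c => a < c ∧ c < w) ∪
            (s.filter fun c => w < c ∧ c < b) := by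
          rw [mem_union, mem_filter, mem_filter]
          rintro (hx | hx)
          · exact lt_irrefl w hx.2.2
          · exact lt_irrefl w hx.2.1
        have h2 := card_le_card hsub
        rw [card_insert_of_notMem hnot, card_union_of_disjoint hdis] at h2
        omega
      have h2 : btw s a b ≤ btw (s \ N) a b + N.card := by
        unfold btw
        have hsub : (s.filter fun c => a < c ∧ c < b) ⊆
            ((s \ N).filter fun c => a < c ∧ c < b) ∪ N := by
          intro x hx
          rw [mem_filter] at hx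
          rw [mem_union, mem_filter, mem_sdiff]
          by_cases hxN : x ∈ N
          · exact Or.inr hxN
          · exact Or.inl ⟨⟨hx.1, hxN⟩, hx.2⟩
        exact (card_le_card hsub).trans (card_union_le _ _)
      rw [Flush_btw_zero s haw.le] at hfa
      rw [Flush_btw_zero s hbw.le] at hfb
      omega
    · -- both below `w`
      refine h.trans ?_
      unfold btw
      apply card_le_card
      intro c hc
      rw [mem_filter] at hc ⊢
      refine ⟨mem_sdiff.2 ⟨hc.1, fun hcN => ?_⟩, hc.2⟩
      have h1 := hd c hcN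
      have h2 := Flush_btw_sub s (le_refl w) hc.2.1.le
      rw [Flush_btw_zero s haw.le] at hfa
      omega

/-- The flushed elements. -/
def FlushN (ρ : ℕ) (s b b' : Finset V) : Finset V :=
  (s \ b').filter fun p => ∀ w ∈ b \ b', btw s p w + btw s w p < ρ

/-- The flush. -/
def FlushS (q ρ : ℕ) (B : ℕ → Finset V) (T : ℕ) : ℕ → Finset V
  | 0 => ∅
  | τ + 1 => if τ < T then
      if B τ ⊆ B (τ + 1) then FlushS q ρ B T τ ∪ (B (τ + 1) \ B τ)
      else if q ≤ (FlushN ρ (FlushS q ρ B T τ) (B τ) (B (τ + 1))).card then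
        FlushS q ρ B T τ \ FlushN ρ (FlushS q ρ B T τ) (B τ) (B (τ + 1))
      else FlushS q ρ B T τ
    else ∅

theorem FlushS_sub (q ρ : ℕ) (B : ℕ → Finset V) (T : ℕ) (τ : ℕ) :
    FlushS q ρ B T (τ + 1) ⊆ FlushS q ρ B T τ ∪ (B (τ + 1) \ B τ) := by
  rw [FlushS]
  split_ifs
  · exact Subset.refl _
  · exact sdiff_subset.trans subset_union_left
  · exact subset_union_left
  · exact empty_subset _

theorem exists_flush (q ρ : ℕ) (hq : 1 ≤ q) (hρ : 2 * q ≤ ρ) (B : ℕ → Finset V) (T : ℕ)
    (hB : IsBase B T) : ∃ S : ℕ → Finset V, IsFlush q ρ B T S := by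
  obtain ⟨S, hS⟩ : ∃ S, S = FlushS q ρ B T := ⟨_, rfl⟩
  have hS0 : S 0 = ∅ := by rw [hS]; rfl
  have hstep : ∀ τ, τ < T → S (τ + 1) = if B τ ⊆ B (τ + 1) then S τ ∪ (B (τ + 1) \ B τ)
      else if q ≤ (FlushN ρ (S τ) (B τ) (B (τ + 1))).card then
        S τ \ FlushN ρ (S τ) (B τ) (B (τ + 1)) else S τ := by
    intro τ hτ
    rw [hS]
    exact if_pos hτ
  have hlast : S (T + 1) = ∅ := by
    rw [hS, FlushS, if_neg (lt_irrefl T)]
  have hsubU : ∀ τ, S (τ + 1) ⊆ S τ ∪ (B (τ + 1) \ B τ) := by
    rw [hS]
    exact FlushS_sub q ρ B T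
  -- invariants
  have hpast : ∀ τ, ∀ v ∈ S τ, ∃ i ≤ τ, v ∈ B i := by
    intro τ
    induction τ with
    | zero =>
      intro v hv
      rw [hS0] at hv
      exact absurd hv (notMem_empty _)
    | succ τ ih =>
      intro v hv
      rcases mem_union.1 (hsubU τ hv) with h | h
      · obtain ⟨i, hi, hvi⟩ := ih v h
        exact ⟨i, by omega, hvi⟩
      · exact ⟨τ + 1, le_rfl, (mem_sdiff.1 h).1⟩
  have hdisj : ∀ τ, τ < T → Disjoint (S τ) (B (τ + 1) \ B τ) := by
    intro τ hτ
    rw [disjoint_left]
    intro v hv hv'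
    obtain ⟨i, hi, hvi⟩ := hpast τ v hv
    rw [mem_sdiff] at hv'
    exact hv'.2 (hB.conv v i τ (τ + 1) hi (by omega) (by omega) hvi hv'.1)
  have hinv : ∀ τ, τ ≤ T → B τ ⊆ S τ ∧ Sparse q ρ (S τ) (S τ \ B τ) := by
    intro τ
    induction τ with
    | zero =>
      intro _
      rw [hB.zero, hS0]
      refine ⟨Subset.refl _, ?_⟩
      intro Q hQ hQc
      rw [sdiff_empty, subset_empty] at hQ
      rw [hQ, card_empty] at hQc
      omega
    | succ τ ih =>
      intro hτ
      obtain ⟨hsub, hsp⟩ := ih (by omega)
      have hs := hstep τ (by omega)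
      by_cases hins : B τ ⊆ B (τ + 1)
      · rw [if_pos hins] at hs
        have hpend : S (τ + 1) \ B (τ + 1) = S τ \ B τ := by
          rw [hs]
          ext v
          simp only [mem_sdiff, mem_union]
          constructor
          · rintro ⟨h1 | h1, h2⟩
            · exact ⟨h1, fun h3 => h2 (hins h3)⟩
            · exact absurd h1.1 h2
          · rintro ⟨h1, h2⟩
            refine ⟨Or.inl h1, fun h3 => ?_⟩
            exact disjoint_left.1 (hdisj τ (by omega)) h1 (mem_sdiff.2 ⟨h3, h2⟩)
        constructor
        · rw [hs]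
          intro v hv
          rw [mem_union, mem_sdiff]
          by_cases h : v ∈ B τ
          · exact Or.inl (hsub h)
          · exact Or.inr ⟨hv, h⟩
        · rw [hpend]
          intro Q hQ hQc
          obtain ⟨a, ha, b, hb, hab, h⟩ := hsp Q hQ hQc
          refine ⟨a, ha, b, hb, hab, h.trans (Flush_btw_mono ?_ a b)⟩
          rw [hs]
          exact subset_union_left
      · rw [if_neg hins] at hs
        obtain ⟨w, hwB, hw⟩ : ∃ w ∈ B τ, B (τ + 1) = (B τ).erase w := by
          rcases hB.step τ (by omega) with h | h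
          · exact absurd h hins
          · exact h
        have hpend : S τ \ B (τ + 1) = insert w (S τ \ B τ) := by
          ext v
          rw [hw]
          simp only [mem_sdiff, mem_erase, mem_insert]
          constructor
          · rintro ⟨h1, h2⟩
            by_cases hv : v = w
            · exact Or.inl hv
            · exact Or.inr ⟨h1, fun h3 => h2 ⟨hv, h3⟩⟩
          · rintro (h1 | ⟨h1, h2⟩)
            · subst h1
              exact ⟨hsub hwB, fun h3 => h3.1 rfl⟩
            · exact ⟨h1, fun h3 => h2 h3.2⟩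
        have hdiff : B τ \ B (τ + 1) = {w} := by
          ext v
          rw [hw, mem_sdiff, mem_erase, mem_singleton]
          constructor
          · rintro ⟨h1, h2⟩
            by_contra h3
            exact h2 ⟨h3, h1⟩
          · rintro rfl
            exact ⟨hwB, fun h3 => h3.1 rfl⟩
        have hNd : FlushN ρ (S τ) (B τ) (B (τ + 1)) = (insert w (S τ \ B τ)).filter
            fun p => btw (S τ) p w + btw (S τ) w p < ρ := by
          unfold FlushN
          rw [hpend, hdiff]
          simp only [mem_singleton, forall_eq]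
        have hBsub : B (τ + 1) ⊆ S τ := by
          rw [hw]
          exact (erase_subset _ _).trans hsub
        by_cases hfl : q ≤ (FlushN ρ (S τ) (B τ) (B (τ + 1))).card
        · rw [if_pos hfl] at hs
          rw [hs]
          constructor
          · intro v hv
            rw [mem_sdiff]
            refine ⟨hBsub hv, fun h => ?_⟩
            rw [FlushN, mem_filter, mem_sdiff] at h
            exact h.1.2 hv
          · have h1 := Flush_sparse_flush hq hρ (N := FlushN ρ (S τ) (B τ) (B (τ + 1)))
              (hsub hwB) hsp (by rw [hNd]; exact filter_subset _ _)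
              (fun p hp => by rw [hNd] at hp; exact (mem_filter.1 hp).2)
              (fun p hp h => by rw [hNd]; exact mem_filter.2 ⟨hp, h⟩)
            have h2 : (S τ \ FlushN ρ (S τ) (B τ) (B (τ + 1))) \ B (τ + 1) =
                insert w (S τ \ B τ) \ FlushN ρ (S τ) (B τ) (B (τ + 1)) := by
              rw [← hpend, sdiff_right_comm]
            rw [h2]
            exact h1
        · rw [if_neg hfl] at hs
          rw [hs]
          refine ⟨hBsub, ?_⟩
          rw [hpend]
          exact Flush_sparse_keep (by omega) hsp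
            (fun p hp h => by rw [hNd]; exact mem_filter.2 ⟨hp, h⟩) (not_le.1 hfl)
  have hnever : ∀ v j, v ∉ S j → (∃ i ≤ j, v ∈ B i) → ∀ k, j ≤ k → k ≤ T + 1 → v ∉ S k := by
    intro v j hvj hex k hjk
    induction k, hjk using Nat.le_induction with
    | base => exact fun _ => hvj
    | succ k hjk ih =>
      intro hk hv
      rcases mem_union.1 (hsubU k hv) with h | h
      · exact ih (by omega) h
      · by_cases hkT : k < T
        · obtain ⟨i, hi, hvi⟩ := hex
          rw [mem_sdiff] at h
          exact h.2 (hB.conv v i k (k + 1) (by omega) (by omega) (by omega) hvi h.1)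
        · have : k = T := by omega
          rw [this, hlast] at hv
          exact absurd hv (notMem_empty _)
  refine ⟨S, ⟨fun τ hτ => (hinv τ hτ).1, hS0, hlast, ?_, fun τ hτ => (hinv τ hτ).2, ?_, ?_, ?_⟩⟩
  · intro v i j k hij hjk hk hvi hvk
    by_contra hvj
    obtain ⟨i', hi', hvi'⟩ := hpast i v hvi
    exact hnever v j hvj ⟨i', hi'.trans hij, hvi'⟩ k hjk hk hvk
  · intro τ hτ hins
    have hs := hstep τ hτ
    rw [if_pos hins] at hs
    exact ⟨hs, hdisj τ hτ⟩
  · intro τ hτ hins
    obtain ⟨hsub, hsp⟩ := hinv τ hτ.le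
    have hs := hstep τ hτ
    rw [if_neg hins] at hs
    by_cases hfl : q ≤ (FlushN ρ (S τ) (B τ) (B (τ + 1))).card
    · rw [if_pos hfl] at hs
      obtain ⟨w, hwB, hw⟩ : ∃ w ∈ B τ, B (τ + 1) = (B τ).erase w := by
        rcases hB.step τ hτ with h | h
        · exact absurd h hins
        · exact h
      have hNs : FlushN ρ (S τ) (B τ) (B (τ + 1)) ⊆ S τ :=
        (filter_subset _ _).trans sdiff_subset
      have hd : ∀ p ∈ FlushN ρ (S τ) (B τ) (B (τ + 1)),
          btw (S τ) p w + btw (S τ) w p < ρ := by
        intro p hp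
        rw [FlushN, mem_filter] at hp
        refine hp.2 w (mem_sdiff.2 ⟨hwB, ?_⟩)
        rw [hw]
        exact notMem_erase _ _
      have hNP : FlushN ρ (S τ) (B τ) (B (τ + 1)) ⊆ insert w (S τ \ B τ) := by
        intro p hp
        rw [FlushN, mem_filter, mem_sdiff, hw, mem_erase] at hp
        rw [mem_insert, mem_sdiff]
        by_cases hpw : p = w
        · exact Or.inl hpw
        · exact Or.inr ⟨hp.1.1, fun h => hp.1.2 ⟨hpw, h⟩⟩
      have hcard := Flush_card hq hsp hNP hd
      refine ⟨by rw [hs]; exact sdiff_subset, Or.inr ?_⟩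
      rw [hs, Finset.sdiff_sdiff_eq_self hNs]
      exact ⟨hfl, by omega, Flush_hull hd⟩
    · rw [if_neg hfl] at hs
      rw [hs]
      exact ⟨Subset.refl _, Or.inl (Finset.sdiff_self _)⟩
  · obtain ⟨-, hsp⟩ := hinv T le_rfl
    rw [hB.last, sdiff_empty] at hsp
    by_contra hcon
    push Not at hcon
    obtain ⟨Q, hQs, hQc, hlow⟩ := Flush_lower (S T) q hcon
    obtain ⟨a, ha, b, hb, hab, h⟩ := hsp Q hQs hQc
    have hsub : ((S T).filter fun c => a < c ∧ c < b) ⊆ Q := by
      intro c hc
      rw [mem_filter] at hc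
      exact hlow c hc.1 b hb hc.2.2
    have h1 := card_le_card hsub
    unfold btw at h
    omega

end Pool.Agent.H20.BK
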