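import Mathlib
import Pool.Agent.H20.BK.Model

/-!
Project BK, module Iso: invariance of `GenusLE`, connectedness of `seqGraph`, sorted bars.
-/

namespace Pool.Agent.H20.BK

open Finset

/-- `numOrbits` from a complete invariant. -/
theorem Iso_orbits_eq {α ι : Type*} (σ : Equiv.Perm α) (f : α → ι) (hs : Function.Surjective f)
    (hf : ∀ x y, f x = f y ↔ σ.SameCycle x y) : numOrbits σ = Nat.card ι := by
  unfold numOrbits
  refine Nat.card_congr (Equiv.ofBijective
    (Quotient.lift f fun x y (h : σ.SameCycle x y) => (hf x y).2 h) ⟨?_, ?_⟩)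
  · intro p q
    induction p using Quotient.inductionOn with
    | h x =>
      induction q using Quotient.inductionOn with
      | h y =>
        intro h
        exact Quotient.sound ((hf x y).1 h)
  · intro i
    obtain ⟨x, hx⟩ := hs i
    exact ⟨Quotient.mk _ x, hx⟩

theorem Iso_pow {α β : Type*} (e : α ≃ β) (σ : Equiv.Perm α) (i : ℤ) (z : β) :
    ((e.permCongr σ) ^ i) z = e ((σ ^ i) (e.symm z)) := by
  have h1 : e.permCongr σ = e.permCongrHom σ := rfl
  rw [h1, ← map_zpow]
  rfl

theorem Iso_sameCycle {α β : Type*} (e : α ≃ β) (σ : Equiv.Perm α) (x y : β) :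
    (e.permCongr σ).SameCycle x y ↔ σ.SameCycle (e.symm x) (e.symm y) := by
  constructor
  · rintro ⟨i, hi⟩
    refine ⟨i, ?_⟩
    rw [Iso_pow] at hi
    rw [← hi, e.symm_apply_apply]
  · rintro ⟨i, hi⟩
    refine ⟨i, ?_⟩
    rw [Iso_pow, hi, e.apply_symm_apply]

theorem Iso_orbits_congr {α β : Type*} (e : α ≃ β) (σ : Equiv.Perm α) :
    numOrbits (e.permCongr σ) = numOrbits σ := by
  have h : numOrbits σ = Nat.card (Quotient (Equiv.Perm.SameCycle.setoid σ)) := rfl
  rw [h]
  refine Iso_orbits_eq _ (fun y => Quotient.mk (Equiv.Perm.SameCycle.setoid σ) (e.symm y))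
    (Quotient.mk_surjective.comp e.symm.surjective) ?_
  intro x y
  rw [Iso_sameCycle, Quotient.eq]
  rfl

/-- The darts of the transported graph. -/
def IsoDart {V W : Type*} (e : V ≃ W) (H : SimpleGraph V) :
    H.Dart ≃ (H.comap e.symm).Dart where
  toFun d := ⟨(e d.fst, e d.snd), by
    show H.Adj (e.symm (e d.fst)) (e.symm (e d.snd))
    rw [e.symm_apply_apply, e.symm_apply_apply]
    exact d.adj⟩
  invFun d := ⟨(e.symm d.fst, e.symm d.snd), d.adj⟩
  left_inv d := by
    apply SimpleGraph.Dart.ext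
    show (e.symm (e d.fst), e.symm (e d.snd)) = d.toProd
    rw [e.symm_apply_apply, e.symm_apply_apply]
  right_inv d := by
    apply SimpleGraph.Dart.ext
    show (e (e.symm d.fst), e (e.symm d.snd)) = d.toProd
    rw [e.apply_symm_apply, e.apply_symm_apply]

/-- Transport of an embedding along a bijection of the vertices (transport `H`, the darts and the
rotation system). -/
theorem genusLE_of_equiv {V W : Type*} [Finite V] (e : V ≃ W) (G : SimpleGraph V)
    (G' : SimpleGraph W) (h : ∀ a b, G'.Adj (e a) (e b) → G.Adj a b) (g : ℕ)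
    (hG : GenusLE G g) : GenusLE G' g := by
  obtain ⟨H, hGH, hconn, σ, hσ, hle⟩ := hG
  have hiso : H.comap e.symm ≃g H := SimpleGraph.Iso.comap e.symm H
  refine ⟨H.comap e.symm, ?_, hiso.connected_iff.2 hconn, (IsoDart e H).permCongr σ, ?_, ?_⟩
  · intro x y hxy
    show H.Adj (e.symm x) (e.symm y)
    apply hGH
    apply h
    rw [e.apply_symm_apply, e.apply_symm_apply]
    exact hxy
  · constructor
    · intro d
      show e (σ ((IsoDart e H).symm d)).fst = d.fst
      rw [hσ.fst_eq]
      show e (e.symm d.fst) = d.fst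
      rw [e.apply_symm_apply]
    · intro d d' hd
      rw [Iso_sameCycle]
      apply hσ.sameCycle
      show e.symm d.fst = e.symm d'.fst
      rw [hd]
  · have h1 : numFaces ((IsoDart e H).permCongr σ) = numFaces σ := by
      unfold numFaces
      have h2 : (IsoDart e H).permCongr σ * symmPerm (H.comap e.symm) =
          (IsoDart e H).permCongr (σ * symmPerm H) := by
        ext d : 1
        rfl
      rw [h2, Iso_orbits_congr]
    have h3 : Nat.card (H.comap e.symm).edgeSet = Nat.card H.edgeSet :=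
      Nat.card_congr hiso.mapEdgeSet
    have h4 : Nat.card W = Nat.card V := Nat.card_congr e.symm
    rw [h1, h3, h4]
    exact hle

/-- The arrangement with the bars renumbered by a permutation. -/
def Bars.comp {n : ℕ} (B : Bars n) (e : Equiv.Perm (Fin n)) : Bars n where
  l := B.l ∘ e
  r := B.r ∘ e
  y := B.y ∘ e
  lt := fun i => B.lt (e i)
  disj := fun i j hij h => B.disj (e i) (e j) (fun h' => hij (e.injective h')) h

theorem Iso_sees {n : ℕ} (B : Bars n) (e : Equiv.Perm (Fin n)) (k : ℕ) (i j : Fin n) :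
    (B.comp e).sees k i j ↔ B.sees k (e i) (e j) := by
  unfold Bars.sees
  refine exists_congr fun x => and_congr Iff.rfl (and_congr Iff.rfl ?_)
  have h : Nat.card {m : Fin n // m ≠ i ∧ m ≠ j ∧ (B.comp e).meets x m ∧
      min ((B.comp e).y i) ((B.comp e).y j) ≤ (B.comp e).y m ∧
      (B.comp e).y m ≤ max ((B.comp e).y i) ((B.comp e).y j)} =
      Nat.card {m : Fin n // m ≠ e i ∧ m ≠ e j ∧ B.meets x m ∧
        min (B.y (e i)) (B.y (e j)) ≤ B.y m ∧ B.y m ≤ max (B.y (e i)) (B.y (e j))} := by
    refine Nat.card_congr (e.subtypeEquiv fun m => ?_)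
    refine and_congr (e.injective.ne_iff).symm (and_congr (e.injective.ne_iff).symm Iff.rfl)
  rw [h]

theorem Bars.comp_adj {n : ℕ} (B : Bars n) (e : Equiv.Perm (Fin n)) (k : ℕ) (i j : Fin n) :
    ((B.comp e).graph k).Adj i j ↔ (B.graph k).Adj (e i) (e j) := by
  show (i ≠ j ∧ ((B.comp e).sees k i j ∨ (B.comp e).sees k j i)) ↔
    (e i ≠ e j ∧ (B.sees k (e i) (e j) ∨ B.sees k (e j) (e i)))
  rw [Iso_sees, Iso_sees, e.injective.ne_iff]

theorem Iso_reach {V : Type*} [LinearOrder V] {K T : ℕ} (hK : 1 ≤ K)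
    {S : ℕ → Finset V} {τ : ℕ} (hτ : τ ≤ T) : ∀ (n : ℕ) (a b : V), btw (S τ) a b = n →
    a ∈ S τ → b ∈ S τ → a < b → (seqGraph K S T).Reachable a b := by
  intro n
  induction n using Nat.strong_induction_on with
  | _ n ih =>
    intro a b hn ha hb hab
    by_cases h0 : n = 0
    · exact SimpleGraph.Adj.reachable (Or.inl ⟨τ, hτ, ha, hb, hab, by omega⟩)
    · obtain ⟨c, hc⟩ : ((S τ).filter fun c => a < c ∧ c < b).Nonempty := by
        rw [← card_pos]
        unfold btw at hn
        omega
      have hc' := mem_filter.1 hc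
      have h1 : btw (S τ) a c < n := by
        rw [← hn]
        unfold btw
        apply card_lt_card
        rw [ssubset_iff_of_subset]
        · exact ⟨c, hc, fun h => lt_irrefl c (mem_filter.1 h).2.2⟩
        · intro x hx
          rw [mem_filter] at hx ⊢
          exact ⟨hx.1, hx.2.1, hx.2.2.trans hc'.2.2⟩
      have h2 : btw (S τ) c b < n := by
        rw [← hn]
        unfold btw
        apply card_lt_card
        rw [ssubset_iff_of_subset]
        · exact ⟨c, hc, fun h => lt_irrefl c (mem_filter.1 h).2.1⟩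
        · intro x hx
          rw [mem_filter] at hx ⊢
          exact ⟨hx.1, hc'.2.1.trans hx.2.1, hx.2.2⟩
      exact (ih _ h1 a c rfl ha hc'.1 hc'.2.1).trans (ih _ h2 c b rfl hc'.1 hb hc'.2.2)

/-- In one state any two elements are connected through consecutive elements. -/
theorem seqGraph_connected {V : Type*} [LinearOrder V] [Fintype V] {K T : ℕ} (hK : 1 ≤ K)
    {S : ℕ → Finset V} (z : V) (h : ∀ v, ∃ τ, τ ≤ T ∧ v ∈ S τ ∧ z ∈ S τ) :
    (seqGraph K S T).Connected := by
  have h1 : ∀ v, (seqGraph K S T).Reachable v z := by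
    intro v
    obtain ⟨τ, hτ, hv, hz⟩ := h v
    rcases lt_trichotomy v z with h2 | h2 | h2
    · exact Iso_reach hK hτ _ v z rfl hv hz h2
    · rw [h2]
    · exact (Iso_reach hK hτ _ z v rfl hz hv h2).symm
  have : Nonempty V := ⟨z⟩
  exact ⟨fun u v => (h1 u).trans (h1 v).symm⟩

end Pool.Agent.H20.BK
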