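import Mathlib
import Pool.Agent.H20.BK.Defs

/-!
Project BK, module LowerBars. A bar `k`-visibility graph with many edges.

Construction, `K = k + 1`, `n = 2K + t`. `K` long bars `a_1, …, a_K` at the heights `1, …, K`,
`K` long bars `b_1, …, b_K` at the heights `-(t+1), …, -(t+K)`, all with abscissae from `0` to a
large number, and `x_1, …, x_t`, `x_j` at height `-j` from abscissa `2j` to `2j + 2K + 1`.
At the abscissa `2j` the bars `x_{j-K}, …, x_j` (those with index `≥ 1`) are met, `x_j` is the lowest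
one; at the abscissa `2j + 2K` the bars `x_j, …, x_{j+K}` (index `≤ t`) are met, `x_j` is the highest
one. Hence: `x_i x_j` is an edge for `0 < j - i ≤ K` (abscissa `2j`, the `j - i - 1 ≤ k` bars in
between), `x_j b_i` is an edge for all `i, j` (abscissa `2j`, `i - 1 ≤ k` bars in between), `x_j a_i`
is an edge for all `i, j` (abscissa `2j + 2K`). The number of these edges is
`2Kt + |{(i,j) : 0 < j - i ≤ K}| ≥ 2Kt + (Kt - K(K+1)/2)` (for all `t`).
-/

namespace Pool.Agent.H20.BK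

/-- There is an arrangement of `n` bars for every `n`. -/
theorem bars_nonempty (n : ℕ) : Nonempty (Bars n) := by
  refine ⟨⟨fun _ => 0, fun _ => 1, fun i => (i : ℝ), fun _ => zero_lt_one, ?_⟩⟩
  intro i j hij h
  exact absurd (Fin.ext (by exact_mod_cast h)) hij

/-- The arrangement: index `i` at height `-i`; the bars with `K ≤ i < K + t` are the short ones. -/
noncomputable def LowerBars_bars (K t : ℕ) : Bars (2 * K + t) where
  l i := if K ≤ (i : ℕ) ∧ (i : ℕ) < K + t then 2 * (i : ℝ) - 2 * K else 0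
  r i := if K ≤ (i : ℕ) ∧ (i : ℕ) < K + t then 2 * (i : ℝ) + 1 else 2 * (K + t) + 1
  y i := -(i : ℝ)
  lt i := by
    split_ifs
    · have : (0 : ℝ) ≤ K := Nat.cast_nonneg K
      linarith
    · positivity
  disj i j hij h := by
    exact absurd (Fin.ext (by exact_mod_cast neg_injective h)) hij

theorem LowerBars_card {n : ℕ} (p : Fin n → Prop) (a b : ℕ)
    (h : ∀ m, p m → a ≤ (m : ℕ) ∧ (m : ℕ) < b) : Nat.card {m // p m} ≤ b - a := by
  have h1 : Nat.card {m // p m} ≤ Nat.card (Finset.Ico a b) := by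
    apply Nat.card_le_card_of_injective (fun m => ⟨(m.1 : ℕ), by
      rw [Finset.mem_Ico]; exact h m.1 m.2⟩)
    intro x y hxy
    simp only [Subtype.mk.injEq] at hxy
    exact Subtype.ext (Fin.ext hxy)
  rwa [Nat.card_eq_fintype_card (α := Finset.Ico a b), Fintype.card_coe, Nat.card_Ico] at h1

/-- A criterion for adjacency in the arrangement. -/
theorem LowerBars_adj (k t : ℕ) (u v : Fin (2 * (k + 1) + t)) (huv : u < v) (x : ℝ)
    (hu : (LowerBars_bars (k + 1) t).meets x u) (hv : (LowerBars_bars (k + 1) t).meets x v)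
    (a b : ℕ) (hab : b - a ≤ k)
    (h : ∀ m : Fin (2 * (k + 1) + t), u < m → m < v → (LowerBars_bars (k + 1) t).meets x m →
      a ≤ (m : ℕ) ∧ (m : ℕ) < b) :
    ((LowerBars_bars (k + 1) t).graph k).Adj u v := by
  refine ⟨huv.ne, Or.inl ⟨x, hu, hv, ?_⟩⟩
  refine (LowerBars_card _ a b ?_).trans hab
  intro m hm
  obtain ⟨h1, h2, h3, h4, h5⟩ := hm
  have hyu : (LowerBars_bars (k + 1) t).y u = -(u : ℝ) := rfl
  have hyv : (LowerBars_bars (k + 1) t).y v = -(v : ℝ) := rfl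
  have hym : (LowerBars_bars (k + 1) t).y m = -(m : ℝ) := rfl
  rw [hyu, hyv, hym] at h4 h5
  have huv' : ((u : ℕ) : ℝ) ≤ ((v : ℕ) : ℝ) := by exact_mod_cast huv.le
  rw [min_eq_right (by linarith)] at h4
  rw [max_eq_left (by linarith)] at h5
  have e1 : ((m : ℕ) : ℝ) ≤ ((v : ℕ) : ℝ) := by linarith
  have e2 : ((u : ℕ) : ℝ) ≤ ((m : ℕ) : ℝ) := by linarith
  have e1' : (m : ℕ) ≤ v := by exact_mod_cast e1
  have e2' : (u : ℕ) ≤ m := by exact_mod_cast e2
  have e3 : (m : ℕ) ≠ v := fun hh => h2 (Fin.ext hh)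
  have e4 : (m : ℕ) ≠ u := fun hh => h1 (Fin.ext hh)
  exact h m (by rw [Fin.lt_def]; omega) (by rw [Fin.lt_def]; omega) h3

theorem LowerBars_meets_short (K t : ℕ) (u : Fin (2 * K + t)) (x : ℝ)
    (h : K ≤ (u : ℕ) ∧ (u : ℕ) < K + t) :
    (LowerBars_bars K t).meets x u ↔ 2 * (u : ℝ) - 2 * K ≤ x ∧ x ≤ 2 * (u : ℝ) + 1 := by
  simp only [Bars.meets, LowerBars_bars, h, and_self, if_true]

theorem LowerBars_meets_long (K t : ℕ) (u : Fin (2 * K + t)) (x : ℝ)
    (h : ¬ (K ≤ (u : ℕ) ∧ (u : ℕ) < K + t)) :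
    (LowerBars_bars K t).meets x u ↔ 0 ≤ x ∧ x ≤ 2 * (K + t) + 1 := by
  simp only [Bars.meets, LowerBars_bars, if_neg h]

theorem LowerBars_adjA (k t : ℕ) (u v : Fin (2 * (k + 1) + t)) (hu : (u : ℕ) < k + 1)
    (hv : k + 1 ≤ (v : ℕ) ∧ (v : ℕ) < k + 1 + t) :
    ((LowerBars_bars (k + 1) t).graph k).Adj u v := by
  have hv2 : ((v : ℕ) : ℝ) + 1 ≤ ((k + 1 : ℕ) : ℝ) + t := by exact_mod_cast hv.2
  have hv0 : (0 : ℝ) ≤ (v : ℕ) := Nat.cast_nonneg _
  have hk0 : (0 : ℝ) ≤ ((k + 1 : ℕ) : ℝ) := Nat.cast_nonneg _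
  refine LowerBars_adj k t u v (by rw [Fin.lt_def]; omega) (2 * (v : ℝ) + 1) ?_ ?_ (u + 1) (k + 1)
    (by omega) ?_
  · rw [LowerBars_meets_long _ _ _ _ (by omega)]
    constructor <;> linarith
  · rw [LowerBars_meets_short _ _ _ _ hv]
    constructor <;> linarith
  · intro m h1 h2 h3
    rw [Fin.lt_def] at h1 h2
    refine ⟨by omega, ?_⟩
    by_contra hm
    rw [LowerBars_meets_short _ _ _ _ (by omega)] at h3
    have : ((m : ℕ) : ℝ) < (v : ℕ) := by exact_mod_cast h2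
    linarith [h3.2]

theorem LowerBars_adjB (k t : ℕ) (u v : Fin (2 * (k + 1) + t))
    (hu : k + 1 ≤ (u : ℕ) ∧ (u : ℕ) < k + 1 + t) (hv : k + 1 + t ≤ (v : ℕ)) :
    ((LowerBars_bars (k + 1) t).graph k).Adj u v := by
  have hv' := v.2
  have hu1 : ((k + 1 : ℕ) : ℝ) ≤ (u : ℕ) := by exact_mod_cast hu.1
  have hu2 : ((u : ℕ) : ℝ) + 1 ≤ ((k + 1 : ℕ) : ℝ) + t := by exact_mod_cast hu.2
  have hk0 : (0 : ℝ) ≤ ((k + 1 : ℕ) : ℝ) := Nat.cast_nonneg _
  refine LowerBars_adj k t u v (by rw [Fin.lt_def]; omega) (2 * (u : ℝ) - 2 * ((k + 1 : ℕ) : ℝ))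
    ?_ ?_ (k + 1 + t) v (by omega) ?_
  · rw [LowerBars_meets_short _ _ _ _ hu]
    constructor <;> linarith
  · rw [LowerBars_meets_long _ _ _ _ (by omega)]
    constructor <;> linarith
  · intro m h1 h2 h3
    rw [Fin.lt_def] at h1 h2
    refine ⟨?_, by omega⟩
    by_contra hm
    rw [LowerBars_meets_short _ _ _ _ (by omega)] at h3
    have : ((u : ℕ) : ℝ) < (m : ℕ) := by exact_mod_cast h1
    linarith [h3.1]

theorem LowerBars_adjC (k t : ℕ) (u v : Fin (2 * (k + 1) + t))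
    (hu : k + 1 ≤ (u : ℕ) ∧ (u : ℕ) < k + 1 + t) (hv : k + 1 ≤ (v : ℕ) ∧ (v : ℕ) < k + 1 + t)
    (huv : (u : ℕ) < v) (hvu : (v : ℕ) ≤ u + (k + 1)) :
    ((LowerBars_bars (k + 1) t).graph k).Adj u v := by
  have h1 : ((u : ℕ) : ℝ) < (v : ℕ) := by exact_mod_cast huv
  have h2 : ((v : ℕ) : ℝ) ≤ (u : ℕ) + ((k + 1 : ℕ) : ℝ) := by exact_mod_cast hvu
  have hk0 : (0 : ℝ) ≤ ((k + 1 : ℕ) : ℝ) := Nat.cast_nonneg _
  refine LowerBars_adj k t u v (by rw [Fin.lt_def]; omega) (2 * (v : ℝ) - 2 * ((k + 1 : ℕ) : ℝ))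
    ?_ ?_ (u + 1) v (by omega) ?_
  · rw [LowerBars_meets_short _ _ _ _ hu]
    constructor <;> linarith
  · rw [LowerBars_meets_short _ _ _ _ hv]
    constructor <;> linarith
  · intro m h1 h2 h3
    rw [Fin.lt_def] at h1 h2
    constructor <;> omega

theorem LowerBars_sum (K t : ℕ) : 2 * ∑ m ∈ Finset.range t, (K - m) ≤ K * (K + 1) := by
  induction t generalizing K with
  | zero => simp
  | succ t ih =>
    rw [Finset.sum_range_succ']
    cases K with
    | zero => simp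
    | succ K =>
      have h := ih K
      have e : ∑ m ∈ Finset.range t, (K + 1 - (m + 1)) = ∑ m ∈ Finset.range t, (K - m) := by
        apply Finset.sum_congr rfl
        intro m _
        omega
      rw [e, Nat.sub_zero]
      nlinarith [h]

theorem LowerBars_sum' (K t : ℕ) :
    2 * K * t ≤ 2 * ∑ j : Fin t, min K (t - 1 - j) + K * (K + 1) := by
  have h1 : ∑ j : Fin t, min K (t - 1 - (j : ℕ)) = ∑ j ∈ Finset.range t, min K (t - 1 - j) :=
    Fin.sum_univ_eq_sum_range (fun j => min K (t - 1 - j)) t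
  have h2 : ∑ j ∈ Finset.range t, min K (t - 1 - j) = ∑ j ∈ Finset.range t, min K j :=
    Finset.sum_range_reflect (fun j => min K j) t
  have h3 : ∑ j ∈ Finset.range t, min K j + ∑ j ∈ Finset.range t, (K - j) = K * t := by
    rw [← Finset.sum_add_distrib]
    have : ∀ j ∈ Finset.range t, min K j + (K - j) = K := by
      intro j _
      omega
    rw [Finset.sum_congr rfl this, Finset.sum_const, Finset.card_range, smul_eq_mul, mul_comm]
  have h4 := LowerBars_sum K t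
  rw [h1, h2]
  nlinarith [h3, h4]

/-- The index set of the edges. -/
abbrev LowerBars_idx (K t : ℕ) : Type :=
  (Fin t × Fin K) ⊕ ((Fin t × Fin K) ⊕ (Σ j : Fin t, Fin (min K (t - 1 - j))))

/-- The edges, with ordered endpoints. -/
def LowerBars_edge (K t : ℕ) : LowerBars_idx K t → Fin (2 * K + t) × Fin (2 * K + t)
  | Sum.inl (j, i) => (⟨i, by omega⟩, ⟨K + j, by omega⟩)
  | Sum.inr (Sum.inl (j, i)) => (⟨K + j, by omega⟩, ⟨K + t + i, by omega⟩)
  | Sum.inr (Sum.inr ⟨j, d⟩) => (⟨K + j, by omega⟩, ⟨K + j + d + 1, by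
      have h1 := d.2
      have h2 : min K (t - 1 - (j : ℕ)) ≤ t - 1 - (j : ℕ) := min_le_right _ _
      have h3 := j.2
      omega⟩)

theorem LowerBars_edge_inj (K t : ℕ) : Function.Injective (LowerBars_edge K t) := by
  rintro (⟨⟨j, hj⟩, ⟨i, hi⟩⟩ | ⟨⟨j, hj⟩, ⟨i, hi⟩⟩ | ⟨⟨j, hj⟩, ⟨d, hd⟩⟩)
    (⟨⟨j', hj'⟩, ⟨i', hi'⟩⟩ | ⟨⟨j', hj'⟩, ⟨i', hi'⟩⟩ | ⟨⟨j', hj'⟩, ⟨d', hd'⟩⟩) h
  all_goals simp only [LowerBars_edge, Prod.mk.injEq, Fin.mk.injEq] at h
  · obtain ⟨h1, h2⟩ := h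
    have : j = j' := by omega
    subst this
    subst h1
    rfl
  · omega
  · omega
  · omega
  · obtain ⟨h1, h2⟩ := h
    have e1 : j = j' := by omega
    have e2 : i = i' := by omega
    subst e1
    subst e2
    rfl
  · exfalso
    have h4 : min K (t - 1 - j') ≤ t - 1 - j' := min_le_right _ _
    simp only at hd'
    omega
  · omega
  · exfalso
    have h4 : min K (t - 1 - j) ≤ t - 1 - j := min_le_right _ _
    simp only at hd
    omega
  · obtain ⟨h1, h2⟩ := h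
    have e1 : j = j' := by omega
    subst e1
    have e2 : d = d' := by omega
    subst e2
    rfl

theorem LowerBars_edge_lt (K t : ℕ) (e : LowerBars_idx K t) :
    (LowerBars_edge K t e).1 < (LowerBars_edge K t e).2 := by
  rcases e with ⟨⟨j, hj⟩, ⟨i, hi⟩⟩ | ⟨⟨j, hj⟩, ⟨i, hi⟩⟩ | ⟨⟨j, hj⟩, ⟨d, hd⟩⟩ <;>
    simp only [LowerBars_edge, Fin.mk_lt_mk] <;> omega

theorem LowerBars_edge_adj (k t : ℕ) (e : LowerBars_idx (k + 1) t) :
    ((LowerBars_bars (k + 1) t).graph k).Adj (LowerBars_edge (k + 1) t e).1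
      (LowerBars_edge (k + 1) t e).2 := by
  rcases e with ⟨⟨j, hj⟩, ⟨i, hi⟩⟩ | ⟨⟨j, hj⟩, ⟨i, hi⟩⟩ | ⟨⟨j, hj⟩, ⟨d, hd⟩⟩
  · exact LowerBars_adjA k t _ _ (by simpa [LowerBars_edge] using hi)
      (by simp only [LowerBars_edge]; omega)
  · exact LowerBars_adjB k t _ _ (by simp only [LowerBars_edge]; omega)
      (by simp only [LowerBars_edge]; omega)
  · have h4 : min (k + 1) (t - 1 - j) ≤ t - 1 - j := min_le_right _ _
    have h5 : min (k + 1) (t - 1 - j) ≤ k + 1 := min_le_left _ _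
    simp only at hd
    exact LowerBars_adjC k t _ _ (by simp only [LowerBars_edge]; omega)
      (by simp only [LowerBars_edge]; omega) (by simp only [LowerBars_edge]; omega)
      (by simp only [LowerBars_edge]; omega)

theorem lower_bars (k t : ℕ) : ∃ B : Bars (2 * (k + 1) + t),
    6 * (k + 1) * t ≤ 2 * Nat.card (B.graph k).edgeSet + (k + 1) * (k + 2) := by
  refine ⟨LowerBars_bars (k + 1) t, ?_⟩
  have h1 : Nat.card (LowerBars_idx (k + 1) t) ≤
      Nat.card ((LowerBars_bars (k + 1) t).graph k).edgeSet := by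
    apply Nat.card_le_card_of_injective (fun e => (⟨s((LowerBars_edge (k + 1) t e).1,
      (LowerBars_edge (k + 1) t e).2), LowerBars_edge_adj k t e⟩ :
        ((LowerBars_bars (k + 1) t).graph k).edgeSet))
    intro e e' h
    simp only [Subtype.mk.injEq, Sym2.eq_iff] at h
    apply LowerBars_edge_inj
    have l1 := LowerBars_edge_lt (k + 1) t e
    have l2 := LowerBars_edge_lt (k + 1) t e'
    rcases h with ⟨h1, h2⟩ | ⟨h1, h2⟩
    · exact Prod.ext h1 h2
    · rw [h1, h2] at l1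
      exact absurd l1 (lt_asymm l2)
  have h2 : Nat.card (LowerBars_idx (k + 1) t) =
      t * (k + 1) + (t * (k + 1) + ∑ j : Fin t, min (k + 1) (t - 1 - (j : ℕ))) := by
    rw [Nat.card_eq_fintype_card]
    simp [LowerBars_idx]
  have h3 := LowerBars_sum' (k + 1) t
  rw [h2] at h1
  nlinarith [h1, h3]

end Pool.Agent.H20.BK
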