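import Mathlib
import Pool.Agent.H20.BK.Defs

/-!
Project BK, module LowerEuler. Euler's bound for embedded graphs.

Proof sketch. Let `H ≥ G`, `σ` be as in `GenusLE`, `n = |V| ≥ 3`, `E = |E(H)|`, `F = numFaces σ`,
`φ d = σ d.symm`. Every orbit of `φ` has at least three darts: `φ d ≠ d` since
`(φ d).fst = d.snd ≠ d.fst`; if `φ d = d'` and `φ d' = d` then `d'.fst = d.snd` and
`d.fst = d'.snd`, so `d' = d.symm`, hence `σ d.symm = d.symm` and `σ d = d`, so both endpoints of
`d` have degree one in `H` (`sameCycle`), and as `H` is connected `n = 2`. Since there are `2E`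
darts, `3F ≤ 2E`. `H` has an edge (`n ≥ 2`, connected), so `F ≥ 1` and `max 1 F = F`. Then
`2 - 2g ≤ n - E + F ≤ n - E/3`, i.e. `E + 6 ≤ 3n + 6g`; and `E ≥ |E(G)|`.
-/

namespace Pool.Agent.H20.BK

/-- A permutation with no fixed point and no point of period two on a finite type has at most
one third as many orbits as points. -/
theorem lowerEuler_orbits {D : Type*} [Finite D] (π : Equiv.Perm D)
    (h1 : ∀ d, π d ≠ d) (h2 : ∀ d, π (π d) ≠ d) : 3 * numOrbits π ≤ Nat.card D := by
  classical
  unfold numOrbits
  set Q := Quotient (Equiv.Perm.SameCycle.setoid π) with hQ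
  let f : Q × Fin 3 → D := fun p => (π ^ (p.2 : ℕ)) p.1.out
  have hcls : ∀ p : Q × Fin 3, (Quotient.mk (Equiv.Perm.SameCycle.setoid π) (f p) : Q) = p.1 := by
    intro p
    conv_rhs => rw [← Quotient.out_eq p.1]
    apply Quotient.sound
    change π.SameCycle (f p) p.1.out
    have : π.SameCycle p.1.out (f p) := ⟨(p.2 : ℕ), by simp [f]⟩
    exact this.symm
  have hinj : Function.Injective f := by
    rintro ⟨q, i⟩ ⟨q', j⟩ h
    have hq : q = q' := by
      have a := hcls (q, i)
      have b := hcls (q', j)
      rw [h] at a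
      exact a.symm.trans b
    subst hq
    have e : (π ^ (i : ℕ)) q.out = (π ^ (j : ℕ)) q.out := h
    have a1 := h1 q.out
    have a2 := h2 q.out
    have a3 := h1 (π q.out)
    have hij : i = j := by
      fin_cases i <;> fin_cases j <;>
        simp [pow_succ, Equiv.Perm.mul_apply] at e ⊢ <;>
        first
        | exact a1 e.symm
        | exact a1 e
        | exact a2 e.symm
        | exact a2 e
        | exact a3 e.symm
        | exact a3 e
    rw [hij]
  have hc := Nat.card_le_card_of_injective f hinj
  rw [Nat.card_prod, Nat.card_eq_fintype_card (α := Fin 3), Fintype.card_fin] at hc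
  omega

theorem lower_euler {V : Type*} [Finite V] (G : SimpleGraph V) (g : ℕ) (h : GenusLE G g)
    (hn : 3 ≤ Nat.card V) :
    (Nat.card G.edgeSet : ℤ) + 6 ≤ 3 * Nat.card V + 6 * g := by
  classical
  obtain ⟨H, hGH, hconn, σ, hσ, hE⟩ := h
  have := Fintype.ofFinite V
  -- no fixed points
  have hfst : ∀ d : H.Dart, ((σ * symmPerm H) d).fst = d.snd := by
    intro d
    rw [Equiv.Perm.mul_apply, hσ.fst_eq]
    rfl
  have h1 : ∀ d : H.Dart, (σ * symmPerm H) d ≠ d := by
    intro d hd
    have e := hfst d
    rw [hd] at e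
    exact d.adj.ne e
  have h2 : ∀ d : H.Dart, (σ * symmPerm H) ((σ * symmPerm H) d) ≠ d := by
    intro d hd
    set d' := (σ * symmPerm H) d with hd'
    have e1 : d'.fst = d.snd := hfst d
    have e2 : d.fst = d'.snd := by
      have := hfst d'
      rw [hd] at this
      exact this
    have e3 : d' = d.symm := by
      apply SimpleGraph.Dart.ext
      apply Prod.ext
      · exact e1
      · exact e2.symm
    have e4 : σ d.symm = d.symm := by
      have : (σ * symmPerm H) d = σ d.symm := rfl
      rw [← this, ← hd', e3]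
    have e5 : σ d = d := by
      have : (σ * symmPerm H) d' = σ d'.symm := rfl
      rw [this, e3, SimpleGraph.Dart.symm_symm] at hd
      exact hd
    -- the only neighbour of `d.fst` is `d.snd`
    have key : ∀ c : H.Dart, σ c = c → ∀ e : H.Dart, c.fst = e.fst → e = c := by
      intro c hc e he
      obtain ⟨k, hk⟩ := hσ.sameCycle c e he
      have : (σ ^ k) c = c := by
        have hfix : Function.IsFixedPt σ c := hc
        exact Equiv.Perm.zpow_apply_eq_self_of_apply_eq_self hc k
      rw [← hk, this]
    have hu : ∀ w, H.Adj d.fst w → w = d.snd := by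
      intro w hw
      have := key d e5 ⟨(d.fst, w), hw⟩ rfl
      exact congrArg (fun e : H.Dart => e.snd) this
    have hv : ∀ w, H.Adj d.snd w → w = d.fst := by
      intro w hw
      have := key d.symm e4 ⟨(d.snd, w), hw⟩ rfl
      exact congrArg (fun e : H.Dart => e.snd) this
    have hclosed : ∀ a b, H.Adj a b → (a = d.fst ∨ a = d.snd) → (b = d.fst ∨ b = d.snd) := by
      rintro a b hab (rfl | rfl)
      · exact Or.inr (hu b hab)
      · exact Or.inl (hv b hab)
    have hwalk : ∀ a b (p : H.Walk a b), (a = d.fst ∨ a = d.snd) → (b = d.fst ∨ b = d.snd) := by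
      intro a b p
      induction p with
      | nil => exact fun h => h
      | cons hadj p ih => exact fun h => ih (hclosed _ _ hadj h)
    have hall : ∀ w : V, w = d.fst ∨ w = d.snd := by
      intro w
      obtain ⟨p⟩ := hconn.preconnected d.fst w
      exact hwalk _ _ p (Or.inl rfl)
    have hcard : Nat.card V ≤ 2 := by
      rw [Nat.card_eq_fintype_card, ← Finset.card_univ]
      have : (Finset.univ : Finset V) ⊆ {d.fst, d.snd} := by
        intro w _
        simpa using hall w
      exact (Finset.card_le_card this).trans Finset.card_le_two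
    omega
  have h3 := lowerEuler_orbits (σ * symmPerm H) h1 h2
  have hd2 : Nat.card H.Dart = 2 * Nat.card H.edgeSet := by
    rw [Nat.card_eq_fintype_card, SimpleGraph.dart_card_eq_twice_card_edges,
      Nat.card_eq_fintype_card, SimpleGraph.edgeFinset_card]
  have hF : numOrbits (σ * symmPerm H) = numFaces σ := rfl
  -- there is a dart
  have hdart : Nonempty H.Dart := by
    have : Nontrivial V := by
      rw [← Finite.one_lt_card_iff_nontrivial]
      omega
    obtain ⟨u, w, huw⟩ := exists_pair_ne V
    obtain ⟨p⟩ := hconn.preconnected u w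
    cases p with
    | nil => exact absurd rfl huw
    | cons hadj _ => exact ⟨⟨(_, _), hadj⟩⟩
  have hF1 : 1 ≤ numFaces σ := by
    obtain ⟨d⟩ := hdart
    unfold numFaces numOrbits
    have : Nonempty (Quotient (Equiv.Perm.SameCycle.setoid (σ * symmPerm H))) := ⟨Quotient.mk _ d⟩
    exact Nat.card_pos
  have hGE : Nat.card G.edgeSet ≤ Nat.card H.edgeSet := by
    apply Nat.card_mono (Set.toFinite _)
    exact SimpleGraph.edgeSet_subset_edgeSet.mpr hGH
  have hmax : max (1 : ℤ) (numFaces σ : ℤ) = numFaces σ := by
    apply max_eq_right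
    exact_mod_cast hF1
  rw [hmax] at hE
  rw [hF, hd2] at h3
  have h3' : (3 : ℤ) * (numFaces σ : ℤ) ≤ 2 * (Nat.card H.edgeSet : ℤ) := by exact_mod_cast h3
  have hGE' : (Nat.card G.edgeSet : ℤ) ≤ (Nat.card H.edgeSet : ℤ) := by exact_mod_cast hGE
  linarith

end Pool.Agent.H20.BK
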