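import Mathlib
import Pool.Agent.H20.BK.Batch

/-!
Project BK, module Params. Choice of `q` (real analysis).

Proof sketch. `K' = k + 2`, `q` the natural number with `q ^ 3 ≤ K' < (q + 1) ^ 3` (`q ≥ 1`), so
`K' ≤ 8 q ^ 3`, `q ≤ K' ^ (1/3)`. `K = up q (up q K') ≤ K' + 3 K' / q + 6 q ≤ K' + 24 q ^ 2 + 6q`
(crudely). So `(K - 1) n ≤ k n + C q ^ 2 n`, `K 2q ≤ C q ^ 4 ≤ C (k+2)^(4/3) ≤ C' (k+1)^2`,
`harmonic (2q) ≤ 1 + log (2q) ≤ C log (k + 2)` and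
`4 K n harmonic (2q) / q ≤ C q ^ 2 log (k + 2) n`, and `q ^ 2 ≤ (k+2)^(2/3) ≤ 2 (k+1)^(2/3)`,
`log (k+2) ≥ log 2 > 0`.
-/

namespace Pool.Agent.H20.BK

private lemma Params_q (k : ℕ) : ∃ q : ℕ, 1 ≤ q ∧ q ^ 3 ≤ k + 2 ∧ k + 2 < (q + 1) ^ 3 := by
  have hex : ∃ m : ℕ, k + 2 < (m + 1) ^ 3 := by
    refine ⟨k + 2, ?_⟩
    nlinarith [sq_nonneg k, Nat.zero_le k, Nat.zero_le (k ^ 2), Nat.zero_le (k ^ 3)]
  classical
  refine ⟨Nat.find hex, ?_, ?_, Nat.find_spec hex⟩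
  · by_contra h
    have h0 : Nat.find hex = 0 := by omega
    have := Nat.find_spec hex
    rw [h0] at this
    omega
  · by_contra h
    rw [not_le] at h
    have hpos : Nat.find hex ≠ 0 := by
      intro h0
      rw [h0] at h
      omega
    obtain ⟨m, hm⟩ := Nat.exists_eq_succ_of_ne_zero hpos
    have hlt : m < Nat.find hex := by omega
    apply Nat.find_min hex hlt
    rw [hm] at h
    exact h

private lemma Params_up (q K : ℕ) :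
    ((up q K : ℕ) : ℝ) ≤ K + K / q + 2 * q := by
  unfold up
  push_cast
  have := @Nat.cast_div_le ℝ _ _ _ K q
  linarith

theorem exists_param : ∃ C : ℝ, 0 < C ∧ ∀ k n : ℕ, 1 ≤ n → ∃ q : ℕ, 1 ≤ q ∧
    2 + (((up q (up q (k + 2)) : ℕ) : ℝ) - 1) * n + (up q (up q (k + 2)) : ℕ) * ((2 * q : ℕ) : ℝ) +
        8 * ((12 * q ^ 2 + 1 : ℕ) : ℝ) * n +
        (4 * ((up q (up q (k + 2)) : ℕ) : ℝ) * (n : ℝ) * ((harmonic (2 * q) : ℚ) : ℝ) +
          ((up q (up q (k + 2)) : ℕ) : ℝ) * (n : ℝ)) / q ≤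
      (k : ℝ) * n +
        C * (((k : ℝ) + 1) ^ ((2 : ℝ) / 3) * Real.log ((k : ℝ) + 2) * n + ((k : ℝ) + 1) ^ 2) := by
  refine ⟨2000, by norm_num, ?_⟩
  intro k n hn
  obtain ⟨q, hq, hq3, hq4⟩ := Params_q k
  refine ⟨q, hq, ?_⟩
  have hqR : (1 : ℝ) ≤ q := by exact_mod_cast hq
  have hq0 : (0 : ℝ) < q := by linarith
  have hnR : (1 : ℝ) ≤ n := by exact_mod_cast hn
  have hkR : (0 : ℝ) ≤ k := Nat.cast_nonneg k
  have h3 : (q : ℝ) ^ 3 ≤ k + 2 := by exact_mod_cast hq3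
  have h4 : (k : ℝ) + 2 ≤ 8 * (q : ℝ) ^ 3 := by
    have : (k : ℝ) + 2 ≤ ((q : ℝ) + 1) ^ 3 := by exact_mod_cast hq4.le
    have h5 : ((q : ℝ) + 1) ^ 3 ≤ (2 * (q : ℝ)) ^ 3 :=
      pow_le_pow_left₀ (by linarith) (by linarith) 3
    calc (k : ℝ) + 2 ≤ ((q : ℝ) + 1) ^ 3 := this
      _ ≤ (2 * (q : ℝ)) ^ 3 := h5
      _ = 8 * (q : ℝ) ^ 3 := by ring
  have hqq : (q : ℝ) ≤ q ^ 2 := by nlinarith
  have h1q2 : (1 : ℝ) ≤ (q : ℝ) ^ 2 := by nlinarith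
  -- the levels
  have hdiv : ((k : ℝ) + 2) / q ≤ 8 * (q : ℝ) ^ 2 := by
    rw [div_le_iff₀ hq0]
    nlinarith
  have hK1 : ((up q (k + 2) : ℕ) : ℝ) ≤ k + 2 + 10 * (q : ℝ) ^ 2 := by
    have := Params_up q (k + 2)
    push_cast at this
    linarith
  have hK1d : ((up q (k + 2) : ℕ) : ℝ) / q ≤ 18 * (q : ℝ) ^ 2 := by
    have h5 : ((up q (k + 2) : ℕ) : ℝ) / q ≤ (k + 2 + 10 * (q : ℝ) ^ 2) / q :=
      div_le_div_of_nonneg_right hK1 hq0.le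
    have h6 : ((k : ℝ) + 2 + 10 * (q : ℝ) ^ 2) / q = ((k : ℝ) + 2) / q + 10 * q := by
      field_simp
    linarith
  obtain ⟨K, hK⟩ : ∃ K : ℝ, K = ((up q (up q (k + 2)) : ℕ) : ℝ) := ⟨_, rfl⟩
  have hKle : K ≤ k + 2 + 30 * (q : ℝ) ^ 2 := by
    have := Params_up q (up q (k + 2))
    rw [hK]
    linarith
  have hK0 : 0 ≤ K := by rw [hK]; positivity
  have hK38 : K ≤ 38 * (q : ℝ) ^ 3 := by nlinarith [pow_nonneg hq0.le 2]
  rw [← hK]
  -- the logarithm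
  obtain ⟨l, hl⟩ : ∃ l, l = Real.log ((k : ℝ) + 2) := ⟨_, rfl⟩
  have hl1 : 1 / 2 ≤ l := by
    rw [hl]
    have h5 : Real.log 2 ≤ Real.log ((k : ℝ) + 2) := Real.log_le_log (by norm_num) (by linarith)
    have := Real.log_two_gt_d9
    linarith
  obtain ⟨hh, hhh⟩ : ∃ hh : ℝ, hh = ((harmonic (2 * q) : ℚ) : ℝ) := ⟨_, rfl⟩
  have hh4 : hh ≤ 4 * l := by
    have h5 := harmonic_le_one_add_log (2 * q)
    rw [← hhh] at h5
    have h6 : Real.log ((2 * q : ℕ) : ℝ) ≤ 2 * l := by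
      have h7 : 2 * l = Real.log (((k : ℝ) + 2) ^ 2) := by
        rw [Real.log_pow, hl]
        norm_num
      rw [h7]
      apply Real.log_le_log
      · push_cast
        positivity
      · push_cast
        have h8 : (q : ℝ) ≤ q ^ 3 := by nlinarith
        nlinarith
    linarith
  rw [← hl, ← hhh]
  -- the power
  obtain ⟨a, ha⟩ : ∃ a : ℝ, a = ((k : ℝ) + 1) ^ ((2 : ℝ) / 3) := ⟨_, rfl⟩
  have ha0 : 0 ≤ a := by rw [ha]; positivity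
  have hqa : (q : ℝ) ^ 2 ≤ 2 * a := by
    have e1 : (q : ℝ) ^ 2 = ((q : ℝ) ^ 3) ^ ((2 : ℝ) / 3) := by
      rw [← Real.rpow_natCast (q : ℝ) 3, ← Real.rpow_mul hq0.le, ← Real.rpow_natCast]
      norm_num
    rw [e1]
    calc ((q : ℝ) ^ 3) ^ ((2 : ℝ) / 3) ≤ (2 * ((k : ℝ) + 1)) ^ ((2 : ℝ) / 3) := by
          apply Real.rpow_le_rpow (by positivity) (by linarith) (by norm_num)
      _ = 2 ^ ((2 : ℝ) / 3) * a := by
          rw [Real.mul_rpow (by norm_num) (by linarith), ha]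
      _ ≤ 2 * a := by
          apply mul_le_mul_of_nonneg_right _ ha0
          calc (2 : ℝ) ^ ((2 : ℝ) / 3) ≤ 2 ^ (1 : ℝ) :=
                Real.rpow_le_rpow_of_exponent_le (by norm_num) (by norm_num)
            _ = 2 := Real.rpow_one 2
  rw [← ha]
  push_cast
  -- the terms
  have hn0 : (0 : ℝ) ≤ n := by linarith
  have t1 : (K - 1) * n ≤ k * n + 31 * (q : ℝ) ^ 2 * n := by
    have : K - 1 ≤ k + 31 * (q : ℝ) ^ 2 := by linarith
    nlinarith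
  have t2 : K * (2 * q) ≤ 304 * ((k : ℝ) + 1) ^ 2 := by
    have h5 : K * (2 * q) ≤ 38 * (q : ℝ) ^ 3 * (2 * q) :=
      mul_le_mul_of_nonneg_right hK38 (by positivity)
    have h6 : (q : ℝ) ^ 4 ≤ q ^ 6 := pow_le_pow_right₀ hqR (by norm_num)
    have h7 : (q : ℝ) ^ 6 ≤ ((k : ℝ) + 2) ^ 2 := by
      have := pow_le_pow_left₀ (by positivity) h3 2
      calc (q : ℝ) ^ 6 = ((q : ℝ) ^ 3) ^ 2 := by ring
        _ ≤ _ := this
    have h8 : ((k : ℝ) + 2) ^ 2 ≤ 4 * ((k : ℝ) + 1) ^ 2 := by nlinarith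
    nlinarith
  have t5 : (4 * K * n * hh + K * n) / q ≤ 1368 * (a * l * n) := by
    have hKq : K / q ≤ 38 * (q : ℝ) ^ 2 := by
      rw [div_le_iff₀ hq0]
      calc K ≤ 38 * (q : ℝ) ^ 3 := hK38
        _ = 38 * (q : ℝ) ^ 2 * q := by ring
    have hKq' : K / q ≤ 76 * a := by linarith
    have h5 : (4 * K * n * hh + K * n) / q = K / q * (n * (4 * hh + 1)) := by
      field_simp
    rw [h5]
    have h6 : 4 * hh + 1 ≤ 18 * l := by linarith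
    have hKq0 : 0 ≤ K / q := by positivity
    calc K / q * (n * (4 * hh + 1)) ≤ K / q * (n * (18 * l)) := by
          apply mul_le_mul_of_nonneg_left _ hKq0
          exact mul_le_mul_of_nonneg_left h6 hn0
      _ ≤ 76 * a * (n * (18 * l)) := by
          apply mul_le_mul_of_nonneg_right hKq'
          positivity
      _ = 1368 * (a * l * n) := by ring

  have t4 : 8 * (12 * (q : ℝ) ^ 2 + 1) * n ≤ 104 * (q : ℝ) ^ 2 * n := by
    have : 8 * (12 * (q : ℝ) ^ 2 + 1) ≤ 104 * (q : ℝ) ^ 2 := by linarith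
    exact mul_le_mul_of_nonneg_right this hn0
  have haln : 0 ≤ a * l * n := by positivity
  have t6 : (q : ℝ) ^ 2 * n ≤ 4 * (a * l * n) := by
    have h5 : a * (1 / 2) ≤ a * l := mul_le_mul_of_nonneg_left hl1 ha0
    have h6 : (q : ℝ) ^ 2 ≤ 4 * (a * l) := by linarith
    have h7 := mul_le_mul_of_nonneg_right h6 hn0
    linarith
  have t7 : (1 : ℝ) ≤ ((k : ℝ) + 1) ^ 2 := by
    have : (1 : ℝ) ≤ (k : ℝ) + 1 := by linarith
    nlinarith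
  linarith

end Pool.Agent.H20.BK
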