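import Mathlib
import Pool.Agent.H20.BK.Batch

/-!
Project BK, module SparseCount. Sparse sets have few elements in every interval.

Proof sketch. Let `p 0 < p 1 < … < p (m-1)` be the elements of `P` in `[a, b]`. For every `j` with
`(j+1) q ≤ m` the `q` elements `p (jq), …, p (jq+q-1)` contain two with `≥ ρ` elements of `S`
strictly in between, so `≥ ρ` elements of `S` lie strictly between `p (jq)` and `p (jq+q-1)`. These
sets are disjoint for different `j`, so `(m / q) ρ ≤ N`, `N` = number of elements of `S` in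
`[a, b]`, and `m ρ ≤ q (m/q + 1) ρ ≤ q (N + ρ)`. For the second statement `N = N' + m` where `N'`
counts the elements of `S \ P`, and `2q ≤ ρ`.
-/

namespace Pool.Agent.H20.BK

open Finset

variable {V : Type*} [LinearOrder V]

theorem SparseCount_lower (s : Finset V) : ∀ q, q ≤ s.card →
    ∃ Q ⊆ s, Q.card = q ∧ ∀ x ∈ s, ∀ y ∈ Q, x < y → x ∈ Q := by
  intro q
  induction q with
  | zero => exact fun _ => ⟨∅, empty_subset _, card_empty, fun x _ y hy => absurd hy (notMem_empty _)⟩
  | succ q ih =>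
    intro hq
    obtain ⟨Q, hQs, hQ, hlow⟩ := ih (by omega)
    have hne : (s \ Q).Nonempty := by
      rw [← card_pos, card_sdiff_of_subset hQs]
      omega
    obtain ⟨m, hm⟩ := (s \ Q).exists_minimal hne
    have hmem := mem_sdiff.1 hm.1
    refine ⟨insert m Q, insert_subset hmem.1 hQs, by rw [card_insert_of_notMem hmem.2, hQ], ?_⟩
    intro x hx y hy hxy
    rw [mem_insert] at hy ⊢
    by_cases hxQ : x ∈ Q
    · exact Or.inr hxQ
    · rcases hy with rfl | hy
      · have := hm.2 (mem_sdiff.2 ⟨hx, hxQ⟩) hxy.le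
        exact absurd hxy (not_lt.2 this)
      · exact absurd (hlow x hx y hy hxy) hxQ

theorem SparseCount_aux {q ρ : ℕ} (hq : 1 ≤ q) {S P : Finset V} (hP : P ⊆ S)
    (h : Sparse q ρ S P) (b : V) : ∀ (n : ℕ) (a : V),
    (P.filter fun c => a ≤ c ∧ c ≤ b).card = n →
    (P.filter fun c => a ≤ c ∧ c ≤ b).card * ρ ≤
      q * ((S.filter fun c => a ≤ c ∧ c ≤ b).card + ρ) := by
  intro n
  induction n using Nat.strong_induction_on with
  | _ n ih =>
    intro a hn
    obtain ⟨R, hR⟩ : ∃ R, R = P.filter fun c => a ≤ c ∧ c ≤ b := ⟨_, rfl⟩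
    rw [← hR] at hn ⊢
    by_cases hlt : R.card < q
    · calc R.card * ρ ≤ q * ρ := Nat.mul_le_mul_right _ hlt.le
        _ ≤ _ := Nat.mul_le_mul_left _ (Nat.le_add_left _ _)
    · obtain ⟨Q, hQR, hQc, hlow⟩ := SparseCount_lower R q (not_lt.1 hlt)
      by_cases hne : (R \ Q).Nonempty
      · obtain ⟨a', ha'⟩ := (R \ Q).exists_minimal hne
        have ha'm := mem_sdiff.1 ha'.1
        have hmin : ∀ x ∈ R \ Q, a' ≤ x := by
          intro x hx
          by_contra hcon
          push Not at hcon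
          exact absurd (ha'.2 hx hcon.le) (not_le.2 hcon)
        have hQlt : ∀ y ∈ Q, y < a' := by
          intro y hy
          rcases lt_trichotomy y a' with h1 | h1 | h1
          · exact h1
          · exact absurd (h1 ▸ hy) ha'm.2
          · exact absurd (hlow a' ha'm.1 y hy h1) ha'm.2
        have hRmem : ∀ x ∈ R, a ≤ x ∧ x ≤ b := by
          intro x hx
          rw [hR, mem_filter] at hx
          exact hx.2
        have haa' := (hRmem a' ha'm.1).1
        have hRQ : (P.filter fun c => a' ≤ c ∧ c ≤ b) = R \ Q := by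
          ext x
          rw [mem_filter]
          constructor
          · rintro ⟨hx, hx1, hx2⟩
            rw [mem_sdiff, hR, mem_filter]
            refine ⟨⟨hx, haa'.trans hx1, hx2⟩, fun hxQ => ?_⟩
            exact absurd hx1 (not_le.2 (hQlt x hxQ))
          · intro hx
            have hx1 := hmin x hx
            have hx2 := (mem_sdiff.1 hx).1
            rw [hR, mem_filter] at hx2
            exact ⟨hx2.1, hx1, hx2.2.2⟩
        have hcardRQ : (R \ Q).card + q = R.card := by
          rw [card_sdiff_of_subset hQR, hQc]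
          omega
        have h1 := ih (R \ Q).card (by omega) a' (by rw [hRQ])
        rw [hRQ] at h1
        have hQP : Q ⊆ P := by
          intro x hx
          have hx1 := hQR hx
          rw [hR] at hx1
          exact (mem_filter.1 hx1).1
        obtain ⟨u, hu, v, hv, huv, hbt⟩ := h Q hQP hQc
        have h2 : btw S u v + (S.filter fun c => a' ≤ c ∧ c ≤ b).card ≤
            (S.filter fun c => a ≤ c ∧ c ≤ b).card := by
          unfold btw
          rw [← card_union_of_disjoint]
          · apply card_le_card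
            intro x hx
            rw [mem_union, mem_filter, mem_filter] at hx
            rw [mem_filter]
            rcases hx with hx | hx
            · refine ⟨hx.1, (hRmem u (hQR hu)).1.trans hx.2.1.le, ?_⟩
              exact hx.2.2.le.trans (hRmem v (hQR hv)).2
            · exact ⟨hx.1, haa'.trans hx.2.1, hx.2.2⟩
          · rw [disjoint_left]
            intro x hx hx'
            rw [mem_filter] at hx hx'
            exact absurd hx'.2.1 (not_le.2 (hx.2.2.trans (hQlt v hv)))
        obtain ⟨N, hN⟩ : ∃ N, N = (S.filter fun c => a ≤ c ∧ c ≤ b).card := ⟨_, rfl⟩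
        obtain ⟨N', hN'⟩ : ∃ N', N' = (S.filter fun c => a' ≤ c ∧ c ≤ b).card := ⟨_, rfl⟩
        rw [← hN, ← hN'] at h2
        rw [← hN'] at h1
        rw [← hN, ← hcardRQ]
        calc ((R \ Q).card + q) * ρ = (R \ Q).card * ρ + q * ρ := by ring
          _ ≤ q * (N' + ρ) + q * ρ := by omega
          _ = q * (ρ + N' + ρ) := by ring
          _ ≤ q * (N + ρ) := Nat.mul_le_mul_left _ (by omega)
      · rw [not_nonempty_iff_eq_empty, sdiff_eq_empty_iff_subset] at hne
        have h1 := card_le_card hne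
        rw [hQc] at h1
        calc R.card * ρ ≤ q * ρ := Nat.mul_le_mul_right _ h1
          _ ≤ _ := Nat.mul_le_mul_left _ (Nat.le_add_left _ _)

theorem sparse_count {q ρ : ℕ} (hq : 1 ≤ q) {S P : Finset V} (hP : P ⊆ S)
    (h : Sparse q ρ S P) (a b : V) :
    (P.filter fun c => a ≤ c ∧ c ≤ b).card * ρ ≤
      q * ((S.filter fun c => a ≤ c ∧ c ≤ b).card + ρ) :=
  SparseCount_aux hq hP h b _ a rfl

theorem sparse_count' {q ρ : ℕ} (hq : 1 ≤ q) (hρ : 2 * q ≤ ρ) {S P : Finset V} (hP : P ⊆ S)
    (h : Sparse q ρ S P) (a b : V) :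
    (P.filter fun c => a ≤ c ∧ c ≤ b).card * ρ ≤
      2 * q * (((S \ P).filter fun c => a ≤ c ∧ c ≤ b).card + ρ) := by
  have h1 := sparse_count hq hP h a b
  have h2 : (S.filter fun c => a ≤ c ∧ c ≤ b).card ≤
      ((S \ P).filter fun c => a ≤ c ∧ c ≤ b).card + (P.filter fun c => a ≤ c ∧ c ≤ b).card := by
    refine (card_le_card ?_).trans (card_union_le _ _)
    intro x hx
    rw [mem_filter] at hx
    rw [mem_union, mem_filter, mem_filter, mem_sdiff]
    by_cases hxP : x ∈ P
    · exact Or.inr ⟨hxP, hx.2⟩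
    · exact Or.inl ⟨⟨hx.1, hxP⟩, hx.2⟩
  obtain ⟨N, hN⟩ : ∃ N, N = (S.filter fun c => a ≤ c ∧ c ≤ b).card := ⟨_, rfl⟩
  obtain ⟨N', hN'⟩ : ∃ N', N' = ((S \ P).filter fun c => a ≤ c ∧ c ≤ b).card := ⟨_, rfl⟩
  obtain ⟨m, hm⟩ : ∃ m, m = (P.filter fun c => a ≤ c ∧ c ≤ b).card := ⟨_, rfl⟩
  rw [← hN, ← hm] at h1
  rw [← hN, ← hN', ← hm] at h2
  rw [← hN', ← hm]
  have h3 : q * (N + ρ) ≤ q * (N' + m + ρ) := Nat.mul_le_mul_left _ (by omega)
  have h4 : 2 * q * m ≤ ρ * m := Nat.mul_le_mul_right _ hρ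
  nlinarith

/-- Strict version between `a` and `b`. -/
theorem sparse_btw {q ρ : ℕ} (hq : 1 ≤ q) (hρ : 2 * q ≤ ρ) {S P : Finset V} (hP : P ⊆ S)
    (h : Sparse q ρ S P) (a b : V) :
    (P.filter fun c => a < c ∧ c < b).card * ρ ≤ 2 * q * (btw (S \ P) a b + ρ) := by
  by_cases hne : (P.filter fun c => a < c ∧ c < b).Nonempty
  · obtain ⟨a', ha'⟩ : ∃ a', a' = (P.filter fun c => a < c ∧ c < b).min' hne := ⟨_, rfl⟩
    obtain ⟨b', hb'⟩ : ∃ b', b' = (P.filter fun c => a < c ∧ c < b).max' hne := ⟨_, rfl⟩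
    have h1 := mem_filter.1 (ha' ▸ min'_mem _ hne)
    have h2 := mem_filter.1 (hb' ▸ max'_mem _ hne)
    have e : (P.filter fun c => a < c ∧ c < b) = P.filter fun c => a' ≤ c ∧ c ≤ b' := by
      ext x
      constructor
      · intro hx
        rw [mem_filter]
        exact ⟨(mem_filter.1 hx).1, ha' ▸ min'_le _ x hx, hb' ▸ le_max' _ x hx⟩
      · intro hx
        rw [mem_filter] at hx ⊢
        exact ⟨hx.1, h1.2.1.trans_le hx.2.1, hx.2.2.trans_lt h2.2.2⟩
    rw [e]
    refine (sparse_count' hq hρ hP h a' b').trans ?_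
    refine Nat.mul_le_mul_left _ (Nat.add_le_add_right ?_ _)
    unfold btw
    apply card_le_card
    intro x hx
    rw [mem_filter] at hx ⊢
    exact ⟨hx.1, h1.2.1.trans_le hx.2.1, hx.2.2.trans_lt h2.2.2⟩
  · rw [not_nonempty_iff_eq_empty] at hne
    rw [hne, card_empty, zero_mul]
    exact Nat.zero_le _

end Pool.Agent.H20.BK
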