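import Mathlib
import Pool.Agent.H20.BK.Flush
import Pool.Agent.H20.BK.SparseCount

/-!
Project BK, module TwoStep. Batching of deletions and then (in reversed time) of insertions.

Proof sketch (`ρ = 2 q ^ 2 ≥ 2q`). Let `S` be a flush of `B` (`exists_flush`), length `T + 1`. The
reversed sequence `B' j = S (T + 1 - j)`, `j ≤ T + 1`, satisfies `IsBase B' (T+1)` (insertion steps
of `S` insert at most one element by `hone`). Let `S'` be a flush of `B'`, length `T + 2`, and
`A τ = S' (T + 2 - τ)`. `IsSeq A (T+2)`: clear. Step `τ` of `A` (`τ < T + 2`), put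
`j = T + 1 - τ`, so the step is between `S' j` and `S' (j+1)`:
* `τ = 0`: changes `S' (T+1)`, fewer than `q` elements (`final`).
* `1 ≤ τ`, `j ≤ T`, `B' j ⊆ B' (j+1)`: `chg = B' (j+1) \ B' j = S (τ-1) \ S τ`; if `τ - 1 = T` it is
  `S T`, fewer than `q` elements. If `τ - 1 < T`: if `B (τ-1) ⊆ B τ` it is empty; otherwise it is
  empty or has between `q` and `2q` elements and hull `≤ 2ρ + 1` in `S (τ-1) = B' (j+1)`. The hull in
  `big A τ = S' (j+1)` is `≤ (2ρ+1) + m`, `m` = number of elements of `S' (j+1) \ B' (j+1)` in the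
  hull, `m ρ ≤ 2q (2ρ + 1 + ρ)` (`sparse_count'`), so `m ≤ 8q ≤ 4ρ` and the hull is at most
  `6ρ + 1 = 12 q^2 + 1`.
* `j ≤ T`, not `B' j ⊆ B' (j+1)`: `chg = S' j \ S' (j+1)` is empty or has between `q` and `2q`
  elements and hull `≤ 2ρ + 1` in `S' j = big A τ`.
`good` = set of the steps with `chg` of size between `q` and `2q` (and the hull bound) other than
`τ = 0` and `τ = T + 1`; the other steps change nothing, except `τ = 0` and `τ = T+1` which change
fewer than `q` elements each.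
Levels: if `Near K (B τ) a b` then `B τ ⊆ S τ` and the number of elements of `S τ \ B τ` strictly
between `a` and `b` is `m` with `m ρ ≤ 2q (btw (B τ) a b + ρ)`, so `m ≤ K/q + 2q` and
`Near (up q K) (S τ) a b`. The same for `S τ = B' (T+1-τ) ⊆ S' (T+1-τ) = A (τ+1)`.
-/

namespace Pool.Agent.H20.BK

open Finset

variable {V : Type*} [LinearOrder V]

theorem TwoStep_near {q : ℕ} (hq : 1 ≤ q) {B S : ℕ → Finset V} {T : ℕ}
    (hS : IsFlush q (2 * q ^ 2) B T S) {K τ : ℕ} (hτ : τ ≤ T) {a b : V}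
    (h : Near K (B τ) a b) : Near (up q K) (S τ) a b := by
  obtain ⟨h1, h2, h3, h4⟩ := h
  have hsub := hS.sub τ hτ
  refine ⟨hsub h1, hsub h2, h3, ?_⟩
  have hsp := sparse_btw hq (by nlinarith : 2 * q ≤ 2 * q ^ 2) (sdiff_subset (s := S τ) (t := B τ))
    (hS.sparse τ hτ) a b
  rw [Finset.sdiff_sdiff_eq_self hsub] at hsp
  obtain ⟨m, hm⟩ : ∃ m, m = ((S τ \ B τ).filter fun c => a < c ∧ c < b).card := ⟨_, rfl⟩
  rw [← hm] at hsp
  have h5 : btw (S τ) a b ≤ btw (B τ) a b + m := by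
    rw [hm]
    unfold btw
    have hsub2 : ((S τ).filter fun c => a < c ∧ c < b) ⊆
        ((B τ).filter fun c => a < c ∧ c < b) ∪ ((S τ \ B τ).filter fun c => a < c ∧ c < b) := by
      intro x hx
      rw [mem_filter] at hx
      rw [mem_union, mem_filter, mem_filter, mem_sdiff]
      by_cases hxB : x ∈ B τ
      · exact Or.inl ⟨hxB, hx.2⟩
      · exact Or.inr ⟨⟨hx.1, hxB⟩, hx.2⟩
    exact (card_le_card hsub2).trans (card_union_le _ _)
  have h6 : m * q ≤ btw (B τ) a b + 2 * q * q := by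
    have h7 : 2 * q * (m * q) ≤ 2 * q * (btw (B τ) a b + 2 * q * q) := by
      calc 2 * q * (m * q) = m * (2 * q ^ 2) := by ring
        _ ≤ 2 * q * (btw (B τ) a b + 2 * q ^ 2) := hsp
        _ = _ := by ring
    exact Nat.le_of_mul_le_mul_left h7 (by omega)
  have h8 : m ≤ btw (B τ) a b / q + 2 * q := by
    rw [← Nat.add_mul_div_right _ _ (by omega : 0 < q)]
    exact (Nat.le_div_iff_mul_le (by omega)).2 h6
  have h9 : btw (B τ) a b / q ≤ K / q := Nat.div_le_div_right h4.le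
  unfold up
  omega

theorem TwoStep_chg_sup {A : ℕ → Finset V} {τ : ℕ} (h : A (τ + 1) ⊆ A τ) :
    chg A τ = A τ \ A (τ + 1) := by
  unfold chg
  rw [(big_small_of_superset h).1, (big_small_of_superset h).2]

theorem TwoStep_chg_sub {A : ℕ → Finset V} {τ : ℕ} (h : A τ ⊆ A (τ + 1)) :
    chg A τ = A (τ + 1) \ A τ := by
  unfold chg
  rw [(big_small_of_subset h).1, (big_small_of_subset h).2]

theorem TwoStep_hull {q : ℕ} (hq : 1 ≤ q) {S B W : Finset V} (hBS : B ⊆ S)
    (hsp : Sparse q (2 * q ^ 2) S (S \ B)) (hW : HullLE B W (2 * (2 * q ^ 2) + 1)) :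
    HullLE S W (12 * q ^ 2 + 1) := by
  intro a ha b hb
  have h1 := hW a ha b hb
  have h2 := sparse_count' hq (by nlinarith : 2 * q ≤ 2 * q ^ 2) (sdiff_subset (s := S) (t := B))
    hsp a b
  rw [Finset.sdiff_sdiff_eq_self hBS] at h2
  obtain ⟨m, hm⟩ : ∃ m, m = ((S \ B).filter fun c => a ≤ c ∧ c ≤ b).card := ⟨_, rfl⟩
  obtain ⟨x, hx⟩ : ∃ x, x = (B.filter fun c => a ≤ c ∧ c ≤ b).card := ⟨_, rfl⟩
  rw [← hm, ← hx] at h2
  rw [← hx] at h1
  have h3 : (S.filter fun c => a ≤ c ∧ c ≤ b).card ≤ x + m := by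
    rw [hm, hx]
    have hsub2 : (S.filter fun c => a ≤ c ∧ c ≤ b) ⊆
        (B.filter fun c => a ≤ c ∧ c ≤ b) ∪ ((S \ B).filter fun c => a ≤ c ∧ c ≤ b) := by
      intro y hy
      rw [mem_filter] at hy
      rw [mem_union, mem_filter, mem_filter, mem_sdiff]
      by_cases hyB : y ∈ B
      · exact Or.inl ⟨hyB, hy.2⟩
      · exact Or.inr ⟨⟨hy.1, hyB⟩, hy.2⟩
    exact (card_le_card hsub2).trans (card_union_le _ _)
  have h6 : m * q ≤ x + 2 * q ^ 2 := by
    have h7 : 2 * q * (m * q) ≤ 2 * q * (x + 2 * q ^ 2) := by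
      calc 2 * q * (m * q) = m * (2 * q ^ 2) := by ring
        _ ≤ _ := h2
    exact Nat.le_of_mul_le_mul_left h7 (by omega)
  have h7 : m * q ≤ (6 * q + 1) * q := by
    calc m * q ≤ x + 2 * q ^ 2 := h6
      _ ≤ 2 * (2 * q ^ 2) + 1 + 2 * q ^ 2 := by omega
      _ ≤ (6 * q + 1) * q := by nlinarith
  have h8 : m ≤ 6 * q + 1 := Nat.le_of_mul_le_mul_right h7 (by omega)
  have h9 : 6 * q + 1 ≤ 8 * q ^ 2 := by nlinarith
  omega

theorem TwoStep_base {q ρ : ℕ} {B S : ℕ → Finset V} {T : ℕ} (hS : IsFlush q ρ B T S)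
    (hone : ∀ τ, τ < T → (B (τ + 1) \ B τ).card ≤ 1) :
    IsBase (fun j => S (T + 1 - j)) (T + 1) := by
  refine ⟨?_, ?_, ?_, ?_⟩
  · show S (T + 1 - 0) = ∅
    rw [Nat.sub_zero]
    exact hS.last
  · show S (T + 1 - (T + 1)) = ∅
    rw [Nat.sub_self]
    exact hS.zero
  · intro v i j k hij hjk hk hi hk'
    exact hS.conv v (T + 1 - k) (T + 1 - j) (T + 1 - i) (by omega) (by omega) (by omega) hk' hi
  · intro τ hτ
    show S (T + 1 - τ) ⊆ S (T + 1 - (τ + 1)) ∨
      ∃ w ∈ S (T + 1 - τ), S (T + 1 - (τ + 1)) = (S (T + 1 - τ)).erase w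
    obtain ⟨j, hj⟩ : ∃ j, j = T - τ := ⟨_, rfl⟩
    have e1 : T + 1 - τ = j + 1 := by omega
    have e2 : T + 1 - (τ + 1) = j := by omega
    rw [e1, e2]
    by_cases hjT : j = T
    · left
      rw [hjT, hS.last]
      exact empty_subset _
    · have hjT' : j < T := by omega
      by_cases hins : B j ⊆ B (j + 1)
      · obtain ⟨h1, h2⟩ := hS.ins j hjT' hins
        have h3 := hone j hjT'
        rcases Nat.le_one_iff_eq_zero_or_eq_one.1 h3 with h4 | h4
        · left
          rw [card_eq_zero] at h4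
          rw [h1, h4, union_empty]
        · right
          obtain ⟨w, hw⟩ := card_eq_one.1 h4
          rw [hw] at h1 h2
          rw [disjoint_singleton_right] at h2
          refine ⟨w, ?_, ?_⟩
          · rw [h1]
            exact mem_union_right _ (mem_singleton_self w)
          · rw [h1]
            ext v
            rw [mem_erase, mem_union, mem_singleton]
            constructor
            · intro hv
              refine ⟨?_, Or.inl hv⟩
              rintro rfl
              exact h2 hv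
            · rintro ⟨h5, h6 | h6⟩
              · exact h6
              · exact absurd h6 h5
      · left
        exact (hS.del j hjT' hins).1

theorem two_step (q : ℕ) (hq : 1 ≤ q) (B : ℕ → Finset V) (T : ℕ) (hB : IsBase B T)
    (hone : ∀ τ, τ < T → (B (τ + 1) \ B τ).card ≤ 1) (hall : ∀ v, ∃ τ, τ ≤ T ∧ v ∈ B τ) :
    ∃ A : ℕ → Finset V, IsSeq A (T + 2) ∧ (∀ τ, τ ≤ T → B τ ⊆ A (τ + 1)) ∧
      (∀ K τ, τ ≤ T → ∀ a b, Near K (B τ) a b → Near (up q (up q K)) (A (τ + 1)) a b) ∧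
      ∃ good : Finset (Fin (T + 2)),
        (∀ τ ∈ good, q ≤ (chg A τ).card ∧ (chg A τ).card ≤ 2 * q ∧
          HullLE (big A τ) (chg A τ) (12 * q ^ 2 + 1)) ∧
        ∑ τ ∈ goodᶜ, (chg A τ).card ≤ 2 * q := by
  classical
  obtain ⟨S, hS⟩ := exists_flush q (2 * q ^ 2) hq (by nlinarith) B T hB
  have hB' := TwoStep_base hS hone
  obtain ⟨B', hB'd⟩ : ∃ B' : ℕ → Finset V, ∀ j, B' j = S (T + 1 - j) := ⟨_, fun _ => rfl⟩
  have hB'e : (fun j => S (T + 1 - j)) = B' := by
    funext j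
    rw [hB'd]
  rw [hB'e] at hB'
  obtain ⟨S', hS'⟩ := exists_flush q (2 * q ^ 2) hq (by nlinarith) B' (T + 1) hB'
  obtain ⟨A, hA⟩ : ∃ A : ℕ → Finset V, ∀ τ, A τ = S' (T + 2 - τ) := ⟨_, fun _ => rfl⟩
  have hBS : ∀ τ, τ ≤ T → B τ ⊆ A (τ + 1) := by
    intro τ hτ
    have h1 := hS.sub τ hτ
    have h2 := hS'.sub (T + 1 - τ) (by omega)
    rw [hB'd] at h2
    have e1 : T + 1 - (T + 1 - τ) = τ := by omega
    have e2 : T + 2 - (τ + 1) = T + 1 - τ := by omega
    rw [e1] at h2
    rw [hA, e2]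
    exact h1.trans h2
  have hmono : ∀ τ, τ < T + 2 → A τ ⊆ A (τ + 1) ∨ A (τ + 1) ⊆ A τ := by
    intro τ hτ
    obtain ⟨j, hj⟩ : ∃ j, j = T + 1 - τ := ⟨_, rfl⟩
    have e1 : T + 2 - τ = j + 1 := by omega
    have e2 : T + 2 - (τ + 1) = j := by omega
    rw [hA, hA, e1, e2]
    by_cases hjT : j = T + 1
    · left
      rw [hjT, hS'.last]
      exact empty_subset _
    · have hjT' : j < T + 1 := by omega
      by_cases hins : B' j ⊆ B' (j + 1)
      · right
        rw [(hS'.ins j hjT' hins).1]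
        exact subset_union_left
      · left
        exact (hS'.del j hjT' hins).1
  have hseq : IsSeq A (T + 2) := by
    refine ⟨?_, ?_, ?_, hmono, ?_⟩
    · rw [hA, Nat.sub_zero]
      exact hS'.last
    · rw [hA, Nat.sub_self]
      exact hS'.zero
    · intro v i j k hij hjk hk hi hk'
      rw [hA] at hi hk' ⊢
      exact hS'.conv v (T + 2 - k) (T + 2 - j) (T + 2 - i) (by omega) (by omega) (by omega) hk' hi
    · intro v
      obtain ⟨τ, hτ, hv⟩ := hall v
      exact ⟨τ + 1, by omega, hBS τ hτ hv⟩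
  -- the steps
  have hzero : (chg A 0).card < q := by
    have h1 : A 0 ⊆ A (0 + 1) := by
      rw [hseq.zero]
      exact empty_subset _
    rw [TwoStep_chg_sub h1, hseq.zero, sdiff_empty, hA]
    exact hS'.final
  have hins : ∀ τ j, 1 ≤ τ → τ ≤ T + 1 → j = T + 1 - τ → B' j ⊆ B' (j + 1) →
      chg A τ = S (τ - 1) \ S τ ∧ big A τ = S' (j + 1) ∧ B' (j + 1) = S (τ - 1) := by
    intro τ j h1 h2 hj hins
    have e1 : T + 2 - τ = j + 1 := by omega
    have e2 : T + 2 - (τ + 1) = j := by omega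
    obtain ⟨h3, h4⟩ := hS'.ins j (by omega) hins
    have hsup : A (τ + 1) ⊆ A τ := by
      rw [hA, hA, e1, e2, h3]
      exact subset_union_left
    have e3 : T + 1 - (j + 1) = τ - 1 := by omega
    have e4 : T + 1 - j = τ := by omega
    refine ⟨?_, ?_, ?_⟩
    · rw [TwoStep_chg_sup hsup, hA, hA, e1, e2, h3, union_sdiff_left, hB'd, hB'd, e3, e4,
        Finset.sdiff_eq_self_iff_disjoint.2]
      rw [hB'd, hB'd, e3, e4] at h4
      exact h4.symm
    · rw [(big_small_of_superset hsup).1, hA, e1]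
    · rw [hB'd, e3]
  have hlast : (chg A (T + 1)).card < q := by
    have h1 : B' 0 ⊆ B' (0 + 1) := by
      rw [hB'.zero]
      exact empty_subset _
    obtain ⟨h2, -, -⟩ := hins (T + 1) 0 (by omega) le_rfl (by omega) h1
    rw [h2, hS.last, sdiff_empty, Nat.add_sub_cancel]
    exact hS.final
  have hmid : ∀ τ, 1 ≤ τ → τ ≤ T → chg A τ = ∅ ∨ (q ≤ (chg A τ).card ∧
      (chg A τ).card ≤ 2 * q ∧ HullLE (big A τ) (chg A τ) (12 * q ^ 2 + 1)) := by
    intro τ h1 h2
    obtain ⟨j, hj⟩ : ∃ j, j = T + 1 - τ := ⟨_, rfl⟩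
    by_cases hi : B' j ⊆ B' (j + 1)
    · obtain ⟨h3, h4, h5⟩ := hins τ j h1 (by omega) hj hi
      have e3 : τ - 1 + 1 = τ := by omega
      by_cases hb : B (τ - 1) ⊆ B (τ - 1 + 1)
      · left
        obtain ⟨h6, -⟩ := hS.ins (τ - 1) (by omega) hb
        rw [e3] at h6
        rw [h3, sdiff_eq_empty_iff_subset, h6]
        exact subset_union_left
      · obtain ⟨h6, h7⟩ := hS.del (τ - 1) (by omega) hb
        rw [e3] at h6 h7
        rw [h3]
        rcases h7 with h7 | ⟨h7, h8, h9⟩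
        · exact Or.inl h7
        · refine Or.inr ⟨h7, h8, ?_⟩
          rw [h4]
          have h10 := hS'.sub (j + 1) (by omega)
          have h11 := hS'.sparse (j + 1) (by omega)
          rw [h5] at h10 h11
          exact TwoStep_hull hq h10 h11 h9
    · have e1 : T + 2 - τ = j + 1 := by omega
      have e2 : T + 2 - (τ + 1) = j := by omega
      obtain ⟨h3, h4⟩ := hS'.del j (by omega) hi
      have hsub : A τ ⊆ A (τ + 1) := by
        rw [hA, hA, e1, e2]
        exact h3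
      rw [TwoStep_chg_sub hsub, (big_small_of_subset hsub).1, hA, hA, e1, e2]
      rcases h4 with h4 | ⟨h4, h5, h6⟩
      · exact Or.inl h4
      · refine Or.inr ⟨h4, h5, ?_⟩
        intro a ha b hb
        have h7 := h6 a ha b hb
        nlinarith
  refine ⟨A, hseq, hBS, ?_, ?_⟩
  · intro K τ hτ a b h
    have h1 := TwoStep_near hq hS hτ h
    have e1 : T + 1 - (T + 1 - τ) = τ := by omega
    have e2 : T + 2 - (τ + 1) = T + 1 - τ := by omega
    have h2 : Near (up q K) (B' (T + 1 - τ)) a b := by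
      rw [hB'd, e1]
      exact h1
    have h3 := TwoStep_near hq hS' (by omega) h2
    rw [hA, e2]
    exact h3
  · refine ⟨univ.filter fun τ : Fin (T + 2) => q ≤ (chg A τ).card ∧ (chg A τ).card ≤ 2 * q ∧
      HullLE (big A τ) (chg A τ) (12 * q ^ 2 + 1), fun τ hτ => (mem_filter.1 hτ).2, ?_⟩
    obtain ⟨good, hgood⟩ : ∃ good : Finset (Fin (T + 2)), good = univ.filter
      fun τ : Fin (T + 2) => q ≤ (chg A τ).card ∧ (chg A τ).card ≤ 2 * q ∧
        HullLE (big A τ) (chg A τ) (12 * q ^ 2 + 1) := ⟨_, rfl⟩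
    rw [← hgood]
    have hterm : ∀ τ ∈ goodᶜ, (chg A τ).card ≤
        (if τ = 0 then q else 0) + (if τ = Fin.last (T + 1) then q else 0) := by
      intro τ hτ
      by_cases h0 : τ = 0
      · subst h0
        rw [if_pos rfl]
        have : (chg A ((0 : Fin (T + 2)) : ℕ)).card < q := hzero
        omega
      · by_cases hl : τ = Fin.last (T + 1)
        · subst hl
          rw [if_pos (rfl : Fin.last (T + 1) = Fin.last (T + 1))]
          have : (chg A ((Fin.last (T + 1) : Fin (T + 2)) : ℕ)).card < q := hlast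
          omega
        · have hτ0 : (τ : ℕ) ≠ 0 := fun h => h0 (Fin.ext h)
          have hτl : (τ : ℕ) ≠ T + 1 := fun h => hl (Fin.ext h)
          have hlt := τ.2
          rcases hmid τ (by omega) (by omega) with h1 | h1
          · rw [h1, card_empty]
            omega
          · rw [mem_compl, hgood, mem_filter] at hτ
            exact absurd ⟨mem_univ _, h1⟩ hτ
    calc ∑ τ ∈ goodᶜ, (chg A τ).card ≤ ∑ τ ∈ goodᶜ,
          ((if τ = 0 then q else 0) + (if τ = Fin.last (T + 1) then q else 0)) :=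
          sum_le_sum hterm
      _ ≤ ∑ τ : Fin (T + 2),
          ((if τ = 0 then q else 0) + (if τ = Fin.last (T + 1) then q else 0)) :=
          sum_le_sum_of_subset (subset_univ _)
      _ = 2 * q := by
          rw [sum_add_distrib, sum_ite_eq' univ (0 : Fin (T + 2)), sum_ite_eq' univ (Fin.last (T + 1)),
            if_pos (mem_univ _), if_pos (mem_univ _)]
          ring

end Pool.Agent.H20.BK
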