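import Mathlib
import Pool.Agent.H20.BK.Core
import Pool.Agent.H20.BK.TwoStep
import Pool.Agent.H20.BK.Base
import Pool.Agent.H20.BK.Iso

/-!
Project BK, module Upper: assembly of the upper bound.
-/

namespace Pool.Agent.H20.BK

open Finset

theorem GenusLE.mono_graph {V : Type*} {G G' : SimpleGraph V} (h : G ≤ G') {g : ℕ}
    (hG : GenusLE G' g) : GenusLE G g := by
  obtain ⟨H, h1, h2⟩ := hG
  exact ⟨H, h.trans h1, h2⟩

theorem upper_sorted {n : ℕ} (hn : 1 ≤ n) (k q : ℕ) (hq : 1 ≤ q) (Bs : Bars n)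
    (hy : Monotone Bs.y) (g : ℕ)
    (hg : 2 + (((up q (up q (k + 2)) : ℕ) : ℝ) - 1) * n +
        (up q (up q (k + 2)) : ℕ) * ((2 * q : ℕ) : ℝ) +
        8 * ((12 * q ^ 2 + 1 : ℕ) : ℝ) * n +
        (4 * ((up q (up q (k + 2)) : ℕ) : ℝ) * (n : ℝ) * ((harmonic (2 * q) : ℚ) : ℝ) +
          ((up q (up q (k + 2)) : ℕ) : ℝ) * (n : ℝ)) / q ≤ 2 * g) :
    GenusLE (Bs.graph k) g := by
  obtain ⟨T, B, hB, hone, ⟨z, hz⟩, hadj⟩ := base_of_bars hn k Bs hy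
  obtain ⟨A, hA, hsub, hnear, good, hgood, hbad⟩ := two_step q hq B T hB hone
    (fun v => by obtain ⟨τ, h1, h2, _⟩ := hz v; exact ⟨τ, h1, h2⟩)
  set K := up q (up q (k + 2)) with hK
  have hup : ∀ m, m ≤ up q m := fun m =>
    (Nat.le_add_right _ _).trans (Nat.le_add_right _ _)
  have hK1 : 1 ≤ K := by
    have h1 := hup (k + 2)
    have h2 := hup (up q (k + 2))
    omega
  have hcon : (seqGraph K A (T + 2)).Connected := by
    refine seqGraph_connected hK1 z fun v => ?_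
    obtain ⟨τ, h1, h2, h3⟩ := hz v
    exact ⟨τ + 1, by omega, hsub τ h1 h2, hsub τ h1 h3⟩
  have hle : Bs.graph k ≤ seqGraph K A (T + 2) := by
    intro i j hij
    obtain ⟨τ, h1, h2⟩ := hadj i j hij
    rcases h2 with h2 | h2
    · exact Or.inl ⟨τ + 1, by omega, hnear _ τ h1 i j h2⟩
    · exact Or.inr ⟨τ + 1, by omega, hnear _ τ h1 j i h2⟩
  refine GenusLE.mono_graph hle ?_
  refine core hA q (12 * q ^ 2 + 1) (2 * q) hq good hgood hbad hcon g ?_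
  rw [Fintype.card_fin]
  exact hg

theorem upper_all {n : ℕ} (hn : 1 ≤ n) (k q : ℕ) (hq : 1 ≤ q) (Bs : Bars n) (g : ℕ)
    (hg : 2 + (((up q (up q (k + 2)) : ℕ) : ℝ) - 1) * n +
        (up q (up q (k + 2)) : ℕ) * ((2 * q : ℕ) : ℝ) +
        8 * ((12 * q ^ 2 + 1 : ℕ) : ℝ) * n +
        (4 * ((up q (up q (k + 2)) : ℕ) : ℝ) * (n : ℝ) * ((harmonic (2 * q) : ℚ) : ℝ) +
          ((up q (up q (k + 2)) : ℕ) : ℝ) * (n : ℝ)) / q ≤ 2 * g) :
    GenusLE (Bs.graph k) g := by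
  have h := upper_sorted hn k q hq (Bs.comp (Tuple.sort Bs.y))
    (Tuple.monotone_sort Bs.y) g hg
  exact genusLE_of_equiv (Tuple.sort Bs.y) _ _
    (fun a b hab => (Bs.comp_adj _ k a b).2 hab) g h

end Pool.Agent.H20.BK
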