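import Mathlib
import Pool.Agent.H20.BK.Upper
import Pool.Agent.H20.BK.LowerEuler
import Pool.Agent.H20.BK.LowerBars
import Pool.Agent.H20.BK.Params

/-!
Project BK, module Main: the maximum genus of bar `k`-visibility graphs up to lower-order terms.
-/

namespace Pool.Agent.H20.BK

/-- The error term. -/
noncomputable def err (k n : ℕ) : ℝ :=
  ((k : ℝ) + 1) ^ ((2 : ℝ) / 3) * Real.log ((k : ℝ) + 2) * n + ((k : ℝ) + 1) ^ 2

theorem err_nonneg (k n : ℕ) : 0 ≤ err k n := by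
  unfold err
  have : 0 ≤ Real.log ((k : ℝ) + 2) := Real.log_nonneg (by
    have : (0 : ℝ) ≤ k := Nat.cast_nonneg k
    linarith)
  positivity

theorem upper_bound : ∃ C : ℝ, 0 < C ∧ ∀ k n : ℕ, 1 ≤ n → ∀ Bs : Bars n, ∀ g : ℕ,
    (k : ℝ) * n + C * err k n ≤ 2 * g → GenusLE (Bs.graph k) g := by
  obtain ⟨C, hC, h⟩ := exists_param
  refine ⟨C, hC, fun k n hn Bs g hg => ?_⟩
  obtain ⟨q, hq, hle⟩ := h k n hn
  exact upper_all hn k q hq Bs g (hle.trans hg)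

theorem lower_bound (k n : ℕ) (hn : 1 ≤ n) : ∃ B : Bars n, ∀ g : ℕ, GenusLE (B.graph k) g →
    (k : ℝ) * n / 2 ≤ g + 2 * ((k : ℝ) + 1) ^ 2 := by
  by_cases h : n < 2 * (k + 1) + 1
  · obtain ⟨B⟩ := bars_nonempty n
    refine ⟨B, fun g _ => ?_⟩
    have h1 : (n : ℝ) ≤ 2 * (k + 1) := by exact_mod_cast Nat.lt_succ_iff.1 h
    have h2 : (0 : ℝ) ≤ k := Nat.cast_nonneg k
    have h3 : (0 : ℝ) ≤ g := Nat.cast_nonneg g
    nlinarith
  · push Not at h
    obtain ⟨t, rfl⟩ := Nat.exists_eq_add_of_le (show 2 * (k + 1) ≤ n by omega)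
    obtain ⟨B, hB⟩ := lower_bars k t
    refine ⟨B, fun g hg => ?_⟩
    have hc : Nat.card (Fin (2 * (k + 1) + t)) = 2 * (k + 1) + t := Nat.card_fin _
    have h3 := lower_euler (B.graph k) g hg (by rw [hc]; omega)
    rw [hc] at h3
    have h4 : (6 * (k + 1) * t : ℝ) ≤ 2 * Nat.card (B.graph k).edgeSet + (k + 1) * (k + 2) := by
      exact_mod_cast hB
    have h5 : (Nat.card (B.graph k).edgeSet : ℝ) + 6 ≤ 3 * (2 * (k + 1) + t : ℕ) + 6 * g := by
      exact_mod_cast h3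
    push_cast at h5 ⊢
    have h2 : (0 : ℝ) ≤ k := Nat.cast_nonneg k
    have h6 : (0 : ℝ) ≤ t := Nat.cast_nonneg t
    nlinarith

/-- **Main theorem.** Let `g_k(n)` be the largest genus of a bar `k`-visibility graph with `n`
vertices. Then `g_k(n) = k n / 2 + O(k^{2/3} log(k+2) n + (k+1)^2)`, with an absolute constant. -/
theorem main : ∃ C : ℝ, ∀ k n : ℕ, 1 ≤ n → ∃ g : ℕ, IsGreatest (genera k n) g ∧
    |(g : ℝ) - (k : ℝ) * n / 2| ≤ C * (((k : ℝ) + 1) ^ ((2 : ℝ) / 3) * Real.log ((k : ℝ) + 2) * n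
      + ((k : ℝ) + 1) ^ 2) := by
  obtain ⟨C, hC, hup⟩ := upper_bound
  refine ⟨C + 3, fun k n hn => ?_⟩
  change ∃ g : ℕ, IsGreatest (genera k n) g ∧ |(g : ℝ) - (k : ℝ) * n / 2| ≤ (C + 3) * err k n
  have herr := err_nonneg k n
  have herr1 : 1 ≤ err k n := by
    have : 0 ≤ Real.log ((k : ℝ) + 2) := Real.log_nonneg (by
      have : (0 : ℝ) ≤ k := Nat.cast_nonneg k
      linarith)
    have h2 : (0 : ℝ) ≤ k := Nat.cast_nonneg k
    have h3 : 0 ≤ ((k : ℝ) + 1) ^ ((2 : ℝ) / 3) * Real.log ((k : ℝ) + 2) * n := by positivity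
    unfold err
    nlinarith
  have herr2 : ((k : ℝ) + 1) ^ 2 ≤ err k n := by
    have : 0 ≤ Real.log ((k : ℝ) + 2) := Real.log_nonneg (by
      have : (0 : ℝ) ≤ k := Nat.cast_nonneg k
      linarith)
    have h3 : 0 ≤ ((k : ℝ) + 1) ^ ((2 : ℝ) / 3) * Real.log ((k : ℝ) + 2) * n := by positivity
    unfold err
    linarith
  -- a bound for all genera
  set M : ℕ := ⌈((k : ℝ) * n + C * err k n) / 2⌉₊ with hM
  have hM1 : (k : ℝ) * n + C * err k n ≤ 2 * M := by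
    have := Nat.le_ceil (((k : ℝ) * n + C * err k n) / 2)
    rw [← hM] at this
    linarith
  have hM2 : (M : ℝ) ≤ ((k : ℝ) * n + C * err k n) / 2 + 1 :=
    (Nat.ceil_lt_add_one (by positivity)).le
  have hle : ∀ Bs : Bars n, GenusLE (Bs.graph k) M := fun Bs => hup k n hn Bs M hM1
  have hbdd : ∀ g ∈ genera k n, g ≤ M := by
    rintro g ⟨Bs, rfl⟩
    exact Nat.sInf_le (hle Bs)
  have hne : (genera k n).Nonempty := by
    obtain ⟨B⟩ := bars_nonempty n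
    exact ⟨_, B, rfl⟩
  have hmem : sSup (genera k n) ∈ genera k n := Nat.sSup_mem hne ⟨M, hbdd⟩
  have hgr : IsGreatest (genera k n) (sSup (genera k n)) :=
    ⟨hmem, fun g hg => le_csSup ⟨M, hbdd⟩ hg⟩
  refine ⟨sSup (genera k n), hgr, ?_⟩
  have h1 : sSup (genera k n) ≤ M := hbdd _ hmem
  have h1' : ((sSup (genera k n) : ℕ) : ℝ) ≤ M := by exact_mod_cast h1
  obtain ⟨B, hB⟩ := lower_bound k n hn
  have h2 : GenusLE (B.graph k) (genus (B.graph k)) :=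
    Nat.sInf_mem (s := {g | GenusLE (B.graph k) g}) ⟨M, hle B⟩
  have h3 := hB _ h2
  have h4 : genus (B.graph k) ≤ sSup (genera k n) := hgr.2 ⟨B, rfl⟩
  have h4' : ((genus (B.graph k) : ℕ) : ℝ) ≤ (sSup (genera k n) : ℕ) := by exact_mod_cast h4
  rw [abs_le]
  constructor
  · nlinarith
  · nlinarith

end Pool.Agent.H20.BK
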